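import Pool.Agent.Y676.Tsm2

/-!
# TSM: the moduli with a small sum are rare
-/

set_option autoImplicit false

namespace Pool.Agent.Y676.Tsm

open Finset Pool.Agent.Y676 Filter

/-- polynomials against powers of two -/
theorem growth (K : ℝ) (k : ℕ) : ∃ n0 : ℕ, ∀ n : ℕ, n0 ≤ n → (n : ℝ) ^ k * K ≤ 2 ^ n := by
  have h := (tendsto_pow_const_div_const_pow_of_one_lt k (r := (2 : ℝ)) (by norm_num)).const_mul K
  rw [mul_zero] at h
  have h2 := h.eventually (gt_mem_nhds (show (0 : ℝ) < 1 by norm_num))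
  obtain ⟨n0, hn0⟩ := eventually_atTop.mp h2
  refine ⟨n0, fun n hn => ?_⟩
  have h3 := hn0 n hn
  have h4 : (0 : ℝ) < 2 ^ n := by positivity
  have h5 : K * ((n : ℝ) ^ k / 2 ^ n) = (n : ℝ) ^ k * K / 2 ^ n := by ring
  rw [h5, div_lt_one h4] at h3
  exact h3.le

open Classical in
theorem tsm : S_TSM := by
  intro W h8 hW
  obtain ⟨c, Q1, hc, hpnt⟩ := Pool.Agent.Y157.SH.pnt W hW
  obtain ⟨Q0, hswj⟩ := Pool.Agent.Y157.SH.swj W 60 2 h8 hW
  refine ⟨c / 32, by positivity, ?_⟩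
  obtain ⟨n1, hn1⟩ := growth (4 / c) 3
  obtain ⟨n2, hn2⟩ := growth 1 64
  set i0 := max (max n1 n2) (max (max Q0 Q1) (max 32 ⌈16 / c⌉₊)) with hi0
  have hpow : ∀ i : ℕ, i < 2 ^ i := fun i => Nat.lt_two_pow_self
  have hP : ∀ i : ℕ, i0 ≤ i → c * (2 ^ i / i) ≤ ((PQ W (2 ^ i)).card : ℝ) := by
    intro i hi
    have h1 : Q1 ≤ 2 ^ i := by have := hpow i; omega
    have h2 := hpnt (2 ^ i) h1
    push_cast at h2
    rw [Real.log_pow] at h2
    have h3 : 32 ≤ i := by omega
    have h4 : (0 : ℝ) < i := by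
      have : 0 < i := by omega
      exact_mod_cast this
    refine le_trans ?_ h2
    rw [mul_div_assoc]
    apply mul_le_mul_of_nonneg_left _ hc.le
    have h5 : (i : ℝ) * Real.log 2 ≤ i := by
      have := Real.log_two_lt_d9
      nlinarith
    have h6 : 0 < (i : ℝ) * Real.log 2 := by
      have := Real.log_two_gt_d9
      positivity
    exact div_le_div_of_nonneg_left (by positivity) h6 h5
  have hG : ∀ i : ℕ, i0 ≤ i → (i : ℝ) ^ 3 * (4 / c) ≤ 2 ^ i := fun i hi => hn1 i (by omega)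
  have hG2 : ∀ i : ℕ, i0 ≤ i → i ^ 64 ≤ 2 ^ i := by
    intro i hi
    have := hn2 i (by omega)
    rw [mul_one] at this
    exact_mod_cast this
  set N0 := max (i0 ^ 2) (max ⌈144 / c ^ 2⌉₊ 400) with hN0
  refine ⟨2 ^ N0, fun X hX => ?_⟩
  set N := Nat.log 2 X with hNdef
  have hX0 : X ≠ 0 := by
    have : 0 < 2 ^ N0 := by positivity
    omega
  have hX1 : 2 ^ N ≤ X := Nat.pow_log_le_self 2 hX0
  have hX2 : X < 2 ^ (N + 1) := Nat.lt_pow_succ_log_self (by norm_num) X
  have hNN : N0 ≤ N := by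
    rw [hNdef]
    exact (Nat.le_log_iff_pow_le (by norm_num) hX0).mpr hX
  have hN1 : i0 ^ 2 ≤ N := by omega
  have hN400 : 400 ≤ N := by omega
  have hNc : 144 / c ^ 2 ≤ (N : ℝ) := by
    have : ⌈144 / c ^ 2⌉₊ ≤ N := by omega
    exact le_trans (Nat.le_ceil _) (by exact_mod_cast this)
  have hNr : (400 : ℝ) ≤ N := by exact_mod_cast hN400
  -- the logarithm
  have hlog1 : Real.log X ≤ N := by
    have hXr : (X : ℝ) ≤ 2 ^ (N + 1) := by exact_mod_cast hX2.le
    have h1 : Real.log X ≤ Real.log ((2 : ℝ) ^ (N + 1)) :=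
      Real.log_le_log (by exact_mod_cast Nat.pos_of_ne_zero hX0) hXr
    rw [Real.log_pow] at h1
    push_cast at h1
    have := Real.log_two_lt_d9
    nlinarith
  have hlog0 : 1 < Real.log X := by
    have hXr : (2 : ℝ) ^ N ≤ X := by exact_mod_cast hX1
    have h1 : Real.log ((2 : ℝ) ^ N) ≤ Real.log X := Real.log_le_log (by positivity) hXr
    rw [Real.log_pow] at h1
    have := Real.log_two_gt_d9
    nlinarith
  set s := Nat.sqrt N + 1 with hs
  have hsN : N < s ^ 2 := by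
    rw [hs, sq]
    exact Nat.lt_succ_sqrt N
  have hsi : i0 ≤ s := by
    by_contra hcon
    push Not at hcon
    have : s ^ 2 ≤ i0 ^ 2 := Nat.pow_le_pow_left (by omega) 2
    omega
  set F := (Icc 2 X).filter (fun D => D ^ 2 ≤ X ∧ D.Coprime W ∧ Squarefree D ∧
    ∑ l ∈ LS W X D, (1 : ℝ) / l < c / 32 * Real.log (Real.log X)) with hF
  -- the properties of the elements of F
  have hFp : ∀ D ∈ F, 2 ≤ D ∧ D ^ 2 ≤ X ∧ Odd D ∧ Squarefree D ∧
      (∃ i ∈ Icc s N, Bd W c i D) ∧ N ^ 24 < D := by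
    intro D hD
    rw [hF, mem_filter, mem_Icc] at hD
    obtain ⟨⟨hD2, hDX⟩, hDsq, hDW, hDs, hsum⟩ := hD
    have hodd : Odd D := by
      rw [← Nat.not_even_iff_odd]
      intro he
      have h2D : 2 ∣ D := he.two_dvd
      have h2W : 2 ∣ W := Dvd.dvd.trans (by norm_num) h8
      have := Nat.dvd_gcd h2D h2W
      rw [hDW] at this
      omega
    have hex : ∃ i ∈ Icc s N, Bd W c i D := by
      by_contra hcon
      push Not at hcon
      have hgood := good W c hc i0 hP hG N hN1 (by omega) X D hX1 hX2 (by omega) hDX hcon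
      have h1 : Real.log (Real.log X) ≤ Real.log N := Real.log_le_log (by linarith) hlog1
      have h2 : c / 32 * Real.log (Real.log X) ≤ c / 32 * Real.log N :=
        mul_le_mul_of_nonneg_left h1 (by positivity)
      linarith
    refine ⟨hD2, hDsq, hodd, hDs, hex, ?_⟩
    by_contra hcon
    push Not at hcon
    obtain ⟨i, hi, hbd⟩ := hex
    rw [mem_Icc] at hi
    have hi1 : N ≤ i ^ 2 := le_trans hsN.le (Nat.pow_le_pow_left hi.1 2)
    refine small W c hc i N D (by omega) hi1 hcon ?_ ?_ hbd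
    · have : ⌈16 / c⌉₊ ≤ i := by omega
      exact le_trans (Nat.le_ceil _) (by exact_mod_cast this)
    · intro hDl
      have hQ : Q0 ≤ 2 ^ i := by have := hpow i; omega
      exact hswj (2 ^ i) hQ D hD2 hDl hodd hDs hDW
  -- the dyadic decomposition
  have hmaps : ∀ D ∈ F, Nat.log 16 D + 1 ∈ Icc 1 N := by
    intro D hD
    obtain ⟨h2, hsq, -⟩ := hFp D hD
    rw [mem_Icc]
    refine ⟨by omega, ?_⟩
    have h1 : 16 ^ Nat.log 16 D ≤ D := Nat.pow_log_le_self 16 (by omega)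
    have h3 : 2 ^ (4 * Nat.log 16 D) < 2 ^ (N + 1) := by
      calc 2 ^ (4 * Nat.log 16 D) = 16 ^ Nat.log 16 D := by rw [pow_mul]; norm_num
        _ ≤ D := h1
        _ ≤ X := by nlinarith
        _ < 2 ^ (N + 1) := hX2
    have h4 := (Nat.pow_lt_pow_iff_right (by norm_num : 1 < 2)).mp h3
    omega
  have hmain : ∑ D ∈ F, (1 : ℝ) / D ≤ ∑ y ∈ Icc 1 N, 16 / (N : ℝ) ^ 12 := by
    rw [← sum_fiberwise_of_maps_to hmaps]
    refine sum_le_sum fun y hy => ?_
    rw [mem_Icc] at hy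
    rcases (F.filter (fun D => Nat.log 16 D + 1 = y)).eq_empty_or_nonempty with he | ⟨D0, hD0⟩
    · rw [he, sum_empty]; positivity
    rw [mem_filter] at hD0
    have hy6 : N ^ 6 < 2 ^ y := by
      obtain ⟨h2, _, _, _, _, hbig⟩ := hFp D0 hD0.1
      have h3 : D0 < 16 ^ y := by
        rw [← hD0.2]
        exact Nat.lt_pow_succ_log_self (by norm_num) D0
      have h4 : (N ^ 6) ^ 4 < (2 ^ y) ^ 4 := by
        calc (N ^ 6) ^ 4 = N ^ 24 := by rw [← pow_mul]
          _ < D0 := hbig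
          _ < 16 ^ y := h3
          _ = (2 ^ y) ^ 4 := by rw [← pow_mul, mul_comm, pow_mul]; norm_num
      exact (Nat.pow_lt_pow_iff_left (by norm_num)).mp h4
    have hcard : ((F.filter (fun D => Nat.log 16 D + 1 = y)).card : ℝ) ≤ 2 ^ y * 2 ^ y := by
      have hsub : F.filter (fun D => Nat.log 16 D + 1 = y) ⊆ (Icc s N).biUnion (fun i =>
          (Icc 1 (16 ^ y)).filter (fun D => Odd D ∧ Squarefree D ∧ Bd W c i D)) := by
        intro D hD
        rw [mem_filter] at hD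
        obtain ⟨h2, _, hodd, hsf, ⟨i, hi, hbd⟩, _⟩ := hFp D hD.1
        rw [mem_biUnion]
        refine ⟨i, hi, ?_⟩
        rw [mem_filter, mem_Icc]
        refine ⟨⟨by omega, ?_⟩, hodd, hsf, hbd⟩
        rw [← hD.2]
        exact (Nat.lt_pow_succ_log_self (by norm_num) D).le
      have h1 : ((F.filter (fun D => Nat.log 16 D + 1 = y)).card : ℝ) ≤
          ∑ i ∈ Icc s N, (390 * (N : ℝ) ^ 4 * 2 ^ y) := by
        calc ((F.filter (fun D => Nat.log 16 D + 1 = y)).card : ℝ) ≤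
            ((((Icc s N).biUnion (fun i =>
              (Icc 1 (16 ^ y)).filter (fun D => Odd D ∧ Squarefree D ∧ Bd W c i D))).card : ℕ) : ℝ) := by
              exact_mod_cast card_le_card hsub
          _ ≤ ((∑ i ∈ Icc s N,
              ((Icc 1 (16 ^ y)).filter (fun D => Odd D ∧ Squarefree D ∧ Bd W c i D)).card : ℕ) : ℝ) := by
              exact_mod_cast card_biUnion_le
          _ = ∑ i ∈ Icc s N,
              (((Icc 1 (16 ^ y)).filter (fun D => Odd D ∧ Squarefree D ∧ Bd W c i D)).card : ℝ) := by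
              push_cast; rfl
          _ ≤ _ := by
              refine sum_le_sum fun i hi => ?_
              rw [mem_Icc] at hi
              have hi1 : N ≤ i ^ 2 := le_trans hsN.le (Nat.pow_le_pow_left hi.1 2)
              refine count W h8 hW c hc N i y (by omega) hi.2 hy.2 hi1 hNc ?_ hy.1
              calc N ^ 32 ≤ (i ^ 2) ^ 32 := Nat.pow_le_pow_left hi1 _
                _ = i ^ 64 := by rw [← pow_mul]
                _ ≤ 2 ^ i := hG2 i (by omega)
      refine le_trans h1 ?_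
      rw [sum_const, nsmul_eq_mul]
      have h2 : ((Icc s N).card : ℝ) ≤ N := by
        have : (Icc s N).card ≤ N := by rw [Nat.card_Icc]; omega
        exact_mod_cast this
      have h3 : (N : ℝ) ^ 6 ≤ 2 ^ y := by exact_mod_cast hy6.le
      calc ((Icc s N).card : ℝ) * (390 * (N : ℝ) ^ 4 * 2 ^ y) ≤ N * (390 * (N : ℝ) ^ 4 * 2 ^ y) := by
            gcongr
        _ = 390 * (N : ℝ) ^ 5 * 2 ^ y := by ring
        _ ≤ N * (N : ℝ) ^ 5 * 2 ^ y := by gcongr; linarith
        _ = (N : ℝ) ^ 6 * 2 ^ y := by ring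
        _ ≤ 2 ^ y * 2 ^ y := by gcongr
    have hterm : ∀ D ∈ F.filter (fun D => Nat.log 16 D + 1 = y), (1 : ℝ) / D ≤ 16 / 16 ^ y := by
      intro D hD
      rw [mem_filter] at hD
      obtain ⟨h2, -⟩ := hFp D hD.1
      have h1 : 16 ^ Nat.log 16 D ≤ D := Nat.pow_log_le_self 16 (by omega)
      have h3 : 16 ^ y ≤ 16 * D := by
        rw [← hD.2, pow_succ]; omega
      have h4 : ((16 : ℝ)) ^ y ≤ 16 * D := by exact_mod_cast h3
      have hD0 : (0 : ℝ) < D := by
        have : 0 < D := by omega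
        exact_mod_cast this
      rw [div_le_div_iff₀ hD0 (by positivity)]
      linarith
    calc ∑ D ∈ F.filter (fun D => Nat.log 16 D + 1 = y), (1 : ℝ) / D
        ≤ ∑ D ∈ F.filter (fun D => Nat.log 16 D + 1 = y), (16 : ℝ) / 16 ^ y := sum_le_sum hterm
      _ = ((F.filter (fun D => Nat.log 16 D + 1 = y)).card : ℝ) * (16 / 16 ^ y) := by
          rw [sum_const, nsmul_eq_mul]
      _ ≤ (2 ^ y * 2 ^ y) * (16 / 16 ^ y) := by gcongr
      _ = 16 / (2 ^ y) ^ 2 := by
          have : (16 : ℝ) ^ y = (2 ^ y) ^ 4 := by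
            rw [← pow_mul, mul_comm, pow_mul]; norm_num
          rw [this]
          field_simp
      _ ≤ 16 / (N : ℝ) ^ 12 := by
          have h3 : (N : ℝ) ^ 6 ≤ 2 ^ y := by exact_mod_cast hy6.le
          have h4 : (N : ℝ) ^ 12 ≤ (2 ^ y) ^ 2 := by
            calc (N : ℝ) ^ 12 = ((N : ℝ) ^ 6) ^ 2 := by rw [← pow_mul]
              _ ≤ _ := by gcongr
          apply div_le_div_of_nonneg_left (by norm_num) (by positivity) h4
  refine le_trans hmain ?_
  rw [sum_const, nsmul_eq_mul, Nat.card_Icc]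
  have hN0' : (0 : ℝ) < N := by linarith
  have h1 : (((N + 1 - 1 : ℕ)) : ℝ) * (16 / (N : ℝ) ^ 12) ≤ 1 / (N : ℝ) ^ 2 := by
    rw [Nat.add_sub_cancel]
    rw [← mul_div_assoc, div_le_div_iff₀ (by positivity) (by positivity)]
    have e : (N : ℝ) * 16 * N ^ 2 = 16 * N ^ 3 := by ring
    rw [e, one_mul]
    calc 16 * (N : ℝ) ^ 3 ≤ (N : ℝ) * N ^ 3 := by gcongr; linarith
      _ = (N : ℝ) ^ 4 := by ring
      _ ≤ (N : ℝ) ^ 12 := pow_le_pow_right₀ (by linarith) (by norm_num)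
  refine le_trans h1 ?_
  apply div_le_div_of_nonneg_left (by norm_num) (by positivity)
  exact pow_le_pow_left₀ (by linarith) hlog1 2

end Pool.Agent.Y676.Tsm
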