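import Pool.Agent.Y676.Defs
import Pool.Agent.W513.FK.Parf
import Pool.Agent.W410.FK.FINH
import Pool.Agent.W672.FK.Lowf

/-!
# The curves with full rational 2-torsion by the differences of the roots
-/

set_option autoImplicit false

namespace Pool.Agent.Y676

open Finset
open Pool.Agent.W307.RT (Cv HasT Sh LOW)

/-- the roots -/
structure PR3 (c : ℤ × ℤ) (e : ℤ × ℤ × ℤ) : Prop where
  rt : ∀ x : ℤ, x ^ 3 + c.1 * x + c.2 = (x - e.1) * (x - e.2.1) * (x - e.2.2)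
  n1 : e.2.1 - e.1 ≠ 0
  n2 : e.2.2 - e.1 ≠ 0
  n3 : e.2.1 - e.1 ≠ e.2.2 - e.1

lemma exists_pr {H : ℕ} {c : ℤ × ℤ} (hc : c ∈ Cv 2 H) : ∃ e, PR3 c e := by
  classical
  obtain ⟨F, -, hF⟩ := Pool.Agent.W513.FK.parf
  unfold Cv at hc
  obtain ⟨_, a1, a2, _, _, a3⟩ := mem_filter.1 hc
  obtain ⟨b1, b2, b3, b4, b5, e1, e2, e3, hr, d1, d2⟩ := hF c a1 a3
  have hg : ((F c).1 : ℤ) ≠ 0 := by exact_mod_cast (by omega : (F c).1 ≠ 0)
  refine ⟨(e1, e2, e3), hr, ?_, ?_, ?_⟩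
  · change e2 - e1 ≠ 0
    rw [d1]
    exact mul_ne_zero hg b3
  · change e3 - e1 ≠ 0
    rw [d2]
    exact mul_ne_zero hg b4
  · change e2 - e1 ≠ e3 - e1
    rw [d1, d2]
    exact fun h => b5 (mul_left_cancel₀ hg h)

open Classical in
/-- a choice of the roots -/
noncomputable def EE (c : ℤ × ℤ) : ℤ × ℤ × ℤ := if h : ∃ e, PR3 c e then h.choose else (0, 0, 0)

/-- the differences of the roots -/
noncomputable def Ab (c : ℤ × ℤ) : ℤ × ℤ := ((EE c).2.1 - (EE c).1, (EE c).2.2 - (EE c).1)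

lemma pr_EE {H : ℕ} {c : ℤ × ℤ} (hc : c ∈ Cv 2 H) : PR3 c (EE c) := by
  have h := exists_pr hc
  unfold EE
  rw [dif_pos h]
  exact h.choose_spec

lemma coef {c : ℤ × ℤ} {e : ℤ × ℤ × ℤ} (h : PR3 c e) : e.1 + e.2.1 + e.2.2 = 0 ∧
    c.1 = e.1 * e.2.1 + e.1 * e.2.2 + e.2.1 * e.2.2 ∧ c.2 = -(e.1 * e.2.1 * e.2.2) := by
  have h0 := h.rt 0
  have h1 := h.rt 1
  have h2 := h.rt (-1)
  have h3 : e.1 + e.2.1 + e.2.2 = 0 := by linarith
  exact ⟨h3, by linarith, by linarith⟩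

lemma Ab_inj {c c' : ℤ × ℤ} (h : PR3 c (EE c)) (h' : PR3 c' (EE c')) (he : Ab c = Ab c') :
    c = c' := by
  obtain ⟨a1, a2, a3⟩ := coef h
  obtain ⟨b1, b2, b3⟩ := coef h'
  unfold Ab at he
  rw [Prod.mk.injEq] at he
  obtain ⟨k1, k2⟩ := he
  have e1 : (EE c).1 = (EE c').1 := by linarith
  have e2 : (EE c).2.1 = (EE c').2.1 := by linarith
  have e3 : (EE c).2.2 = (EE c').2.2 := by linarith
  refine Prod.ext ?_ ?_
  · rw [a2, b2, e1, e2, e3]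
  · rw [a3, b3, e1, e2, e3]

/-- the size -/
theorem size : ∃ K : ℝ, 0 ≤ K ∧ ∀ T1 : ℕ, ∃ H0 : ℕ, ∀ H : ℕ, H0 ≤ H → ∃ T : ℕ, T1 ≤ T ∧ T ≤ H ∧
    (∀ c ∈ Cv 2 H, Ab c ∈ Bx T) ∧ (T : ℝ) ^ 2 ≤ K * (Cv 2 H).card := by
  classical
  obtain ⟨c, C1, T0, hc, hlow⟩ := Pool.Agent.W672.FK.lowf
  set D := 16 * C1 + 1 with hD
  have hD1 : 1 ≤ D := by omega
  refine ⟨(2 * (D : ℝ)) ^ 2 / c, by positivity, fun T1 => ?_⟩
  refine ⟨(T1 + 16 + D * (T0 + 1)) ^ 6, fun H hH => ?_⟩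
  set T := Nat.findGreatest (fun t => t ^ 6 ≤ 16 * H) (16 * H) with hT
  have hle : ∀ x : ℕ, x ^ 6 ≤ 16 * H → x ≤ T := by
    intro x hx
    apply Nat.le_findGreatest
    · exact (Nat.le_self_pow (by omega) x).trans hx
    · exact hx
  have hTk : T ^ 6 ≤ 16 * H := by
    have : (fun t => t ^ 6 ≤ 16 * H) T :=
      Nat.findGreatest_spec (P := fun t => t ^ 6 ≤ 16 * H) (Nat.zero_le _)
        (by rw [zero_pow (by omega)]; exact Nat.zero_le _)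
    exact this
  have hT2 : T1 + 16 + D * (T0 + 1) ≤ T := hle _ (by omega)
  have hTH : T ≤ H := by
    have h1 : 16 * T ≤ T ^ 6 := by
      have h2 : 16 ≤ T ^ 5 := by
        calc 16 ≤ T := by omega
          _ ≤ T ^ 5 := Nat.le_self_pow (by omega) T
      calc 16 * T ≤ T ^ 5 * T := Nat.mul_le_mul_right _ h2
        _ = T ^ 6 := by ring
    omega
  refine ⟨T, by omega, hTH, ?_, ?_⟩
  · intro x hx
    have hp := pr_EE hx
    unfold Cv at hx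
    obtain ⟨_, a1, a2, _, _, a3⟩ := mem_filter.1 hx
    obtain ⟨r1, r2⟩ := Pool.Agent.W410.FK.root_bd hp.rt
    have s1 := hle _ (Pool.Agent.W410.FK.size_bd r1 a2)
    have s2 := hle _ (Pool.Agent.W410.FK.size_bd r2 a2)
    unfold Bx Ab
    rw [mem_filter, mem_product, mem_Icc, mem_Icc]
    refine ⟨⟨⟨?_, ?_⟩, ?_, ?_⟩, hp.n1, hp.n2, hp.n3⟩
    · change -(T : ℤ) ≤ (EE x).2.1 - (EE x).1
      omega
    · change (EE x).2.1 - (EE x).1 ≤ (T : ℤ)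
      omega
    · change -(T : ℤ) ≤ (EE x).2.2 - (EE x).1
      omega
    · change (EE x).2.2 - (EE x).1 ≤ (T : ℤ)
      omega
  · set T' := T / D with hT'
    have hT'0 : T0 + 1 ≤ T' := by
      rw [hT', Nat.le_div_iff_mul_le hD1, mul_comm]
      omega
    have h2 : T' * D ≤ T := Nat.div_mul_le_self T D
    have h3 : C1 * T' ^ 6 ≤ H := by
      have a1 : (T' * D) ^ 6 ≤ 16 * H := (Nat.pow_le_pow_left h2 6).trans hTk
      rw [mul_pow] at a1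
      have a2 : D ≤ D ^ 6 := Nat.le_self_pow (by omega) D
      have a3 : T' ^ 6 * (16 * C1) ≤ 16 * H :=
        (Nat.mul_le_mul_left _ (by omega : 16 * C1 ≤ D ^ 6)).trans a1
      nlinarith
    have h4 := hlow T' H (by omega) h3
    have h5 : T ≤ 2 * D * T' := by
      have a1 : T < D * (T' + 1) := by
        rw [mul_comm]
        exact Nat.lt_mul_of_div_lt (by rw [← hT']; omega) hD1
      have a2 : D * (T' + 1) ≤ 2 * D * T' := by nlinarith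
      omega
    have h6 : (T : ℝ) ≤ 2 * D * T' := by exact_mod_cast h5
    calc (T : ℝ) ^ 2 ≤ (2 * D * T') ^ 2 := pow_le_pow_left₀ (Nat.cast_nonneg T) h6 2
      _ = (2 * (D : ℝ)) ^ 2 / c * (c * (T' : ℝ) ^ 2) := by
        field_simp
      _ ≤ (2 * (D : ℝ)) ^ 2 / c * (Cv 2 H).card := mul_le_mul_of_nonneg_left h4 (by positivity)

end Pool.Agent.Y676
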