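import Pool.Agent.Y676.GQ
import Pool.Agent.Y676.Par

/-!
# Almost all tuples of curves have tiny prime twists with trivial 2-primary Tate-Shafarevich group
-/

set_option autoImplicit false

namespace Pool.Agent.Y676

open Finset
open Pool.Agent.W307.RT (Cv HasT Sh LOW)
open Pool.Agent.TH841.SH.D (ShaTor rk)

variable {k : ℕ}

/-- the twist by `q` has rank 0 and trivial 2-primary Tate-Shafarevich group -/
def Triv (q : ℤ) (c : ℤ × ℤ) : Prop := rk (Sh (q ^ 2 * c.1) (q ^ 3 * c.2)) = 0 ∧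
  ∀ j : ℕ, Subsingleton (ShaTor (Sh (q ^ 2 * c.1) (q ^ 3 * c.2)) (2 ^ j))

open Classical in
/-- the primes such that all the twists are trivial -/
noncomputable def TQ (Q : ℕ) (c : Fin k → ℤ × ℤ) : Finset ℕ :=
  (Icc 1 Q).filter (fun q => q.Prime ∧ ∀ i, Triv q (c i))

/-- the tuples of the curves -/
noncomputable def CT (k H : ℕ) : Finset (Fin k → ℤ × ℤ) :=
  Fintype.piFinset (fun _ : Fin k => Cv 2 H)

open Classical in
/-- from the boxes to the curves -/
lemma transfer (k : ℕ) : ∃ K : ℝ, 0 ≤ K ∧ ∀ T1 : ℕ, ∃ H0 : ℕ, ∀ H : ℕ, H0 ≤ H → ∃ T : ℕ,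
    T1 ≤ T ∧ T ≤ H ∧ (∀ c ∈ CT k H, (fun i => Ab (c i)) ∈ TB k T) ∧
    ∀ (δ : ℝ), 0 ≤ δ → ∀ (p : (Fin k → ℤ × ℤ) → Prop) [DecidablePred p],
      (((TB k T).filter p).card : ℝ) ≤ δ * (T : ℝ) ^ (2 * k) →
      (((CT k H).filter (fun c => p (fun i => Ab (c i)))).card : ℝ) ≤
        δ * K * ((Cv 2 H).card : ℝ) ^ k := by
  obtain ⟨K, hK, h⟩ := size
  refine ⟨K ^ k, by positivity, fun T1 => ?_⟩
  obtain ⟨H0, h1⟩ := h T1
  refine ⟨H0, fun H hH => ?_⟩
  obtain ⟨T, a1, a2, a3, a4⟩ := h1 H hH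
  have hm : ∀ c ∈ CT k H, (fun i => Ab (c i)) ∈ TB k T := by
    intro c hc
    unfold CT at hc
    rw [Fintype.mem_piFinset] at hc
    rw [mem_TB]
    exact fun i => a3 _ (hc i)
  refine ⟨T, a1, a2, hm, fun δ hδ p _ hp => ?_⟩
  have h2 : ((CT k H).filter (fun c => p (fun i => Ab (c i)))).card ≤ ((TB k T).filter p).card := by
    apply card_le_card_of_injOn (fun c i => Ab (c i))
    · intro c hc
      rw [mem_coe, mem_filter] at hc
      rw [mem_coe, mem_filter]
      exact ⟨hm c hc.1, hc.2⟩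
    · intro c hc c' hc' he
      rw [mem_coe, mem_filter] at hc hc'
      unfold CT at hc hc'
      rw [Fintype.mem_piFinset] at hc hc'
      funext i
      exact Ab_inj (pr_EE (hc.1 i)) (pr_EE (hc'.1 i)) (congrFun he i)
  have h3 : (((CT k H).filter (fun c => p (fun i => Ab (c i)))).card : ℝ) ≤
      (((TB k T).filter p).card : ℝ) := by exact_mod_cast h2
  refine h3.trans (hp.trans ?_)
  have h4 : (T : ℝ) ^ (2 * k) ≤ (K * (Cv 2 H).card) ^ k := by
    rw [pow_mul]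
    exact pow_le_pow_left₀ (by positivity) a4 k
  calc δ * (T : ℝ) ^ (2 * k) ≤ δ * (K * (Cv 2 H).card) ^ k := mul_le_mul_of_nonneg_left h4 hδ
    _ = _ := by rw [mul_pow]; ring

open Classical in
theorem mainA (k : ℕ) (ε : ℝ) (hε : 0 < ε) : ∃ H0 : ℕ, ∀ H : ℕ, H0 ≤ H → ∀ Q : ℕ,
    (Real.log H) ^ (CE k) ≤ Q →
    (((CT k H).filter (fun c => ¬ (Q : ℝ) / (Real.log Q * (Real.log H) ^ (CE k)) ≤
      ((TQ Q c).card : ℝ))).card : ℝ) ≤ ε * ((Cv 2 H).card : ℝ) ^ k := by
  obtain ⟨K, hK, hT⟩ := transfer k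
  obtain ⟨Y, hY2, X0, hX0⟩ := box_main k (ε / (K + 1)) (by positivity)
  have hW0 : 0 < WY Y := by unfold WY; have := Nat.factorial_pos Y; positivity
  obtain ⟨c', Q0, hc', hpnt⟩ := Pool.Agent.Y157.SH.pnt (WY Y) hW0
  have tL : Filter.Tendsto (fun X : ℕ => Real.log (X : ℝ)) Filter.atTop Filter.atTop :=
    Real.tendsto_log_atTop.comp tendsto_natCast_atTop_atTop
  obtain ⟨H1, hH1⟩ := Filter.eventually_atTop.1 ((tL.eventually_ge_atTop 1).and
    ((tL.eventually_ge_atTop (2 / c')).and ((tL.eventually_ge_atTop (Q0 + 2)))))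
  obtain ⟨H2, hH2⟩ := hT (X0 + 2)
  refine ⟨H1 + H2, fun H hH Q hQ => ?_⟩
  obtain ⟨b1, b2, b3⟩ := hH1 H (by omega)
  obtain ⟨T, a1, a2, a3, a4⟩ := hH2 H (by omega)
  have hT0 : (0 : ℝ) < T := by exact_mod_cast (by omega : 0 < T)
  have hlogTH : Real.log T ≤ Real.log H := Real.log_le_log hT0 (by exact_mod_cast a2)
  have hlogT0 : 0 ≤ Real.log T := Real.log_nonneg (by exact_mod_cast (by omega : 1 ≤ T))
  have hQT : (Real.log T) ^ (CE k) ≤ 2 * Q := by
    have h1 : (Real.log T) ^ (CE k) ≤ (Real.log H) ^ (CE k) := pow_le_pow_left₀ hlogT0 hlogTH _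
    have h2 : (0 : ℝ) ≤ Q := Nat.cast_nonneg _
    linarith
  have hQQ : ((Q0 : ℝ) + 2) ≤ Q := by
    have e1 : Real.log H ≤ (Real.log H) ^ (CE k) := le_self_pow₀ b1 (by unfold CE; omega)
    linarith
  have hQ0 : Q0 ≤ Q := by
    have : (Q0 : ℝ) ≤ Q := by linarith
    exact_mod_cast this
  have hlQ : 0 < Real.log Q := by
    apply Real.log_pos
    have : (0 : ℝ) ≤ Q0 := Nat.cast_nonneg _
    linarith
  have h5 := a4 (ε / (K + 1)) (by positivity) _ (hX0 T (by omega) Q hQT)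
  have h6 : (((CT k H).filter (fun c => ¬ (Q : ℝ) / (Real.log Q * (Real.log H) ^ (CE k)) ≤
      ((TQ Q c).card : ℝ))).card : ℝ) ≤
      (((CT k H).filter (fun c => ¬ GT Y T Q (fun i => Ab (c i)))).card : ℝ) := by
    have : (CT k H).filter (fun c => ¬ (Q : ℝ) / (Real.log Q * (Real.log H) ^ (CE k)) ≤
      ((TQ Q c).card : ℝ)) ⊆ (CT k H).filter (fun c => ¬ GT Y T Q (fun i => Ab (c i))) := by
      intro c hc
      rw [mem_filter] at hc ⊢
      refine ⟨hc.1, fun hG => hc.2 ?_⟩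
      obtain ⟨s, S, s1, s2, s3⟩ := many_good hY2 (a3 c hc.1) hG
      have hsub : S ⊆ TQ Q c := by
        intro q hq
        obtain ⟨hqp, q1, q2⟩ := s2 q hq
        have hc1 := hc.1
        unfold CT at hc1
        rw [Fintype.mem_piFinset] at hc1
        unfold TQ
        rw [mem_filter, mem_Icc]
        refine ⟨⟨hqp.one_lt.le, q1⟩, hqp, fun i => ?_⟩
        have hp := pr_EE (hc1 i)
        exact tw_one hp.rt hY2 (hG.ty1 i) (s1 i) (q2 i)
      have h7 : (S.card : ℝ) ≤ ((TQ Q c).card : ℝ) := by exact_mod_cast card_le_card hsub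
      refine le_trans ?_ h7
      have h8 := hpnt Q hQ0
      rw [div_le_iff₀ (by positivity)]
      rw [div_le_iff₀ hlQ] at h8
      have h9 : (Real.log T) ^ (6 * k) ≤ (Real.log H) ^ (6 * k) := pow_le_pow_left₀ hlogT0 hlogTH _
      have h10 : (Real.log H) ^ (6 * k + 1) ≤ (Real.log H) ^ (CE k) :=
        pow_le_pow_right₀ b1 (by unfold CE; omega)
      rw [div_le_iff₀ hc'] at b2
      have h11 : 2 * (Real.log T) ^ (6 * k) ≤ c' * (Real.log H) ^ (CE k) := by
        calc 2 * (Real.log T) ^ (6 * k) ≤ 2 * (Real.log H) ^ (6 * k) := by linarith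
          _ ≤ (Real.log H * c') * (Real.log H) ^ (6 * k) := by gcongr
          _ = c' * (Real.log H) ^ (6 * k + 1) := by ring
          _ ≤ _ := mul_le_mul_of_nonneg_left h10 hc'.le
      have hS0 : (0 : ℝ) ≤ S.card := Nat.cast_nonneg _
      have h12 : c' * Q ≤ (2 * (Real.log T) ^ (6 * k) * S.card) * Real.log Q := by
        refine h8.trans (mul_le_mul_of_nonneg_right ?_ hlQ.le)
        linarith
      have h13 : (2 * (Real.log T) ^ (6 * k) * S.card) * Real.log Q ≤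
          (c' * (Real.log H) ^ (CE k) * S.card) * Real.log Q := by gcongr
      have h14 : c' * (Q : ℝ) ≤ c' * (S.card * (Real.log Q * (Real.log H) ^ (CE k))) := by
        refine (h12.trans h13).trans (le_of_eq ?_)
        ring
      exact le_of_mul_le_mul_left h14 hc'
    exact_mod_cast card_le_card this
  refine h6.trans (h5.trans ?_)
  apply mul_le_mul_of_nonneg_right _ (by positivity)
  rw [div_mul_eq_mul_div, div_le_iff₀ (by positivity)]
  nlinarith

end Pool.Agent.Y676
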