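import Pool.Agent.Y676.Pos2
import Pool.Agent.Y676.MainA

/-!
# A positive proportion of the small prime twists, for almost all tuples of curves
-/

set_option autoImplicit false

namespace Pool.Agent.Y676

open Finset
open Pool.Agent.W307.RT (Cv HasT Sh LOW)
open Pool.Agent.TH841.SH.D (ShaTor rk)

variable {k : ℕ}

/-- the good patterns of a tuple -/
noncomputable def GP (Y : ℕ) (t : Fin k → ℤ × ℤ) : Finset (Fin k → Finset ℕ) :=
  Fintype.piFinset (fun i => (PN Y (t i)).powerset.filter (fun T => (SS1 Y (t i) T).ncard = 1))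

lemma GP_card {Y X Q : ℕ} {c : ℝ} (hc : 0 < c) {t : Fin k → ℤ × ℤ} (ht : t ∈ TB k X)
    (hG : GT Y X Q t) (hP : ∀ i, Pst Y c (t i)) :
    c ^ k * 2 ^ (PP Y t).card ≤ ((GP Y t).card : ℝ) := by
  classical
  unfold GP
  rw [Fintype.card_piFinset, Nat.cast_prod]
  have h1 : ∏ i : Fin k, c * 2 ^ (PN Y (t i)).card ≤
      ∏ i : Fin k, (((PN Y (t i)).powerset.filter (fun T => (SS1 Y (t i) T).ncard = 1)).card : ℝ) :=
    prod_le_prod (fun _ _ => by positivity) fun i _ => hP i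
  refine le_trans ?_ h1
  rw [prod_mul_distrib, prod_const, card_univ, Fintype.card_fin, prod_pow_eq_pow_sum]
  apply mul_le_mul_of_nonneg_left _ (by positivity)
  apply pow_le_pow_right₀ (by norm_num)
  have hsub : PP Y t ⊆ univ.biUnion (fun i => PN Y (t i)) := by
    intro l hl
    have hlp := PP_prime l hl
    obtain ⟨i, -, hi⟩ := (hlp.prime.dvd_finsetProd_iff _).1 (PP_dvd l hl)
    rw [mem_biUnion]
    exact ⟨i, mem_univ _, (mem_PN (Nn_ne (mem_TB.1 ht i))).2 ⟨hlp, PP_gt l hl, dvd_Nn.1 hi⟩⟩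
  exact (card_le_card hsub).trans card_biUnion_le

/-- **A positive proportion of the primes is good.** -/
theorem many_good2 {X Y Q : ℕ} {c : ℝ} (hc : 0 < c) {t : Fin k → ℤ × ℤ} (ht : t ∈ TB k X)
    (hG : GT Y X Q t) (hP : ∀ i, Pst Y c (t i)) : ∃ S : Finset ℕ,
      (∀ q ∈ S, q.Prime ∧ q ≤ Q ∧ ∀ i, ∃ s : ℕ → Bool,
        (∀ e, InS Y (t i).1 (t i).2 s e → e = (1, 1)) ∧ GoodQ Y (t i).1 (t i).2 s q) ∧
      c ^ k / 2 * (PQ (WY Y) Q).card ≤ (S.card : ℝ) := by
  classical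
  have ht' := mem_TB.1 ht
  set F : (Fin k → Finset ℕ) → Finset ℕ := fun T =>
    PAT (WY Y) Q (PP Y t) (kk t (fun i => sT (T i))) with hF
  refine ⟨(GP Y t).biUnion F, ?_, ?_⟩
  · intro q hq
    rw [mem_biUnion] at hq
    obtain ⟨T, hT, hq⟩ := hq
    have hq' := hq
    rw [hF] at hq'
    change q ∈ PAT (WY Y) Q (PP Y t) (kk t (fun i => sT (T i))) at hq'
    unfold PAT PQ at hq'
    rw [mem_filter, mem_filter, mem_Icc] at hq'
    refine ⟨hq'.1.2.1, hq'.1.1.2, fun i => ⟨sT (T i), ?_, goodq_of ht hG _ hq i⟩⟩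
    intro e he
    unfold GP at hT
    rw [Fintype.mem_piFinset] at hT
    exact SS1_one (mem_filter.1 (hT i)).2 he
  · have hdisj : Set.PairwiseDisjoint (GP Y t : Set (Fin k → Finset ℕ)) F := by
      intro T hT T' hT' hne
      rw [Function.onFun, Finset.disjoint_left]
      intro q hq hq'
      apply hne
      unfold GP at hT hT'
      rw [mem_coe, Fintype.mem_piFinset] at hT hT'
      funext i
      have g1 := goodq_of ht hG _ hq i
      have g2 := goodq_of ht hG _ hq' i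
      have s1 := mem_powerset.1 (mem_filter.1 (hT i)).1
      have s2 := mem_powerset.1 (mem_filter.1 (hT' i)).1
      ext l
      by_cases hl : l ∈ PN Y (t i)
      · have hl' := (mem_PN (Nn_ne (ht' i))).1 hl
        have e1 := g1.sg l hl'.1 hl'.2.1 hl'.2.2
        have e2 := g2.sg l hl'.1 hl'.2.1 hl'.2.2
        rw [e1] at e2
        change decide (l ∈ T i) = decide (l ∈ T' i) at e2
        rw [decide_eq_decide] at e2
        exact e2
      · exact ⟨fun h => absurd (s1 h) hl, fun h => absurd (s2 h) hl⟩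
    rw [card_biUnion hdisj, Nat.cast_sum]
    have h1 : ∀ T ∈ GP Y t, ((PQ (WY Y) Q).card : ℝ) / 2 / 2 ^ (PP Y t).card ≤ ((F T).card : ℝ) := by
      intro T _
      rw [div_le_iff₀ (by positivity), mul_comm]
      exact hG.pat _ (kk_pm hG _)
    have h2 := sum_le_sum h1
    rw [sum_const, nsmul_eq_mul] at h2
    refine le_trans ?_ h2
    have h3 := GP_card hc ht hG hP
    have h4 : (0 : ℝ) ≤ ((PQ (WY Y) Q).card : ℝ) / 2 / 2 ^ (PP Y t).card := by positivity
    refine le_trans (le_of_eq ?_) (mul_le_mul_of_nonneg_right h3 h4)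
    have h5 : (2 : ℝ) ^ (PP Y t).card ≠ 0 := by positivity
    field_simp

open Classical in
theorem mainB (hkey : S_KEY) (hmom : S_MOM) (k : ℕ) (ε : ℝ) (hε : 0 < ε) : ∃ c : ℝ, 0 < c ∧
    ∃ H0 : ℕ, ∀ H : ℕ, H0 ≤ H → ∀ Q : ℕ, (Real.log H) ^ (CE k) ≤ Q →
    (((CT k H).filter (fun x => ¬ c * Q / Real.log Q ≤ ((TQ Q x).card : ℝ))).card : ℝ) ≤
      ε * ((Cv 2 H).card : ℝ) ^ k := by
  obtain ⟨K, hK, hT⟩ := transfer k
  obtain ⟨δ, hδ⟩ : ∃ δ : ℝ, δ = ε / (2 * (K + 1)) := ⟨_, rfl⟩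
  have hδ0 : 0 < δ := by rw [hδ]; positivity
  obtain ⟨Y1, hY12, hY1⟩ := box_all k δ hδ0
  obtain ⟨Y2, hY22, hY2⟩ := pos_count hkey hmom (δ / ((k + 1) * 9 ^ k)) (by positivity)
  obtain ⟨Y, hY⟩ : ∃ Y : ℕ, Y = max Y1 Y2 := ⟨_, rfl⟩
  have hYge : 2 ≤ Y := by rw [hY]; exact hY12.trans (le_max_left _ _)
  obtain ⟨X1, hX1⟩ := hY1 Y (by rw [hY]; exact le_max_left _ _)
  obtain ⟨c, hc, X2, hX2⟩ := hY2 Y (by rw [hY]; exact le_max_right _ _)
  have hW0 : 0 < WY Y := by unfold WY; have := Nat.factorial_pos Y; positivity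
  obtain ⟨c', Q0, hc', hpnt⟩ := Pool.Agent.Y157.SH.pnt (WY Y) hW0
  refine ⟨c ^ k / 2 * c', by positivity, ?_⟩
  have tL : Filter.Tendsto (fun X : ℕ => Real.log (X : ℝ)) Filter.atTop Filter.atTop :=
    Real.tendsto_log_atTop.comp tendsto_natCast_atTop_atTop
  obtain ⟨H1, hH1⟩ := Filter.eventually_atTop.1 ((tL.eventually_ge_atTop 1).and
    (tL.eventually_ge_atTop (Q0 + 2)))
  obtain ⟨H2, hH2⟩ := hT (X1 + X2 + 2)
  refine ⟨H1 + H2, fun H hH Q hQ => ?_⟩
  obtain ⟨b1, b3⟩ := hH1 H (by omega)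
  obtain ⟨T, a1, a2, a3, a4⟩ := hH2 H (by omega)
  have hT0 : (0 : ℝ) < T := by exact_mod_cast (by omega : 0 < T)
  have hlogTH : Real.log T ≤ Real.log H := Real.log_le_log hT0 (by exact_mod_cast a2)
  have hlogT0 : 0 ≤ Real.log T := Real.log_nonneg (by exact_mod_cast (by omega : 1 ≤ T))
  have hQT : (Real.log T) ^ (CE k) ≤ 2 * Q := by
    have h1 : (Real.log T) ^ (CE k) ≤ (Real.log H) ^ (CE k) := pow_le_pow_left₀ hlogT0 hlogTH _
    have h2 : (0 : ℝ) ≤ Q := Nat.cast_nonneg _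
    linarith
  have hQQ : ((Q0 : ℝ) + 2) ≤ Q := by
    have e1 : Real.log H ≤ (Real.log H) ^ (CE k) := le_self_pow₀ b1 (by unfold CE; omega)
    linarith
  have hQ0 : Q0 ≤ Q := by
    have : (Q0 : ℝ) ≤ Q := by linarith
    exact_mod_cast this
  -- the exceptional tuples of the box
  let p : (Fin k → ℤ × ℤ) → Prop := fun t => ¬ GT Y T Q t ∨ ∃ i, ¬ Pst Y c (t i)
  have hp : (((TB k T).filter p).card : ℝ) ≤ 2 * δ * (T : ℝ) ^ (2 * k) := by
    have hsub : (TB k T).filter p ⊆ (TB k T).filter (fun t => ¬ GT Y T Q t) ∪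
        univ.biUnion (fun i : Fin k => (TB k T).filter (fun t => ¬ Pst Y c (t i))) := by
      intro t ht
      rw [mem_filter] at ht
      rw [mem_union, mem_filter, mem_biUnion]
      rcases ht.2 with h | ⟨i, h⟩
      · exact Or.inl ⟨ht.1, h⟩
      · exact Or.inr ⟨i, mem_univ _, mem_filter.2 ⟨ht.1, h⟩⟩
    have h1 := (card_le_card hsub).trans ((card_union_le _ _).trans
      (Nat.add_le_add_left card_biUnion_le _))
    have h2 : (((TB k T).filter p).card : ℝ) ≤ (((TB k T).filter (fun t => ¬ GT Y T Q t)).card : ℝ) +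
        ∑ i : Fin k, (((TB k T).filter (fun t => ¬ Pst Y c (t i))).card : ℝ) := by
      exact_mod_cast h1
    have h3 := hX1 T (by omega) Q hQT
    have h4 : ∀ i ∈ (univ : Finset (Fin k)), (((TB k T).filter
        (fun t => ¬ Pst Y c (t i))).card : ℝ) ≤
        δ / ((k + 1) * 9 ^ k) * 9 ^ k * (T : ℝ) ^ (2 * k) := fun i _ =>
      tup_one T (by omega) (fun x => ¬ Pst Y c x) i _ (hX2 T (by omega))
    have h5 := sum_le_sum h4
    rw [sum_const, card_univ, Fintype.card_fin, nsmul_eq_mul] at h5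
    have h6 : (k : ℝ) * (δ / ((k + 1) * 9 ^ k) * 9 ^ k * (T : ℝ) ^ (2 * k)) =
        (k / (k + 1)) * (δ * (T : ℝ) ^ (2 * k)) := by
      field_simp
    have h7 : (k : ℝ) / (k + 1) ≤ 1 := by
      rw [div_le_one (by positivity)]
      linarith
    have h8 : (k : ℝ) / (k + 1) * (δ * (T : ℝ) ^ (2 * k)) ≤ 1 * (δ * (T : ℝ) ^ (2 * k)) :=
      mul_le_mul_of_nonneg_right h7 (by positivity)
    rw [h6] at h5
    linarith
  have h5 := a4 (2 * δ) (by positivity) p hp
  have hlQ : 0 < Real.log Q := by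
    apply Real.log_pos
    have : (0 : ℝ) ≤ Q0 := Nat.cast_nonneg _
    linarith
  have h6 : (((CT k H).filter (fun x => ¬ c ^ k / 2 * c' * Q / Real.log Q ≤
      ((TQ Q x).card : ℝ))).card : ℝ) ≤
      (((CT k H).filter (fun x => p (fun i => Ab (x i)))).card : ℝ) := by
    have : (CT k H).filter (fun x => ¬ c ^ k / 2 * c' * Q / Real.log Q ≤
      ((TQ Q x).card : ℝ)) ⊆ (CT k H).filter (fun x => p (fun i => Ab (x i))) := by
      intro x hx
      rw [mem_filter] at hx ⊢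
      refine ⟨hx.1, ?_⟩
      by_contra hcon
      change ¬ (¬ GT Y T Q (fun i => Ab (x i)) ∨ ∃ i, ¬ Pst Y c (Ab (x i))) at hcon
      push Not at hcon
      obtain ⟨hG, hP⟩ := hcon
      apply hx.2
      obtain ⟨S, s2, s3⟩ := many_good2 hc (a3 x hx.1) hG hP
      have hsub : S ⊆ TQ Q x := by
        intro q hq
        obtain ⟨hqp, q1, q2⟩ := s2 q hq
        have hx1 := hx.1
        unfold CT at hx1
        rw [Fintype.mem_piFinset] at hx1
        unfold TQ
        rw [mem_filter, mem_Icc]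
        refine ⟨⟨hqp.one_lt.le, q1⟩, hqp, fun i => ?_⟩
        have hpr := pr_EE (hx1 i)
        obtain ⟨s, hs1, hs2⟩ := q2 i
        exact tw_one hpr.rt hYge (hG.ty1 i) hs1 hs2
      have h7 : (S.card : ℝ) ≤ ((TQ Q x).card : ℝ) := by exact_mod_cast card_le_card hsub
      refine le_trans ?_ (s3.trans h7)
      have h8 := hpnt Q hQ0
      have h9 : 0 ≤ c ^ k / 2 := by positivity
      calc c ^ k / 2 * c' * Q / Real.log Q = c ^ k / 2 * (c' * Q / Real.log Q) := by ring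
        _ ≤ _ := mul_le_mul_of_nonneg_left h8 h9
    exact_mod_cast card_le_card this
  refine h6.trans (h5.trans ?_)
  apply mul_le_mul_of_nonneg_right _ (by positivity)
  rw [hδ]
  have e1 : 2 * (ε / (2 * (K + 1))) * K = ε * (K / (K + 1)) := by
    field_simp
  rw [e1]
  have e2 : K / (K + 1) ≤ 1 := by
    rw [div_le_one (by positivity)]
    linarith
  nlinarith

end Pool.Agent.Y676
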