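import Pool.Agent.Y676.Flip
import Pool.Agent.W405.SE.GoodP
import Pool.Agent.W407.SE.Ratp
import Pool.Agent.W307.SE.Locp
import Pool.Agent.W975.BMX.Two

/-!
# The 2-Selmer group of the twist by a prime
-/

set_option autoImplicit false

namespace Pool.Agent.Y676

open Pool.Agent.W307.SE (Loc)
open Pool.Agent.W262.RK (dv sgn sg0 LL LocH)

/-- the signs for the twist by `q` -/
def sQ (A B q : ℤ) (p : ℕ) : Bool :=
  if (p : ℤ) ∣ A then sg0 p (-(q * B)) else if (p : ℤ) ∣ B then sg0 p (-(q * A)) else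
    sg0 p (q * A)

/-- the set of the Selmer classes of `y² = x (x - A) (x - B)` -/
structure InSel (A B : ℤ) (e : ℤ × ℤ) : Prop where
  sq1 : Squarefree e.1
  sq2 : Squarefree e.2
  re : Loc ℝ A B e.1 e.2
  lo : ∀ (p : ℕ) [Fact p.Prime], Loc ℚ_[p] A B e.1 e.2

lemma loc_scale {K : Type} [Field K] {A B q d1 d2 : ℤ} {r : K} (hr : r ≠ 0) (hq : (q : K) = r ^ 2)
    (h : Loc K (q * A) (q * B) d1 d2) : Loc K A B d1 d2 := by
  obtain ⟨x, y, hy, hxy, ⟨u, hu⟩, ⟨v, hv⟩⟩ := h
  push_cast at hxy hu hv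
  rw [hq] at hxy hv
  refine ⟨x / r ^ 2, y / r ^ 3, div_ne_zero hy (pow_ne_zero 3 hr), ?_, ⟨u / r, ?_⟩, ⟨v / r, ?_⟩⟩
  · field_simp
    linear_combination hxy
  · field_simp
    linear_combination hu
  · field_simp
    linear_combination hv

lemma goodp : Pool.Agent.W307.SE.GOODP :=
  Pool.Agent.W405.SE.goodp_of Pool.Agent.W407.SE.ratp

lemma loclp : Pool.Agent.W307.SE.LOCLP :=
  Pool.Agent.W307.SE.loclp_of Pool.Agent.W407.SE.ratp

/-- the local conditions at the primes dividing `A B (A - B)` once -/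
lemma lc_of_loc {A B q : ℤ} {p : ℕ} [hp : Fact p.Prime] (hp2 : p ≠ 2) (hpq : ¬ (p : ℤ) ∣ q)
    (h1 : ¬ (p : ℤ) ^ 2 ∣ A * B * (A - B)) {e : ℤ × ℤ} (he1 : Squarefree e.1)
    (he2 : Squarefree e.2) (h : Loc ℚ_[p] (q * A) (q * B) e.1 e.2) : Lc A B (sQ A B q) p e := by
  obtain ⟨x, y, hy, hxy, s1, s2⟩ := h
  have hpi : Prime (p : ℤ) := Nat.prime_iff_prime_int.1 hp.out
  have nd : ∀ {u v : ℤ}, ¬ (p : ℤ) ∣ u → ¬ (p : ℤ) ∣ v → ¬ (p : ℤ) ∣ u * v := by
    intro u v hu hv h
    rcases hpi.dvd_or_dvd h with h | h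
    · exact hu h
    · exact hv h
  have nd2 : ∀ {u : ℤ}, ¬ (p : ℤ) ^ 2 ∣ u → ¬ (p : ℤ) ^ 2 ∣ q * u := by
    intro u hu h
    exact hu ((IsCoprime.pow_left ((Prime.coprime_iff_not_dvd hpi).2 hpq)).dvd_of_dvd_mul_left h)
  have jsq : ∀ {u : ℤ}, ¬ (p : ℤ) ∣ u → jacobiSym (u * u) p = 1 := by
    intro u hu
    rw [jacobiSym.mul_left, sg0_pm hp.out hu]
    split_ifs <;> norm_num
  have two : ∀ {u v : ℤ}, (p : ℤ) ∣ u → (p : ℤ) ∣ v → (p : ℤ) ^ 2 ∣ u * v := by
    intro u v hu hv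
    rw [pow_two]
    exact mul_dvd_mul hu hv
  refine ⟨fun hA => ?_, fun hB => ?_, fun hC => ?_⟩
  · have hB : ¬ (p : ℤ) ∣ B := fun hB => h1 ((two hA hB).mul_right _)
    have hA2 : ¬ (p : ℤ) ^ 2 ∣ A := fun h => h1 ((h.mul_right _).mul_right _)
    have hn : ¬ (p : ℤ) ∣ -(q * B) := fun h => nd hpq hB ((dvd_neg).1 h)
    have := loclp 0 (fun _ => -(q * B)) false p (q * A) (q * B) hp2 (fun _ => hn) (by
      unfold LocH
      rw [if_pos rfl]
      exact ⟨hA.mul_left _, nd2 hA2, nd hpq hB, jsq hn⟩) x y hy hxy e.1 e.2 he1 he2 s1 s2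
    unfold LL at this
    rw [if_pos rfl] at this
    unfold sQ
    rw [if_pos hA]
    exact this
  · have hA : ¬ (p : ℤ) ∣ A := fun hA => h1 ((two hA hB).mul_right _)
    have hB2 : ¬ (p : ℤ) ^ 2 ∣ B := fun h => h1 ((h.mul_left _).mul_right _)
    have hn : ¬ (p : ℤ) ∣ -(q * A) := fun h => nd hpq hA ((dvd_neg).1 h)
    have := loclp 1 (fun _ => -(q * A)) false p (q * A) (q * B) hp2 (fun _ => hn) (by
      unfold LocH
      rw [if_neg (by decide), if_pos rfl]
      exact ⟨hB.mul_left _, nd2 hB2, nd hpq hA, jsq hn⟩) x y hy hxy e.1 e.2 he1 he2 s1 s2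
    unfold LL at this
    rw [if_neg (by decide), if_pos rfl] at this
    unfold sQ
    rw [if_neg hA, if_pos hB]
    exact this
  · have hA : ¬ (p : ℤ) ∣ A := fun hA => h1 (two (hA.mul_right _) hC)
    have hB : ¬ (p : ℤ) ∣ B := fun hB => h1 (two (hB.mul_left _) hC)
    have hC2 : ¬ (p : ℤ) ^ 2 ∣ A - B := fun h => h1 (h.mul_left _)
    have hn : ¬ (p : ℤ) ∣ q * A := nd hpq hA
    have e3 : q * A - q * B = q * (A - B) := by ring
    have := loclp 2 (fun _ => q * A) false p (q * A) (q * B) hp2 (fun _ => hn) (by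
      unfold LocH
      rw [if_neg (by decide), if_neg (by decide), if_pos rfl, e3]
      exact ⟨hC.mul_left _, nd2 hC2, hn, jsq hn⟩) x y hy hxy e.1 e.2 he1 he2 s1 s2
    unfold LL at this
    rw [if_neg (by decide), if_neg (by decide), if_pos rfl] at this
    unfold sQ
    rw [if_neg hA, if_neg hB]
    exact this

/-- the conditions on the prime `q` -/
structure GoodQ (Y : ℕ) (A B : ℤ) (s : ℕ → Bool) (q : ℕ) : Prop where
  pr : q.Prime
  m8 : q % 8 = 1
  sm : ∀ p : ℕ, p.Prime → p ≠ 2 → p ≤ Y → jacobiSym (q : ℤ) p = 1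
  nd : ¬ (q : ℤ) ∣ A * B * (A - B)
  sg : ∀ l : ℕ, l.Prime → Y < l → (l : ℤ) ∣ A * B * (A - B) → sQ A B q l = s l

/-- **The Selmer classes which are unramified at `q` are trivial.** -/
theorem sel_unr {Y : ℕ} {A B : ℤ} (hY : 2 ≤ Y) (h1 : Ty1 Y A B)
    {s : ℕ → Bool} (hs : ∀ e, InS Y A B s e → e = (1, 1)) {q : ℕ} (hq : GoodQ Y A B s q)
    {e : ℤ × ℤ} (he : InSel ((q : ℤ) * A) ((q : ℤ) * B) e) (he1 : ¬ (q : ℤ) ∣ e.1)
    (he2 : ¬ (q : ℤ) ∣ e.2) : e = (1, 1) := by
  have hq0 : 0 < q := hq.pr.pos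
  have hq2 : q ≠ 2 := by
    rintro rfl
    have := hq.m8
    omega
  have hqi : Prime (q : ℤ) := Nat.prime_iff_prime_int.1 hq.pr
  have hpq : ∀ p : ℕ, p.Prime → p ≠ q → ¬ (p : ℤ) ∣ (q : ℤ) := by
    intro p hp hne h
    exact hne ((Nat.prime_dvd_prime_iff_eq hp hq.pr).1 (by exact_mod_cast h))
  have H : InS Y A B (sQ A B q) e := by
    refine ⟨he.sq1, he.sq2, ?_, ?_, ?_, ?_⟩
    · have hq0' : (0 : ℝ) < q := by exact_mod_cast hq0
      refine loc_scale (r := Real.sqrt q) (Real.sqrt_pos.2 hq0').ne' ?_ he.re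
      rw [Real.sq_sqrt hq0'.le]
      simp
    · intro p hp hpY
      have hsq : IsSquare ((q : ℤ) : ℚ_[p]) := by
        by_cases hp2 : p = 2
        · subst hp2
          have h3 := Pool.Agent.W975.BMX.two1 (q : ℤ) 1 (by have := hq.m8; omega)
            (by have := hq.m8; omega)
          rwa [mul_one] at h3
        · have h4 := hq.sm p hp.out hp2 hpY
          have hnd : ¬ (p : ℤ) ∣ (q : ℤ) := by
            apply hpq p hp.out
            rintro rfl
            have h5 : jacobiSym (p : ℤ) p = 0 := by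
              rw [jacobiSym.eq_zero_iff_not_coprime]
              simp [hp.out.ne_one]
            rw [h5] at h4
            norm_num at h4
          have h3 := Pool.Agent.W335.BMX.odd1 p hp2 (q : ℤ) 1 hnd (by
            intro h
            exact hp.out.one_lt.ne' (by exact_mod_cast Int.eq_one_of_dvd_one (by positivity) h))
            (by
              rw [jacobiSym.legendreSym.to_jacobiSym, jacobiSym.legendreSym.to_jacobiSym, h4]
              simp)
          rwa [mul_one] at h3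
      obtain ⟨r, hr⟩ := hsq
      have hr0 : r ≠ 0 := by
        rintro rfl
        rw [mul_zero] at hr
        have : (q : ℤ) = 0 := by exact_mod_cast hr
        omega
      exact loc_scale hr0 (by rw [hr, pow_two]) (he.lo p)
    · intro p hp hYp hN
      have : Fact p.Prime := ⟨hp⟩
      by_cases hpq' : p = q
      · subst hpq'
        exact ⟨he1, he2⟩
      · refine goodp p (q * A) (q * B) e.1 e.2 ?_ he.sq1 he.sq2 (he.lo p)
        intro h
        have hpi : Prime (p : ℤ) := Nat.prime_iff_prime_int.1 hp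
        have e5 : 2 * (↑q * A) * (↑q * B) * (↑q * A - ↑q * B) =
          (2 * (q : ℤ) ^ 3) * (A * B * (A - B)) := by ring
        rw [e5] at h
        rcases hpi.dvd_or_dvd h with h | h
        · rcases hpi.dvd_or_dvd h with h | h
          · have h6 : p ∣ 2 := by exact_mod_cast h
            have := Nat.le_of_dvd (by norm_num) h6
            omega
          · exact hpq p hp hpq' (hpi.dvd_of_dvd_pow h)
        · exact hN h
    · intro p hp hYp
      have : Fact p.Prime := ⟨hp⟩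
      by_cases hN : (p : ℤ) ∣ A * B * (A - B)
      · have hne : p ≠ q := by
          rintro rfl
          exact hq.nd hN
        exact lc_of_loc (by omega) (hpq p hp hne) (h1 p hp hYp) he.sq1 he.sq2 (he.lo p)
      · refine ⟨fun h => absurd ?_ hN, fun h => absurd ?_ hN, fun h => absurd ?_ hN⟩
        · exact (h.mul_right _).mul_right _
        · exact (h.mul_left _).mul_right _
        · exact h.mul_left _
  exact hs e (H.congr fun p hp hYp hN => Or.inl (hq.sg p hp hYp hN))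

end Pool.Agent.Y676
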