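import Pool.Agent.Y676.Defs
import Pool.Agent.Y676.Tw

/-!
# A positive proportion of the small twists: statements

Statements of the parts of the second theorem (helper676).
-/

set_option autoImplicit false

namespace Pool.Agent.Y676

open Finset

/-- RNK: few prime factors in a set of primes (Rankin, Hall and Tenenbaum). -/
def S_RNK : Prop := ∃ C : ℝ, 0 < C ∧ ∀ (S : Finset ℕ) (X J : ℕ), 2 ≤ X →
  (∀ p ∈ S, p.Prime ∧ p ≤ X) →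
  (((Icc 1 X).filter (fun n => (n.primeFactors ∩ S).card ≤ J)).card : ℝ) ≤
    C * X * 2 ^ J * Real.exp (-(1 / 2) * ∑ p ∈ S, (1 : ℝ) / p)

/-- the primes `l ≤ X`, `l = 1 mod W`, with `(l | D) = -1` -/
def LS (W X D : ℕ) : Finset ℕ := (PQ W X).filter (fun l => jacobiSym (l : ℤ) D = -1)

/-- TSM: for almost all `D ≤ X ^ (1 / 2)` the sum of `1 / l` over the primes in `LS W X D` is
large. -/
def S_TSM : Prop := ∀ W : ℕ, 8 ∣ W → 0 < W → ∃ κ : ℝ, 0 < κ ∧ ∃ X0 : ℕ, ∀ X : ℕ, X0 ≤ X →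
  ∑ D ∈ (Icc 2 X).filter (fun D => D ^ 2 ≤ X ∧ D.Coprime W ∧ Squarefree D ∧
    ∑ l ∈ LS W X D, (1 : ℝ) / l < κ * Real.log (Real.log X)), (1 : ℝ) / D ≤
      1 / (Real.log X) ^ 2

/-- KEY: the integers with few prime factors in `LS W X D`, on average over `D`. -/
def S_KEY : Prop := ∀ W : ℕ, 8 ∣ W → 0 < W → ∃ c : ℝ, 0 < c ∧ ∀ ε : ℝ, 0 < ε → ∃ X0 : ℕ,
  ∀ X : ℕ, X0 ≤ X → ∀ J : ℕ, (J : ℝ) ≤ c * Real.log (Real.log X) →
    ∑ D ∈ (Icc 2 X).filter (fun D => D ^ 2 ≤ X ∧ D.Coprime W ∧ Squarefree D ∧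
      D.primeFactors.card ≤ J),
      2 ^ J * (((Icc 1 X).filter (fun n => (n.primeFactors ∩ LS W X D).card ≤ J)).card : ℝ) / D ≤
        ε * X

/-- the pairs which satisfy the conditions at the odd primes dividing `a b (a - b)` exactly once
(`sQ a b 1` are the signs of the curve `y² = x (x - a) (x - b)` itself) -/
def InT (a b : ℤ) : Set (ℤ × ℤ) := {e | Squarefree e.1 ∧ Squarefree e.2 ∧
  (∀ p : ℕ, p.Prime → ¬ (p : ℤ) ∣ 2 * a * b * (a - b) → ¬ (p : ℤ) ∣ e.1 ∧ ¬ (p : ℤ) ∣ e.2) ∧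
  ∀ p : ℕ, p.Prime → p ≠ 2 → ¬ (p : ℤ) ^ 2 ∣ a * b * (a - b) → Lc a b (sQ a b 1) p e}

/-- MOM: the average of the order of `InT` over the twists by a prime. -/
def S_MOM : Prop := ∃ C : ℝ, 0 ≤ C ∧ ∀ X q : ℕ, 1 ≤ X → q.Prime →
  (∀ t ∈ Bx X, (InT ((q : ℤ) * t.1) ((q : ℤ) * t.2)).Finite) ∧
  ∑ t ∈ Bx X, ((InT ((q : ℤ) * t.1) ((q : ℤ) * t.2)).ncard : ℝ) ≤ C * (X : ℝ) ^ 2

end Pool.Agent.Y676
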