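import Pool.Agent.Y676.Defs
import Pool.Agent.Y157.SH.Cnt

/-!
# The number of small squarefree divisors of the product
-/

set_option autoImplicit false

namespace Pool.Agent.Y676

open Finset
open Pool.Agent.Y157.SH (lf Nn_eq)

/-- the divisors up to `R` -/
def tau (R : ℕ) (n : ℤ) : ℕ := ((Icc 1 R).filter (fun d : ℕ => (d : ℤ) ∣ n)).card

variable {k : ℕ}

lemma asg (t : Fin k → ℤ × ℤ) (P : Finset ℕ) (hP : ∀ l ∈ P, l.Prime)
    (hd : ∀ l ∈ P, l ∣ ∏ i, Nn (t i)) : ∃ a : P → Fin k × Fin 3, ∀ l : P,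
      ((l : ℕ) : ℤ) ∣ lf (t (a l).1) (a l).2 := by
  have h1 : ∀ l : P, ∃ ij : Fin k × Fin 3, ((l : ℕ) : ℤ) ∣ lf (t ij.1) ij.2 := by
    rintro ⟨p, hp⟩
    have hpp := hP p hp
    obtain ⟨i, -, hi⟩ := (hpp.prime.dvd_finsetProd_iff _).1 (hd p hp)
    rw [Nn_eq] at hi
    obtain ⟨j, -, hj⟩ := (hpp.prime.dvd_finsetProd_iff _).1 hi
    exact ⟨(i, j), Int.natCast_dvd.2 hj⟩
  choose a ha using h1
  exact ⟨a, ha⟩

/-- the component -/
def cmp (P : Finset ℕ) (a : P → Fin k × Fin 3) (T : Finset ℕ) (ij : Fin k × Fin 3) : ℕ :=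
  ∏ l ∈ P.attach.filter (fun l : P => (l : ℕ) ∈ T ∧ a l = ij), (l : ℕ)

lemma cmp_dvd {t : Fin k → ℤ × ℤ} {P : Finset ℕ} (hP : ∀ l ∈ P, l.Prime)
    {a : P → Fin k × Fin 3} (ha : ∀ l : P, ((l : ℕ) : ℤ) ∣ lf (t (a l).1) (a l).2)
    (T : Finset ℕ) (ij : Fin k × Fin 3) : (cmp P a T ij : ℤ) ∣ lf (t ij.1) ij.2 := by
  rw [Int.natCast_dvd]
  unfold cmp
  apply Finset.prod_dvd_of_isRelPrime
  · intro p _ q _ hpq
    have hp := hP p p.2
    have hq := hP q q.2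
    have : (p : ℕ) ≠ q := fun h => hpq (Subtype.ext h)
    exact (Nat.coprime_iff_isRelPrime.1 ((Nat.coprime_primes hp hq).2 this))
  · intro p hp
    have h := (mem_filter.1 hp).2.2
    have := ha p
    rw [h] at this
    exact Int.natCast_dvd.1 this

lemma cmp_pos {P : Finset ℕ} (hP : ∀ l ∈ P, l.Prime)
    (a : P → Fin k × Fin 3) (T : Finset ℕ) (ij : Fin k × Fin 3) : 0 < cmp P a T ij :=
  prod_pos fun p _ => (hP p p.2).pos

lemma cmp_le {P : Finset ℕ} (hP : ∀ l ∈ P, l.Prime)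
    (a : P → Fin k × Fin 3) {T : Finset ℕ} (hT : T ⊆ P) (ij : Fin k × Fin 3) :
    cmp P a T ij ≤ ∏ l ∈ T, l := by
  unfold cmp
  have h1 : ∏ l ∈ P.attach.filter (fun l : P => (l : ℕ) ∈ T ∧ a l = ij), (l : ℕ) =
      ∏ l ∈ (P.attach.filter (fun l : P => (l : ℕ) ∈ T ∧ a l = ij)).image (fun l : P => (l : ℕ)),
        l := by
    rw [prod_image]
    intro x _ y _ h
    exact Subtype.ext h
  rw [h1]
  apply prod_le_prod_of_subset_of_one_le'
  · intro l hl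
    obtain ⟨x, hx, rfl⟩ := mem_image.1 hl
    exact (mem_filter.1 hx).2.1
  · intro l hl _
    exact (hP l (hT hl)).one_lt.le

lemma cmp_inj {P : Finset ℕ} (hP : ∀ l ∈ P, l.Prime)
    (a : P → Fin k × Fin 3) {T T' : Finset ℕ} (hT : T ⊆ P)
    (h : ∀ ij, cmp P a T ij = cmp P a T' ij) : T ⊆ T' := by
  intro l hl
  have h1 : l ∣ cmp P a T (a ⟨l, hT hl⟩) := by
    unfold cmp
    exact dvd_prod_of_mem (fun l : P => (l : ℕ)) (mem_filter.2 ⟨mem_attach P ⟨l, hT hl⟩, hl, rfl⟩)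
  rw [h] at h1
  unfold cmp at h1
  obtain ⟨x, hx, hd⟩ := ((hP l (hT hl)).prime.dvd_finsetProd_iff _).1 h1
  rw [(Nat.prime_dvd_prime_iff_eq (hP l (hT hl)) (hP x x.2)).1 hd]
  exact (mem_filter.1 hx).2.1

lemma card_asg {t : Fin k → ℤ × ℤ} {P : Finset ℕ} (hP : ∀ l ∈ P, l.Prime)
    {a : P → Fin k × Fin 3} (ha : ∀ l : P, ((l : ℕ) : ℤ) ∣ lf (t (a l).1) (a l).2)
    (S : Finset (Finset ℕ)) (hS : S ⊆ P.powerset) (R : ℕ)
    (hR : ∀ T ∈ S, ∀ ij, cmp P a T ij ≤ R) :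
    S.card ≤ ∏ ij : Fin k × Fin 3, tau R (lf (t ij.1) ij.2) := by
  classical
  have h1 : S.card ≤ (Fintype.piFinset (fun ij : Fin k × Fin 3 =>
      (Icc 1 R).filter (fun d : ℕ => (d : ℤ) ∣ lf (t ij.1) ij.2))).card := by
    apply card_le_card_of_injOn (fun T ij => cmp P a T ij)
    · intro T hT
      rw [mem_coe, Fintype.mem_piFinset]
      intro ij
      rw [mem_filter, mem_Icc]
      exact ⟨⟨cmp_pos hP a T ij, hR T hT ij⟩, cmp_dvd hP ha T ij⟩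
    · intro T hT T' hT' h
      have h' : ∀ ij, cmp P a T ij = cmp P a T' ij := fun ij => congrFun h ij
      exact Subset.antisymm (cmp_inj hP a (mem_powerset.1 (hS hT)) h')
        (cmp_inj hP a (mem_powerset.1 (hS hT')) fun ij => (h' ij).symm)
  rw [Fintype.card_piFinset] at h1
  exact h1

lemma lf_ne {X : ℕ} {t : ℤ × ℤ} (ht : t ∈ Bx X) (j : Fin 3) : lf t j ≠ 0 := by
  unfold Bx at ht
  rw [mem_filter] at ht
  obtain ⟨-, h1, h2, h3⟩ := ht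
  unfold lf
  fin_cases j
  · exact h1
  · exact h2
  · exact sub_ne_zero.2 h3

lemma lf_le {X : ℕ} {t : ℤ × ℤ} (ht : t ∈ Bx X) (j : Fin 3) : (lf t j).natAbs ≤ 2 * X := by
  unfold Bx at ht
  rw [mem_filter, mem_product, mem_Icc, mem_Icc] at ht
  obtain ⟨⟨⟨h1, h2⟩, h3, h4⟩, -⟩ := ht
  unfold lf
  fin_cases j
  · change t.1.natAbs ≤ 2 * X
    omega
  · change t.2.natAbs ≤ 2 * X
    omega
  · change (t.1 - t.2).natAbs ≤ 2 * X
    omega

/-- the numbers of the divisors -/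
theorem n12 {X Q : ℕ} {L : ℝ} {t : Fin k → ℤ × ℤ} (ht : ∀ i, t i ∈ Bx X) {P : Finset ℕ}
    (hP : ∀ l ∈ P, l.Prime) (hd : ∀ l ∈ P, l ∣ ∏ i, Nn (t i))
    (h4 : ∀ i j, (tau (Nat.sqrt Q) (lf (t i) j) : ℝ) ≤ (Real.log Q) ^ 2)
    (h5 : ∀ i j, (tau (2 * X) (lf (t i) j) : ℝ) ≤ L ^ 2) :
    ((P.powerset.filter (fun T => (∏ l ∈ T, l) ^ 2 ≤ Q)).card : ℝ) ≤ (Real.log Q) ^ (6 * k) ∧
      (2 : ℝ) ^ P.card ≤ L ^ (6 * k) := by
  obtain ⟨a, ha⟩ := asg t P hP hd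
  have hcard : ((Finset.univ : Finset (Fin k × Fin 3)).card) = 3 * k := by
    rw [card_univ, Fintype.card_prod, Fintype.card_fin, Fintype.card_fin, mul_comm]
  constructor
  · have h := card_asg hP ha (P.powerset.filter (fun T => (∏ l ∈ T, l) ^ 2 ≤ Q))
      (filter_subset _ _) (Nat.sqrt Q) (by
        intro T hT ij
        rw [mem_filter, mem_powerset] at hT
        exact (cmp_le hP a hT.1 ij).trans (Nat.le_sqrt'.2 hT.2))
    calc ((P.powerset.filter (fun T => (∏ l ∈ T, l) ^ 2 ≤ Q)).card : ℝ)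
        ≤ ∏ ij : Fin k × Fin 3, (tau (Nat.sqrt Q) (lf (t ij.1) ij.2) : ℝ) := by exact_mod_cast h
      _ ≤ ∏ _ij : Fin k × Fin 3, (Real.log Q) ^ 2 :=
          prod_le_prod (fun _ _ => Nat.cast_nonneg _) fun ij _ => h4 ij.1 ij.2
      _ = _ := by
        rw [prod_const, hcard, ← pow_mul]
        congr 1
        ring
  · have h := card_asg hP ha P.powerset Subset.rfl (2 * X) (by
        intro T _ ij
        exact (Nat.le_of_dvd (Int.natAbs_pos.2 (lf_ne (ht ij.1) ij.2))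
          (Int.natCast_dvd.1 (cmp_dvd hP ha T ij))).trans (lf_le (ht ij.1) ij.2))
    rw [card_powerset] at h
    calc (2 : ℝ) ^ P.card
        ≤ ∏ ij : Fin k × Fin 3, (tau (2 * X) (lf (t ij.1) ij.2) : ℝ) := by exact_mod_cast h
      _ ≤ ∏ _ij : Fin k × Fin 3, L ^ 2 :=
          prod_le_prod (fun _ _ => Nat.cast_nonneg _) fun ij _ => h5 ij.1 ij.2
      _ = _ := by
        rw [prod_const, hcard, ← pow_mul]
        congr 1
        ring

end Pool.Agent.Y676
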