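import Pool.Agent.Y676.Tup

/-!
# The box theorem: for almost all tuples every sign pattern is realised by small primes
-/

set_option autoImplicit false

namespace Pool.Agent.Y676

open Finset
open Pool.Agent.Y157.SH (lf Nn_eq)

variable {k : ℕ}

/-- the modulus -/
def WY (Y : ℕ) : ℕ := 8 * Y.factorial

/-- the large primes dividing the product -/
def PP (Y : ℕ) (t : Fin k → ℤ × ℤ) : Finset ℕ :=
  (∏ i, Nn (t i)).primeFactors.filter (fun l => Y < l)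

/-- the typical tuples -/
structure GT (Y X Q : ℕ) (t : Fin k → ℤ × ℤ) : Prop where
  ty1 : ∀ i, Ty1 Y (t i).1 (t i).2
  ty2 : ∀ i, Ty2 Y (t i).1 (t i).2
  crs : ∀ i i', i ≠ i' → ¬ Crs Y (t i) (t i')
  pat : ∀ κ : ℕ → ℤ, (∀ l ∈ PP Y t, κ l = 1 ∨ κ l = -1) →
    ((PQ (WY Y) Q).card : ℝ) / 2 ≤ 2 ^ (PP Y t).card * ((PAT (WY Y) Q (PP Y t) κ).card : ℝ)
  sml : (2 : ℝ) ^ (PP Y t).card ≤ (Real.log X) ^ (6 * k)

lemma Nn_ne {X : ℕ} {t : ℤ × ℤ} (ht : t ∈ Bx X) : Nn t ≠ 0 := by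
  rw [mem_Bx] at ht
  obtain ⟨-, h1, h2, h3⟩ := ht
  unfold Nn
  exact Int.natAbs_ne_zero.2 (mul_ne_zero (mul_ne_zero h1 h2) (sub_ne_zero.2 h3))

lemma Nn_le {X : ℕ} (hX : 2 ≤ X) {t : ℤ × ℤ} (ht : t ∈ Bx X) : Nn t ≤ X ^ 4 := by
  have h2 := lf_le ht 2
  rw [mem_Bx] at ht
  obtain ⟨⟨⟨a1, a2⟩, a3, a4⟩, -⟩ := ht
  unfold Nn
  rw [Int.natAbs_mul, Int.natAbs_mul]
  have b1 : t.1.natAbs ≤ X := by omega
  have b2 : t.2.natAbs ≤ X := by omega
  have b3 : (t.1 - t.2).natAbs ≤ X ^ 2 := by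
    have : (t.1 - t.2).natAbs ≤ 2 * X := h2
    nlinarith
  calc t.1.natAbs * t.2.natAbs * (t.1 - t.2).natAbs ≤ X * X * X ^ 2 := by gcongr
    _ = X ^ 4 := by ring

lemma PP_prime {Y : ℕ} {t : Fin k → ℤ × ℤ} : ∀ l ∈ PP Y t, l.Prime := fun l hl => by
  unfold PP at hl
  exact Nat.prime_of_mem_primeFactors (mem_filter.1 hl).1

lemma PP_gt {Y : ℕ} {t : Fin k → ℤ × ℤ} : ∀ l ∈ PP Y t, Y < l := fun l hl => by
  unfold PP at hl
  exact (mem_filter.1 hl).2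

lemma PP_dvd {Y : ℕ} {t : Fin k → ℤ × ℤ} : ∀ l ∈ PP Y t, l ∣ ∏ i, Nn (t i) := fun l hl => by
  unfold PP at hl
  exact Nat.dvd_of_mem_primeFactors (mem_filter.1 hl).1

lemma sub_dvd {P : Finset ℕ} (hP : ∀ l ∈ P, l.Prime) {n : ℕ} (h : ∀ l ∈ P, l ∣ n) :
    ∏ l ∈ P, l ∣ n := by
  apply Finset.prod_dvd_of_isRelPrime
  · intro p hp q hq hpq
    exact (Nat.coprime_iff_isRelPrime.1 ((Nat.coprime_primes (hP p hp) (hP q hq)).2 hpq))
  · exact h

lemma sub_cop {P : Finset ℕ} {n : ℕ} (h : ∀ l ∈ P, Nat.Coprime l n) :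
    Nat.Coprime (∏ l ∈ P, l) n := Nat.Coprime.prod_left h

lemma sub_sqf {P : Finset ℕ} (hP : ∀ l ∈ P, l.Prime) : Squarefree (∏ l ∈ P, l) := by
  refine Finset.squarefree_prod_of_pairwise_isCoprime (fun p hp q hq hpq => ?_)
    fun l hl => (hP l hl).prime.squarefree
  exact Nat.coprime_iff_isRelPrime.1 ((Nat.coprime_primes (hP p hp) (hP q hq)).2 hpq)

lemma cop_WY {Y l : ℕ} (hY : 2 ≤ Y) (hl : l.Prime) (h : Y < l) : Nat.Coprime l (WY Y) := by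
  unfold WY
  apply Nat.Coprime.mul_right
  · have h2 : l ≠ 2 := by omega
    have : (8 : ℕ) = 2 ^ 3 := by norm_num
    rw [this]
    exact Nat.Coprime.pow_right 3 ((Nat.coprime_primes hl Nat.prime_two).2 h2)
  · rw [hl.coprime_iff_not_dvd, hl.dvd_factorial]
    omega

/-- the conditions imply that the tuple is typical -/
lemma gt_of {Y X Q : ℕ} {c : ℝ} {t : Fin k → ℤ × ℤ} (hY : 2 ≤ Y) (hX : 2 ≤ X) (ht : t ∈ TB k X)
    (hc : 0 < c) (hL1 : 1 ≤ Real.log X) (hlQ : 1 ≤ Real.log Q)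
    (hpnt : c * Q / Real.log Q ≤ ((PQ (WY Y) Q).card : ℝ))
    (hb : 8 / c ≤ Real.log Q) (hcc : (Real.log X) ^ (2 * (6 * k)) ≤ c / 8 * Q / Real.log Q)
    (hd : 16 * (4 * k : ℕ) / c ≤ Real.log X)
    (g1 : ∀ i, Ty1 Y (t i).1 (t i).2) (g2 : ∀ i, Ty2 Y (t i).1 (t i).2)
    (g3 : ∀ i i', i ≠ i' → ¬ Crs Y (t i) (t i'))
    (h4 : ∀ i j, (tau (Nat.sqrt Q) (lf (t i) j) : ℝ) ≤ (Real.log Q) ^ 2)
    (h5 : ∀ i j, (tau (2 * X) (lf (t i) j) : ℝ) ≤ (Real.log X) ^ 2)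
    (h6 : ¬ HB (WY Y) (6 * k + 2) (6 * k + 2) (4 * k) X Q t) : GT Y X Q t := by
  rw [mem_TB] at ht
  obtain ⟨n1, n2⟩ := n12 ht PP_prime PP_dvd h4 h5 (P := PP Y t)
  have hpos : ∏ i, Nn (t i) ≠ 0 := prod_ne_zero_iff.2 fun i _ => Nn_ne (ht i)
  have hle : ∏ i, Nn (t i) ≤ X ^ (4 * k) := by
    calc ∏ i, Nn (t i) ≤ ∏ _i : Fin k, X ^ 4 := prod_le_prod' fun i _ => Nn_le hX (ht i)
      _ = X ^ (4 * k) := by rw [prod_const, card_univ, Fintype.card_fin, pow_mul]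
  have hsubP : ∀ T ⊆ PP Y t, ∏ l ∈ T, l ∣ ∏ i, Nn (t i) := fun T hT =>
    sub_dvd (fun l hl => PP_prime l (hT hl)) fun l hl => PP_dvd l (hT hl)
  refine ⟨g1, g2, g3, fun κ hκ => ?_, n2⟩
  refine det (6 * k) (WY Y) Q X (4 * k) (Real.log X) c hc rfl hL1 hlQ hpnt hb hcc hd (PP Y t)
    PP_prime ((Nat.le_of_dvd (Nat.pos_of_ne_zero hpos) (hsubP _ Subset.rfl)).trans hle) n1 n2 ?_ κ hκ
  intro T hT hne hbad
  apply h6
  have hTp : ∀ l ∈ T, l.Prime := fun l hl => PP_prime l (hT hl)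
  obtain ⟨l0, hl0⟩ := nonempty_iff_ne_empty.2 hne
  have hcop : Nat.Coprime (∏ l ∈ T, l) (WY Y) :=
    sub_cop fun l hl => cop_WY hY (hTp l hl) (PP_gt l (hT hl))
  refine ⟨∏ l ∈ T, l, ?_, (Nat.le_of_dvd (Nat.pos_of_ne_zero hpos) (hsubP T hT)).trans hle, ?_,
    sub_sqf hTp, hcop, hbad, hsubP T hT⟩
  · have h1 : l0 ∣ ∏ l ∈ T, l := dvd_prod_of_mem _ hl0
    exact (hTp l0 hl0).two_le.trans (Nat.le_of_dvd (prod_pos fun l hl => (hTp l hl).pos) h1)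
  · have h1 : Nat.Coprime (∏ l ∈ T, l) 8 := by
      unfold WY at hcop
      exact Nat.Coprime.coprime_mul_right_right hcop
    have h2 : Nat.Coprime (∏ l ∈ T, l) 2 := Nat.Coprime.coprime_dvd_right (by norm_num) h1
    exact Nat.coprime_two_right.1 h2

/-- the exponent -/
def CE (k : ℕ) : ℕ := 32 * (2 * (6 * k + 2) + 1) + 1

lemma hcc_of {m C : ℕ} {L c : ℝ} {Q : ℕ} (hL : 2 ≤ L) (hc : 0 < c) (hC : 4 * m + 1 ≤ C)
    (hQ : L ^ C ≤ 2 * Q) (hQ2 : 2 ≤ (Q : ℝ)) (hQc : (32 / c) ^ 4 ≤ Q) :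
    L ^ (2 * m) ≤ c / 8 * Q / Real.log Q := by
  obtain ⟨y, hy⟩ : ∃ y, y = Real.sqrt (Real.sqrt Q) := ⟨_, rfl⟩
  have hy2 : y ^ 2 = Real.sqrt Q := by rw [hy, Real.sq_sqrt (Real.sqrt_nonneg _)]
  have hy4 : y ^ 4 = Q := by
    have : y ^ 4 = (y ^ 2) ^ 2 := by ring
    rw [this, hy2, Real.sq_sqrt (by linarith)]
  have hy0 : 0 < y := by
    rw [hy]
    exact Real.sqrt_pos.2 (Real.sqrt_pos.2 (by linarith))
  have hlog : Real.log Q ≤ 4 * y := by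
    rw [← hy4, Real.log_pow]
    have := Real.log_le_sub_one_of_pos hy0
    push_cast
    linarith
  have hlogpos : 0 < Real.log Q := Real.log_pos (by linarith)
  have hyc : 32 / c ≤ y := by
    apply le_of_pow_le_pow_left₀ (n := 4) (by norm_num) hy0.le
    rw [hy4]
    exact hQc
  have h1 : L ^ (4 * m) ≤ Q := by
    have h2 : L ^ (4 * m + 1) ≤ L ^ C := pow_le_pow_right₀ (by linarith) hC
    have h3 : L ^ (4 * m) * 2 ≤ L ^ (4 * m + 1) := by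
      rw [pow_succ]
      gcongr
    linarith
  have h2 : L ^ (2 * m) ≤ y ^ 2 := by
    apply le_of_pow_le_pow_left₀ (n := 2) (by norm_num) (by positivity)
    rw [← pow_mul, ← pow_mul, show 2 * m * 2 = 4 * m by ring, show 2 * 2 = 4 by norm_num, hy4]
    exact h1
  refine h2.trans ?_
  rw [le_div_iff₀ hlogpos]
  rw [div_le_iff₀ hc] at hyc
  have h5 : y ^ 2 * Real.log Q ≤ y ^ 2 * (4 * y) := by gcongr
  have h6 : y ^ 2 * (4 * y) ≤ c / 8 * y ^ 4 := by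
    have : 0 ≤ y ^ 3 := by positivity
    nlinarith
  rw [← hy4] at h5 ⊢
  linarith

lemma mk1 {δ : ℝ} (hδ : 0 < δ) {X Q : ℕ} (hlQ : 1 ≤ Real.log Q) (h : 16 / δ ≤ Real.log Q) :
    8 * (X : ℝ) ^ 2 * (1 + Real.log (Nat.sqrt Q)) / (Real.log Q) ^ 2 ≤ δ * (X : ℝ) ^ 2 := by
  have h0 : 0 < Real.log Q := by linarith
  have h1 : Real.log (Nat.sqrt Q) ≤ Real.log Q := by
    rcases Nat.eq_zero_or_pos (Nat.sqrt Q) with e | e
    · rw [e]
      simp
      linarith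
    · apply Real.log_le_log (by exact_mod_cast e)
      exact_mod_cast Nat.sqrt_le_self Q
  rw [div_le_iff₀ (by positivity)]
  rw [div_le_iff₀ hδ] at h
  have h2 : 8 * (1 + Real.log (Nat.sqrt Q)) ≤ δ * (Real.log Q) ^ 2 := by nlinarith
  have h3 : (0 : ℝ) ≤ (X : ℝ) ^ 2 := by positivity
  calc 8 * (X : ℝ) ^ 2 * (1 + Real.log (Nat.sqrt Q)) =
      (X : ℝ) ^ 2 * (8 * (1 + Real.log (Nat.sqrt Q))) := by ring
    _ ≤ (X : ℝ) ^ 2 * (δ * (Real.log Q) ^ 2) := mul_le_mul_of_nonneg_left h2 h3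
    _ = _ := by ring

lemma mk2 {δ : ℝ} (hδ : 0 < δ) {X : ℕ} (hX : 2 ≤ X) (hl : 1 ≤ Real.log X) (h : 24 / δ ≤ Real.log X) :
    8 * (X : ℝ) ^ 2 * (1 + Real.log ((2 * X : ℕ) : ℝ)) / (Real.log X) ^ 2 ≤ δ * (X : ℝ) ^ 2 := by
  have h0 : 0 < Real.log X := by linarith
  have hX' : (2 : ℝ) ≤ X := by exact_mod_cast hX
  have h1 : Real.log ((2 * X : ℕ) : ℝ) ≤ 2 * Real.log X := by
    have e : (2 : ℝ) * Real.log X = Real.log ((X : ℝ) ^ 2) := by
      rw [Real.log_pow]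
      norm_num
    rw [e]
    apply Real.log_le_log (by push_cast; positivity)
    push_cast
    nlinarith
  rw [div_le_iff₀ (by positivity)]
  rw [div_le_iff₀ hδ] at h
  have h2 : 8 * (1 + Real.log ((2 * X : ℕ) : ℝ)) ≤ δ * (Real.log X) ^ 2 := by nlinarith
  have h3 : (0 : ℝ) ≤ (X : ℝ) ^ 2 := by positivity
  calc 8 * (X : ℝ) ^ 2 * (1 + Real.log ((2 * X : ℕ) : ℝ)) =
      (X : ℝ) ^ 2 * (8 * (1 + Real.log ((2 * X : ℕ) : ℝ))) := by ring
    _ ≤ (X : ℝ) ^ 2 * (δ * (Real.log X) ^ 2) := mul_le_mul_of_nonneg_left h2 h3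
    _ = _ := by ring

open Classical in
/-- **The box theorem.** -/
theorem box_all (k : ℕ) (ε : ℝ) (hε : 0 < ε) : ∃ Y0 : ℕ, 2 ≤ Y0 ∧ ∀ Y : ℕ, Y0 ≤ Y →
    ∃ X0 : ℕ, ∀ X : ℕ, X0 ≤ X → ∀ Q : ℕ, (Real.log X) ^ (CE k) ≤ 2 * Q →
    (((TB k X).filter (fun t => ¬ GT Y X Q t)).card : ℝ) ≤ ε * (X : ℝ) ^ (2 * k) := by
  -- the constants
  obtain ⟨A, hA⟩ : ∃ A : ℝ, A = 9 ^ k := ⟨_, rfl⟩
  have hA1 : 1 ≤ A := by rw [hA]; exact one_le_pow₀ (by norm_num)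
  have hk0 : (0 : ℝ) ≤ k := Nat.cast_nonneg _
  obtain ⟨Y0, hY0⟩ := exists_nat_ge ((32 * k + 576 * (k : ℝ) ^ 2) * A / (ε / 3) + 2)
  have hY02 : 2 ≤ Y0 := by
    have : (0 : ℝ) ≤ (32 * k + 576 * (k : ℝ) ^ 2) * A / (ε / 3) := by positivity
    have h2 : (2 : ℝ) ≤ Y0 := by linarith
    exact_mod_cast h2
  refine ⟨Y0, hY02, fun Y hYY => ?_⟩
  have hY : (32 * k + 576 * (k : ℝ) ^ 2) * A / (ε / 3) + 2 ≤ Y :=
    hY0.trans (by exact_mod_cast hYY)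
  have hY2r : (2 : ℝ) ≤ Y := by
    have : (0 : ℝ) ≤ (32 * k + 576 * (k : ℝ) ^ 2) * A / (ε / 3) := by positivity
    linarith
  have hY2 : 2 ≤ Y := by exact_mod_cast hY2r
  have hY3 : (32 * k + 576 * (k : ℝ) ^ 2) * A / Y ≤ ε / 3 := by
    have h1 : (32 * k + 576 * (k : ℝ) ^ 2) * A / (ε / 3) ≤ Y := by linarith
    rw [div_le_iff₀ (by positivity)] at h1 ⊢
    linarith
  set W := WY Y with hW
  have h8 : 8 ∣ W := by rw [hW]; unfold WY; exact Dvd.intro _ rfl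
  have hW0 : 0 < W := by rw [hW]; unfold WY; have := Nat.factorial_pos Y; positivity
  set δ : ℝ := ε / (21 * (k + 1) * A) with hδ
  have hδ0 : 0 < δ := by positivity
  obtain ⟨X1, hX1⟩ := ty2_cnt Y δ hδ0
  obtain ⟨X2, hX2⟩ := bad_cnt (k := k) W (6 * k + 2) (6 * k + 2) (4 * k) h8 hW0 (ε / 3) (by positivity)
  obtain ⟨c, Q0, hc, hpnt⟩ := Pool.Agent.Y157.SH.pnt W hW0
  have tL : Filter.Tendsto (fun X : ℕ => Real.log (X : ℝ)) Filter.atTop Filter.atTop :=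
    Real.tendsto_log_atTop.comp tendsto_natCast_atTop_atTop
  have tN : Filter.Tendsto (fun X : ℕ => (X : ℝ)) Filter.atTop Filter.atTop :=
    tendsto_natCast_atTop_atTop
  obtain ⟨Q1, hQ1⟩ := Filter.eventually_atTop.1 ((tL.eventually_ge_atTop 1).and
    ((tL.eventually_ge_atTop (8 / c)).and ((tL.eventually_ge_atTop (16 / δ)).and
    ((tN.eventually_ge_atTop ((32 / c) ^ 4)).and ((tN.eventually_ge_atTop 2).and
    (Filter.eventually_ge_atTop Q0))))))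
  obtain ⟨X3, hX3⟩ := Filter.eventually_atTop.1 ((tL.eventually_ge_atTop 2).and
    ((tL.eventually_ge_atTop (16 * (4 * k : ℕ) / c)).and ((tL.eventually_ge_atTop (24 / δ)).and
    ((tL.eventually_ge_atTop (2 * Q1)).and (Filter.eventually_ge_atTop 2)))))
  refine ⟨X1 + X2 + X3, fun X hX Q hQL => ?_⟩
  obtain ⟨a1, a2, a3, a4, a5⟩ := hX3 X (by omega)
  have hX1' : 1 ≤ X := by omega
  have hQQ : Q1 ≤ Q := by
    have e1 : Real.log X ≤ (Real.log X) ^ (CE k) := le_self_pow₀ (by linarith) (by unfold CE; omega)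
    have : (Q1 : ℝ) ≤ Q := by linarith
    exact_mod_cast this
  obtain ⟨b1, b2, b3, b4, b5, b6⟩ := hQ1 Q hQQ
  have hcc := hcc_of (m := 6 * k) (C := CE k) a1 hc (by unfold CE; omega) hQL b5 b4
  have hp := hpnt Q b6
  -- the exceptional tuples
  let E1 : Fin k → Finset (Fin k → ℤ × ℤ) := fun i =>
    (TB k X).filter (fun t => ¬ Ty1 Y (t i).1 (t i).2)
  let E2 : Fin k → Finset (Fin k → ℤ × ℤ) := fun i =>
    (TB k X).filter (fun t => ¬ Ty2 Y (t i).1 (t i).2)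
  let E3 : Fin k × Fin k → Finset (Fin k → ℤ × ℤ) := fun i =>
    if i.1 = i.2 then ∅ else (TB k X).filter (fun t => Crs Y (t i.1) (t i.2))
  let E4 : Fin k × Fin 3 → Finset (Fin k → ℤ × ℤ) := fun i =>
    (TB k X).filter (fun t => ¬ (tau (Nat.sqrt Q) (lf (t i.1) i.2) : ℝ) ≤ (Real.log Q) ^ 2)
  let E5 : Fin k × Fin 3 → Finset (Fin k → ℤ × ℤ) := fun i =>
    (TB k X).filter (fun t => ¬ (tau (2 * X) (lf (t i.1) i.2) : ℝ) ≤ (Real.log X) ^ 2)
  let E6 : Finset (Fin k → ℤ × ℤ) :=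
    (TB k X).filter (fun t => HB W (6 * k + 2) (6 * k + 2) (4 * k) X Q t)
  have hsub : (TB k X).filter (fun t => ¬ GT Y X Q t) ⊆ (univ.biUnion E1 ∪ univ.biUnion E2) ∪
      (univ.biUnion E3 ∪ (univ.biUnion E4 ∪ (univ.biUnion E5 ∪ E6))) := by
    intro t ht
    rw [mem_filter] at ht
    obtain ⟨hB, hn⟩ := ht
    by_contra hcon
    rw [mem_union, mem_union, mem_union, mem_union, mem_union] at hcon
    push Not at hcon
    obtain ⟨⟨k1, k2⟩, k3, k4, k5, k6⟩ := hcon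
    apply hn
    refine gt_of hY2 a5 hB hc (by linarith) b1 hp b2 hcc a2 ?_ ?_ ?_ ?_ ?_ ?_
    · intro i
      by_contra h
      exact k1 (mem_biUnion.2 ⟨i, mem_univ _, mem_filter.2 ⟨hB, h⟩⟩)
    · intro i
      by_contra h
      exact k2 (mem_biUnion.2 ⟨i, mem_univ _, mem_filter.2 ⟨hB, h⟩⟩)
    · intro i i' hi h
      refine k3 (mem_biUnion.2 ⟨(i, i'), mem_univ _, ?_⟩)
      change t ∈ (if i = i' then ∅ else (TB k X).filter (fun t => Crs Y (t i) (t i')))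
      rw [if_neg hi]
      exact mem_filter.2 ⟨hB, h⟩
    · intro i j
      by_contra h
      exact k4 (mem_biUnion.2 ⟨(i, j), mem_univ _, mem_filter.2 ⟨hB, h⟩⟩)
    · intro i j
      by_contra h
      exact k5 (mem_biUnion.2 ⟨(i, j), mem_univ _, mem_filter.2 ⟨hB, h⟩⟩)
    · intro h
      exact k6 (mem_filter.2 ⟨hB, h⟩)
  obtain ⟨Z, hZ⟩ : ∃ Z : ℝ, Z = (X : ℝ) ^ (2 * k) := ⟨_, rfl⟩
  have hZ0 : 0 ≤ Z := by rw [hZ]; positivity
  have c1 : ((univ.biUnion E1).card : ℝ) ≤ k * (32 / Y * A * Z) := by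
    have h1 : ((univ.biUnion E1).card : ℝ) ≤ ∑ i : Fin k, ((E1 i).card : ℝ) := by
      exact_mod_cast card_biUnion_le
    refine h1.trans ?_
    have h2 : ∀ i ∈ (univ : Finset (Fin k)), ((E1 i).card : ℝ) ≤ 32 / Y * A * Z := by
      intro i _
      rw [hA, hZ]
      refine tup_one X hX1' (fun x => ¬ Ty1 Y x.1 x.2) i (32 / Y) ?_
      refine (ty1_cnt X Y hX1' (by omega)).trans (le_of_eq (by ring))
    refine (sum_le_sum h2).trans ?_
    rw [sum_const, card_univ, Fintype.card_fin, nsmul_eq_mul]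
  have c2 : ((univ.biUnion E2).card : ℝ) ≤ k * (δ * A * Z) := by
    have h1 : ((univ.biUnion E2).card : ℝ) ≤ ∑ i : Fin k, ((E2 i).card : ℝ) := by
      exact_mod_cast card_biUnion_le
    refine h1.trans ?_
    have h2 : ∀ i ∈ (univ : Finset (Fin k)), ((E2 i).card : ℝ) ≤ δ * A * Z := by
      intro i _
      rw [hA, hZ]
      exact tup_one X hX1' (fun x => ¬ Ty2 Y x.1 x.2) i δ (hX1 X (by omega))
    refine (sum_le_sum h2).trans ?_
    rw [sum_const, card_univ, Fintype.card_fin, nsmul_eq_mul]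
  have c3 : ((univ.biUnion E3).card : ℝ) ≤ k ^ 2 * (576 / Y * A * Z) := by
    have h1 : ((univ.biUnion E3).card : ℝ) ≤ ∑ i : Fin k × Fin k, ((E3 i).card : ℝ) := by
      exact_mod_cast card_biUnion_le
    refine h1.trans ?_
    have h2 : ∀ i ∈ (univ : Finset (Fin k × Fin k)), ((E3 i).card : ℝ) ≤ 576 / Y * A * Z := by
      rintro ⟨i, i'⟩ _
      change (((if i = i' then ∅ else (TB k X).filter (fun t => Crs Y (t i) (t i'))) :
        Finset (Fin k → ℤ × ℤ)).card : ℝ) ≤ _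
      split_ifs with h
      · simp only [card_empty, Nat.cast_zero]
        positivity
      · rw [hA, hZ]
        exact cross_cnt X Y hX1' (by omega) i i' h
    refine (sum_le_sum h2).trans ?_
    rw [sum_const, card_univ, Fintype.card_prod, Fintype.card_fin, nsmul_eq_mul]
    push_cast
    apply le_of_eq
    ring
  have c4 : ((univ.biUnion E4).card : ℝ) ≤ 3 * k * (δ * A * Z) := by
    have h1 : ((univ.biUnion E4).card : ℝ) ≤ ∑ i : Fin k × Fin 3, ((E4 i).card : ℝ) := by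
      exact_mod_cast card_biUnion_le
    refine h1.trans ?_
    have h2 : ∀ i ∈ (univ : Finset (Fin k × Fin 3)), ((E4 i).card : ℝ) ≤ δ * A * Z := by
      rintro ⟨i, j⟩ _
      rw [hA, hZ]
      refine tup_one X hX1' (fun x => ¬ (tau (Nat.sqrt Q) (lf x j) : ℝ) ≤ (Real.log Q) ^ 2) i δ ?_
      exact (mk_cnt X (Nat.sqrt Q) j _ (by positivity)).trans (mk1 hδ0 b1 b3)
    refine (sum_le_sum h2).trans ?_
    rw [sum_const, card_univ, Fintype.card_prod, Fintype.card_fin, Fintype.card_fin, nsmul_eq_mul]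
    push_cast
    apply le_of_eq
    ring
  have c5 : ((univ.biUnion E5).card : ℝ) ≤ 3 * k * (δ * A * Z) := by
    have h1 : ((univ.biUnion E5).card : ℝ) ≤ ∑ i : Fin k × Fin 3, ((E5 i).card : ℝ) := by
      exact_mod_cast card_biUnion_le
    refine h1.trans ?_
    have h2 : ∀ i ∈ (univ : Finset (Fin k × Fin 3)), ((E5 i).card : ℝ) ≤ δ * A * Z := by
      rintro ⟨i, j⟩ _
      rw [hA, hZ]
      refine tup_one X hX1' (fun x => ¬ (tau (2 * X) (lf x j) : ℝ) ≤ (Real.log X) ^ 2) i δ ?_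
      exact (mk_cnt X (2 * X) j _ (by positivity)).trans (mk2 hδ0 a5 (by linarith) a3)
    refine (sum_le_sum h2).trans ?_
    rw [sum_const, card_univ, Fintype.card_prod, Fintype.card_fin, Fintype.card_fin, nsmul_eq_mul]
    push_cast
    apply le_of_eq
    ring
  have c6 : (E6.card : ℝ) ≤ ε / 3 * Z := by
    rw [hZ]
    exact hX2 X (by omega) Q hQL
  have c7 : (((TB k X).filter (fun t => ¬ GT Y X Q t)).card : ℝ) ≤
      ((univ.biUnion E1).card + (univ.biUnion E2).card) +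
      ((univ.biUnion E3).card + ((univ.biUnion E4).card + ((univ.biUnion E5).card + E6.card))) := by
    have h1 := card_le_card hsub
    have h2 := card_union_le (univ.biUnion E1 ∪ univ.biUnion E2)
      (univ.biUnion E3 ∪ (univ.biUnion E4 ∪ (univ.biUnion E5 ∪ E6)))
    have h3 := card_union_le (univ.biUnion E1) (univ.biUnion E2)
    have h4 := card_union_le (univ.biUnion E3) (univ.biUnion E4 ∪ (univ.biUnion E5 ∪ E6))
    have h5 := card_union_le (univ.biUnion E4) (univ.biUnion E5 ∪ E6)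
    have h6 := card_union_le (univ.biUnion E5) E6
    have h7 : ((TB k X).filter (fun t => ¬ GT Y X Q t)).card ≤
      ((univ.biUnion E1).card + (univ.biUnion E2).card) +
      ((univ.biUnion E3).card + ((univ.biUnion E4).card + ((univ.biUnion E5).card + E6.card))) := by
      omega
    exact_mod_cast h7
  have hδA : 7 * k * (δ * A) ≤ ε / 3 := by
    have e1 : δ * A = ε / (21 * (k + 1)) := by
      rw [hδ]
      field_simp
    rw [e1]
    have e2 : 7 * (k : ℝ) * (ε / (21 * (k + 1))) = ε / 3 * (k / (k + 1)) := by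
      field_simp
      ring
    rw [e2]
    have e3 : (k : ℝ) / (k + 1) ≤ 1 := by
      rw [div_le_one (by positivity)]
      linarith
    nlinarith
  rw [← hZ]
  have e1 : k * (32 / Y * A * Z) + k ^ 2 * (576 / Y * A * Z) =
      ((32 * k + 576 * (k : ℝ) ^ 2) * A / Y) * Z := by ring
  have e2 : ((32 * k + 576 * (k : ℝ) ^ 2) * A / Y) * Z ≤ ε / 3 * Z :=
    mul_le_mul_of_nonneg_right hY3 hZ0
  have e3 : k * (δ * A * Z) + 3 * k * (δ * A * Z) + 3 * k * (δ * A * Z) =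
      (7 * k * (δ * A)) * Z := by ring
  have e4 : (7 * k * (δ * A)) * Z ≤ ε / 3 * Z := mul_le_mul_of_nonneg_right hδA hZ0
  linarith

open Classical in
/-- **The box theorem.** -/
theorem box_main (k : ℕ) (ε : ℝ) (hε : 0 < ε) : ∃ Y : ℕ, 2 ≤ Y ∧ ∃ X0 : ℕ, ∀ X : ℕ, X0 ≤ X →
    ∀ Q : ℕ, (Real.log X) ^ (CE k) ≤ 2 * Q →
    (((TB k X).filter (fun t => ¬ GT Y X Q t)).card : ℝ) ≤ ε * (X : ℝ) ^ (2 * k) := by
  obtain ⟨Y, hY2, h⟩ := box_all k ε hε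
  exact ⟨Y, hY2, h Y le_rfl⟩

end Pool.Agent.Y676
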