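import Pool.Agent.Y676.Vir

/-!
# The flipping lemma and the trivial virtual Selmer group
-/

set_option autoImplicit false

namespace Pool.Agent.Y676

open Pool.Agent.W313.BMX (Splits splits_comm splits_mul_sq ram diag even_agree)
open Pool.Agent.W307.SE (Loc)
open Pool.Agent.W262.RK (dv sgn sg0)
open HS

/-- the pairs with a prime factor in common -/
def rm (p : ℕ) (e : ℤ × ℤ) : Bool := dv p e.1 || dv p e.2

lemma splits_unit {p : ℕ} [hp : Fact p.Prime] (hp2 : p ≠ 2) {d f : ℤ} (hd : ¬ (p : ℤ) ∣ d)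
    (hf : ¬ (p : ℤ) ∣ f) : Splits (d : ℚ_[p]) (f : ℚ_[p]) :=
  Pool.Agent.W335.BMX.odd2 p hp2 d f hd hf

/-- **the flipping lemma** -/
theorem flip_ram {Y : ℕ} {A B : ℤ} (hY : 2 ≤ Y) (hA : A ≠ 0) {s s' : ℕ → Bool} {l : ℕ}
    (hl : l.Prime) (hYl : Y < l) (hlN : (l : ℤ) ∣ A * B * (A - B))
    (hs : ∀ p, p ≠ l → s p = s' p) (hsl : s l ≠ s' l) {e f : ℤ × ℤ} (he : InS Y A B s e)
    (hf : InS Y A B s' f) (her : rm l e = true) : rm l f = false := by
  by_contra hcon
  have hfr : rm l f = true := by simpa using hcon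
  have e1 := he.sq1.ne_zero
  have e2 := he.sq2.ne_zero
  have f1 := hf.sq1.ne_zero
  have f2 := hf.sq2.ne_zero
  have hR := Pool.Agent.W351.HB.PF.ev_all Pool.Agent.W215.HB.bilo_ Pool.Agent.W864.HBm.bilt_
    e.1 f.2 e1 f2
  have hS := Pool.Agent.W351.HB.PF.ev_all Pool.Agent.W215.HB.bilo_ Pool.Agent.W864.HBm.bilt_
    e.2 f.1 e2 f1
  have : Fact l.Prime := ⟨hl⟩
  have key := even_agree hS.1 hS.2 (some (⟨l, hl⟩ : Nat.Primes)) (R := ram (diag e.1) f.2) ?_ (fun _ => hR.2)
  · have key2 : ¬ Splits (e.1 : ℚ_[l]) (f.2 : ℚ_[l]) ↔ ¬ Splits (e.2 : ℚ_[l]) (f.1 : ℚ_[l]) := key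
    rw [not_iff_not] at key2
    have h1 := (pair_lc (p := l) (by omega) he.sq1 he.sq2 hf.sq1 hf.sq2 (he.lc l hl hYl)
      (hf.lc l hl hYl) hlN).1 key2
    unfold rm at her hfr
    rw [her, hfr] at h1
    revert h1 hsl
    generalize s l = a
    generalize s' l = b
    revert a b
    decide
  · intro v hv
    cases v with
    | none =>
      rw [Pool.Agent.W351.HB.PF.mem_none, Pool.Agent.W351.HB.PF.mem_none, not_iff_not]
      exact iso_loc bl_real (by exact_mod_cast hA) (by exact_mod_cast e1) (by exact_mod_cast e2)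
        (by exact_mod_cast f1) (by exact_mod_cast f2) he.re hf.re
    | some p =>
      rw [Pool.Agent.W351.HB.PF.mem_some, Pool.Agent.W351.HB.PF.mem_some, not_iff_not]
      rcases p with ⟨p, hp⟩
      have hpl : p ≠ l := by
        rintro rfl
        exact hv rfl
      have : Fact p.Prime := ⟨hp⟩
      by_cases hpY : p ≤ Y
      · exact iso_loc (bl_padic p) (by exact_mod_cast hA) (by exact_mod_cast e1)
          (by exact_mod_cast e2) (by exact_mod_cast f1) (by exact_mod_cast f2) (he.sm p hpY)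
          (hf.sm p hpY)
      · have hpY' : Y < p := by omega
        have hp2 : p ≠ 2 := by omega
        by_cases hpN : (p : ℤ) ∣ A * B * (A - B)
        · refine (pair_lc (p := p) (by omega) he.sq1 he.sq2 hf.sq1 hf.sq2 (he.lc p hp hpY')
            (hf.lc p hp hpY') hpN).2 ?_
          rw [hs p hpl]
          simp
        · obtain ⟨a1, a2⟩ := he.un p hp hpY' hpN
          obtain ⟨b1, b2⟩ := hf.un p hp hpY' hpN
          exact iff_of_true (splits_unit hp2 a1 b2) (splits_unit hp2 a2 b1)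

lemma Lc.congr {A B : ℤ} {s s' : ℕ → Bool} {p : ℕ} {e : ℤ × ℤ} (h : Lc A B s p e)
    (h1 : s p = s' p ∨ rm p e = false) : Lc A B s' p e := by
  rcases h1 with h1 | h1
  · unfold Lc at h ⊢
    rw [← h1]
    exact h
  · unfold rm at h1
    rw [Bool.or_eq_false_iff] at h1
    obtain ⟨h2, h3⟩ := h1
    unfold Lc at h ⊢
    rw [h2, h3] at h ⊢
    simpa using h

lemma InS.congr {Y : ℕ} {A B : ℤ} {s s' : ℕ → Bool} {e : ℤ × ℤ} (h : InS Y A B s e)
    (h1 : ∀ p : ℕ, p.Prime → Y < p → (p : ℤ) ∣ A * B * (A - B) → s p = s' p ∨ rm p e = false) :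
    InS Y A B s' e := by
  refine ⟨h.sq1, h.sq2, h.re, h.sm, h.un, fun p hp hYp => ?_⟩
  by_cases hN : (p : ℤ) ∣ A * B * (A - B)
  · exact (h.lc p hp hYp).congr (h1 p hp hYp hN)
  · refine ⟨fun h => absurd ?_ hN, fun h => absurd ?_ hN, fun h => absurd ?_ hN⟩
    · exact (h.mul_right _).mul_right _
    · exact (h.mul_left _).mul_right _
    · exact h.mul_left _

/-- the virtual Selmer group is finite -/
lemma fin_InS (Y : ℕ) {A B : ℤ} (hN : A * B * (A - B) ≠ 0) (s : ℕ → Bool) :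
    {e | InS Y A B s e}.Finite := by
  obtain ⟨M, hM⟩ : ∃ M : ℤ, M = (Y.factorial : ℤ) * (A * B * (A - B)) := ⟨_, rfl⟩
  have hM0 : M ≠ 0 := by
    rw [hM]
    exact mul_ne_zero (by exact_mod_cast Nat.factorial_ne_zero Y) hN
  have hfin : {d : ℤ | d ∣ M}.Finite := by
    have : {d : ℤ | d ∣ M} ⊆ Set.Icc (-|M|) |M| := by
      intro d hd
      have h1 := Int.le_of_dvd (abs_pos.2 hM0) ((abs_dvd_abs d M).2 hd)
      exact ⟨by linarith [neg_abs_le d], (le_abs_self d).trans h1⟩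
    exact (Set.finite_Icc _ _).subset this
  have hdvd : ∀ d : ℤ, Squarefree d → (∀ p : ℕ, p.Prime → (p : ℤ) ∣ d → p ≤ Y ∨
      (p : ℤ) ∣ A * B * (A - B)) → d ∣ M := by
    intro d hd h
    rw [← Int.natAbs_dvd_natAbs]
    have hd' : Squarefree d.natAbs := Int.squarefree_natAbs.2 hd
    rw [← Nat.prod_primeFactors_of_squarefree hd']
    apply Finset.prod_primes_dvd
    · intro p hp
      exact (Nat.prime_of_mem_primeFactors hp).prime
    · intro p hp
      have hpp := Nat.prime_of_mem_primeFactors hp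
      have hpd : (p : ℤ) ∣ d := Int.natCast_dvd.2 (Nat.dvd_of_mem_primeFactors hp)
      rw [← Int.natCast_dvd, hM]
      rcases h p hpp hpd with h1 | h1
      · refine Dvd.dvd.mul_right ?_ _
        exact_mod_cast hpp.dvd_factorial.2 h1
      · exact h1.mul_left _
  refine (hfin.prod hfin).subset ?_
  intro e he
  have hcase : ∀ p : ℕ, p.Prime → p ≤ Y ∨ (p : ℤ) ∣ A * B * (A - B) ∨
      (¬ (p : ℤ) ∣ e.1 ∧ ¬ (p : ℤ) ∣ e.2) := by
    intro p hp
    by_cases h1 : p ≤ Y
    · exact Or.inl h1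
    · by_cases h2 : (p : ℤ) ∣ A * B * (A - B)
      · exact Or.inr (Or.inl h2)
      · exact Or.inr (Or.inr (he.un p hp (by omega) h2))
  refine ⟨hdvd e.1 he.sq1 fun p hp hpe => ?_, hdvd e.2 he.sq2 fun p hp hpe => ?_⟩
  · rcases hcase p hp with h | h | h
    · exact Or.inl h
    · exact Or.inr h
    · exact absurd hpe h.1
  · rcases hcase p hp with h | h | h
    · exact Or.inl h
    · exact Or.inr h
    · exact absurd hpe h.2

/-- the typical conditions: no square of a large prime divides `A B (A - B)` -/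
def Ty1 (Y : ℕ) (A B : ℤ) : Prop := ∀ l : ℕ, l.Prime → Y < l → ¬ (l : ℤ) ^ 2 ∣ A * B * (A - B)

/-- the typical conditions: the small square classes are not locally trivial -/
def Ty2 (Y : ℕ) (A B : ℤ) : Prop := ∀ d : ℤ, Squarefree d → d ≠ 1 →
  (∀ p : ℕ, p.Prime → (p : ℤ) ∣ d → p ≤ Y) →
  (∃ l : ℕ, l.Prime ∧ Y < l ∧ (l : ℤ) ∣ B ∧ jacobiSym d l = -1) ∧
  (∃ l : ℕ, l.Prime ∧ Y < l ∧ (l : ℤ) ∣ A - B ∧ jacobiSym d l = -1)

/-- a non-trivial element is ramified at a large prime -/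
lemma exists_ram {Y : ℕ} {A B : ℤ} (h2 : Ty2 Y A B) {s : ℕ → Bool} {e : ℤ × ℤ}
    (he : InS Y A B s e) (hne : e ≠ (1, 1)) : ∃ l : ℕ, l.Prime ∧ Y < l ∧
      (l : ℤ) ∣ A * B * (A - B) ∧ rm l e = true := by
  by_contra hcon
  push Not at hcon
  have hsm : ∀ p : ℕ, p.Prime → Y < p → ¬ (p : ℤ) ∣ e.1 ∧ ¬ (p : ℤ) ∣ e.2 := by
    intro p hp hYp
    by_cases hN : (p : ℤ) ∣ A * B * (A - B)
    · have h := hcon p hp hYp hN
      unfold rm dv at h
      simpa using h
    · exact he.un p hp hYp hN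
  have hdvf : ∀ p : ℕ, p.Prime → Y < p → dv p e.1 = false ∧ dv p e.2 = false := by
    intro p hp hYp
    unfold dv
    simpa using hsm p hp hYp
  have hsgn : ∀ (d : ℤ) (l : ℕ), l.Prime → ¬ (l : ℤ) ∣ d → jacobiSym d l = -1 →
      sgn l d = true := by
    intro d l hl hd hj
    unfold sgn
    have hg : Int.gcd d l = 1 := by
      rw [Int.gcd_comm]
      exact Int.isCoprime_iff_gcd_eq_one.1
        ((Prime.coprime_iff_not_dvd (Nat.prime_iff_prime_int.1 hl)).2 hd)
    rw [hg]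
    simp [sg0, hj]
  have he1 : e.1 = 1 := by
    by_contra h1
    obtain ⟨-, l, hl, hYl, hlB, hj⟩ := h2 e.1 he.sq1 h1 (fun p hp hpd => by
      by_contra h
      exact (hsm p hp (by omega)).1 hpd)
    have h3 := ((he.lc l hl hYl).2.2 hlB).2
    rw [(hdvf l hl hYl).2, Bool.false_and, hsgn e.1 l hl (hsm l hl hYl).1 hj] at h3
    exact absurd h3 (by decide)
  have he2 : e.2 = 1 := by
    by_contra h1
    obtain ⟨⟨l, hl, hYl, hlB, hj⟩, -⟩ := h2 e.2 he.sq2 h1 (fun p hp hpd => by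
      by_contra h
      exact (hsm p hp (by omega)).2 hpd)
    have h3 := ((he.lc l hl hYl).2.1 hlB).2
    rw [(hdvf l hl hYl).1, Bool.false_and, hsgn e.2 l hl (hsm l hl hYl).2 hj] at h3
    exact absurd h3 (by decide)
  exact hne (Prod.ext he1 he2)

/-- **There are signs with trivial virtual Selmer group.** -/
theorem exists_signs {Y : ℕ} {A B : ℤ} (hY : 2 ≤ Y) (hN : A * B * (A - B) ≠ 0)
    (h2 : Ty2 Y A B) : ∃ s : ℕ → Bool, ∀ e, InS Y A B s e → e = (1, 1) := by
  have hA : A ≠ 0 := left_ne_zero_of_mul (left_ne_zero_of_mul hN)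
  suffices H : ∀ (n : ℕ) (s : ℕ → Bool), {e | InS Y A B s e}.ncard = n →
      ∃ s : ℕ → Bool, ∀ e, InS Y A B s e → e = (1, 1) from
    H _ (fun _ => false) rfl
  intro n
  induction n using Nat.strong_induction_on with
  | _ n ih =>
    intro s hs
    by_cases hall : ∀ e, InS Y A B s e → e = (1, 1)
    · exact ⟨s, hall⟩
    push Not at hall
    obtain ⟨e, he, hne⟩ := hall
    obtain ⟨l, hl, hYl, hlN, hr⟩ := exists_ram h2 he hne
    obtain ⟨s', hs'⟩ : ∃ s' : ℕ → Bool, s' = fun p => if p = l then !(s l) else s p := ⟨_, rfl⟩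
    have hs1 : ∀ p, p ≠ l → s p = s' p := by
      intro p hp
      rw [hs']
      simp [hp]
    have hs2 : s l ≠ s' l := by
      rw [hs']
      simp
    have hunr : ∀ f, InS Y A B s' f → rm l f = false := fun f hf =>
      flip_ram hY hA hl hYl hlN hs1 hs2 he hf hr
    have hsub : {f | InS Y A B s' f} ⊂ {f | InS Y A B s f} := by
      refine ⟨fun f hf => ?_, fun h => ?_⟩
      · have hf' : InS Y A B s' f := hf
        exact hf'.congr fun p _ _ _ => by
          by_cases hpl : p = l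
          · subst hpl
            exact Or.inr (hunr f hf')
          · exact Or.inl (hs1 p hpl).symm
      · have h3 := hunr e (h he)
        rw [hr] at h3
        exact absurd h3 (by decide)
    have hlt := Set.ncard_lt_ncard hsub (fin_InS Y hN s)
    rw [hs] at hlt
    exact ih _ hlt s' rfl

end Pool.Agent.Y676
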