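import Pool.Agent.Y676.Asg
import Pool.Agent.Y676.Flip
import Pool.Agent.Y180.Y676.DEN

/-!
# The exceptional pairs
-/

set_option autoImplicit false

namespace Pool.Agent.Y676

open Finset
open Pool.Agent.Y157.SH (lf Nn_eq PR mem_PR pair_bound mult_count)

lemma bx_card (X : ℕ) (hX : 1 ≤ X) : ((Bx X).card : ℝ) ≤ 9 * (X : ℝ) ^ 2 := by
  have h1 : (Bx X).card ≤ (2 * X + 1) ^ 2 := by
    unfold Bx
    refine (card_filter_le _ _).trans ?_
    rw [card_product, Int.card_Icc]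
    have : ((X : ℤ) + 1 - -(X : ℤ)).toNat = 2 * X + 1 := by omega
    rw [this]
    exact le_of_eq (by ring)
  have h2 : ((Bx X).card : ℝ) ≤ (2 * X + 1) ^ 2 := by exact_mod_cast h1
  have h3 : (1 : ℝ) ≤ X := by exact_mod_cast hX
  nlinarith

lemma mem_Bx {X : ℕ} {t : ℤ × ℤ} : t ∈ Bx X ↔
    ((-(X : ℤ) ≤ t.1 ∧ t.1 ≤ X) ∧ (-(X : ℤ) ≤ t.2 ∧ t.2 ≤ X)) ∧ (t.1 ≠ 0 ∧ t.2 ≠ 0 ∧ t.1 ≠ t.2) := by
  unfold Bx
  rw [mem_filter, mem_product, mem_Icc, mem_Icc]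

lemma pr3 (X D0 D1 D2 : ℕ) (h0 : 0 < D0) (h1 : 0 < D1) (h2 : 0 < D2) :
    ((PR X D0 D1 D2).card : ℝ) * (D0 * D1) ≤ 8 * (X : ℝ) ^ 2 ∧
    ((PR X D0 D1 D2).card : ℝ) * (D0 * D2) ≤ 8 * (X : ℝ) ^ 2 ∧
    ((PR X D0 D1 D2).card : ℝ) * (D1 * D2) ≤ 8 * (X : ℝ) ^ 2 := by
  have hN : (0 : ℝ) ≤ ((PR X D0 D1 D2).card : ℝ) := Nat.cast_nonneg _
  refine ⟨?_, ?_, ?_⟩
  · have h := pair_bound (X := X) (D0 := D0) (D1 := D1) (D2 := D2) (T := X) (T' := X) h0 h1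
      id Function.injective_id (by
        intro t ht
        rw [mem_PR] at ht
        simp only [id]
        tauto)
    have hX : (0 : ℝ) ≤ (X : ℝ) ^ 2 := by positivity
    nlinarith
  · have h := pair_bound (X := X) (D0 := D0) (D1 := D1) (D2 := D2) (T := X) (T' := 2 * X) h0 h2
      (fun t => (t.1, t.1 - t.2)) (by
        rintro ⟨a, b⟩ ⟨c, d⟩ h
        simp only [Prod.mk.injEq] at h
        obtain ⟨rfl, h⟩ := h
        congr 1
        omega) (by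
        intro t ht
        rw [mem_PR] at ht
        obtain ⟨⟨⟨b1, b2⟩, b3, b4⟩, ⟨b5, b6, b7⟩, b8, b9, b10⟩ := ht
        refine ⟨⟨⟨b1, b2⟩, b5, b8⟩, ⟨⟨?_, ?_⟩, ?_, b10⟩⟩
        · push_cast
          omega
        · push_cast
          omega
        · exact sub_ne_zero.2 b7)
    push_cast at h
    nlinarith
  · have h := pair_bound (X := X) (D0 := D0) (D1 := D1) (D2 := D2) (T := X) (T' := 2 * X) h1 h2
      (fun t => (t.2, t.1 - t.2)) (by
        rintro ⟨a, b⟩ ⟨c, d⟩ h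
        simp only [Prod.mk.injEq] at h
        obtain ⟨rfl, h⟩ := h
        congr 1
        omega) (by
        intro t ht
        rw [mem_PR] at ht
        obtain ⟨⟨⟨b1, b2⟩, b3, b4⟩, ⟨b5, b6, b7⟩, b8, b9, b10⟩ := ht
        refine ⟨⟨⟨b3, b4⟩, b6, b9⟩, ⟨⟨?_, ?_⟩, ?_, b10⟩⟩
        · push_cast
          omega
        · push_cast
          omega
        · exact sub_ne_zero.2 b7)
    push_cast at h
    nlinarith

lemma lf0 (t : ℤ × ℤ) : lf t 0 = t.1 := rfl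

lemma lf1 (t : ℤ × ℤ) : lf t 1 = t.2 := rfl

lemma lf2 (t : ℤ × ℤ) : lf t 2 = t.1 - t.2 := rfl

open Classical in
lemma dvd_one (X d : ℕ) (j : Fin 3) (hd : 0 < d) :
    (((Bx X).filter (fun t => (d : ℤ) ∣ lf t j)).card : ℝ) * d ≤ 8 * (X : ℝ) ^ 2 := by
  have hone : ∀ n : ℕ, 0 < n → (1 : ℤ) ∣ n := fun n _ => one_dvd _
  fin_cases j
  · have h := (pr3 X d 1 1 hd one_pos one_pos).1
    have e : (Bx X).filter (fun t => (d : ℤ) ∣ lf t 0) = PR X d 1 1 := by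
      unfold PR
      apply filter_congr
      intro t _
      rw [lf0]
      simp
    change (((Bx X).filter (fun t => (d : ℤ) ∣ lf t 0)).card : ℝ) * d ≤ _
    rw [e]
    push_cast at h
    linarith
  · have h := (pr3 X 1 d 1 one_pos hd one_pos).1
    have e : (Bx X).filter (fun t => (d : ℤ) ∣ lf t 1) = PR X 1 d 1 := by
      unfold PR
      apply filter_congr
      intro t _
      rw [lf1]
      simp
    change (((Bx X).filter (fun t => (d : ℤ) ∣ lf t 1)).card : ℝ) * d ≤ _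
    rw [e]
    push_cast at h
    linarith
  · have h := (pr3 X 1 1 d one_pos one_pos hd).2.1
    have e : (Bx X).filter (fun t => (d : ℤ) ∣ lf t 2) = PR X 1 1 d := by
      unfold PR
      apply filter_congr
      intro t _
      rw [lf2]
      simp
    change (((Bx X).filter (fun t => (d : ℤ) ∣ lf t 2)).card : ℝ) * d ≤ _
    rw [e]
    push_cast at h
    linarith

open Classical in
/-- two of the three forms divisible by `d` -/
lemma dvd_two (X d : ℕ) (hd : 0 < d) :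
    (((Bx X).filter (fun t : ℤ × ℤ => ((d : ℤ) ∣ t.1 ∧ (d : ℤ) ∣ t.2))).card : ℝ) * (d : ℝ) ^ 2 ≤
      8 * (X : ℝ) ^ 2 := by
  have h := (pr3 X d d 1 hd hd one_pos).1
  have e : (Bx X).filter (fun t : ℤ × ℤ => ((d : ℤ) ∣ t.1 ∧ (d : ℤ) ∣ t.2)) = PR X d d 1 := by
    unfold PR
    apply filter_congr
    intro t _
    simp
  rw [e, pow_two]
  exact h

open Classical in
/-- the pairs which are not squarefree at the large primes -/
theorem ty1_cnt (X Y : ℕ) (hX : 1 ≤ X) (hY : 1 ≤ Y) :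
    (((Bx X).filter (fun t => ¬ Ty1 Y t.1 t.2)).card : ℝ) ≤ 32 * (X : ℝ) ^ 2 / Y := by
  have hsub : (Bx X).filter (fun t => ¬ Ty1 Y t.1 t.2) ⊆
      (Ioc Y (max Y (2 * X))).biUnion (fun l =>
        (((Bx X).filter (fun t => ((l ^ 2 : ℕ) : ℤ) ∣ lf t 0)) ∪
        ((Bx X).filter (fun t => ((l ^ 2 : ℕ) : ℤ) ∣ lf t 1))) ∪
        (((Bx X).filter (fun t => ((l ^ 2 : ℕ) : ℤ) ∣ lf t 2)) ∪
        ((Bx X).filter (fun t : ℤ × ℤ => ((l : ℤ) ∣ t.1 ∧ (l : ℤ) ∣ t.2))))) := by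
    intro t ht
    rw [mem_filter] at ht
    obtain ⟨hB, h⟩ := ht
    unfold Ty1 at h
    push Not at h
    obtain ⟨l, hl, hYl, hd⟩ := h
    have hli : Prime (l : ℤ) := Nat.prime_iff_prime_int.1 hl
    have hld : (l : ℤ) ∣ t.1 * t.2 * (t.1 - t.2) := (dvd_pow_self _ two_ne_zero).trans hd
    have hle : l ≤ 2 * X := by
      have h1 : ∃ j : Fin 3, (l : ℤ) ∣ lf t j := by
        rcases hli.dvd_or_dvd hld with h | h
        · rcases hli.dvd_or_dvd h with h | h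
          · exact ⟨0, h⟩
          · exact ⟨1, h⟩
        · exact ⟨2, h⟩
      obtain ⟨j, hj⟩ := h1
      exact (Nat.le_of_dvd (Int.natAbs_pos.2 (lf_ne hB j)) (Int.natCast_dvd.1 hj)).trans
        (lf_le hB j)
    rw [mem_biUnion]
    refine ⟨l, mem_Ioc.2 ⟨hYl, hle.trans (le_max_right _ _)⟩, ?_⟩
    rw [mem_union, mem_union, mem_union, mem_filter, mem_filter, mem_filter, mem_filter]
    by_cases h12 : (l : ℤ) ∣ t.1 ∧ (l : ℤ) ∣ t.2
    · exact Or.inr (Or.inr ⟨hB, h12⟩)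
    have hcop : ∀ {u v : ℤ}, ¬ (l : ℤ) ∣ u → (l : ℤ) ^ 2 ∣ u * v → (l : ℤ) ^ 2 ∣ v := by
      intro u v hu h
      exact ((IsCoprime.pow_left ((Prime.coprime_iff_not_dvd hli).2 hu)).dvd_of_dvd_mul_left h)
    have e0 : ((l ^ 2 : ℕ) : ℤ) = (l : ℤ) ^ 2 := by push_cast; rfl
    rw [e0, lf0, lf1, lf2]
    by_cases h1 : (l : ℤ) ∣ t.1
    · have h2 : ¬ (l : ℤ) ∣ t.2 := fun h => h12 ⟨h1, h⟩
      have h3 : ¬ (l : ℤ) ∣ t.1 - t.2 := fun h => h2 ((dvd_sub_right h1).1 h)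
      left; left
      refine ⟨hB, hcop h2 (hcop h3 ?_)⟩
      rw [show (t.1 - t.2) * (t.2 * t.1) = t.1 * t.2 * (t.1 - t.2) by ring]
      exact hd
    · by_cases h2 : (l : ℤ) ∣ t.2
      · have h3 : ¬ (l : ℤ) ∣ t.1 - t.2 := fun h => h1 ((dvd_sub_left h2).1 h)
        left; right
        refine ⟨hB, hcop h1 (hcop h3 ?_)⟩
        rw [show (t.1 - t.2) * (t.1 * t.2) = t.1 * t.2 * (t.1 - t.2) by ring]
        exact hd
      · right; left
        refine ⟨hB, hcop h1 (hcop h2 ?_)⟩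
        rw [show t.2 * (t.1 * (t.1 - t.2)) = t.1 * t.2 * (t.1 - t.2) by ring]
        exact hd
  have h1 := (card_le_card hsub).trans card_biUnion_le
  have h2 : ∀ l ∈ Ioc Y (max Y (2 * X)), ((((((Bx X).filter (fun t => ((l ^ 2 : ℕ) : ℤ) ∣ lf t 0)) ∪
        ((Bx X).filter (fun t => ((l ^ 2 : ℕ) : ℤ) ∣ lf t 1))) ∪
        (((Bx X).filter (fun t => ((l ^ 2 : ℕ) : ℤ) ∣ lf t 2)) ∪
        ((Bx X).filter (fun t : ℤ × ℤ => ((l : ℤ) ∣ t.1 ∧ (l : ℤ) ∣ t.2)))))).card : ℝ) ≤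
        32 * (X : ℝ) ^ 2 * ((l : ℝ) ^ 2)⁻¹ := by
    intro l hl
    rw [mem_Ioc] at hl
    have hl0 : 0 < l := by omega
    have hl2 : (0 : ℝ) < (l : ℝ) ^ 2 := by positivity
    have a0 := dvd_one X (l ^ 2) 0 (by positivity)
    have a1 := dvd_one X (l ^ 2) 1 (by positivity)
    have a2 := dvd_one X (l ^ 2) 2 (by positivity)
    have a3 := dvd_two X l hl0
    have e9 : ((l ^ 2 : ℕ) : ℝ) = (l : ℝ) ^ 2 := by push_cast; rfl
    rw [e9] at a0 a1 a2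
    rw [← div_eq_mul_inv, le_div_iff₀ hl2]
    have a4 : ((((((Bx X).filter (fun t => ((l ^ 2 : ℕ) : ℤ) ∣ lf t 0)) ∪
        ((Bx X).filter (fun t => ((l ^ 2 : ℕ) : ℤ) ∣ lf t 1))) ∪
        (((Bx X).filter (fun t => ((l ^ 2 : ℕ) : ℤ) ∣ lf t 2)) ∪
        ((Bx X).filter (fun t : ℤ × ℤ => ((l : ℤ) ∣ t.1 ∧ (l : ℤ) ∣ t.2)))))).card : ℝ) ≤
        ((((Bx X).filter
        (fun t => ((l ^ 2 : ℕ) : ℤ) ∣ lf t 0)).card : ℝ) +
        ((Bx X).filter (fun t => ((l ^ 2 : ℕ) : ℤ) ∣ lf t 1)).card) +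
        ((((Bx X).filter (fun t => ((l ^ 2 : ℕ) : ℤ) ∣ lf t 2)).card : ℝ) +
        ((Bx X).filter (fun t : ℤ × ℤ => ((l : ℤ) ∣ t.1 ∧ (l : ℤ) ∣ t.2))).card) := by
      have := (card_union_le (((Bx X).filter (fun t => ((l ^ 2 : ℕ) : ℤ) ∣ lf t 0)) ∪
        ((Bx X).filter (fun t => ((l ^ 2 : ℕ) : ℤ) ∣ lf t 1)))
        (((Bx X).filter (fun t => ((l ^ 2 : ℕ) : ℤ) ∣ lf t 2)) ∪
        ((Bx X).filter (fun t : ℤ × ℤ => ((l : ℤ) ∣ t.1 ∧ (l : ℤ) ∣ t.2))))).trans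
        (add_le_add (card_union_le _ _) (card_union_le _ _))
      exact_mod_cast this
    refine (mul_le_mul_of_nonneg_right a4 hl2.le).trans ?_
    linarith
  have h3 : (((Bx X).filter (fun t => ¬ Ty1 Y t.1 t.2)).card : ℝ) ≤
      ∑ l ∈ Ioc Y (max Y (2 * X)), 32 * (X : ℝ) ^ 2 * ((l : ℝ) ^ 2)⁻¹ := by
    refine le_trans ?_ (sum_le_sum h2)
    exact_mod_cast h1
  refine h3.trans ?_
  rw [← mul_sum, div_eq_mul_inv]
  apply mul_le_mul_of_nonneg_left _ (by positivity)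
  have h4 := sum_Ioc_inv_sq_le_sub (α := ℝ) (k := Y) (n := max Y (2 * X)) (by omega)
    (le_max_left _ _)
  refine h4.trans ?_
  have : (0 : ℝ) ≤ ((max Y (2 * X) : ℕ) : ℝ)⁻¹ := by positivity
  linarith

open Classical in
/-- the numbers of divisors: Markov -/
theorem mk_cnt (X R : ℕ) (j : Fin 3) (V : ℝ) (hV : 0 < V) :
    (((Bx X).filter (fun t => ¬ (tau R (lf t j) : ℝ) ≤ V)).card : ℝ) ≤
      8 * (X : ℝ) ^ 2 * (1 + Real.log R) / V := by
  have h1 : ∑ t ∈ Bx X, (tau R (lf t j) : ℝ) ≤ 8 * (X : ℝ) ^ 2 * (1 + Real.log R) := by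
    have e1 : ∑ t ∈ Bx X, (tau R (lf t j) : ℝ) =
        ∑ d ∈ Icc 1 R, (((Bx X).filter (fun t => (d : ℤ) ∣ lf t j)).card : ℝ) := by
      have e2 : ∀ t, (tau R (lf t j) : ℝ) = ∑ d ∈ Icc 1 R, if (d : ℤ) ∣ lf t j then 1 else 0 := by
        intro t
        unfold tau
        rw [← sum_filter, sum_const, nsmul_eq_mul, mul_one]
      simp_rw [e2]
      rw [sum_comm]
      refine sum_congr rfl fun d _ => ?_
      rw [← sum_filter, sum_const, nsmul_eq_mul, mul_one]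
    rw [e1]
    calc ∑ d ∈ Icc 1 R, (((Bx X).filter (fun t => (d : ℤ) ∣ lf t j)).card : ℝ)
        ≤ ∑ d ∈ Icc 1 R, 8 * (X : ℝ) ^ 2 * ((d : ℝ)⁻¹) := by
          apply sum_le_sum
          intro d hd
          rw [mem_Icc] at hd
          have hd0 : (0 : ℝ) < d := by exact_mod_cast hd.1
          rw [← div_eq_mul_inv, le_div_iff₀ hd0]
          exact dvd_one X d j hd.1
      _ = 8 * (X : ℝ) ^ 2 * ∑ d ∈ Icc 1 R, ((d : ℝ)⁻¹) := by rw [mul_sum]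
      _ ≤ 8 * (X : ℝ) ^ 2 * (1 + Real.log R) := by
          apply mul_le_mul_of_nonneg_left _ (by positivity)
          have := harmonic_le_one_add_log R
          rw [harmonic_eq_sum_Icc] at this
          push_cast at this
          exact this
  rw [le_div_iff₀ hV]
  refine le_trans ?_ h1
  calc (((Bx X).filter (fun t => ¬ (tau R (lf t j) : ℝ) ≤ V)).card : ℝ) * V
      = ∑ _t ∈ (Bx X).filter (fun t => ¬ (tau R (lf t j) : ℝ) ≤ V), V := by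
        rw [sum_const, nsmul_eq_mul]
    _ ≤ ∑ t ∈ (Bx X).filter (fun t => ¬ (tau R (lf t j) : ℝ) ≤ V), (tau R (lf t j) : ℝ) := by
        apply sum_le_sum
        intro t ht
        exact (not_le.1 (mem_filter.1 ht).2).le
    _ ≤ ∑ t ∈ Bx X, (tau R (lf t j) : ℝ) :=
        sum_le_sum_of_subset_of_nonneg (filter_subset _ _) fun _ _ _ => Nat.cast_nonneg _

end Pool.Agent.Y676
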