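import Pool.Agent.Y676.Cnt2

/-!
# The exceptional pairs for the small square classes
-/

set_option autoImplicit false

namespace Pool.Agent.Y676

open Finset
open Pool.Agent.Y157.SH (lf Nn_eq PR mem_PR pair_bound mult_count)

open Classical in
/-- the integers without large prime factors `l` with `(d | l) = -1` -/
noncomputable def NS (d : ℤ) (Y X : ℕ) : Finset ℕ := (Icc 1 X).filter
  (fun n => ∀ l : ℕ, l.Prime → Y < l → l ∣ n → jacobiSym d l ≠ -1)

open Classical in
lemma count_img (X X' : ℕ) (hX : 1 ≤ X) (S : Finset ℕ) (T : Finset (ℤ × ℤ))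
    (φ : ℤ × ℤ → ℤ × ℤ) (hφ : Function.Injective φ)
    (h : ∀ t ∈ T, (-(X : ℤ) ≤ (φ t).1 ∧ (φ t).1 ≤ X) ∧ (φ t).2.natAbs ∈ S)
    {δ : ℝ} (hS : (S.card : ℝ) ≤ δ * X') : (T.card : ℝ) ≤ 6 * δ * X * X' := by
  have h1 : T.card ≤ (Icc (-(X : ℤ)) X).card *
      (S.image (fun n : ℕ => (n : ℤ)) ∪ S.image (fun n : ℕ => -(n : ℤ))).card := by
    rw [← card_product]
    refine card_le_card_of_injOn φ ?_ hφ.injOn
    intro t ht
    obtain ⟨h2, h3⟩ := h t ht
    rw [mem_coe, mem_product, mem_Icc, mem_union, mem_image, mem_image]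
    refine ⟨h2, ?_⟩
    rcases Int.natAbs_eq (φ t).2 with e | e
    · left
      exact ⟨_, h3, e.symm⟩
    · right
      exact ⟨_, h3, e.symm⟩
  have h2 : (S.image (fun n : ℕ => (n : ℤ)) ∪ S.image (fun n : ℕ => -(n : ℤ))).card ≤
      2 * S.card := by
    refine (card_union_le _ _).trans ?_
    have a := card_image_le (s := S) (f := fun n : ℕ => (n : ℤ))
    have b := card_image_le (s := S) (f := fun n : ℕ => -(n : ℤ))
    omega
  have h3 : (Icc (-(X : ℤ)) X).card = 2 * X + 1 := by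
    rw [Int.card_Icc]
    omega
  rw [h3] at h1
  have h4 : T.card ≤ (2 * X + 1) * (2 * S.card) := h1.trans (Nat.mul_le_mul_left _ h2)
  have h5 : (T.card : ℝ) ≤ (2 * X + 1) * (2 * S.card) := by exact_mod_cast h4
  have hX' : (1 : ℝ) ≤ X := by exact_mod_cast hX
  have h6 : (2 * (X : ℝ) + 1) * (2 * S.card) ≤ (3 * X) * (2 * (δ * X')) := by
    apply mul_le_mul (by linarith) (by linarith) (by positivity) (by positivity)
  linarith

open Classical in
theorem ty2_cnt (Y : ℕ) (ε : ℝ) (hε : 0 < ε) : ∃ X0 : ℕ, ∀ X : ℕ, X0 ≤ X →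
    (((Bx X).filter (fun t => ¬ Ty2 Y t.1 t.2)).card : ℝ) ≤ ε * (X : ℝ) ^ 2 := by
  set DS : Finset ℤ := (Icc (-(Y.factorial : ℤ)) Y.factorial).filter (fun d => Squarefree d ∧ d ≠ 1 ∧
    ∀ p : ℕ, p.Prime → (p : ℤ) ∣ d → p ≤ Y) with hDS
  set δ : ℝ := ε / (18 * (DS.card + 1)) with hδ
  have hδ0 : 0 < δ := by positivity
  have hden : ∀ d : DS, ∃ X0 : ℕ, ∀ X : ℕ, X0 ≤ X → ((NS d Y X).card : ℝ) ≤ δ * X := by
    rintro ⟨d, hd⟩
    rw [hDS, mem_filter] at hd
    obtain ⟨X0, h⟩ := Pool.Agent.Y180.Y676.den d hd.2.1 hd.2.2.1 Y δ hδ0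
    refine ⟨X0, fun X hX => h X hX _ fun n hn => ?_⟩
    unfold NS at hn
    rw [mem_filter, mem_Icc] at hn
    exact ⟨hn.1.1, hn.1.2, hn.2⟩
  choose X0 hX0 using hden
  refine ⟨1 + ∑ d, X0 d, fun X hX => ?_⟩
  have hX1 : 1 ≤ X := by omega
  have hXd : ∀ d, X0 d ≤ X := fun d => by
    have := single_le_sum (f := X0) (fun _ _ => Nat.zero_le _) (mem_univ d)
    omega
  have hsub : (Bx X).filter (fun t => ¬ Ty2 Y t.1 t.2) ⊆ DS.attach.biUnion (fun d =>
      (Bx X).filter (fun t => t.2.natAbs ∈ NS d Y X) ∪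
      (Bx X).filter (fun t => (t.1 - t.2).natAbs ∈ NS d Y (2 * X))) := by
    intro t ht
    rw [mem_filter] at ht
    obtain ⟨hB, h⟩ := ht
    unfold Ty2 at h
    push Not at h
    obtain ⟨d, hd1, hd2, hd3, hd4⟩ := h
    have hdS : d ∈ DS := by
      rw [hDS, mem_filter]
      refine ⟨?_, hd1, hd2, hd3⟩
      have h1 : d.natAbs ∣ Y.factorial := by
        have hsq : Squarefree d.natAbs := Int.squarefree_natAbs.2 hd1
        rw [← Nat.prod_primeFactors_of_squarefree hsq]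
        apply Finset.prod_dvd_of_isRelPrime
        · intro p hp q hq hpq
          have hp' := Nat.prime_of_mem_primeFactors hp
          have hq' := Nat.prime_of_mem_primeFactors hq
          exact (Nat.coprime_iff_isRelPrime.1 ((Nat.coprime_primes hp' hq').2 hpq))
        · intro p hp
          have hp' := Nat.prime_of_mem_primeFactors hp
          rw [hp'.dvd_factorial]
          exact hd3 p hp' (Int.natCast_dvd.2 (Nat.dvd_of_mem_primeFactors hp))
      have h2 := Nat.le_of_dvd (Nat.factorial_pos Y) h1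
      rw [mem_Icc]
      omega
    rw [mem_biUnion]
    refine ⟨⟨d, hdS⟩, mem_attach _ _, ?_⟩
    rw [mem_union, mem_filter, mem_filter]
    by_cases h1 : ∃ l : ℕ, l.Prime ∧ Y < l ∧ (l : ℤ) ∣ t.2 ∧ jacobiSym d l = -1
    · right
      refine ⟨hB, ?_⟩
      unfold NS
      rw [mem_filter, mem_Icc]
      refine ⟨⟨Int.natAbs_pos.2 (lf_ne hB 2), lf_le hB 2⟩, fun l hl hY hd => ?_⟩
      exact hd4 h1 l hl hY (Int.natCast_dvd.2 hd)
    · left
      refine ⟨hB, ?_⟩
      push Not at h1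
      unfold NS
      rw [mem_filter, mem_Icc]
      refine ⟨⟨Int.natAbs_pos.2 (lf_ne hB 1), ?_⟩, fun l hl hY hd => ?_⟩
      · rw [mem_Bx] at hB
        omega
      · exact h1 l hl hY (Int.natCast_dvd.2 hd)
  have h1 := (card_le_card hsub).trans card_biUnion_le
  have h2 : ∀ d ∈ DS.attach, ((((Bx X).filter (fun t => t.2.natAbs ∈ NS d Y X) ∪
      (Bx X).filter (fun t => (t.1 - t.2).natAbs ∈ NS d Y (2 * X)))).card : ℝ) ≤
      18 * δ * (X : ℝ) ^ 2 := by
    intro d _
    have a1 := count_img X X hX1 (NS d Y X) ((Bx X).filter (fun t => t.2.natAbs ∈ NS d Y X)) id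
      Function.injective_id (by
        intro t ht
        rw [mem_filter, mem_Bx] at ht
        exact ⟨ht.1.1.1, ht.2⟩) (hX0 d X (hXd d))
    have a2 := count_img X (2 * X) hX1 (NS d Y (2 * X))
      ((Bx X).filter (fun t => (t.1 - t.2).natAbs ∈ NS d Y (2 * X)))
      (fun t => (t.1, t.1 - t.2)) (by
        rintro ⟨a, b⟩ ⟨c, d⟩ h
        simp only [Prod.mk.injEq] at h
        obtain ⟨rfl, h⟩ := h
        congr 1
        omega) (by
        intro t ht
        rw [mem_filter, mem_Bx] at ht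
        exact ⟨ht.1.1.1, ht.2⟩) (hX0 d (2 * X) (by have := hXd d; omega))
    have a3 : ((((Bx X).filter (fun t => t.2.natAbs ∈ NS d Y X) ∪
      (Bx X).filter (fun t => (t.1 - t.2).natAbs ∈ NS d Y (2 * X)))).card : ℝ) ≤
      (((Bx X).filter (fun t => t.2.natAbs ∈ NS d Y X)).card : ℝ) +
      ((Bx X).filter (fun t => (t.1 - t.2).natAbs ∈ NS d Y (2 * X))).card := by
      exact_mod_cast card_union_le _ _
    push_cast at a2
    nlinarith
  have h3 : (((Bx X).filter (fun t => ¬ Ty2 Y t.1 t.2)).card : ℝ) ≤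
      ∑ _d ∈ DS.attach, 18 * δ * (X : ℝ) ^ 2 := by
    refine le_trans ?_ (sum_le_sum h2)
    exact_mod_cast h1
  rw [sum_const, card_attach, nsmul_eq_mul] at h3
  refine h3.trans ?_
  have h4 : (DS.card : ℝ) * (18 * δ) ≤ ε := by
    rw [hδ]
    have : (DS.card : ℝ) * (18 * (ε / (18 * (DS.card + 1)))) = ε * (DS.card / (DS.card + 1)) := by
      field_simp
    rw [this]
    have h5 : (DS.card : ℝ) / (DS.card + 1) ≤ 1 := by
      rw [div_le_one (by positivity)]
      linarith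
    nlinarith
  nlinarith [sq_nonneg (X : ℝ)]

end Pool.Agent.Y676
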