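import Mathlib

/-!
# Small twists with trivial 2-primary Tate-Shafarevich group: the analytic statements

Definitions and statements of the parts (helper676).
-/

set_option autoImplicit false

namespace Pool.Agent.Y676

open Finset

/-- the primes `q ≤ Q`, `q ≡ 1 mod W` -/
def PQ (W Q : ℕ) : Finset ℕ := (Icc 1 Q).filter (fun q => q.Prime ∧ q % W = 1 % W)

/-- the sum of the symbols `(q | D)` over these primes -/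
def SJ (W Q D : ℕ) : ℤ := ∑ q ∈ PQ W Q, jacobiSym (q : ℤ) D

/-- LSM: the large sieve for the powers of the sums. -/
def S_LSM : Prop := ∀ W Q Z m : ℕ, 8 ∣ W → 0 < W →
  ∑ D ∈ (Icc 1 Z).filter (fun D => Odd D ∧ Squarefree D), |(SJ W Q D : ℝ)| ^ (2 * m) ≤
    6 * ((Q : ℝ) ^ m + 64 * (Z : ℝ) ^ 2) * (m.factorial * (Q : ℝ) ^ m)

/-- SWJ: Siegel-Walfisz. -/
def S_SWJ : Prop := ∀ W A B : ℕ, 8 ∣ W → 0 < W → ∃ Q0 : ℕ, ∀ Q : ℕ, Q0 ≤ Q → ∀ D : ℕ, 2 ≤ D →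
  (D : ℝ) ≤ (Real.log Q) ^ A → Odd D → Squarefree D → D.Coprime W →
    (Real.log Q) ^ B * |(SJ W Q D : ℝ)| ≤ Q

/-- PNT: a lower bound for the number of the primes `1` modulo `W`. -/
def S_PNT : Prop := ∀ W : ℕ, 0 < W → ∃ (c : ℝ) (Q0 : ℕ), 0 < c ∧ ∀ Q : ℕ, Q0 ≤ Q →
  c * Q / Real.log Q ≤ ((PQ W Q).card : ℝ)

/-- the sum for the modulus `D` is large -/
def BadD (W K B Q : ℕ) (L : ℝ) (D : ℕ) : Prop :=
  (D ^ 2 ≤ Q ∧ (Q : ℝ) < (Real.log Q) ^ B * |(SJ W Q D : ℝ)|) ∨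
    (Q < D ^ 2 ∧ (Q : ℝ) < L ^ K * |(SJ W Q D : ℝ)|)

open Classical in
/-- EQD: there are few bad moduli. -/
def S_EQD : Prop := ∀ K B M : ℕ, ∃ C : ℕ, ∀ W : ℕ, 8 ∣ W → 0 < W → ∀ ε : ℝ, 0 < ε →
  ∃ X0 : ℕ, ∀ X : ℕ, X0 ≤ X →
    ∑ D ∈ (Icc 2 (X ^ M)).filter (fun D => Odd D ∧ Squarefree D ∧ D.Coprime W ∧
      BadD W K B ⌊(Real.log X) ^ C⌋₊ (Real.log X) D), 1 / Real.sqrt D ≤ ε

/-- DEN: almost all integers have a large prime factor `l` with `(d | l) = -1`. -/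
def S_DEN : Prop := ∀ d : ℤ, Squarefree d → d ≠ 1 → ∀ (Y : ℕ) (ε : ℝ), 0 < ε → ∃ X0 : ℕ,
  ∀ X : ℕ, X0 ≤ X → ∀ S : Finset ℕ,
    (∀ n ∈ S, 1 ≤ n ∧ n ≤ X ∧ ∀ l : ℕ, l.Prime → Y < l → l ∣ n → jacobiSym d l ≠ -1) →
    (S.card : ℝ) ≤ ε * X

/-- the pairs `(A, B)` with `|A|, |B| ≤ X` and `A B (A - B) ≠ 0` -/
noncomputable def Bx (X : ℕ) : Finset (ℤ × ℤ) := ((Icc (-(X : ℤ)) X) ×ˢ (Icc (-(X : ℤ)) X)).filter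
  (fun t : ℤ × ℤ => t.1 ≠ 0 ∧ t.2 ≠ 0 ∧ t.1 ≠ t.2)

/-- the product `|A B (A - B)|` -/
def Nn (t : ℤ × ℤ) : ℕ := (t.1 * t.2 * (t.1 - t.2)).natAbs

/-- CNT: the number of the tuples whose product is divisible by `D`. -/
def S_CNT : Prop := ∀ k : ℕ, ∃ C : ℝ, 0 ≤ C ∧ ∀ X D : ℕ, 1 ≤ X → 1 ≤ D → Squarefree D →
  (((Fintype.piFinset (fun _ : Fin k => Bx X)).filter
    (fun t => D ∣ ∏ i, Nn (t i))).card : ℝ) ≤ C * (X : ℝ) ^ (2 * k) / Real.sqrt D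

end Pool.Agent.Y676
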