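import Pool.Agent.Y676.Equi

/-!
# The lower bound for the number of primes with a given sign pattern
-/

set_option autoImplicit false

namespace Pool.Agent.Y676

open Finset

open Classical in
/-- the primes with the sign pattern `κ` on `P` -/
noncomputable def PAT (W Q : ℕ) (P : Finset ℕ) (κ : ℕ → ℤ) : Finset ℕ :=
  (PQ W Q).filter (fun q : ℕ => q ∉ P ∧ ∀ l ∈ P, jacobiSym (q : ℤ) l = κ l)

theorem det (m W Q X M : ℕ) (L c : ℝ) (hc : 0 < c) (hL : L = Real.log X) (hL1 : 1 ≤ L)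
    (hlQ : 1 ≤ Real.log Q) (hpnt : c * Q / Real.log Q ≤ ((PQ W Q).card : ℝ))
    (hb : 8 / c ≤ Real.log Q) (hcc : L ^ (2 * m) ≤ c / 8 * Q / Real.log Q)
    (hd : 16 * M / c ≤ L) (P : Finset ℕ) (hP : ∀ l ∈ P, l.Prime) (hPM : ∏ l ∈ P, l ≤ X ^ M)
    (n1 : ((P.powerset.filter (fun T => (∏ l ∈ T, l) ^ 2 ≤ Q)).card : ℝ) ≤ (Real.log Q) ^ m)
    (n2 : (2 : ℝ) ^ P.card ≤ L ^ m)
    (n3 : ∀ T ⊆ P, T ≠ ∅ → ¬ BadD W (m + 2) (m + 2) Q L (∏ l ∈ T, l))
    (κ : ℕ → ℤ) (hκ : ∀ l ∈ P, κ l = 1 ∨ κ l = -1) :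
    ((PQ W Q).card : ℝ) / 2 ≤ 2 ^ P.card * ((PAT W Q P κ).card : ℝ) := by
  classical
  have hlQ0 : 0 < Real.log Q := by linarith
  have hQ0 : (0 : ℝ) < Q := by
    rcases Nat.eq_zero_or_pos Q with h | h
    · rw [h] at hlQ0; simp at hlQ0
    · exact_mod_cast h
  have h1 := equi W Q P hP κ hκ
  have h2 : ((PQ W Q).card : ℝ) ≤ 2 ^ P.card * (((PAT W Q P κ).card : ℝ) + P.card) +
      ∑ T ∈ P.powerset.erase ∅, |(SJ W Q (∏ l ∈ T, l) : ℝ)| := by
    unfold PAT
    exact_mod_cast h1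
  -- the number of the primes of `P`
  have h3 : (2 : ℝ) ^ P.card * P.card ≤ c / 8 * Q / Real.log Q := by
    refine le_trans ?_ hcc
    have e1 : (P.card : ℝ) ≤ 2 ^ P.card := by
      exact_mod_cast (Nat.lt_two_pow_self (n := P.card)).le
    calc (2 : ℝ) ^ P.card * P.card ≤ 2 ^ P.card * 2 ^ P.card := by gcongr
      _ ≤ L ^ m * L ^ m := by gcongr
      _ = L ^ (2 * m) := by ring
  have h4 : ∑ T ∈ P.powerset.erase ∅, |(SJ W Q (∏ l ∈ T, l) : ℝ)| =
      ∑ T ∈ (P.powerset.erase ∅).filter (fun T => (∏ l ∈ T, l) ^ 2 ≤ Q),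
        |(SJ W Q (∏ l ∈ T, l) : ℝ)| +
      ∑ T ∈ (P.powerset.erase ∅).filter (fun T => ¬ (∏ l ∈ T, l) ^ 2 ≤ Q),
        |(SJ W Q (∏ l ∈ T, l) : ℝ)| := (sum_filter_add_sum_filter_not _ _ _).symm
  have h5 : ∑ T ∈ (P.powerset.erase ∅).filter (fun T => (∏ l ∈ T, l) ^ 2 ≤ Q),
        |(SJ W Q (∏ l ∈ T, l) : ℝ)| ≤ c / 8 * Q / Real.log Q := by
    have e1 : ∀ T ∈ (P.powerset.erase ∅).filter (fun T => (∏ l ∈ T, l) ^ 2 ≤ Q),
        |(SJ W Q (∏ l ∈ T, l) : ℝ)| ≤ Q / (Real.log Q) ^ (m + 2) := by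
      intro T hT
      rw [mem_filter, mem_erase, mem_powerset] at hT
      have e2 := n3 T hT.1.2 hT.1.1
      unfold BadD at e2
      push Not at e2
      rw [le_div_iff₀ (by positivity), mul_comm]
      exact e2.1 hT.2
    refine (sum_le_sum e1).trans ?_
    rw [sum_const, nsmul_eq_mul]
    have e3 : (((P.powerset.erase ∅).filter (fun T => (∏ l ∈ T, l) ^ 2 ≤ Q)).card : ℝ) ≤
        (Real.log Q) ^ m := by
      refine le_trans ?_ n1
      exact_mod_cast card_le_card (filter_subset_filter _ (erase_subset _ _))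
    calc _ ≤ (Real.log Q) ^ m * (Q / (Real.log Q) ^ (m + 2)) := by gcongr
      _ = 1 / Real.log Q * (Q / Real.log Q) := by
        field_simp
        ring
      _ ≤ c / 8 * (Q / Real.log Q) := by
        apply mul_le_mul_of_nonneg_right _ (by positivity)
        rw [div_le_iff₀ hlQ0]
        rw [div_le_iff₀ hc] at hb
        linarith
      _ = _ := by ring
  have h6 : ∑ T ∈ (P.powerset.erase ∅).filter (fun T => ¬ (∏ l ∈ T, l) ^ 2 ≤ Q),
        |(SJ W Q (∏ l ∈ T, l) : ℝ)| ≤ c / 8 * Q / Real.log Q := by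
    rcases ((P.powerset.erase ∅).filter
      (fun T => ¬ (∏ l ∈ T, l) ^ 2 ≤ Q)).eq_empty_or_nonempty with h | ⟨T0, hT0⟩
    · rw [h, sum_empty]
      positivity
    have hlogQ : Real.log Q ≤ 2 * M * L := by
      rw [mem_filter, mem_erase, mem_powerset, not_le] at hT0
      have e1 : ∏ l ∈ T0, l ≤ ∏ l ∈ P, l :=
        prod_le_prod_of_subset_of_one_le' hT0.1.2 fun l hl _ => (hP l hl).one_lt.le
      have e2 : Q ≤ (X ^ M) ^ 2 := hT0.2.le.trans (Nat.pow_le_pow_left (e1.trans hPM) 2)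
      have e3 : (Q : ℝ) ≤ (X : ℝ) ^ (M * 2) := by
        rw [pow_mul]
        exact_mod_cast e2
      have e4 := Real.log_le_log hQ0 e3
      rw [Real.log_pow, ← hL] at e4
      push_cast at e4
      linarith
    have e1 : ∀ T ∈ (P.powerset.erase ∅).filter (fun T => ¬ (∏ l ∈ T, l) ^ 2 ≤ Q),
        |(SJ W Q (∏ l ∈ T, l) : ℝ)| ≤ Q / L ^ (m + 2) := by
      intro T hT
      rw [mem_filter, mem_erase, mem_powerset, not_le] at hT
      have e2 := n3 T hT.1.2 hT.1.1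
      unfold BadD at e2
      push Not at e2
      rw [le_div_iff₀ (by positivity), mul_comm]
      exact e2.2 hT.2
    refine (sum_le_sum e1).trans ?_
    rw [sum_const, nsmul_eq_mul]
    have e3 : (((P.powerset.erase ∅).filter (fun T => ¬ (∏ l ∈ T, l) ^ 2 ≤ Q)).card : ℝ) ≤
        L ^ m := by
      refine le_trans ?_ n2
      have : ((P.powerset.erase ∅).filter (fun T => ¬ (∏ l ∈ T, l) ^ 2 ≤ Q)).card ≤
          2 ^ P.card := by
        rw [← card_powerset]
        exact card_le_card ((filter_subset _ _).trans (erase_subset _ _))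
      exact_mod_cast this
    calc _ ≤ L ^ m * (Q / L ^ (m + 2)) := by gcongr
      _ = Q * (1 / L) / L := by
        have : 0 < L := by linarith
        field_simp
        ring
      _ ≤ Q * (c / 8) / Real.log Q := by
        rw [div_le_div_iff₀ (by linarith) hlQ0]
        have hd' := hd
        rw [div_le_iff₀ hc] at hd'
        have e5 : (1 / L) * Real.log Q ≤ c / 8 * L := by
          rw [div_mul_eq_mul_div, one_mul, div_le_iff₀ (by linarith)]
          nlinarith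
        nlinarith
      _ = _ := by ring
  have h7 : c / 8 * Q / Real.log Q ≤ ((PQ W Q).card : ℝ) / 8 := by
    calc c / 8 * Q / Real.log Q = (c * Q / Real.log Q) / 8 := by ring
      _ ≤ _ := by linarith
  have h8 : (2 : ℝ) ^ P.card * (((PAT W Q P κ).card : ℝ) + P.card) =
      2 ^ P.card * ((PAT W Q P κ).card : ℝ) + 2 ^ P.card * P.card := by ring
  rw [h8, h4] at h2
  linarith

end Pool.Agent.Y676
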