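import Pool.Agent.Y157.SH.Eqd
import Pool.Agent.Y157.SH.Lsm
import Pool.Agent.Y157.SH.Swj

/-!
# EQD for all `Q`

(Variant of the last theorem of `Pool.Agent.Y157.SH.Eqd`, helper157.)
-/

set_option autoImplicit false

namespace Pool.Agent.Y676

open Finset Pool.Agent.Y157.SH

open Classical in
theorem eqd_gen (K B M W : ℕ) (h8 : 8 ∣ W) (hW : 0 < W) (ε : ℝ) (hε : 0 < ε) :
    ∃ X0 : ℕ, ∀ X : ℕ, X0 ≤ X → ∀ Q : ℕ, (Real.log X) ^ (32 * (2 * K + 1) + 1) ≤ 2 * Q →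
    ∑ D ∈ (Icc 2 (X ^ M)).filter (fun D => Odd D ∧ Squarefree D ∧ D.Coprime W ∧
      BadD W K B Q (Real.log X) D), 1 / Real.sqrt D ≤ ε := by
  obtain ⟨Q0, hQ0⟩ := swj W (8 * B + 4) B h8 hW
  set C := 32 * (2 * K + 1) + 1 with hC
  set δ := ε / 4 with hδdef
  have hδ : 0 < δ := by positivity
  have tL : Filter.Tendsto (fun X : ℕ => Real.log (X : ℝ)) Filter.atTop Filter.atTop :=
    Real.tendsto_log_atTop.comp tendsto_natCast_atTop_atTop
  have tQr : Filter.Tendsto (fun Q : ℕ => (Q : ℝ)) Filter.atTop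
      Filter.atTop := tendsto_natCast_atTop_atTop
  have hev := (Filter.eventually_ge_atTop (α := ℕ) 2).and (tL.eventually_ge_atTop 2)
  have hevQ := (tL.eventually_ge_atTop (2 * (2 * (M : ℝ) + 22))).and
    ((Filter.eventually_ge_atTop Q0).and
    ((tL.eventually_ge_atTop (120000000 / δ)).and (tQr.eventually_ge_atTop ((192 / δ) ^ 8))))
  obtain ⟨Q1, hQ1⟩ := Filter.eventually_atTop.1 hevQ
  obtain ⟨X0, hX0⟩ := Filter.eventually_atTop.1 (hev.and (tL.eventually_ge_atTop (2 * Q1)))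
  refine ⟨X0, fun X hX Q hQL => ?_⟩
  obtain ⟨⟨c1, c2⟩, c7⟩ := hX0 X hX
  set L := Real.log (X : ℝ) with hL
  have hQQ : Q1 ≤ Q := by
    have e1 : L ≤ L ^ C := le_self_pow₀ (by linarith) (by omega)
    have : (Q1 : ℝ) ≤ Q := by linarith
    exact_mod_cast this
  obtain ⟨c3, c4, c5, c6⟩ := hQ1 Q hQQ
  rw [div_le_iff₀ hδ] at c5
  set S := (Icc 2 (X ^ M)).filter (fun D => Odd D ∧ Squarefree D ∧ D.Coprime W ∧
      BadD W K B Q L D) with hS
  let f : ℕ → ℕ := fun D => Nat.log 256 (D - 1)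
  have hf : ∀ D, 2 ≤ D → 256 ^ (f D) < D ∧ D ≤ 256 ^ (f D + 1) := by
    intro D hD
    have h3 := Nat.pow_log_le_self 256 (x := D - 1) (by omega)
    have h4 := Nat.lt_pow_succ_log_self (b := 256) (by norm_num) (D - 1)
    constructor
    · change 256 ^ (Nat.log 256 (D - 1)) < D
      omega
    · change D ≤ 256 ^ (Nat.log 256 (D - 1) + 1)
      rw [Nat.succ_eq_add_one] at h4
      omega
  have hmaps : ∀ D ∈ S, f D ∈ range (X ^ M + 1) := by
    intro D hD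
    rw [hS, mem_filter, mem_Icc] at hD
    rw [mem_range]
    have h3 := (hf D hD.1.1).1
    have h4 : f D < 256 ^ (f D) := Nat.lt_pow_self (by norm_num)
    omega
  rw [← sum_fiberwise_of_maps_to hmaps]
  have hblock : ∀ j ∈ range (X ^ M + 1), ∑ D ∈ S.filter (fun D => f D = j), 1 / Real.sqrt D ≤
      2 * δ / 2 ^ j := by
    intro j _
    refine block lsm W Q K B M X j Q0 L δ hδ h8 hW c1 hL c2 hQL c3 c4 hQ0 ?_ c6 _ ?_ ?_
    · rw [mul_comm]
      exact c5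
    · intro D hD
      rw [mem_filter, hS, mem_filter, mem_Icc] at hD
      obtain ⟨⟨⟨h3, h4⟩, h5, h6, h7, h9⟩, h10⟩ := hD
      have h11 := hf D h3
      rw [h10] at h11
      unfold blk
      rw [mem_filter, mem_Icc]
      exact ⟨⟨by omega, h11.2⟩, ⟨h5, h6⟩, h11.1⟩
    · intro D hD
      rw [mem_filter, hS, mem_filter, mem_Icc] at hD
      obtain ⟨⟨⟨h3, h4⟩, h5, h6, h7, h9⟩, h10⟩ := hD
      exact ⟨⟨h3, h4⟩, h7, h9⟩
  refine (sum_le_sum hblock).trans ?_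
  have hgeo : ∀ n : ℕ, ∑ j ∈ range n, (1 : ℝ) / 2 ^ j ≤ 2 - 2 / 2 ^ n := by
    intro n
    induction n with
    | zero => simp
    | succ n ih =>
      rw [sum_range_succ]
      have h3 : (2 : ℝ) / 2 ^ (n + 1) = 1 / 2 ^ n := by
        rw [pow_succ]
        field_simp
      have h4 : (2 : ℝ) / 2 ^ n = 1 / 2 ^ n + 1 / 2 ^ n := by ring
      rw [h3]
      linarith
  have h5 : ∑ j ∈ range (X ^ M + 1), 2 * δ / 2 ^ j =
      2 * δ * ∑ j ∈ range (X ^ M + 1), (1 : ℝ) / 2 ^ j := by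
    rw [mul_sum]
    refine sum_congr rfl fun j _ => ?_
    ring
  rw [h5]
  have h6 := hgeo (X ^ M + 1)
  have h7 : (0 : ℝ) < 2 / 2 ^ (X ^ M + 1) := by positivity
  have h8 : ∑ j ∈ range (X ^ M + 1), (1 : ℝ) / 2 ^ j ≤ 2 := by linarith
  calc 2 * δ * ∑ j ∈ range (X ^ M + 1), (1 : ℝ) / 2 ^ j ≤ 2 * δ * 2 := by gcongr
    _ = ε := by rw [hδdef]; ring

end Pool.Agent.Y676
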