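import Pool.Agent.Y676.Defs

/-!
# Every sign pattern is realised by a small prime
-/

set_option autoImplicit false

namespace Pool.Agent.Y676

open Finset

lemma js_prod (a : ℤ) (P : Finset ℕ) (hP : ∀ l ∈ P, l ≠ 0) :
    jacobiSym a (∏ l ∈ P, l) = ∏ l ∈ P, jacobiSym a l := by
  classical
  induction P using Finset.induction_on with
  | empty => simp
  | insert p s hps ih =>
    rw [prod_insert hps, prod_insert hps]
    haveI : NeZero p := ⟨hP p (mem_insert_self _ _)⟩
    haveI : NeZero (∏ l ∈ s, l) :=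
      ⟨prod_ne_zero_iff.2 fun l hl => hP l (mem_insert_of_mem hl)⟩
    rw [jacobiSym.mul_right, ih fun l hl => hP l (mem_insert_of_mem hl)]

lemma js_pm {q l : ℕ} (hq : q.Prime) (hl : l.Prime) (h : q ≠ l) :
    jacobiSym (q : ℤ) l = 1 ∨ jacobiSym (q : ℤ) l = -1 := by
  apply jacobiSym.eq_one_or_neg_one
  rw [← Int.isCoprime_iff_gcd_eq_one, Nat.isCoprime_iff_coprime]
  exact (Nat.coprime_primes hq hl).2 h

lemma PQ_pr {W Q q : ℕ} (h : q ∈ PQ W Q) : q.Prime := by
  unfold PQ at h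
  exact (mem_filter.1 h).2.1

open Classical in
/-- the number of the primes with a given sign pattern -/
theorem equi (W Q : ℕ) (P : Finset ℕ) (hP : ∀ l ∈ P, l.Prime) (κ : ℕ → ℤ)
    (hκ : ∀ l ∈ P, κ l = 1 ∨ κ l = -1) :
    ((PQ W Q).card : ℤ) ≤ 2 ^ P.card * ((((PQ W Q).filter (fun q : ℕ => q ∉ P ∧
      ∀ l ∈ P, jacobiSym (q : ℤ) l = κ l)).card : ℤ) + P.card) +
      ∑ T ∈ P.powerset.erase ∅, |SJ W Q (∏ l ∈ T, l)| := by
  have h1 : ∑ q ∈ PQ W Q, ∏ l ∈ P, (1 + κ l * jacobiSym (q : ℤ) l) =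
      ∑ T ∈ P.powerset, (∏ l ∈ T, κ l) * SJ W Q (∏ l ∈ T, l) := by
    have e1 : ∀ q ∈ PQ W Q, ∏ l ∈ P, (1 + κ l * jacobiSym (q : ℤ) l) =
        ∑ T ∈ P.powerset, (∏ l ∈ T, κ l) * jacobiSym (q : ℤ) (∏ l ∈ T, l) := by
      intro q _
      rw [prod_one_add]
      refine sum_congr rfl fun T hT => ?_
      rw [prod_mul_distrib, js_prod _ T fun l hl => (hP l (mem_powerset.1 hT hl)).ne_zero]
    rw [sum_congr rfl e1, sum_comm]
    refine sum_congr rfl fun T _ => ?_
    unfold SJ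
    rw [mul_sum]
  have h2 : ((PQ W Q).card : ℤ) - ∑ T ∈ P.powerset.erase ∅, |SJ W Q (∏ l ∈ T, l)| ≤
      ∑ T ∈ P.powerset, (∏ l ∈ T, κ l) * SJ W Q (∏ l ∈ T, l) := by
    rw [← add_sum_erase _ _ (empty_mem_powerset P)]
    have e1 : (∏ l ∈ (∅ : Finset ℕ), κ l) * SJ W Q (∏ l ∈ (∅ : Finset ℕ), l) =
        (PQ W Q).card := by
      unfold SJ
      simp
    rw [e1, sub_eq_add_neg, ← sum_neg_distrib]
    apply add_le_add_right
    apply sum_le_sum
    intro T hT
    have hT' : T ⊆ P := mem_powerset.1 (mem_of_mem_erase hT)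
    have e2 : |∏ l ∈ T, κ l| = 1 := by
      rw [abs_prod]
      apply prod_eq_one
      intro l hl
      rcases hκ l (hT' hl) with h | h <;> rw [h] <;> rfl
    have e3 : |(∏ l ∈ T, κ l) * SJ W Q (∏ l ∈ T, l)| = |SJ W Q (∏ l ∈ T, l)| := by
      rw [abs_mul, e2, one_mul]
    rw [← e3]
    exact neg_abs_le _
  have h3 : ∑ q ∈ PQ W Q, ∏ l ∈ P, (1 + κ l * jacobiSym (q : ℤ) l) ≤
      ∑ q ∈ PQ W Q, (2 ^ P.card * (if (q ∉ P ∧ ∀ l ∈ P, jacobiSym (q : ℤ) l = κ l) then (1 : ℤ)
        else 0) + 2 ^ P.card * (if q ∈ P then (1 : ℤ) else 0)) := by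
    apply sum_le_sum
    intro q hq
    have hb : ∏ l ∈ P, (1 + κ l * jacobiSym (q : ℤ) l) ≤ 2 ^ P.card := by
      rw [← prod_const]
      apply prod_le_prod
      · intro l hl
        rcases hκ l hl with h | h <;> rcases jacobiSym.trichotomy (q : ℤ) l with h' | h' | h' <;>
          rw [h, h'] <;> norm_num
      · intro l hl
        rcases hκ l hl with h | h <;> rcases jacobiSym.trichotomy (q : ℤ) l with h' | h' | h' <;>
          rw [h, h'] <;> norm_num
    by_cases hqP : q ∈ P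
    · rw [if_pos hqP, if_neg (fun h => h.1 hqP)]
      linarith
    · rw [if_neg hqP]
      by_cases hp : ∀ l ∈ P, jacobiSym (q : ℤ) l = κ l
      · rw [if_pos ⟨hqP, hp⟩]
        linarith
      · rw [if_neg (fun h => hp h.2)]
        push Not at hp
        obtain ⟨l, hl, hne⟩ := hp
        have : ∏ l ∈ P, (1 + κ l * jacobiSym (q : ℤ) l) = 0 := by
          apply prod_eq_zero hl
          have hql : q ≠ l := fun h => hqP (h ▸ hl)
          rcases hκ l hl with h | h <;> rcases js_pm (PQ_pr hq) (hP l hl) hql with h' | h'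
          · exact absurd (h'.trans h.symm) hne
          · rw [h, h']; norm_num
          · rw [h, h']; norm_num
          · exact absurd (h'.trans h.symm) hne
        rw [this]
        simp
  rw [sum_add_distrib, ← mul_sum, ← mul_sum, ← sum_filter, ← sum_filter, sum_const, sum_const,
    nsmul_eq_mul, nsmul_eq_mul, mul_one, mul_one] at h3
  have h4 : (((PQ W Q).filter (fun q => q ∈ P)).card : ℤ) ≤ P.card := by
    exact_mod_cast card_le_card (fun q hq => (mem_filter.1 hq).2)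
  have h5 : (2 : ℤ) ^ P.card * (((PQ W Q).filter (fun q => q ∈ P)).card : ℤ) ≤
      2 ^ P.card * P.card := mul_le_mul_of_nonneg_left h4 (by positivity)
  rw [h1] at h3
  linarith

end Pool.Agent.Y676
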