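import Mathlib

/-!
# A counting lemma on the subsets of a finite set
-/

set_option autoImplicit false

namespace Pool.Agent.Y676

open Finset

/-- the constants -/
noncomputable def cn (ρ M : ℕ) : ℕ → ℝ
  | 0 => 1
  | n + 1 => (1 + ρ) * cn ρ M n + 2 ^ M

lemma cn_ge (ρ M n : ℕ) : 1 ≤ cn ρ M n := by
  induction n with
  | zero => exact le_refl _
  | succ n ih =>
    have h0 : (0 : ℝ) ≤ ρ := Nat.cast_nonneg _
    have h1 : (0 : ℝ) < 2 ^ M := by positivity
    show (1 : ℝ) ≤ (1 + ρ) * cn ρ M n + 2 ^ M
    nlinarith

lemma symm_sub {P T V : Finset ℕ} (hT : T ⊆ P) (hV : V ⊆ P) : symmDiff T V ⊆ P := by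
  intro x hx
  rw [Finset.mem_symmDiff] at hx
  rcases hx with h | h
  · exact hT h.1
  · exact hV h.1

open Classical in
/-- **the counting lemma** -/
theorem flip_count (P PL : Finset ℕ) (f : Finset ℕ → ℕ) (R : ℝ) (J ρ M N : ℕ)
    (hPL : PL ⊆ P) (hM : PL.card ≤ M) (hρ : P.card ≤ ρ * (J + 1)) (hN : 2 * R ≤ N)
    (hf : ∀ T, T ⊆ P → 1 ≤ f T)
    (havg : ∑ T ∈ P.powerset, (f T : ℝ) ≤ R * 2 ^ P.card)
    (hflip : ∀ T, T ⊆ P → 2 ≤ f T →
      (∃ U, U ⊆ P ∧ J + 1 ≤ U.card ∧ ∀ l ∈ U, f (symmDiff T {l}) < f T) ∨
      ∃ V, V ⊆ PL ∧ f (symmDiff T V) = 1) :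
    (2 : ℝ) ^ P.card ≤ 2 * cn ρ M N * ((P.powerset.filter (fun T => f T = 1)).card : ℝ) := by
  set a1 : ℝ := ((P.powerset.filter (fun T => f T = 1)).card : ℝ) with ha1
  have hb : ∀ n : ℕ, ((P.powerset.filter (fun T => f T ≤ n + 1)).card : ℝ) ≤ cn ρ M n * a1 := by
    intro n
    induction n with
    | zero =>
      have e : P.powerset.filter (fun T => f T ≤ 0 + 1) = P.powerset.filter (fun T => f T = 1) := by
        apply filter_congr
        intro T hT
        have := hf T (mem_powerset.1 hT)
        omega
      rw [e]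
      show a1 ≤ 1 * a1
      linarith
    | succ n ih =>
      set B := P.powerset.filter (fun T => f T ≤ n + 1) with hB
      set X1 := P.powerset.filter (fun T => f T = n + 2 ∧
        ∃ U, U ⊆ P ∧ J + 1 ≤ U.card ∧ ∀ l ∈ U, f (symmDiff T {l}) < f T) with hX1
      set X2 := P.powerset.filter (fun T => f T = n + 2 ∧ ∃ V, V ⊆ PL ∧ f (symmDiff T V) = 1) with hX2
      have hsub : P.powerset.filter (fun T => f T ≤ n + 1 + 1) ⊆ B ∪ (X1 ∪ X2) := by
        intro T hT
        rw [mem_filter] at hT
        rw [mem_union, mem_union, hB, hX1, hX2, mem_filter, mem_filter, mem_filter]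
        by_cases h : f T ≤ n + 1
        · exact Or.inl ⟨hT.1, h⟩
        · have h2 : f T = n + 2 := by omega
          rcases hflip T (mem_powerset.1 hT.1) (by omega) with h3 | h3
          · exact Or.inr (Or.inl ⟨hT.1, h2, h3⟩)
          · exact Or.inr (Or.inr ⟨hT.1, h2, h3⟩)
      -- the first type
      have h1 : (J + 1) * X1.card ≤ P.card * B.card := by
        have hU : ∀ T ∈ X1, J + 1 ≤ (P.filter (fun l => f (symmDiff T {l}) ≤ n + 1)).card := by
          intro T hT
          rw [hX1, mem_filter] at hT
          obtain ⟨-, hT2, U, hU1, hU2, hU3⟩ := hT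
          refine hU2.trans (card_le_card ?_)
          intro l hl
          rw [mem_filter]
          have := hU3 l hl
          exact ⟨hU1 hl, by omega⟩
        calc (J + 1) * X1.card = ∑ _T ∈ X1, (J + 1) := by rw [sum_const, smul_eq_mul, mul_comm]
          _ ≤ ∑ T ∈ X1, (P.filter (fun l => f (symmDiff T {l}) ≤ n + 1)).card := sum_le_sum hU
          _ = (X1.sigma (fun T => P.filter (fun l => f (symmDiff T {l}) ≤ n + 1))).card := by
              rw [card_sigma]
          _ ≤ (P ×ˢ B).card := by
              apply card_le_card_of_injOn (fun x => (x.2, symmDiff x.1 {x.2}))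
              · rintro ⟨T, l⟩ hx
                rw [mem_coe, mem_sigma] at hx
                obtain ⟨hT, hl'⟩ := hx
                obtain ⟨hl, hfl⟩ := mem_filter.1 hl'
                rw [mem_coe, mem_product]
                refine ⟨hl, ?_⟩
                rw [hB, mem_filter, mem_powerset]
                rw [hX1, mem_filter, mem_powerset] at hT
                exact ⟨symm_sub hT.1 (singleton_subset_iff.2 hl), hfl⟩
              · rintro ⟨T, l⟩ _ ⟨T', l'⟩ _ h
                simp only [Prod.mk.injEq] at h
                obtain ⟨rfl, h⟩ := h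
                have := symmDiff_left_injective _ h
                rw [this]
          _ = P.card * B.card := card_product _ _
      have h1' : (X1.card : ℝ) ≤ ρ * B.card := by
        have h2 : (J + 1) * X1.card ≤ (ρ * (J + 1)) * B.card :=
          h1.trans (Nat.mul_le_mul_right _ hρ)
        have h3 : (J + 1) * X1.card ≤ (J + 1) * (ρ * B.card) := by
          calc _ ≤ _ := h2
            _ = _ := by ring
        have h4 := Nat.le_of_mul_le_mul_left h3 (by omega)
        exact_mod_cast h4
      -- the second type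
      have h2 : (X2.card : ℝ) ≤ 2 ^ M * a1 := by
        have hch : ∀ T : Finset ℕ, ∃ V, V ⊆ PL ∧ (T ∈ X2 → f (symmDiff T V) = 1) := by
          intro T
          by_cases h : T ∈ X2
          · rw [hX2, mem_filter] at h
            obtain ⟨-, -, V, hV1, hV2⟩ := h
            exact ⟨V, hV1, fun _ => hV2⟩
          · exact ⟨∅, empty_subset _, fun h' => absurd h' h⟩
        choose V hV1 hV2 using hch
        have h3 : X2.card ≤ (PL.powerset ×ˢ (P.powerset.filter (fun T => f T = 1))).card := by
          apply card_le_card_of_injOn (fun T => (V T, symmDiff T (V T)))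
          · intro T hT
            rw [mem_coe] at hT
            rw [mem_coe, mem_product, mem_powerset, mem_filter, mem_powerset]
            have hT' := hT
            rw [hX2, mem_filter, mem_powerset] at hT'
            exact ⟨hV1 T, symm_sub hT'.1 ((hV1 T).trans hPL), hV2 T hT⟩
          · intro T _ T' _ h
            simp only [Prod.mk.injEq] at h
            obtain ⟨h3, h4⟩ := h
            rw [h3] at h4
            exact symmDiff_left_injective _ h4
        rw [card_product, card_powerset] at h3
        have h4 : (X2.card : ℝ) ≤ 2 ^ PL.card * a1 := by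
          rw [ha1]
          exact_mod_cast h3
        refine h4.trans (mul_le_mul_of_nonneg_right ?_ (Nat.cast_nonneg _))
        exact pow_le_pow_right₀ (by norm_num) hM
      have h3 : ((P.powerset.filter (fun T => f T ≤ n + 1 + 1)).card : ℝ) ≤
          B.card + (X1.card + X2.card) := by
        have h4 := card_le_card hsub
        have h5 := card_union_le B (X1 ∪ X2)
        have h6 := card_union_le X1 X2
        have h7 : (P.powerset.filter (fun T => f T ≤ n + 1 + 1)).card ≤
          B.card + (X1.card + X2.card) := by omega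
        exact_mod_cast h7
      refine h3.trans ?_
      show (B.card : ℝ) + (X1.card + X2.card) ≤ ((1 + ρ) * cn ρ M n + 2 ^ M) * a1
      have h4 : (1 + (ρ : ℝ)) * B.card ≤ (1 + ρ) * (cn ρ M n * a1) := by gcongr
      linarith
  -- Markov
  have hmark : (2 : ℝ) ^ P.card ≤ 2 * ((P.powerset.filter (fun T => f T ≤ N + 1)).card : ℝ) := by
    have h1 : ((P.powerset.filter (fun T => ¬ f T ≤ N + 1)).card : ℝ) * (N + 1) ≤
        R * 2 ^ P.card := by
      refine le_trans ?_ havg
      calc ((P.powerset.filter (fun T => ¬ f T ≤ N + 1)).card : ℝ) * (N + 1)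
          = ∑ _T ∈ P.powerset.filter (fun T => ¬ f T ≤ N + 1), ((N : ℝ) + 1) := by
            rw [sum_const, nsmul_eq_mul]
        _ ≤ ∑ T ∈ P.powerset.filter (fun T => ¬ f T ≤ N + 1), (f T : ℝ) := by
            apply sum_le_sum
            intro T hT
            have := (mem_filter.1 hT).2
            push Not at this
            exact_mod_cast this.le
        _ ≤ ∑ T ∈ P.powerset, (f T : ℝ) :=
            sum_le_sum_of_subset_of_nonneg (filter_subset _ _) fun _ _ _ => Nat.cast_nonneg _
    have h2 : (P.powerset.filter (fun T => f T ≤ N + 1)).card +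
        (P.powerset.filter (fun T => ¬ f T ≤ N + 1)).card = 2 ^ P.card := by
      rw [card_filter_add_card_filter_not, card_powerset]
    have h3 : ((P.powerset.filter (fun T => f T ≤ N + 1)).card : ℝ) +
        ((P.powerset.filter (fun T => ¬ f T ≤ N + 1)).card : ℝ) = 2 ^ P.card := by
      exact_mod_cast h2
    obtain ⟨Z, hZ⟩ : ∃ Z : ℝ, Z = 2 ^ P.card := ⟨_, rfl⟩
    rw [← hZ] at h1 h3 ⊢
    have hZ0 : 0 < Z := by rw [hZ]; positivity
    have h4 : ((P.powerset.filter (fun T => ¬ f T ≤ N + 1)).card : ℝ) ≤ Z / 2 := by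
      by_contra hcon
      rw [not_le] at hcon
      have h5 : Z / 2 * (N + 1) < ((P.powerset.filter (fun T => ¬ f T ≤ N + 1)).card : ℝ) * (N + 1) :=
        mul_lt_mul_of_pos_right hcon (by positivity)
      nlinarith
    linarith
  have := hb N
  linarith

end Pool.Agent.Y676
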