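import Pool.Agent.Y676.Flip
import Pool.Agent.Y676.FlC
import Pool.Agent.Y676.Defs

/-!
# The proportion of the sign patterns with trivial virtual Selmer group
-/

set_option autoImplicit false

namespace Pool.Agent.Y676

open Finset

/-- the large primes dividing `A B (A - B)` -/
def PN (Y : ℕ) (t : ℤ × ℤ) : Finset ℕ := (Nn t).primeFactors.filter (fun l => Y < l)

/-- the signs of a set -/
def sT (T : Finset ℕ) (l : ℕ) : Bool := decide (l ∈ T)

/-- the virtual Selmer group with `(1, 1)` -/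
def SS1 (Y : ℕ) (t : ℤ × ℤ) (T : Finset ℕ) : Set (ℤ × ℤ) :=
  insert ((1 : ℤ), (1 : ℤ)) {e | InS Y t.1 t.2 (sT T) e}

/-- the ramified large primes -/
def RR (Y : ℕ) (t : ℤ × ℤ) (e : ℤ × ℤ) : Finset ℕ := (PN Y t).filter (fun l => rm l e = true)

variable {Y : ℕ} {t : ℤ × ℤ}

lemma mem_PN (hN : Nn t ≠ 0) {l : ℕ} : l ∈ PN Y t ↔ l.Prime ∧ Y < l ∧
    (l : ℤ) ∣ t.1 * t.2 * (t.1 - t.2) := by
  unfold PN
  rw [mem_filter, Nat.mem_primeFactors]
  have e : l ∣ Nn t ↔ (l : ℤ) ∣ t.1 * t.2 * (t.1 - t.2) := by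
    unfold Nn
    rw [Int.natCast_dvd]
  rw [e]
  tauto

lemma ne_of_Nn (hN : Nn t ≠ 0) : t.1 * t.2 * (t.1 - t.2) ≠ 0 := by
  unfold Nn at hN
  exact Int.natAbs_ne_zero.1 hN

lemma fin_SS1 (hN : Nn t ≠ 0) (T : Finset ℕ) : (SS1 Y t T).Finite :=
  (fin_InS Y (ne_of_Nn hN) (sT T)).insert _

lemma SS1_pos (hN : Nn t ≠ 0) (T : Finset ℕ) : 1 ≤ (SS1 Y t T).ncard := by
  rw [Nat.one_le_iff_ne_zero, ← Nat.pos_iff_ne_zero, Set.ncard_pos (fin_SS1 hN T)]
  exact ⟨(1, 1), Set.mem_insert _ _⟩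

lemma SS1_one {T : Finset ℕ} (h : (SS1 Y t T).ncard = 1) {e : ℤ × ℤ}
    (he : InS Y t.1 t.2 (sT T) e) : e = (1, 1) := by
  rw [Set.ncard_eq_one] at h
  obtain ⟨a, ha⟩ := h
  have h1 : ((1 : ℤ), (1 : ℤ)) ∈ SS1 Y t T := Set.mem_insert _ _
  have h2 : e ∈ SS1 Y t T := Set.mem_insert_of_mem _ he
  rw [ha] at h1 h2
  rw [Set.mem_singleton_iff.1 h1, Set.mem_singleton_iff.1 h2]

lemma sT_flip {T : Finset ℕ} {l p : ℕ} (h : p ≠ l) : sT T p = sT (symmDiff T {l}) p := by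
  unfold sT
  rw [decide_eq_decide, Finset.mem_symmDiff, mem_singleton]
  tauto

lemma sT_flip' (T : Finset ℕ) (l : ℕ) : sT T l ≠ sT (symmDiff T {l}) l := by
  unfold sT
  rw [Ne, decide_eq_decide, Finset.mem_symmDiff, mem_singleton]
  tauto

/-- a flip at a ramified prime -/
lemma flip_sub (hY : 2 ≤ Y) (hN : Nn t ≠ 0) {T : Finset ℕ} {l : ℕ} {e : ℤ × ℤ}
    (he : InS Y t.1 t.2 (sT T) e) (hl : l ∈ RR Y t e) {f : ℤ × ℤ}
    (hf : InS Y t.1 t.2 (sT (symmDiff T {l})) f) : InS Y t.1 t.2 (sT T) f ∧ rm l f = false := by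
  unfold RR at hl
  rw [mem_filter, mem_PN hN] at hl
  obtain ⟨⟨hl, hYl, hlN⟩, hr⟩ := hl
  have hA : t.1 ≠ 0 := left_ne_zero_of_mul (left_ne_zero_of_mul (ne_of_Nn hN))
  have h1 := flip_ram hY hA hl hYl hlN (fun p hp => sT_flip hp) (sT_flip' T l) he hf hr
  refine ⟨hf.congr fun p _ _ _ => ?_, h1⟩
  by_cases hpl : p = l
  · subst hpl
    exact Or.inr h1
  · exact Or.inl (sT_flip hpl).symm

lemma flip_lt (hY : 2 ≤ Y) (hN : Nn t ≠ 0) {T : Finset ℕ} {l : ℕ} {e : ℤ × ℤ}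
    (he : InS Y t.1 t.2 (sT T) e) (hne : e ≠ (1, 1)) (hl : l ∈ RR Y t e) :
    (SS1 Y t (symmDiff T {l})).ncard < (SS1 Y t T).ncard := by
  apply Set.ncard_lt_ncard _ (fin_SS1 hN T)
  refine ⟨?_, fun h => ?_⟩
  · intro f hf
    rcases Set.mem_insert_iff.1 hf with rfl | hf
    · exact Set.mem_insert _ _
    · exact Set.mem_insert_of_mem _ (flip_sub hY hN he hl hf).1
  · have h1 : e ∈ SS1 Y t (symmDiff T {l}) := h (Set.mem_insert_of_mem _ he)
    rcases Set.mem_insert_iff.1 h1 with h1 | h1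
    · exact hne h1
    · have h2 := (flip_sub hY hN he hl h1).2
      have h3 : rm l e = true := (mem_filter.1 hl).2
      rw [h2] at h3
      exact absurd h3 (by decide)

lemma exists_ne {T : Finset ℕ} (h : (SS1 Y t T).ncard ≠ 1) :
    ∃ e, InS Y t.1 t.2 (sT T) e ∧ e ≠ (1, 1) := by
  by_contra hcon
  push Not at hcon
  apply h
  rw [Set.ncard_eq_one]
  refine ⟨(1, 1), ?_⟩
  ext e
  rw [Set.mem_singleton_iff]
  constructor
  · intro he
    rcases Set.mem_insert_iff.1 he with he | he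
    · exact he
    · exact hcon e he
  · rintro rfl
    exact Set.mem_insert _ _

/-- flips at the primes of `PL` -/
lemma kill (hY : 2 ≤ Y) (hN : Nn t ≠ 0) (PL : Finset ℕ) : ∀ (n : ℕ) (T : Finset ℕ),
    (SS1 Y t T).ncard = n →
    (∀ e, InS Y t.1 t.2 (sT T) e → e ≠ (1, 1) → ∃ l ∈ PL, l ∈ RR Y t e) →
    ∃ V, V ⊆ PL ∧ (SS1 Y t (symmDiff T V)).ncard = 1 := by
  intro n
  induction n using Nat.strong_induction_on with
  | _ n ih =>
    intro T hT h
    by_cases h1 : (SS1 Y t T).ncard = 1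
    · refine ⟨∅, empty_subset _, ?_⟩
      have : symmDiff T ∅ = T := by
        ext x
        rw [Finset.mem_symmDiff]
        simp
      rw [this]
      exact h1
    · obtain ⟨e, he, hne⟩ := exists_ne h1
      obtain ⟨l, hl, hle⟩ := h e he hne
      have hlt := flip_lt hY hN he hne hle
      rw [hT] at hlt
      obtain ⟨V, hV1, hV2⟩ := ih _ hlt (symmDiff T {l}) rfl fun f hf hfne =>
        h f (flip_sub hY hN he hle hf).1 hfne
      refine ⟨symmDiff {l} V, symm_sub (singleton_subset_iff.2 hl) hV1, ?_⟩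
      rw [← symmDiff_assoc]
      exact hV2

/-- there is an element with few ramified primes, all of them small -/
def Sht (Y J y : ℕ) (t : ℤ × ℤ) : Prop := ∃ (s : ℕ → Bool) (e : ℤ × ℤ), InS Y t.1 t.2 s e ∧
  e ≠ (1, 1) ∧ (RR Y t e).card ≤ J ∧ ∀ l ∈ RR Y t e, l ≤ y

/-- **The proportion of the sign patterns with trivial virtual Selmer group is positive.** -/
theorem pos_of (hY : 2 ≤ Y) (hN : Nn t ≠ 0) (R : ℝ) (J y ρ M N : ℕ)
    (hM : ((PN Y t).filter (fun l => y < l)).card ≤ M) (hρ : (PN Y t).card ≤ ρ * (J + 1))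
    (hNR : 2 * R ≤ N) (hs : ¬ Sht Y J y t)
    (havg : ∑ T ∈ (PN Y t).powerset, ((SS1 Y t T).ncard : ℝ) ≤ R * 2 ^ (PN Y t).card) :
    (2 : ℝ) ^ (PN Y t).card ≤ 2 * cn ρ M N *
      (((PN Y t).powerset.filter (fun T => (SS1 Y t T).ncard = 1)).card : ℝ) := by
  have key := flip_count (PN Y t) ((PN Y t).filter (fun l => y < l))
    (fun T => (SS1 Y t T).ncard) R J ρ M N (filter_subset _ _) hM hρ hNR
    (fun T _ => SS1_pos hN T) havg ?_
  · exact key
  · intro T _ h2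
    by_cases hU : ∃ e, InS Y t.1 t.2 (sT T) e ∧ e ≠ (1, 1) ∧ J + 1 ≤ (RR Y t e).card
    · obtain ⟨e, he, hne, hc⟩ := hU
      exact Or.inl ⟨RR Y t e, filter_subset _ _, hc, fun l hl => flip_lt hY hN he hne hl⟩
    · right
      push Not at hU
      refine kill hY hN _ _ T rfl fun e he hne => ?_
      by_contra hcon
      push Not at hcon
      refine hs ⟨_, e, he, hne, by have := hU e he hne; omega, fun l hl => ?_⟩
      by_contra h
      push Not at h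
      exact hcon l (mem_filter.2 ⟨(mem_filter.1 hl).1, h⟩) hl

end Pool.Agent.Y676
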