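import Mathlib
import Pool.Agent.TH841.SH.Wt

/-!
# Curves with four Selmer classes: the rank is zero and `Ш[2] = 0`
-/

set_option autoImplicit false

namespace Pool.Agent.Y676

open WeierstrassCurve

open scoped Classical

open Pool.Agent.TH841.SH
open Pool.Agent.W262.SH (QB Pt act IsCoc IsCob LocTriv shaCoc cob Sha)
open Pool.Agent.H437R2.Man.MW (crv pt_fg)

lemma rank_zero {G : Type} [AddCommGroup G] (hG : AddGroup.FG G)
    (h : ∀ P : G, ∃ t R : G, t + t = 0 ∧ P = t + (R + R)) : Module.finrank ℤ G = 0 := by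
  have : Module.Finite ℤ G := Module.Finite.iff_addGroup_fg.mpr hG
  let M := G ⧸ Submodule.torsion ℤ G
  have hr : Module.finrank ℤ M = Module.finrank ℤ G :=
    finrank_quotient_eq_of_le_torsion le_rfl
  rw [← hr]
  have : Module.Finite ℤ M := inferInstance
  have : Module.Free ℤ M := inferInstance
  by_contra hne
  let r := Module.finrank ℤ M
  have hr0 : 0 < r := Nat.pos_of_ne_zero hne
  let b : Module.Basis (Fin r) ℤ M := Module.finBasis ℤ M
  obtain ⟨g, hg⟩ := (Submodule.torsion ℤ G).mkQ_surjective (b ⟨0, hr0⟩)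
  obtain ⟨t, R, ht, rfl⟩ := h g
  have ht' : (Submodule.torsion ℤ G).mkQ t = 0 := by
    rw [Submodule.mkQ_apply, Submodule.Quotient.mk_eq_zero]
    refine ⟨⟨2, ?_⟩, ?_⟩
    · exact mem_nonZeroDivisors_of_ne_zero two_ne_zero
    · show (2 : ℤ) • t = 0
      rw [two_zsmul, ht]
  have e1 : b.repr ((Submodule.torsion ℤ G).mkQ (t + (R + R))) ⟨0, hr0⟩ = 1 := by
    rw [hg]
    simp
  rw [map_add, ht', zero_add, map_add, map_add, Finsupp.add_apply] at e1
  omega

/-- **Four Selmer classes.** -/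
theorem sha4 (W : WeierstrassCurve ℚ) (a b c : ℤ) (h : IsR W (a : ℚ) (b : ℚ) (c : ℚ))
    (hab : a ≠ b) (hac : a ≠ c) (hbc : b ≠ c) (hS : (SelG a b c).Finite)
    (hS4 : (SelG a b c).ncard ≤ 4) (n1 : ¬ IsSquare ((a : ℚ) - b)) (n2 : ¬ IsSquare ((b : ℚ) - a))
    (n3 : ¬ IsSquare ((c : ℚ) - a)) :
    Module.finrank ℤ W.toAffine.Point = 0 ∧ ∀ x : Sha W, x + x = 0 → x = 0 := by
  have qab : (a : ℚ) ≠ b := by exact_mod_cast hab
  have qac : (a : ℚ) ≠ c := by exact_mod_cast hac
  have qbc : (b : ℚ) ≠ c := by exact_mod_cast hbc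
  obtain ⟨Φ, hΦ, hΦS⟩ := sel_inj h hab hac hbc
  have hfin : Finite (SelG a b c) := hS
  have hfin' : Finite (selHom W) :=
    Finite.of_injective (fun f => (⟨Φ f, hΦS f⟩ : SelG a b c))
      (fun f g hfg => hΦ (congrArg Subtype.val hfg))
  have hcard : Nat.card (selHom W) ≤ 4 := by
    refine le_trans ?_ hS4
    rw [← Nat.card_coe_set_eq]
    exact Nat.card_le_card_of_injective (fun f => (⟨Φ f, hΦS f⟩ : SelG a b c))
      (fun f g hfg => hΦ (congrArg Subtype.val hfg))
  have hW : W = crv (-(a : ℚ)) (-(b : ℚ)) (-(c : ℚ)) := by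
    apply WeierstrassCurve.ext
    · rw [h.h1]
      rfl
    · rw [h.h2]
      show _ = -(a : ℚ) + -(b : ℚ) + -(c : ℚ)
      ring
    · rw [h.h3]
      rfl
    · rw [h.h4]
      show _ = -(a : ℚ) * -(b : ℚ) + -(a : ℚ) * -(c : ℚ) + -(b : ℚ) * -(c : ℚ)
      ring
    · rw [h.h6]
      show _ = -(a : ℚ) * -(b : ℚ) * -(c : ℚ)
      ring
  have hfg : AddGroup.FG W.toAffine.Point := by
    rw [hW]
    exact pt_fg (fun h => qab (neg_injective h)) (fun h => qac (neg_injective h))
      (fun h => qbc (neg_injective h))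
  -- the torsion points
  have ha : W.toAffine.Nonsingular (a : ℚ) 0 := h.nons two_ne_zero qab qac qbc (by ring)
  have hb : W.toAffine.Nonsingular (b : ℚ) 0 := h.nons two_ne_zero qab qac qbc (by ring)
  obtain ⟨hc, hsum⟩ := h.add_two qab ha hb
  set Ta : W.toAffine.Point := .some (a : ℚ) 0 ha with hTa
  set Tb : W.toAffine.Point := .some (b : ℚ) 0 hb with hTb
  set Tc : W.toAffine.Point := .some (c : ℚ) 0 hc with hTc
  have ta : Ta + Ta = 0 := (h.add_self two_ne_zero ha).2 rfl
  have tb : Tb + Tb = 0 := (h.add_self two_ne_zero hb).2 rfl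
  have tc : Tc + Tc = 0 := (h.add_self two_ne_zero hc).2 rfl
  -- they are not divisible by two
  have ndiv : ∀ (e f : ℚ) (a' b' c' : ℚ) (h' : IsR W a' b' c') (hn : W.toAffine.Nonsingular e 0),
      f = a' → ¬ IsSquare (e - f) → ∀ R : W.toAffine.Point, R + R ≠ .some e 0 hn := by
    rintro e f a' b' c' h' hn rfl hsq R hR
    rcases R with _ | ⟨u, v, hn'⟩
    · exact Affine.Point.some_ne_zero hn (hR.symm.trans (add_zero 0))
    · have hv : v ≠ 0 := by
        intro hv
        rw [(h'.add_self two_ne_zero hn').2 hv] at hR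
        exact Affine.Point.some_ne_zero hn hR.symm
      obtain ⟨X, Y, hn'', e1, e2⟩ := h'.dup two_ne_zero hn' hv
      rw [e1, Affine.Point.some.injEq] at hR
      rw [hR.1] at e2
      exact hsq ⟨_, e2.trans (pow_two _)⟩
  have da : ∀ R : W.toAffine.Point, R + R ≠ Ta :=
    ndiv a b b a c h.swap ha rfl n1
  have db : ∀ R : W.toAffine.Point, R + R ≠ Tb :=
    ndiv b a a b c h hb rfl n2
  have dc : ∀ R : W.toAffine.Point, R + R ≠ Tc :=
    ndiv c a a b c h hc rfl n3
  obtain ⟨j, hj, hjσ, hjf⟩ := exists_rat W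
  have hinj : Function.Injective (algebraMap ℚ QB) := (algebraMap ℚ QB).injective
  have hdiv := fun P : W.toAffine.Point =>
    (h.base QB).div two_ne_zero (hinj.ne qab) (hinj.ne qac) (hinj.ne qbc) (j P)
  choose Q hQ using hdiv
  have hsel : ∀ P : W.toAffine.Point,
      (fun σ : QB ≃ₐ[ℚ] QB => act W σ.toAlgHom (Q P) - Q P) ∈ selHom W := by
    intro P
    apply cob_sel h
    intro σ
    have e3 : act W σ.toAlgHom (Q P) - Q P + (act W σ.toAlgHom (Q P) - Q P) =
      (act W σ.toAlgHom (Q P) + act W σ.toAlgHom (Q P)) - (Q P + Q P) := by abel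
    rw [e3, ← map_add, ← hQ, hjσ, sub_self]
  set F : W.toAffine.Point → selHom W := fun P => ⟨_, hsel P⟩ with hF
  have hFker : ∀ P, F P ∈ (toSha h).ker := by
    intro P
    rw [toSha_ker]
    exact ⟨Q P, fun σ => rfl⟩
  have hFeq : ∀ P P', F P = F P' → ∃ R : W.toAffine.Point, P = P' + (R + R) := by
    intro P P' hPP
    have hval : ∀ σ : QB ≃ₐ[ℚ] QB, act W σ.toAlgHom (Q P) - Q P = act W σ.toAlgHom (Q P') - Q P' :=
      fun σ => congrFun (congrArg Subtype.val hPP) σ
    have hfix : ∀ σ : QB ≃ₐ[ℚ] QB, act W σ.toAlgHom (Q P - Q P') = Q P - Q P' := by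
      intro σ
      have e4 := hval σ
      rw [map_sub]
      have e5 : act W σ.toAlgHom (Q P) = act W σ.toAlgHom (Q P') - Q P' + Q P := by
        rw [← e4]
        abel
      rw [e5]
      abel
    obtain ⟨R, hR⟩ := hjf _ hfix
    refine ⟨R, hj ?_⟩
    rw [map_add, map_add, hR, hQ P, hQ P']
    abel
  let T : Fin 4 → W.toAffine.Point := ![0, Ta, Tb, Tc]
  have hT2 : ∀ i, T i + T i = 0 := by
    intro i
    fin_cases i
    · exact add_zero 0
    · exact ta
    · exact tb
    · exact tc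
  have hnegT : ∀ {t : W.toAffine.Point}, t + t = 0 → -t = t := fun ht => by
    rw [neg_eq_iff_add_eq_zero]
    exact ht
  have key : ∀ t R : W.toAffine.Point, (t = Ta ∨ t = Tb ∨ t = Tc) → R + R ≠ t := by
    rintro t R (rfl | rfl | rfl)
    · exact da R
    · exact db R
    · exact dc R
  have hac' : Ta + Tc = Tb := by
    rw [← hsum, ← add_assoc, ta, zero_add]
  have hbc' : Tb + Tc = Ta := by
    rw [← hsum, add_comm Ta Tb, ← add_assoc, tb, zero_add]
  have hTne : ∀ i k, i ≠ k → ∀ R : W.toAffine.Point, T i ≠ T k + (R + R) := by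
    intro i k hik R hR
    have hR' : R + R = T k + T i := by
      rw [hR, ← add_assoc, hT2, zero_add]
    have hcase : T k + T i = Ta ∨ T k + T i = Tb ∨ T k + T i = Tc := by
      fin_cases i <;> fin_cases k
      · exact absurd rfl hik
      · exact Or.inl (add_zero Ta)
      · exact Or.inr (Or.inl (add_zero Tb))
      · exact Or.inr (Or.inr (add_zero Tc))
      · exact Or.inl (zero_add Ta)
      · exact absurd rfl hik
      · exact Or.inr (Or.inr ((add_comm Tb Ta).trans hsum))
      · exact Or.inr (Or.inl ((add_comm Tc Ta).trans hac'))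
      · exact Or.inr (Or.inl (zero_add Tb))
      · exact Or.inr (Or.inr hsum)
      · exact absurd rfl hik
      · exact Or.inl ((add_comm Tc Tb).trans hbc')
      · exact Or.inr (Or.inr (zero_add Tc))
      · exact Or.inr (Or.inl hac')
      · exact Or.inl hbc'
      · exact absurd rfl hik
    exact key _ R hcase hR'
  have hFT : Function.Injective (fun i => F (T i)) := by
    intro i k hik
    by_contra hne
    obtain ⟨R, hR⟩ := hFeq _ _ hik
    exact hTne i k hne R hR
  have hsurj : Function.Surjective (fun i => F (T i)) := by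
    have hc4 : Nat.card (Fin 4) = Nat.card (selHom W) := by
      refine le_antisymm (Nat.card_le_card_of_injective _ hFT) ?_
      exact hcard.trans (by simp)
    exact (Nat.bijective_iff_injective_and_card _).2 ⟨hFT, hc4⟩ |>.2
  refine ⟨rank_zero hfg fun P => ?_, fun x hx => ?_⟩
  · obtain ⟨i, hi⟩ := hsurj (F P)
    obtain ⟨R, hR⟩ := hFeq _ _ hi.symm
    exact ⟨T i, R, hT2 i, hR⟩
  · obtain ⟨f, rfl⟩ := (toSha_range h qab qac qbc x).2 hx
    obtain ⟨i, rfl⟩ := hsurj f
    exact (AddMonoidHom.mem_ker).1 (hFker (T i))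

/-- no 2-primary part -/
lemma sub_pow {G : Type} [AddCommGroup G] (h : ∀ x : G, x + x = 0 → x = 0) (j : ℕ) (x : G)
    (hx : (2 ^ j) • x = 0) : x = 0 := by
  induction j with
  | zero => simpa using hx
  | succ j ih =>
    apply ih
    apply h
    rw [← two_nsmul, ← mul_smul]
    rw [pow_succ, mul_comm] at hx
    exact hx

lemma sub_tor {W : WeierstrassCurve ℚ} (h : ∀ x : Sha W, x + x = 0 → x = 0) (j : ℕ) :
    Subsingleton (Pool.Agent.TH841.SH.D.ShaTor W (2 ^ j)) := by
  refine ⟨fun x y => (eTor W (2 ^ j)).injective ?_⟩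
  apply Subtype.ext
  rw [sub_pow h j _ (eTor W (2 ^ j) x).2, sub_pow h j _ (eTor W (2 ^ j) y).2]

end Pool.Agent.Y676
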