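import Pool.Agent.Y676.Sel4
import Pool.Agent.Y676.Sha4

/-!
# The twist by a good prime: rank zero and no 2-primary part of the Tate-Shafarevich group
-/

set_option autoImplicit false

namespace Pool.Agent.Y676

open WeierstrassCurve

open Pool.Agent.TH841.SH (SelG LocC isR_Sh)
open Pool.Agent.W307.SE (Loc)
open Pool.Agent.W307.RT (Sh)

lemma roots_tw {A B e1 e2 e3 : ℤ}
    (h : ∀ x : ℤ, x ^ 3 + A * x + B = (x - e1) * (x - e2) * (x - e3)) (d : ℤ) :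
    ∀ x : ℤ, x ^ 3 + d ^ 2 * A * x + d ^ 3 * B = (x - d * e1) * (x - d * e2) * (x - d * e3) := by
  intro x
  have h0 := h 0
  have h1 := h 1
  have h2 := h (-1)
  have hs : e1 + e2 + e3 = 0 := by linarith
  have hA : A = e1 * e2 + e1 * e3 + e2 * e3 := by linarith
  have hB : B = -(e1 * e2 * e3) := by linarith
  have he3 : e3 = -e1 - e2 := by linarith
  subst hA hB he3
  ring

lemma loc_of_locC {K : Type} [Field K] {a b c d1 d2 : ℤ} (h : LocC K a b c d1 d2) :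
    Loc K (b - a) (c - a) d1 d2 := by
  obtain ⟨x, y, hy, hxy, s1, s2⟩ := h
  refine ⟨x - a, y, hy, ?_, s1, ?_⟩
  · rw [hxy]
    push_cast
    ring
  · have e : x - (a : K) - ((b - a : ℤ) : K) = x - b := by
      push_cast
      ring
    rw [e]
    exact s2

lemma nsq {q : ℕ} (hq : q.Prime) {m : ℤ} (hm : ¬ (q : ℤ) ∣ m) :
    ¬ IsSquare (((q * m : ℤ)) : ℚ) := by
  intro h
  have hqi : Prime (q : ℤ) := Nat.prime_iff_prime_int.1 hq
  obtain ⟨r, hr⟩ := Rat.isSquare_intCast_iff.mp h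
  have h1 : (q : ℤ) ∣ r * r := ⟨m, hr.symm⟩
  obtain ⟨t, rfl⟩ := (hqi.dvd_or_dvd h1).elim id id
  have h2 : m = q * (t * t) := by
    have h3 : (q : ℤ) * m = q * (q * (t * t)) := by linear_combination hr
    exact mul_left_cancel₀ hqi.ne_zero h3
  exact hm ⟨_, h2⟩

/-- **The twist by a good prime.** -/
theorem tw_one {c : ℤ × ℤ} {e1 e2 e3 : ℤ}
    (hr : ∀ x : ℤ, x ^ 3 + c.1 * x + c.2 = (x - e1) * (x - e2) * (x - e3)) {Y : ℕ} (hY : 2 ≤ Y)
    (h1 : Ty1 Y (e2 - e1) (e3 - e1)) {s : ℕ → Bool}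
    (hs : ∀ e, InS Y (e2 - e1) (e3 - e1) s e → e = (1, 1)) {q : ℕ}
    (hq : GoodQ Y (e2 - e1) (e3 - e1) s q) :
    Pool.Agent.TH841.SH.D.rk (Sh ((q : ℤ) ^ 2 * c.1) ((q : ℤ) ^ 3 * c.2)) = 0 ∧
      ∀ j : ℕ, Subsingleton (Pool.Agent.TH841.SH.D.ShaTor
        (Sh ((q : ℤ) ^ 2 * c.1) ((q : ℤ) ^ 3 * c.2)) (2 ^ j)) := by
  have hqi : Prime (q : ℤ) := Nat.prime_iff_prime_int.1 hq.pr
  have hnd := hq.nd
  obtain ⟨A, hA⟩ : ∃ A, A = e2 - e1 := ⟨_, rfl⟩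
  obtain ⟨B, hB⟩ : ∃ B, B = e3 - e1 := ⟨_, rfl⟩
  rw [← hA, ← hB] at h1 hs hq hnd
  have dA : ¬ (q : ℤ) ∣ A := fun h => hnd ((h.mul_right _).mul_right _)
  have dB : ¬ (q : ℤ) ∣ B := fun h => hnd ((h.mul_left _).mul_right _)
  have dAB : ¬ (q : ℤ) ∣ A - B := fun h => hnd (h.mul_left _)
  have hA0 : A ≠ 0 := fun h => dA (by rw [h]; exact dvd_zero _)
  have hB0 : B ≠ 0 := fun h => dB (by rw [h]; exact dvd_zero _)
  have hAB0 : A - B ≠ 0 := fun h => dAB (by rw [h]; exact dvd_zero _)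
  have hr' := roots_tw hr (q : ℤ)
  have hR := isR_Sh hr'
  have hsub : SelG (q * e1) (q * e2) (q * e3) ⊆
      {e | InSel ((q : ℤ) * A) ((q : ℤ) * B) e} := by
    rintro e ⟨k1, k2, k3, k4⟩
    have ea : (q : ℤ) * A = q * e2 - q * e1 := by rw [hA]; ring
    have eb : (q : ℤ) * B = q * e3 - q * e1 := by rw [hB]; ring
    refine ⟨k1, k2, ?_, fun p _ => ?_⟩
    · rw [ea, eb]
      exact loc_of_locC k3
    · rw [ea, eb]
      exact loc_of_locC (k4 p)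
  obtain ⟨hfin, hcard⟩ := sel_card hY h1 hs hq
  have hq0 := hqi.ne_zero
  obtain ⟨g1, g2⟩ := sha4 (Sh ((q : ℤ) ^ 2 * c.1) ((q : ℤ) ^ 3 * c.2)) (q * e1) (q * e2) (q * e3)
    (by exact_mod_cast hR)
    (fun h => hA0 (by rw [hA]; exact sub_eq_zero.2 (mul_left_cancel₀ hq0 h).symm))
    (fun h => hB0 (by rw [hB]; exact sub_eq_zero.2 (mul_left_cancel₀ hq0 h).symm))
    (fun h => hAB0 (by
      have := mul_left_cancel₀ hq0 h
      rw [hA, hB, this]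
      ring))
    (hfin.subset hsub) ((Set.ncard_le_ncard hsub hfin).trans hcard)
    (by
      have e : ((q * e1 : ℤ) : ℚ) - ((q * e2 : ℤ) : ℚ) = ((q * (-A) : ℤ) : ℚ) := by
        rw [hA]; push_cast; ring
      rw [e]
      exact nsq hq.pr (fun h => dA ((dvd_neg).1 h)))
    (by
      have e : ((q * e2 : ℤ) : ℚ) - ((q * e1 : ℤ) : ℚ) = ((q * A : ℤ) : ℚ) := by
        rw [hA]; push_cast; ring
      rw [e]
      exact nsq hq.pr dA)
    (by
      have e : ((q * e3 : ℤ) : ℚ) - ((q * e1 : ℤ) : ℚ) = ((q * B : ℤ) : ℚ) := by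
        rw [hB]; push_cast; ring
      rw [e]
      exact nsq hq.pr dB)
  exact ⟨g1, fun j => sub_tor g2 j⟩

end Pool.Agent.Y676
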