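import Pool.Agent.Y676.Box
import Pool.Agent.Y676.One

/-!
# From the sign patterns to the good primes
-/

set_option autoImplicit false

namespace Pool.Agent.Y676

open Finset
open Pool.Agent.W262.RK (dv sgn sg0 LL LocH)

variable {k : ℕ}

/-- the number whose symbol matters -/
def uAB (A B : ℤ) (l : ℕ) : ℤ := if (l : ℤ) ∣ A then -B else if (l : ℤ) ∣ B then -A else A

lemma sQ_eq (A B q : ℤ) (l : ℕ) : sQ A B q l = sg0 l (q * uAB A B l) := by
  unfold sQ uAB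
  split_ifs
  · rw [mul_neg]
  · rw [mul_neg]
  · rfl

/-- the value of `(q | l)` which gives the sign `b` -/
def kap (A B : ℤ) (b : Bool) (l : ℕ) : ℤ := (if b then -1 else 1) * jacobiSym (uAB A B l) l

lemma uAB_nd {A B : ℤ} {l : ℕ} (h1 : ¬ (l : ℤ) ^ 2 ∣ A * B * (A - B)) :
    ¬ (l : ℤ) ∣ uAB A B l := by
  have two : ∀ {u v : ℤ}, (l : ℤ) ∣ u → (l : ℤ) ∣ v → (l : ℤ) ^ 2 ∣ u * v := by
    intro u v hu hv
    rw [pow_two]
    exact mul_dvd_mul hu hv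
  unfold uAB
  split_ifs with hA hB
  · intro h
    exact h1 ((two hA ((dvd_neg).1 h)).mul_right _)
  · intro h
    exact hA ((dvd_neg).1 h)
  · exact hA

lemma kap_spec {A B : ℤ} {b : Bool} {l : ℕ} (hl : l.Prime)
    (h1 : ¬ (l : ℤ) ^ 2 ∣ A * B * (A - B)) : (kap A B b l = 1 ∨ kap A B b l = -1) ∧
      ∀ q : ℤ, jacobiSym q l = kap A B b l → sQ A B q l = b := by
  have hu := sg0_pm hl (uAB_nd h1)
  unfold kap
  refine ⟨?_, fun q hq => ?_⟩
  · rw [hu]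
    split_ifs <;> norm_num
  · rw [sQ_eq]
    have e : sg0 l (q * uAB A B l) = decide (jacobiSym (q * uAB A B l) l = -1) := rfl
    rw [e, jacobiSym.mul_left, hq, hu]
    generalize sg0 l (uAB A B l) = c
    cases b <;> cases c <;> decide

open Classical in
/-- the combined pattern -/
noncomputable def kk (t : Fin k → ℤ × ℤ) (s : Fin k → ℕ → Bool) (l : ℕ) : ℤ :=
  if h : ∃ i, l ∣ Nn (t i) then kap (t h.choose).1 (t h.choose).2 (s h.choose l) l else 1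

lemma dvd_Nn {t : ℤ × ℤ} {l : ℕ} : l ∣ Nn t ↔ (l : ℤ) ∣ t.1 * t.2 * (t.1 - t.2) := by
  unfold Nn
  rw [Int.natCast_dvd]

lemma kk_eq {Y : ℕ} {t : Fin k → ℤ × ℤ} (hc : ∀ i i', i ≠ i' → ¬ Crs Y (t i) (t i'))
    {s : Fin k → ℕ → Bool} {l : ℕ} (hl : l.Prime) (hY : Y < l) {i : Fin k} (hi : l ∣ Nn (t i)) :
    kk t s l = kap (t i).1 (t i).2 (s i l) l := by
  have h : ∃ i, l ∣ Nn (t i) := ⟨i, hi⟩
  have e : h.choose = i := by
    by_contra hne
    exact hc _ _ hne ⟨l, hl, hY, h.choose_spec, hi⟩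
  unfold kk
  rw [dif_pos h, e]

lemma mem_PP {X Y : ℕ} {t : Fin k → ℤ × ℤ} (ht : t ∈ TB k X) {l : ℕ} (hl : l.Prime) (hY : Y < l)
    {i : Fin k} (hi : l ∣ Nn (t i)) : l ∈ PP Y t := by
  rw [mem_TB] at ht
  unfold PP
  rw [mem_filter, Nat.mem_primeFactors]
  exact ⟨⟨hl, hi.trans (dvd_prod_of_mem _ (mem_univ i)),
    prod_ne_zero_iff.2 fun i _ => Nn_ne (ht i)⟩, hY⟩

lemma kk_pm {X Y Q : ℕ} {t : Fin k → ℤ × ℤ} (hG : GT Y X Q t)
    (s : Fin k → ℕ → Bool) : ∀ l ∈ PP Y t, kk t s l = 1 ∨ kk t s l = -1 := by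
  intro l hl
  have hlp := PP_prime l hl
  obtain ⟨i, -, hi⟩ := (hlp.prime.dvd_finsetProd_iff _).1 (PP_dvd l hl)
  rw [kk_eq hG.crs hlp (PP_gt l hl) hi]
  exact (kap_spec hlp (hG.ty1 i l hlp (PP_gt l hl))).1

lemma mod_one {q m W : ℕ} (h : q % W = 1 % W) (hm : m ∣ W) : q % m = 1 % m :=
  Nat.ModEq.of_dvd hm h

/-- the primes with the sign pattern are good -/
theorem goodq_of {X Y Q : ℕ} {t : Fin k → ℤ × ℤ} (ht : t ∈ TB k X) (hG : GT Y X Q t)
    (s : Fin k → ℕ → Bool) {q : ℕ} (hq : q ∈ PAT (WY Y) Q (PP Y t) (kk t s)) (i : Fin k) :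
    GoodQ Y (t i).1 (t i).2 (s i) q := by
  classical
  unfold PAT at hq
  rw [mem_filter] at hq
  obtain ⟨hq1, hq2, hq3⟩ := hq
  unfold PQ at hq1
  rw [mem_filter] at hq1
  obtain ⟨-, hqp, hqm⟩ := hq1
  have m8 : q % 8 = 1 := by
    have := mod_one hqm (show 8 ∣ WY Y by unfold WY; exact Dvd.intro _ rfl)
    omega
  have hqY : Y < q := by
    by_contra h
    push Not at h
    have h1 : q ∣ WY Y := by
      unfold WY
      exact ((hqp.dvd_factorial).2 h).mul_left _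
    have h2 := mod_one hqm h1
    rw [Nat.mod_self, Nat.mod_eq_of_lt hqp.one_lt] at h2
    omega
  refine ⟨hqp, m8, ?_, ?_, ?_⟩
  · intro p hp hp2 hpY
    have h1 : p ∣ WY Y := by
      unfold WY
      exact ((hp.dvd_factorial).2 hpY).mul_left _
    have h2 := mod_one hqm h1
    have h3 : ((q : ℤ)) % (p : ℤ) = 1 % (p : ℤ) := by exact_mod_cast h2
    rw [jacobiSym.mod_left, h3, ← jacobiSym.mod_left, jacobiSym.one_left]
  · intro h
    exact hq2 (mem_PP ht hqp hqY (dvd_Nn.2 h))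
  · intro l hl hlY hd
    have hd' : l ∣ Nn (t i) := dvd_Nn.2 hd
    have h1 := hq3 l (mem_PP ht hl hlY hd')
    rw [kk_eq hG.crs hl hlY hd'] at h1
    exact (kap_spec hl (hG.ty1 i l hl hlY)).2 _ h1

/-- **The number of the good primes.** -/
theorem many_good {X Y Q : ℕ} (hY : 2 ≤ Y) {t : Fin k → ℤ × ℤ} (ht : t ∈ TB k X)
    (hG : GT Y X Q t) : ∃ (s : Fin k → ℕ → Bool) (S : Finset ℕ),
      (∀ i e, InS Y (t i).1 (t i).2 (s i) e → e = (1, 1)) ∧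
      (∀ q ∈ S, q.Prime ∧ q ≤ Q ∧ ∀ i, GoodQ Y (t i).1 (t i).2 (s i) q) ∧
      ((PQ (WY Y) Q).card : ℝ) / 2 ≤ (Real.log X) ^ (6 * k) * S.card := by
  have ht' := mem_TB.1 ht
  have h1 : ∀ i, ∃ s : ℕ → Bool, ∀ e, InS Y (t i).1 (t i).2 s e → e = (1, 1) := by
    intro i
    have hB := mem_Bx.1 (ht' i)
    exact exists_signs hY (mul_ne_zero (mul_ne_zero hB.2.1 hB.2.2.1) (sub_ne_zero.2 hB.2.2.2))
      (hG.ty2 i)
  choose s hs using h1
  refine ⟨s, PAT (WY Y) Q (PP Y t) (kk t s), hs,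
    fun q hq => ⟨?_, ?_, fun i => goodq_of ht hG s hq i⟩, ?_⟩
  · classical
    unfold PAT PQ at hq
    rw [mem_filter, mem_filter, mem_Icc] at hq
    exact hq.1.2.1
  · classical
    unfold PAT PQ at hq
    rw [mem_filter, mem_filter, mem_Icc] at hq
    exact hq.1.1.2
  · refine (hG.pat _ (kk_pm hG s)).trans ?_
    exact mul_le_mul_of_nonneg_right hG.sml (Nat.cast_nonneg _)

end Pool.Agent.Y676
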