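import Mathlib
import Pool.Agent.W351.HB.PF
import Pool.Agent.W215.HB.Bilo
import Pool.Agent.W864.HB.Bilt
import Pool.Agent.W313.BMX.Alg
import Pool.Agent.W313.BMX.Final
import Pool.Agent.W307.SE.Stm

/-!
# Hilbert symbols over the completions of `ℚ` and the local images of `y² = x (x - A) (x - B)`

The local image is isotropic for the pairing `(d1, d2') (d2, d1')`.
-/

set_option autoImplicit false

namespace Pool.Agent.Y676.HS

open Pool.Agent.W313.BMX (Splits splits_comm splits_mul_sq)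

/-- the Hilbert symbol is bilinear -/
def BL (K : Type) [Field K] : Prop := ∀ a b c : K, a ≠ 0 → b ≠ 0 → c ≠ 0 →
  (Splits a (b * c) ↔ (Splits a b ↔ Splits a c))

lemma splits_real_iff {a b : ℝ} (ha : a ≠ 0) (hb : b ≠ 0) : Splits a b ↔ ¬ (a < 0 ∧ b < 0) := by
  constructor
  · rintro ⟨x, y, z, h0, h1⟩ ⟨h2, h3⟩
    have hx : x = 0 := by
      by_contra hx
      have : 0 < x ^ 2 := by positivity
      nlinarith [sq_nonneg z, sq_nonneg y]
    have hy : y = 0 := by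
      by_contra hy
      have : 0 < y ^ 2 := by positivity
      nlinarith [sq_nonneg z, sq_nonneg x]
    subst hx hy
    have hz : z = 0 := by
      have : z ^ 2 = 0 := by rw [h1]; ring
      exact pow_eq_zero_iff two_ne_zero |>.1 this
    rcases h0 with h | h | h
    · exact h rfl
    · exact h rfl
    · exact h hz
  · intro h
    by_cases h1 : a < 0
    · have h2 : 0 ≤ b := by
        by_contra h3
        exact h ⟨h1, not_le.1 h3⟩
      exact ⟨0, 1, Real.sqrt b, Or.inr (Or.inl one_ne_zero), by rw [Real.sq_sqrt h2]; ring⟩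
    · have h2 : 0 ≤ a := not_lt.1 h1
      exact ⟨1, 0, Real.sqrt a, Or.inl one_ne_zero, by rw [Real.sq_sqrt h2]; ring⟩

lemma bl_real : BL ℝ := by
  intro a b c ha hb hc
  rw [splits_real_iff ha (mul_ne_zero hb hc), splits_real_iff ha hb, splits_real_iff ha hc,
    mul_neg_iff]
  have hb' : b < 0 ∨ 0 < b := lt_or_gt_of_ne hb
  have hc' : c < 0 ∨ 0 < c := lt_or_gt_of_ne hc
  rcases hb' with h1 | h1 <;> rcases hc' with h2 | h2 <;>
    simp [h1, h2, h1.le, h2.le, not_lt.2 h1.le, not_lt.2 h2.le]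

lemma exists_int (p : ℕ) [Fact p.Prime] (a : ℚ_[p]) (ha : a ≠ 0) :
    ∃ (n : ℤ) (c : ℚ_[p]), n ≠ 0 ∧ c ≠ 0 ∧ a = (n : ℚ_[p]) * c ^ 2 := by
  obtain ⟨t, m, c, -, hm, hc, h⟩ := Pool.Agent.W310.BMX.odd4 p a ha
  refine ⟨(p : ℤ) ^ t * m, c, ?_, hc, h⟩
  rintro h0
  rw [h0] at h
  apply ha
  rw [h]
  simp

lemma bl_padic (p : ℕ) [hp : Fact p.Prime] : BL ℚ_[p] := by
  intro a b c ha hb hc
  obtain ⟨n, u, hn, hu, rfl⟩ := exists_int p a ha
  obtain ⟨m, v, hm, hv, rfl⟩ := exists_int p b hb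
  obtain ⟨k, w, hk, hw, rfl⟩ := exists_int p c hc
  have e1 : (m : ℚ_[p]) * v ^ 2 * (k * w ^ 2) = ((m * k : ℤ) : ℚ_[p]) * (v * w) ^ 2 := by
    push_cast; ring
  rw [e1, splits_mul_sq hu, splits_comm, splits_mul_sq (mul_ne_zero hv hw), splits_comm,
    splits_mul_sq hu, splits_comm (b := (m : ℚ_[p]) * v ^ 2), splits_mul_sq hv, splits_comm,
    splits_mul_sq hu, splits_comm (b := (k : ℚ_[p]) * w ^ 2), splits_mul_sq hw, splits_comm]
  by_cases hp2 : p = 2
  · subst hp2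
    rw [Pool.Agent.W864.HBm.bilt_ n m k hn hm hk]
    rw [splits_comm (a := (m : ℚ_[2])), splits_comm (a := (k : ℚ_[2]))]
  · rw [Pool.Agent.W215.HB.bilo_ p hp2 n m k hn hm hk]
    rw [splits_comm (a := (m : ℚ_[p])), splits_comm (a := (k : ℚ_[p]))]

end Pool.Agent.Y676.HS
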