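import Mathlib
import Pool.Agent.Y676.Sha4
import Pool.Agent.TH841.SH.SelR
import Pool.Agent.Y155.RP.RK2

/-!
# Curves with four Selmer classes: the rank is zero and `Ш[2 ^ j] = 0`, without assumptions on the
torsion
-/

set_option autoImplicit false

namespace Pool.Agent.Y676

open WeierstrassCurve

open scoped Classical

open Pool.Agent.TH841.SH
open Pool.Agent.W262.SH (QB Pt act IsCoc IsCob LocTriv shaCoc cob Sha)
open Pool.Agent.H437R2.Man.MW (crv pt_fg)

/-- **Four Selmer classes.** -/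
theorem sha4g (W : WeierstrassCurve ℚ) (a b c : ℤ) (h : IsR W (a : ℚ) (b : ℚ) (c : ℚ))
    (hab : a ≠ b) (hac : a ≠ c) (hbc : b ≠ c) (hS : (SelG a b c).Finite)
    (hS4 : (SelG a b c).ncard ≤ 4) :
    Module.finrank ℤ W.toAffine.Point = 0 ∧ ∀ x : Sha W, x + x = 0 → x = 0 := by
  have qab : (a : ℚ) ≠ b := by exact_mod_cast hab
  have qac : (a : ℚ) ≠ c := by exact_mod_cast hac
  have qbc : (b : ℚ) ≠ c := by exact_mod_cast hbc
  obtain ⟨Φ, hΦ, hΦS⟩ := sel_inj h hab hac hbc
  have hfin : Finite (SelG a b c) := hS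
  have hfin' : Finite (selHom W) :=
    Finite.of_injective (fun f => (⟨Φ f, hΦS f⟩ : SelG a b c))
      (fun f g hfg => hΦ (congrArg Subtype.val hfg))
  have hcard : Nat.card (selHom W) ≤ 4 := by
    refine le_trans ?_ hS4
    rw [← Nat.card_coe_set_eq]
    exact Nat.card_le_card_of_injective (fun f => (⟨Φ f, hΦS f⟩ : SelG a b c))
      (fun f g hfg => hΦ (congrArg Subtype.val hfg))
  have hW : W = crv (-(a : ℚ)) (-(b : ℚ)) (-(c : ℚ)) := by
    apply WeierstrassCurve.ext
    · rw [h.h1]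
      rfl
    · rw [h.h2]
      show _ = -(a : ℚ) + -(b : ℚ) + -(c : ℚ)
      ring
    · rw [h.h3]
      rfl
    · rw [h.h4]
      show _ = -(a : ℚ) * -(b : ℚ) + -(a : ℚ) * -(c : ℚ) + -(b : ℚ) * -(c : ℚ)
      ring
    · rw [h.h6]
      show _ = -(a : ℚ) * -(b : ℚ) * -(c : ℚ)
      ring
  have hfg : AddGroup.FG W.toAffine.Point := by
    rw [hW]
    exact pt_fg (fun h => qab (neg_injective h)) (fun h => qac (neg_injective h))
      (fun h => qbc (neg_injective h))
  -- the torsion points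
  have ha : W.toAffine.Nonsingular (a : ℚ) 0 := h.nons two_ne_zero qab qac qbc (by ring)
  have hb : W.toAffine.Nonsingular (b : ℚ) 0 := h.nons two_ne_zero qab qac qbc (by ring)
  obtain ⟨hc, hsum⟩ := h.add_two qab ha hb
  set Ta : W.toAffine.Point := .some (a : ℚ) 0 ha with hTa
  set Tb : W.toAffine.Point := .some (b : ℚ) 0 hb with hTb
  set Tc : W.toAffine.Point := .some (c : ℚ) 0 hc with hTc
  have ta : Ta + Ta = 0 := (h.add_self two_ne_zero ha).2 rfl
  have tb : Tb + Tb = 0 := (h.add_self two_ne_zero hb).2 rfl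
  have tc : Tc + Tc = 0 := (h.add_self two_ne_zero hc).2 rfl
  obtain ⟨j, hj, hjσ, hjf⟩ := exists_rat W
  have hinj : Function.Injective (algebraMap ℚ QB) := (algebraMap ℚ QB).injective
  have hdiv := fun P : W.toAffine.Point =>
    (h.base QB).div two_ne_zero (hinj.ne qab) (hinj.ne qac) (hinj.ne qbc) (j P)
  choose Q hQ using hdiv
  have hsel : ∀ P : W.toAffine.Point,
      (fun σ : QB ≃ₐ[ℚ] QB => act W σ.toAlgHom (Q P) - Q P) ∈ selHom W := by
    intro P
    apply cob_sel h
    intro σ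
    have e3 : act W σ.toAlgHom (Q P) - Q P + (act W σ.toAlgHom (Q P) - Q P) =
      (act W σ.toAlgHom (Q P) + act W σ.toAlgHom (Q P)) - (Q P + Q P) := by abel
    rw [e3, ← map_add, ← hQ, hjσ, sub_self]
  set F : W.toAffine.Point → selHom W := fun P => ⟨_, hsel P⟩ with hF
  have hFker : ∀ P, F P ∈ (toSha h).ker := by
    intro P
    rw [toSha_ker]
    exact ⟨Q P, fun σ => rfl⟩
  have hFeq : ∀ P P', F P = F P' → ∃ R : W.toAffine.Point, P = P' + (R + R) := by
    intro P P' hPP
    have hval : ∀ σ : QB ≃ₐ[ℚ] QB, act W σ.toAlgHom (Q P) - Q P = act W σ.toAlgHom (Q P') - Q P' :=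
      fun σ => congrFun (congrArg Subtype.val hPP) σ
    have hfix : ∀ σ : QB ≃ₐ[ℚ] QB, act W σ.toAlgHom (Q P - Q P') = Q P - Q P' := by
      intro σ
      have e4 := hval σ
      rw [map_sub]
      have e5 : act W σ.toAlgHom (Q P) = act W σ.toAlgHom (Q P') - Q P' + Q P := by
        rw [← e4]
        abel
      rw [e5]
      abel
    obtain ⟨R, hR⟩ := hjf _ hfix
    refine ⟨R, hj ?_⟩
    rw [map_add, map_add, hR, hQ P, hQ P']
    abel
  -- the four torsion points
  have n0a : (0 : W.toAffine.Point) ≠ Ta := fun h => Affine.Point.some_ne_zero ha h.symm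
  have n0b : (0 : W.toAffine.Point) ≠ Tb := fun h => Affine.Point.some_ne_zero hb h.symm
  have n0c : (0 : W.toAffine.Point) ≠ Tc := fun h => Affine.Point.some_ne_zero hc h.symm
  have nab : Ta ≠ Tb := by
    intro h
    rw [hTa, hTb, Affine.Point.some.injEq] at h
    exact qab h.1
  have nac : Ta ≠ Tc := by
    intro h
    rw [hTa, hTc, Affine.Point.some.injEq] at h
    exact qac h.1
  have nbc : Tb ≠ Tc := by
    intro h
    rw [hTb, hTc, Affine.Point.some.injEq] at h
    exact qbc h.1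
  have hF4c : ({0, Ta, Tb, Tc} : Finset W.toAffine.Point).card = 4 := by
    rw [Finset.card_insert_of_notMem, Finset.card_insert_of_notMem,
      Finset.card_insert_of_notMem, Finset.card_singleton]
    · rwa [Finset.mem_singleton]
    · rw [Finset.mem_insert, Finset.mem_singleton]
      rintro (h | h)
      · exact nab h
      · exact nac h
    · rw [Finset.mem_insert, Finset.mem_insert, Finset.mem_singleton]
      rintro (h | h | h)
      · exact n0a h
      · exact n0b h
      · exact n0c h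
  have hF4 : ∀ g ∈ ({0, Ta, Tb, Tc} : Finset W.toAffine.Point), g + g = 0 := by
    intro g hg
    rw [Finset.mem_insert, Finset.mem_insert, Finset.mem_insert, Finset.mem_singleton] at hg
    rcases hg with rfl | rfl | rfl | rfl
    · exact add_zero 0
    · exact ta
    · exact tb
    · exact tc
  -- representatives
  have hfinR : (Set.range F).Finite := Set.toFinite _
  have hrep : ∀ f : selHom W, ∃ P : W.toAffine.Point, f ∈ Set.range F → F P = f := by
    intro f
    by_cases hf : f ∈ Set.range F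
    · obtain ⟨P, hP⟩ := hf
      exact ⟨P, fun _ => hP⟩
    · exact ⟨0, fun h => absurd h hf⟩
  choose g hg using hrep
  have hcov : ∀ P : W.toAffine.Point, ∃ t ∈ hfinR.toFinset.image g,
      ∃ q : W.toAffine.Point, P = t + (q + q) := by
    intro P
    refine ⟨g (F P), ?_, ?_⟩
    · rw [Finset.mem_image]
      exact ⟨F P, hfinR.mem_toFinset.2 ⟨P, rfl⟩, rfl⟩
    · exact hFeq _ _ (hg (F P) ⟨P, rfl⟩).symm
  have hrk := Pool.Agent.Y155.RP.rkb2 W.toAffine.Point hfg _ hcov _ hF4c.ge hF4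
  have hle : (hfinR.toFinset.image g).card ≤ (Set.range F).ncard := by
    rw [Set.ncard_eq_toFinset_card _ hfinR]
    exact Finset.card_image_le
  have hle2 : (Set.range F).ncard ≤ Nat.card (selHom W) := by
    rw [← Set.ncard_univ]
    exact Set.ncard_le_ncard (Set.subset_univ _) Set.finite_univ
  have h4 : (Set.range F).ncard = Nat.card (selHom W) ∧
      Module.finrank ℤ W.toAffine.Point = 0 := by
    have h5 : 2 ^ (Module.finrank ℤ W.toAffine.Point + 2) ≤ 4 := by omega
    have h6 : 2 ^ 2 ≤ 2 ^ (Module.finrank ℤ W.toAffine.Point + 2) :=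
      Nat.pow_le_pow_right (by norm_num) (by omega)
    refine ⟨by omega, ?_⟩
    have h7 : Module.finrank ℤ W.toAffine.Point + 2 ≤ 2 :=
      (Nat.pow_le_pow_iff_right (by norm_num : 1 < 2)).1 (by omega)
    omega
  have hsurj : Function.Surjective F := by
    rw [← Set.range_eq_univ]
    apply Set.eq_of_subset_of_ncard_le (Set.subset_univ _) _ Set.finite_univ
    rw [Set.ncard_univ, h4.1]
  refine ⟨h4.2, fun x hx => ?_⟩
  obtain ⟨f, rfl⟩ := (toSha_range h qab qac qbc x).2 hx
  obtain ⟨P, rfl⟩ := hsurj f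
  exact (AddMonoidHom.mem_ker).1 (hFker P)


/-- **A 2-Selmer group of order at most four.** -/
theorem sel4 {c : ℤ × ℤ} {e1 e2 e3 : ℤ} (hD : 4 * c.1 ^ 3 + 27 * c.2 ^ 2 ≠ 0)
    (h : ∀ x : ℤ, x ^ 3 + c.1 * x + c.2 = (x - e1) * (x - e2) * (x - e3))
    (hS : (Pool.Agent.W307.SE.SelR c.1 c.2).Finite)
    (hS4 : (Pool.Agent.W307.SE.SelR c.1 c.2).ncard ≤ 4) :
    D.rk (Pool.Agent.W307.RT.Sh c.1 c.2) = 0 ∧
      ∀ j : ℕ, Subsingleton (D.ShaTor (Pool.Agent.W307.RT.Sh c.1 c.2) (2 ^ j)) := by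
  obtain ⟨d12, d13, d23⟩ := Pool.Agent.W402.FK.dist c.1 c.2 e1 e2 e3 hD h
  obtain ⟨g1, g2⟩ := selG_le hD h hS
  obtain ⟨k1, k2⟩ := sha4g (Pool.Agent.W307.RT.Sh c.1 c.2) e1 e2 e3 (isR_Sh h) d12 d13 d23 g1
    (g2.trans hS4)
  exact ⟨k1, fun j => sub_tor k2 j⟩

end Pool.Agent.Y676
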