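import Pool.Agent.Y676.Hil

/-!
# The local image of `y² = x (x - A) (x - B)` is isotropic
-/

set_option autoImplicit false

namespace Pool.Agent.Y676.HS

open Pool.Agent.W313.BMX (Splits splits_comm splits_mul_sq)

section

variable {K : Type} [Field K]

open Classical in
/-- the Hilbert symbol -/
noncomputable def hs (u v : K) : ℤ := if Splits u v then 1 else -1

lemma hs_sq (u v : K) : hs u v * hs u v = 1 := by
  unfold hs
  split_ifs <;> norm_num

lemma hs_one_iff (u v : K) : hs u v = 1 ↔ Splits u v := by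
  unfold hs
  split_ifs with h
  · simp [h]
  · simp [h]

lemma hs_comm (u v : K) : hs u v = hs v u := by
  unfold hs
  rw [splits_comm]

lemma hs_eq_iff (u v u' v' : K) : hs u v = hs u' v' ↔ (Splits u v ↔ Splits u' v') := by
  unfold hs
  split_ifs with h h' h'
  · simp [h, h']
  · simp [h, h']
  · simp [h, h']
  · simp [h, h']

lemma hs_mul (hB : BL K) {u v w : K} (hu : u ≠ 0) (hv : v ≠ 0) (hw : w ≠ 0) :
    hs u (v * w) = hs u v * hs u w := by
  have h := hB u v w hu hv hw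
  unfold hs
  by_cases h1 : Splits u v <;> by_cases h2 : Splits u w <;> by_cases h3 : Splits u (v * w) <;>
    simp_all

lemma hs_mul' (hB : BL K) {u v w : K} (hu : u ≠ 0) (hv : v ≠ 0) (hw : w ≠ 0) :
    hs (v * w) u = hs v u * hs w u := by
  rw [hs_comm, hs_mul hB hu hv hw, hs_comm u v, hs_comm u w]

lemma hs_neg_self (u : K) : hs u (-u) = 1 := by
  rw [hs_one_iff]
  exact ⟨1, 1, 0, Or.inl one_ne_zero, by ring⟩

lemma hs_add {u v w : K} (h : u + v = w ^ 2) : hs u v = 1 := by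
  rw [hs_one_iff]
  exact ⟨1, 1, w, Or.inl one_ne_zero, by rw [← h]; ring⟩

/-- same class -/
lemma hs_cls {u u' : K} (hu' : u' ≠ 0) (hu : u ≠ 0) (h : IsSquare (u * u')) (v : K) :
    hs u v = hs u' v := by
  obtain ⟨r, hr⟩ := h
  have hr0 : r ≠ 0 := by
    rintro rfl
    rw [mul_zero] at hr
    exact mul_ne_zero hu hu' hr
  rw [hs_eq_iff]
  have e : u = u' * (r / u') ^ 2 := by
    have : u * u' = r ^ 2 := by rw [hr]; ring
    field_simp
    linear_combination this
  rw [e, splits_mul_sq (div_ne_zero hr0 hu')]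

lemma hs_cls' {u u' : K} (hu' : u' ≠ 0) (hu : u ≠ 0) (h : IsSquare (u * u')) (v : K) :
    hs v u = hs v u' := by
  rw [hs_comm, hs_cls hu' hu h, hs_comm]

/-- the quadratic form -/
lemma hs_quad (hB : BL K) {a b g : K} (ha : a ≠ 0) (hb : b ≠ 0) (hg : g ≠ 0) (h : a - b = g) :
    hs a b = hs a (-g) * hs b g := by
  have h1 : hs (a * g) (b * (-g)) = 1 := by
    apply hs_add (w := g)
    rw [← h]; ring
  have hng : -g ≠ 0 := neg_ne_zero.2 hg
  rw [hs_mul hB (mul_ne_zero ha hg) hb hng, hs_mul' hB hb ha hg, hs_mul' hB hng ha hg,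
    hs_neg_self, mul_one, hs_comm g b] at h1
  have h2 := hs_sq a (-g)
  have h3 := hs_sq b g
  calc hs a b = hs a b * 1 * 1 := by ring
    _ = hs a b * (hs a (-g) * hs a (-g)) * (hs b g * hs b g) := by rw [h2, h3]
    _ = (hs a b * hs b g * hs a (-g)) * (hs a (-g) * hs b g) := by ring
    _ = hs a (-g) * hs b g := by rw [h1, one_mul]

/-- the algebra of the isotropy -/
lemma iso_aux (hB : BL K) {a b a' b' g : K} (ha : a ≠ 0) (hb : b ≠ 0) (ha' : a' ≠ 0)
    (hb' : b' ≠ 0) (hg : g ≠ 0) (h : a - b = g) (h' : a' - b' = g)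
    (hc : hs (a * a') (b * b') = hs (a * a') (-g) * hs (b * b') g) :
    hs a b' = hs b a' := by
  have hng : -g ≠ 0 := neg_ne_zero.2 hg
  have haa := mul_ne_zero ha ha'
  rw [hs_mul hB haa hb hb', hs_mul' hB hb ha ha', hs_mul' hB hb' ha ha', hs_mul' hB hng ha ha',
    hs_mul' hB hg hb hb'] at hc
  have q1 := hs_quad hB ha hb hg h
  have q2 := hs_quad hB ha' hb' hg h'
  have s1 := hs_sq a b'
  have s2 := hs_sq a b
  have s3 := hs_sq a' b'
  have key : hs a b' * hs a' b = 1 := by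
    have e : hs a (-g) * hs a' (-g) * (hs b g * hs b' g) = hs a b * hs a' b' := by
      rw [q1, q2]; ring
    rw [e] at hc
    calc hs a b' * hs a' b = hs a b' * hs a' b * (hs a b * hs a b) * (hs a' b' * hs a' b') := by
          rw [s2, s3]; ring
      _ = (hs a b * hs a' b * (hs a b' * hs a' b')) * (hs a b * hs a' b') := by ring
      _ = (hs a b * hs a' b') * (hs a b * hs a' b') := by rw [hc]
      _ = (hs a b * hs a b) * (hs a' b' * hs a' b') := by ring
      _ = 1 := by rw [s2, s3]; ring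
  calc hs a b' = hs a b' * (hs a' b * hs a' b) := by rw [hs_sq]; ring
    _ = (hs a b' * hs a' b) * hs a' b := by ring
    _ = hs b a' := by rw [key, one_mul, hs_comm]

/-- **isotropy** for two points of `y² = (x - a) (x - b) (x - c)` -/
theorem iso_pts (hB : BL K) {a b c x y x' y' : K} (hab : a ≠ b) (hy : y ≠ 0) (hy' : y' ≠ 0)
    (h : y ^ 2 = (x - a) * (x - b) * (x - c)) (h' : y' ^ 2 = (x' - a) * (x' - b) * (x' - c)) :
    hs (x - a) (x' - b) = hs (x - b) (x' - a) := by
  have hn : (x - a) * (x - b) * (x - c) ≠ 0 := by rw [← h]; exact pow_ne_zero 2 hy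
  have hn' : (x' - a) * (x' - b) * (x' - c) ≠ 0 := by rw [← h']; exact pow_ne_zero 2 hy'
  have xa : x - a ≠ 0 := left_ne_zero_of_mul (left_ne_zero_of_mul hn)
  have xb : x - b ≠ 0 := right_ne_zero_of_mul (left_ne_zero_of_mul hn)
  have xa' : x' - a ≠ 0 := left_ne_zero_of_mul (left_ne_zero_of_mul hn')
  have xb' : x' - b ≠ 0 := right_ne_zero_of_mul (left_ne_zero_of_mul hn')
  have hg : b - a ≠ 0 := sub_ne_zero.2 hab.symm
  by_cases hxx : x = x'
  · subst hxx
    rw [hs_comm]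
  have hd : x - x' ≠ 0 := sub_ne_zero.2 hxx
  -- the third point of the line
  obtain ⟨m, hm⟩ : ∃ m, m = (y - y') / (x - x') := ⟨_, rfl⟩
  obtain ⟨X, hX⟩ : ∃ X, X = m ^ 2 + a + b + c - x - x' := ⟨_, rfl⟩
  have hm' : m * (x - x') = y - y' := by rw [hm]; field_simp
  have key : ∀ t : K, (x - t) * (x' - t) * (X - t) =
      (m * (t - x) + y) ^ 2 - (t - a) * (t - b) * (t - c) := by
    intro t
    have e1 : ((x - t) * (x' - t) * (X - t) -
      ((m * (t - x) + y) ^ 2 - (t - a) * (t - b) * (t - c))) * (x - x') = 0 := by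
      have hyy' : y' = y - m * (x - x') := by rw [hm']; ring
      rw [hyy'] at h'
      rw [hX]
      linear_combination (x' - t) * h + (t - x) * h'
    exact sub_eq_zero.1 ((mul_eq_zero.1 e1).resolve_right hd)
  have ka : (x - a) * (x' - a) * (X - a) = (m * (a - x) + y) ^ 2 := by rw [key a]; ring
  have kb : (x - b) * (x' - b) * (X - b) = (m * (b - x) + y) ^ 2 := by rw [key b]; ring
  refine iso_aux hB xa xb xa' xb' hg (by ring) (by ring) ?_
  by_cases hXa : X - a = 0
  · have e : X - b = -(b - a) := by linear_combination hXa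
    rw [e] at kb
    have sq : IsSquare ((x - b) * (x' - b) * -(b - a)) := ⟨_, kb.trans (pow_two _)⟩
    rw [hs_cls' (neg_ne_zero.2 hg) (mul_ne_zero xb xb') sq,
      hs_cls (neg_ne_zero.2 hg) (mul_ne_zero xb xb') sq (b - a), hs_comm (-(b - a)) (b - a),
      hs_neg_self, mul_one]
  by_cases hXb : X - b = 0
  · have e : X - a = b - a := by linear_combination hXb
    rw [e] at ka
    have sq : IsSquare ((x - a) * (x' - a) * (b - a)) := ⟨_, ka.trans (pow_two _)⟩
    rw [hs_cls hg (mul_ne_zero xa xa') sq, hs_cls hg (mul_ne_zero xa xa') sq (-(b - a)),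
      hs_neg_self, one_mul, hs_comm]
  have sqa : IsSquare ((x - a) * (x' - a) * (X - a)) := ⟨_, ka.trans (pow_two _)⟩
  have sqb : IsSquare ((x - b) * (x' - b) * (X - b)) := ⟨_, kb.trans (pow_two _)⟩
  rw [hs_cls' hXb (mul_ne_zero xb xb') sqb, hs_cls hXa (mul_ne_zero xa xa') sqa,
    hs_cls hXa (mul_ne_zero xa xa') sqa (-(b - a)), hs_cls hXb (mul_ne_zero xb xb') sqb (b - a)]
  exact hs_quad hB hXa hXb hg (by ring)

end

open Pool.Agent.W307.SE (Loc)

/-- **isotropy** for the local conditions -/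
theorem iso_loc {K : Type} [Field K] (hB : BL K) {A B d1 d2 d1' d2' : ℤ} (hA : (A : K) ≠ 0)
    (h1 : (d1 : K) ≠ 0) (h2 : (d2 : K) ≠ 0) (h1' : (d1' : K) ≠ 0) (h2' : (d2' : K) ≠ 0)
    (h : Loc K A B d1 d2) (h' : Loc K A B d1' d2') :
    Splits (d1 : K) (d2' : K) ↔ Splits (d2 : K) (d1' : K) := by
  obtain ⟨x, y, hy, hxy, s1, s2⟩ := h
  obtain ⟨x', y', hy', hxy', s1', s2'⟩ := h'
  have hn : x * (x - A) * (x - B) ≠ 0 := by rw [← hxy]; exact pow_ne_zero 2 hy
  have hn' : x' * (x' - A) * (x' - B) ≠ 0 := by rw [← hxy']; exact pow_ne_zero 2 hy'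
  have xa : x ≠ 0 := left_ne_zero_of_mul (left_ne_zero_of_mul hn)
  have xb : x - A ≠ 0 := right_ne_zero_of_mul (left_ne_zero_of_mul hn)
  have xa' : x' ≠ 0 := left_ne_zero_of_mul (left_ne_zero_of_mul hn')
  have xb' : x' - A ≠ 0 := right_ne_zero_of_mul (left_ne_zero_of_mul hn')
  have key := iso_pts hB (a := 0) (b := (A : K)) (c := (B : K)) hA.symm hy hy'
    (by rw [sub_zero]; exact hxy) (by rw [sub_zero]; exact hxy')
  rw [sub_zero, sub_zero] at key
  rw [hs_cls h1 xa s1, hs_cls' h2' xb' s2', hs_cls h2 xb s2, hs_cls' h1' xa' s1'] at key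
  exact (hs_eq_iff _ _ _ _).1 key

end Pool.Agent.Y676.HS
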