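import Pool.Agent.Y676.Fl2
import Pool.Agent.Y676.Defs2
import Pool.Agent.Y676.Box

/-!
# Elements with few ramified primes: the deterministic part
-/

set_option autoImplicit false

namespace Pool.Agent.Y676

open Finset
open Pool.Agent.W262.RK (dv sgn sg0)

/-- the small numbers are squares modulo the primes `1` modulo `WY Y` -/
lemma js_small {Y : ℕ} {l : ℕ} (hl : l % WY Y = 1 % WY Y) {m : ℤ}
    (hm : Squarefree m) (hs : ∀ p : ℕ, p.Prime → (p : ℤ) ∣ m → p ≤ Y) : jacobiSym m l = 1 := by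
  have hW : 8 ∣ WY Y := by unfold WY; exact Dvd.intro _ rfl
  have h8 : l % 8 = 1 := by
    have : l % 8 = 1 % 8 := Nat.ModEq.of_dvd hW hl
    omega
  have h4 : l % 4 = 1 := by omega
  have hodd : Odd l := Nat.odd_iff.2 (by omega)
  have hp : ∀ p : ℕ, p.Prime → p ≤ Y → jacobiSym (p : ℤ) l = 1 := by
    intro p hp hpY
    rcases hp.eq_two_or_odd' with rfl | hodd'
    · have h2 : jacobiSym (2 : ℤ) l = 1 := by
        rw [jacobiSym.at_two hodd, ZMod.χ₈_nat_eq_if_mod_eight]
        have e1 : l % 2 ≠ 0 := by omega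
        simp [e1, h8]
      exact_mod_cast h2
    · rw [jacobiSym.quadratic_reciprocity_one_mod_four' hodd' h4]
      have h1 : p ∣ WY Y := by
        unfold WY
        exact ((hp.dvd_factorial).2 hpY).mul_left _
      have h2 : l % p = 1 % p := Nat.ModEq.of_dvd h1 hl
      have h3 : ((l : ℤ)) % (p : ℤ) = 1 % (p : ℤ) := by exact_mod_cast h2
      rw [jacobiSym.mod_left, h3, ← jacobiSym.mod_left, jacobiSym.one_left]
  have hab : jacobiSym (m.natAbs : ℤ) l = 1 := by
    have hsq : Squarefree m.natAbs := Int.squarefree_natAbs.2 hm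
    rw [← Nat.prod_primeFactors_of_squarefree hsq, Nat.cast_prod]
    have e : ∀ S : Finset ℕ, (∀ p ∈ S, jacobiSym (p : ℤ) l = 1) →
        jacobiSym (∏ p ∈ S, (p : ℤ)) l = 1 := by
      intro S
      induction S using Finset.induction_on with
      | empty => intro _; rw [prod_empty, jacobiSym.one_left]
      | insert p S hpS ih =>
        intro h
        rw [prod_insert hpS, jacobiSym.mul_left, h p (mem_insert_self _ _),
          ih fun p hp => h p (mem_insert_of_mem hp), one_mul]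
    apply e
    intro p hpm
    have hpp := Nat.prime_of_mem_primeFactors hpm
    exact hp p hpp (hs p hpp (Int.natCast_dvd.2 (Nat.dvd_of_mem_primeFactors hpm)))
  rcases Int.natAbs_eq m with h | h
  · rw [h]
    exact hab
  · rw [h, jacobiSym.neg _ hodd, hab, mul_one, ZMod.χ₄_nat_one_mod_four h4]

/-- the large part of a squarefree integer -/
def lp (Y : ℕ) (d : ℤ) : ℕ := ∏ l ∈ d.natAbs.primeFactors.filter (fun l => Y < l), l

lemma lp_prime {Y : ℕ} {d : ℤ} : ∀ l ∈ d.natAbs.primeFactors.filter (fun l => Y < l), l.Prime :=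
  fun _ hl => Nat.prime_of_mem_primeFactors (mem_filter.1 hl).1

lemma lp_pf {Y : ℕ} {d : ℤ} :
    (lp Y d).primeFactors = d.natAbs.primeFactors.filter (fun l => Y < l) := by
  unfold lp
  exact Nat.primeFactors_prod lp_prime

lemma lp_sqf {Y : ℕ} {d : ℤ} : Squarefree (lp Y d) := sub_sqf lp_prime

lemma js_lp {Y : ℕ} (hY : 2 ≤ Y) {l : ℕ} (hm : l % WY Y = 1 % WY Y)
    {d : ℤ} (hd : Squarefree d) : jacobiSym d l = jacobiSym (l : ℤ) (lp Y d) := by
  have hW : 8 ∣ WY Y := by unfold WY; exact Dvd.intro _ rfl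
  have h8 : l % 8 = 1 := by
    have : l % 8 = 1 % 8 := Nat.ModEq.of_dvd hW hm
    omega
  have hdvd : (lp Y d : ℤ) ∣ d := by
    rw [Int.natCast_dvd]
    exact sub_dvd lp_prime fun l hl => Nat.dvd_of_mem_primeFactors (mem_filter.1 hl).1
  obtain ⟨m, hmd⟩ := hdvd
  have hmsq : Squarefree m := hd.squarefree_of_dvd (Dvd.intro_left _ hmd.symm)
  have hms : ∀ p : ℕ, p.Prime → (p : ℤ) ∣ m → p ≤ Y := by
    intro p hp hpm
    by_contra h
    push Not at h
    have hpd : (p : ℤ) ∣ d := by rw [hmd]; exact hpm.mul_left _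
    have h1 : p ∣ lp Y d := by
      unfold lp
      apply dvd_prod_of_mem (fun l : ℕ => l)
      rw [mem_filter, Nat.mem_primeFactors]
      exact ⟨⟨hp, Int.natCast_dvd.1 hpd, Int.natAbs_ne_zero.2 hd.ne_zero⟩, h⟩
    have h2 : (p : ℤ) * p ∣ d := by
      rw [hmd]
      exact mul_dvd_mul (by exact_mod_cast h1) hpm
    have h3 := hd _ h2
    exact (Nat.prime_iff_prime_int.1 hp).not_unit h3
  have hodd : Odd (lp Y d) := by
    unfold lp
    rw [← Nat.coprime_two_right]
    apply Nat.Coprime.prod_left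
    intro l hl
    have hl2 := (mem_filter.1 hl).2
    exact (Nat.coprime_primes (lp_prime l hl) Nat.prime_two).2 (by omega)
  conv_lhs => rw [hmd]
  rw [jacobiSym.mul_left, js_small hm hmsq hms, mul_one]
  exact (jacobiSym.quadratic_reciprocity_one_mod_four (by omega) hodd).symm

lemma sgn_true {d : ℤ} {l : ℕ} (hl : l.Prime) (hd : ¬ (l : ℤ) ∣ d) (hj : jacobiSym d l = -1) :
    sgn l d = true := by
  unfold sgn
  have hg : Int.gcd d l = 1 := by
    rw [Int.gcd_comm]
    exact Int.isCoprime_iff_gcd_eq_one.1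
      ((Prime.coprime_iff_not_dvd (Nat.prime_iff_prime_int.1 hl)).2 hd)
  rw [hg]
  simp [sg0, hj]

lemma dv_iff {l : ℕ} {d : ℤ} : dv l d = true ↔ (l : ℤ) ∣ d := by
  unfold dv
  rw [decide_eq_true_iff]

/-- the divisor of the first type -/
def Ev1 (W X J : ℕ) (t : ℤ × ℤ) (D : ℕ) : Prop :=
  (D : ℤ) ∣ t.1 * (t.1 - t.2) ∧ (t.2.natAbs.primeFactors ∩ LS W X D).card ≤ J

/-- the divisor of the second type -/
def Ev2 (W X J : ℕ) (t : ℤ × ℤ) (D : ℕ) : Prop :=
  (D : ℤ) ∣ t.2 ∧ ((t.1 - t.2).natAbs.primeFactors ∩ LS W X D).card ≤ J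

/-- the divisors -/
structure DD1 (W J y : ℕ) (D : ℕ) : Prop where
  two : 2 ≤ D
  sq : Squarefree D
  cop : D.Coprime W
  om : D.primeFactors.card ≤ J
  sm : ∀ l : ℕ, l.Prime → l ∣ D → l ≤ y

lemma sht_cases {Y J y X : ℕ} (hY : 2 ≤ Y) {t : ℤ × ℤ} (ht : t ∈ Bx X) (h2 : Ty2 Y t.1 t.2)
    (h : Sht Y J y t) : (∃ D, DD1 (WY Y) J y D ∧ Ev1 (WY Y) X J t D) ∨
      (∃ D, DD1 (WY Y) J y D ∧ Ev2 (WY Y) (2 * X) J t D) := by
  classical
  obtain ⟨s, e, he, hne, hJ, hy⟩ := h
  have hN : Nn t ≠ 0 := Nn_ne ht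
  have hpi : ∀ {l : ℕ}, l.Prime → Prime (l : ℤ) := fun hl => Nat.prime_iff_prime_int.1 hl
  -- the primes of the large parts are ramified
  have hR : ∀ l : ℕ, l.Prime → Y < l → ((l : ℤ) ∣ e.1 ∨ (l : ℤ) ∣ e.2) → l ∈ RR Y t e := by
    intro l hl hYl h
    unfold RR
    rw [mem_filter, mem_PN hN]
    refine ⟨⟨hl, hYl, ?_⟩, ?_⟩
    · by_contra hcon
      obtain ⟨a1, a2⟩ := he.un l hl hYl hcon
      rcases h with h | h
      · exact a1 h
      · exact a2 h
    · unfold rm
      rw [Bool.or_eq_true, dv_iff, dv_iff]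
      exact h
  have hDD : ∀ d : ℤ, Squarefree d → (∀ l : ℕ, (l : ℤ) ∣ d → ((l : ℤ) ∣ e.1 ∨ (l : ℤ) ∣ e.2)) →
      lp Y d ≠ 1 → DD1 (WY Y) J y (lp Y d) := by
    intro d hd hde hd1
    have hsub : (lp Y d).primeFactors ⊆ RR Y t e := by
      rw [lp_pf]
      intro l hl
      rw [mem_filter, Nat.mem_primeFactors] at hl
      exact hR l hl.1.1 hl.2 (hde l (Int.natCast_dvd.2 hl.1.2.1))
    have h0 : lp Y d ≠ 0 := lp_sqf.ne_zero
    refine ⟨by omega, lp_sqf, ?_, (card_le_card hsub).trans hJ, ?_⟩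
    · unfold lp
      exact sub_cop fun l hl => cop_WY hY (lp_prime l hl) (mem_filter.1 hl).2
    · intro l hl hld
      exact hy l (hsub (Nat.mem_primeFactors.2 ⟨hl, hld, h0⟩))
  by_cases hD2 : lp Y e.2 = 1
  · -- the second case
    have hnd2 : ∀ l : ℕ, l.Prime → Y < l → ¬ (l : ℤ) ∣ e.2 := by
      intro l hl hYl hld
      have h1 : l ∣ lp Y e.2 := by
        unfold lp
        apply dvd_prod_of_mem (fun l : ℕ => l)
        rw [mem_filter, Nat.mem_primeFactors]
        exact ⟨⟨hl, Int.natCast_dvd.1 hld, Int.natAbs_ne_zero.2 he.sq2.ne_zero⟩, hYl⟩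
      rw [hD2, Nat.dvd_one] at h1
      exact hl.one_lt.ne' h1
    obtain ⟨l0, hl0, hYl0, hl0N, hl0r⟩ := exists_ram h2 he hne
    have hl0e : (l0 : ℤ) ∣ e.1 := by
      unfold rm at hl0r
      rw [Bool.or_eq_true, dv_iff, dv_iff] at hl0r
      rcases hl0r with h | h
      · exact h
      · exact absurd h (hnd2 l0 hl0 hYl0)
    have hD1 : lp Y e.1 ≠ 1 := by
      intro h1
      have h3 : l0 ∣ lp Y e.1 := by
        unfold lp
        apply dvd_prod_of_mem (fun l : ℕ => l)
        rw [mem_filter, Nat.mem_primeFactors]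
        exact ⟨⟨hl0, Int.natCast_dvd.1 hl0e, Int.natAbs_ne_zero.2 he.sq1.ne_zero⟩, hYl0⟩
      rw [h1, Nat.dvd_one] at h3
      exact hl0.one_lt.ne' h3
    right
    refine ⟨lp Y e.1, hDD e.1 he.sq1 (fun l h => Or.inl h) hD1, ?_, ?_⟩
    · rw [Int.natCast_dvd]
      refine sub_dvd lp_prime fun l hl => ?_
      rw [mem_filter, Nat.mem_primeFactors] at hl
      obtain ⟨⟨hl, hle, -⟩, hYl⟩ := hl
      have hle' : (l : ℤ) ∣ e.1 := Int.natCast_dvd.2 hle
      have hlN : (l : ℤ) ∣ t.1 * t.2 * (t.1 - t.2) := by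
        by_contra hcon
        exact (he.un l hl hYl hcon).1 hle'
      obtain ⟨c1, c2, c3⟩ := he.lc l hl hYl
      rcases (hpi hl).dvd_or_dvd hlN with h | h
      · rcases (hpi hl).dvd_or_dvd h with h | h
        · exfalso
          have h3 := (c1 h).1
          have h4 : dv l e.1 = true := dv_iff.2 hle'
          rw [h4] at h3
          exact hnd2 l hl hYl (dv_iff.1 h3.symm)
        · exact Int.natCast_dvd.1 h
      · exfalso
        have h3 := (c3 h).1
        have h4 : dv l e.1 = true := dv_iff.2 hle'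
        rw [h4] at h3
        exact absurd h3 (by decide)
    · have : ((t.1 - t.2).natAbs.primeFactors ∩ LS (WY Y) (2 * X) (lp Y e.1)) = ∅ := by
        rw [eq_empty_iff_forall_notMem]
        intro l hl
        rw [mem_inter, Nat.mem_primeFactors] at hl
        obtain ⟨⟨hlp, hld, -⟩, hlS⟩ := hl
        unfold LS PQ at hlS
        rw [mem_filter, mem_filter] at hlS
        obtain ⟨⟨-, -, hlm⟩, hlj⟩ := hlS
        have hld' : (l : ℤ) ∣ t.1 - t.2 := Int.natCast_dvd.2 hld
        have hYl : Y < l := by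
          by_contra h
          push Not at h
          have h1 : l ∣ WY Y := by
            unfold WY
            exact ((hlp.dvd_factorial).2 h).mul_left _
          have h3 : l % l = 1 % l := Nat.ModEq.of_dvd h1 hlm
          rw [Nat.mod_self, Nat.mod_eq_of_lt hlp.one_lt] at h3
          omega
        obtain ⟨c1, c2⟩ := (he.lc l hlp hYl).2.2 hld'
        have h4 : dv l e.2 = false := by
          rw [← Bool.not_eq_true, dv_iff]
          exact hnd2 l hlp hYl
        rw [h4, Bool.false_and] at c2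
        have h5 : ¬ (l : ℤ) ∣ e.1 := by
          rw [← dv_iff, c1]
          decide
        rw [← js_lp hY hlm he.sq1] at hlj
        rw [sgn_true hlp h5 hlj] at c2
        exact absurd c2 (by decide)
      rw [this, card_empty]
      exact Nat.zero_le _
  · left
    refine ⟨lp Y e.2, hDD e.2 he.sq2 (fun l h => Or.inr h) hD2, ?_, ?_⟩
    · rw [Int.natCast_dvd]
      refine sub_dvd lp_prime fun l hl => ?_
      rw [mem_filter, Nat.mem_primeFactors] at hl
      obtain ⟨⟨hl, hle, -⟩, hYl⟩ := hl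
      have hle' : (l : ℤ) ∣ e.2 := Int.natCast_dvd.2 hle
      have hlN : (l : ℤ) ∣ t.1 * t.2 * (t.1 - t.2) := by
        by_contra hcon
        exact (he.un l hl hYl hcon).2 hle'
      obtain ⟨c1, c2, c3⟩ := he.lc l hl hYl
      rw [← Int.natCast_dvd]
      rcases (hpi hl).dvd_or_dvd hlN with h | h
      · rcases (hpi hl).dvd_or_dvd h with h | h
        · exact h.mul_right _
        · exfalso
          have h3 := (c2 h).1
          have h4 : dv l e.2 = true := dv_iff.2 hle'
          rw [h4] at h3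
          exact absurd h3 (by decide)
      · exact h.mul_left _
    · refine le_trans (card_le_card ?_) hJ
      intro l hl
      rw [mem_inter, Nat.mem_primeFactors] at hl
      obtain ⟨⟨hlp, hld, -⟩, hlS⟩ := hl
      unfold LS PQ at hlS
      rw [mem_filter, mem_filter] at hlS
      obtain ⟨⟨-, -, hlm⟩, hlj⟩ := hlS
      have hld' : (l : ℤ) ∣ t.2 := Int.natCast_dvd.2 hld
      have hYl : Y < l := by
        by_contra h
        push Not at h
        have h1 : l ∣ WY Y := by
          unfold WY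
          exact ((hlp.dvd_factorial).2 h).mul_left _
        have h3 : l % l = 1 % l := Nat.ModEq.of_dvd h1 hlm
        rw [Nat.mod_self, Nat.mod_eq_of_lt hlp.one_lt] at h3
        omega
      by_cases h1 : (l : ℤ) ∣ e.1
      · exact hR l hlp hYl (Or.inl h1)
      exfalso
      obtain ⟨c1, c2⟩ := (he.lc l hlp hYl).2.1 hld'
      have h4 : dv l e.1 = false := by
        rw [← Bool.not_eq_true, dv_iff]
        exact h1
      rw [h4, Bool.false_and] at c2
      have h5 : ¬ (l : ℤ) ∣ e.2 := by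
        rw [← dv_iff, c1]
        decide
      rw [← js_lp hY hlm he.sq2] at hlj
      rw [sgn_true hlp h5 hlj] at c2
      exact absurd c2 (by decide)

end Pool.Agent.Y676
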