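import Pool.Agent.Y676.Cnt3
import Pool.Agent.Y676.EqdG
import Pool.Agent.Y676.Det
import Pool.Agent.Y157.SH.Pnt

/-!
# The exceptional tuples
-/

set_option autoImplicit false

namespace Pool.Agent.Y676

open Finset
open Pool.Agent.Y157.SH (lf Nn_eq PR mem_PR pair_bound mult_count)

/-- the tuples of pairs -/
noncomputable def TB (k X : ℕ) : Finset (Fin k → ℤ × ℤ) := Fintype.piFinset (fun _ : Fin k => Bx X)

variable {k : ℕ}

lemma mem_TB {X : ℕ} {t : Fin k → ℤ × ℤ} : t ∈ TB k X ↔ ∀ i, t i ∈ Bx X := by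
  unfold TB
  rw [Fintype.mem_piFinset]

open Classical in
lemma tup_two (X : ℕ) (hX : 1 ≤ X) (p p' : ℤ × ℤ → Prop) [DecidablePred p] [DecidablePred p']
    (i i' : Fin k) (hi : i ≠ i') (a a' : ℝ)
    (h : (((Bx X).filter p).card : ℝ) ≤ a * (X : ℝ) ^ 2)
    (h' : (((Bx X).filter p').card : ℝ) ≤ a' * (X : ℝ) ^ 2) :
    (((TB k X).filter (fun t => p (t i) ∧ p' (t i'))).card : ℝ) ≤
      a * a' * 9 ^ k * (X : ℝ) ^ (2 * k) := by
  have hX0 : (0 : ℝ) < (X : ℝ) ^ 2 := by
    have : (0 : ℝ) < X := by exact_mod_cast hX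
    positivity
  have ha : 0 ≤ a := by
    by_contra hh
    push Not at hh
    have : a * (X : ℝ) ^ 2 < 0 := mul_neg_of_neg_of_pos hh hX0
    have h2 : (0 : ℝ) ≤ (((Bx X).filter p).card : ℝ) := Nat.cast_nonneg _
    linarith
  have ha' : 0 ≤ a' := by
    by_contra hh
    push Not at hh
    have : a' * (X : ℝ) ^ 2 < 0 := mul_neg_of_neg_of_pos hh hX0
    have h2 : (0 : ℝ) ≤ (((Bx X).filter p').card : ℝ) := Nat.cast_nonneg _
    linarith
  have hsub : (TB k X).filter (fun t => p (t i) ∧ p' (t i')) ⊆ Fintype.piFinset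
      (fun j : Fin k => (Bx X).filter (fun x => (j = i → p x) ∧ (j = i' → p' x))) := by
    intro t ht
    rw [mem_filter, mem_TB] at ht
    rw [Fintype.mem_piFinset]
    intro j
    rw [mem_filter]
    exact ⟨ht.1 j, fun e => e ▸ ht.2.1, fun e => e ▸ ht.2.2⟩
  have h1 : (((TB k X).filter (fun t => p (t i) ∧ p' (t i'))).card : ℝ) ≤
      ∏ j : Fin k, (((Bx X).filter (fun x => (j = i → p x) ∧ (j = i' → p' x))).card : ℝ) := by
    have := card_le_card hsub
    rw [Fintype.card_piFinset] at this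
    exact_mod_cast this
  refine h1.trans ?_
  have h2 : ∏ j : Fin k, (((Bx X).filter (fun x => (j = i → p x) ∧ (j = i' → p' x))).card : ℝ) ≤
      ∏ j : Fin k, (9 * (X : ℝ) ^ 2) * ((if j = i then a / 9 else 1) *
        (if j = i' then a' / 9 else 1)) := by
    apply prod_le_prod
    · intro j _
      exact Nat.cast_nonneg _
    · intro j _
      by_cases e : j = i
      · have e' : j ≠ i' := fun h => hi (e.symm.trans h)
        rw [if_pos e, if_neg e']
        have : (((Bx X).filter (fun x => (j = i → p x) ∧ (j = i' → p' x))).card : ℝ) ≤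
            ((Bx X).filter p).card := by
          exact_mod_cast card_le_card (fun x hx => by
            rw [mem_filter] at hx ⊢
            exact ⟨hx.1, hx.2.1 e⟩)
        linarith
      · rw [if_neg e]
        by_cases e' : j = i'
        · rw [if_pos e']
          have : (((Bx X).filter (fun x => (j = i → p x) ∧ (j = i' → p' x))).card : ℝ) ≤
              ((Bx X).filter p').card := by
            exact_mod_cast card_le_card (fun x hx => by
              rw [mem_filter] at hx ⊢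
              exact ⟨hx.1, hx.2.2 e'⟩)
          linarith
        · rw [if_neg e']
          have : (((Bx X).filter (fun x => (j = i → p x) ∧ (j = i' → p' x))).card : ℝ) ≤
              (Bx X).card := by
            exact_mod_cast card_filter_le _ _
          have := bx_card X hX
          linarith
  refine h2.trans ?_
  rw [prod_mul_distrib, prod_mul_distrib (f := fun j : Fin k => (if j = i then a / 9 else 1)),
    prod_const, prod_ite_eq', prod_ite_eq', if_pos (mem_univ _),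
    if_pos (mem_univ _), card_univ, Fintype.card_fin, mul_pow, ← pow_mul]
  have h3 : (0 : ℝ) ≤ a * a' * 9 ^ k * (X : ℝ) ^ (2 * k) := by positivity
  have h4 : (9 : ℝ) ^ k * (X : ℝ) ^ (2 * k) * (a / 9 * (a' / 9)) =
      (a * a' * 9 ^ k * (X : ℝ) ^ (2 * k)) / 81 := by ring
  rw [h4]
  linarith

open Classical in
lemma tup_one (X : ℕ) (hX : 1 ≤ X) (p : ℤ × ℤ → Prop) [DecidablePred p] (i : Fin k) (a : ℝ)
    (h : (((Bx X).filter p).card : ℝ) ≤ a * (X : ℝ) ^ 2) :
    (((TB k X).filter (fun t => p (t i))).card : ℝ) ≤ a * 9 ^ k * (X : ℝ) ^ (2 * k) := by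
  have hX0 : (0 : ℝ) < (X : ℝ) ^ 2 := by
    have : (0 : ℝ) < X := by exact_mod_cast hX
    positivity
  have ha : 0 ≤ a := by
    by_contra hh
    push Not at hh
    have : a * (X : ℝ) ^ 2 < 0 := mul_neg_of_neg_of_pos hh hX0
    have h2 : (0 : ℝ) ≤ (((Bx X).filter p).card : ℝ) := Nat.cast_nonneg _
    linarith
  have hsub : (TB k X).filter (fun t => p (t i)) ⊆ Fintype.piFinset
      (fun j : Fin k => (Bx X).filter (fun x => (j = i → p x))) := by
    intro t ht
    rw [mem_filter, mem_TB] at ht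
    rw [Fintype.mem_piFinset]
    intro j
    rw [mem_filter]
    exact ⟨ht.1 j, fun e => e ▸ ht.2⟩
  have h1 : (((TB k X).filter (fun t => p (t i))).card : ℝ) ≤
      ∏ j : Fin k, (((Bx X).filter (fun x => (j = i → p x))).card : ℝ) := by
    have := card_le_card hsub
    rw [Fintype.card_piFinset] at this
    exact_mod_cast this
  refine h1.trans ?_
  have h2 : ∏ j : Fin k, (((Bx X).filter (fun x => (j = i → p x))).card : ℝ) ≤
      ∏ j : Fin k, (9 * (X : ℝ) ^ 2) * (if j = i then a / 9 else 1) := by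
    apply prod_le_prod
    · intro j _
      exact Nat.cast_nonneg _
    · intro j _
      by_cases e : j = i
      · rw [if_pos e]
        have : (((Bx X).filter (fun x => (j = i → p x))).card : ℝ) ≤
            ((Bx X).filter p).card := by
          exact_mod_cast card_le_card (fun x hx => by
            rw [mem_filter] at hx ⊢
            exact ⟨hx.1, hx.2 e⟩)
        linarith
      · rw [if_neg e]
        have : (((Bx X).filter (fun x => (j = i → p x))).card : ℝ) ≤ (Bx X).card := by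
          exact_mod_cast card_filter_le _ _
        have := bx_card X hX
        linarith
  refine h2.trans ?_
  rw [prod_mul_distrib, prod_const, prod_ite_eq', if_pos (mem_univ _), card_univ, Fintype.card_fin,
    mul_pow, ← pow_mul]
  have h3 : (0 : ℝ) ≤ a * 9 ^ k * (X : ℝ) ^ (2 * k) := by positivity
  have h4 : (9 : ℝ) ^ k * (X : ℝ) ^ (2 * k) * (a / 9) = (a * 9 ^ k * (X : ℝ) ^ (2 * k)) / 9 := by ring
  rw [h4]
  linarith

lemma nn_cnt (X l : ℕ) (hl : l.Prime) :
    (((Bx X).filter (fun t => l ∣ Nn t)).card : ℝ) ≤ (24 / l) * (X : ℝ) ^ 2 := by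
  have hsub : (Bx X).filter (fun t => l ∣ Nn t) ⊆ univ.biUnion (fun j : Fin 3 =>
      (Bx X).filter (fun t => (l : ℤ) ∣ lf t j)) := by
    intro t ht
    rw [mem_filter] at ht
    obtain ⟨hB, hd⟩ := ht
    rw [Nn_eq] at hd
    obtain ⟨j, -, hj⟩ := (hl.prime.dvd_finsetProd_iff _).1 hd
    rw [mem_biUnion]
    exact ⟨j, mem_univ _, mem_filter.2 ⟨hB, Int.natCast_dvd.2 hj⟩⟩
  have hl0 : (0 : ℝ) < l := by exact_mod_cast hl.pos
  have h1 := (card_le_card hsub).trans card_biUnion_le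
  have h2 : (((Bx X).filter (fun t => l ∣ Nn t)).card : ℝ) ≤
      ∑ j : Fin 3, (((Bx X).filter (fun t => (l : ℤ) ∣ lf t j)).card : ℝ) := by exact_mod_cast h1
  have h3 : ∀ j ∈ (univ : Finset (Fin 3)), (((Bx X).filter (fun t => (l : ℤ) ∣ lf t j)).card : ℝ) ≤
      8 * (X : ℝ) ^ 2 / l := by
    intro j _
    rw [le_div_iff₀ hl0]
    exact dvd_one X l j hl.pos
  refine h2.trans ((sum_le_sum h3).trans ?_)
  rw [sum_const, card_univ, Fintype.card_fin, nsmul_eq_mul]
  apply le_of_eq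
  push_cast
  ring

/-- a common large prime factor -/
def Crs (Y : ℕ) (a b : ℤ × ℤ) : Prop := ∃ l : ℕ, l.Prime ∧ Y < l ∧ l ∣ Nn a ∧ l ∣ Nn b

open Classical in
/-- the tuples with a common large prime factor -/
lemma cross_cnt (X Y : ℕ) (hX : 1 ≤ X) (hY : 1 ≤ Y) (i i' : Fin k) (hi : i ≠ i') :
    (((TB k X).filter (fun t => Crs Y (t i) (t i'))).card : ℝ) ≤
      576 / Y * 9 ^ k * (X : ℝ) ^ (2 * k) := by
  have hsub : (TB k X).filter (fun t => Crs Y (t i) (t i')) ⊆
      ((Ioc Y (max Y (2 * X))).filter (fun l => l.Prime)).biUnion (fun l =>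
        (TB k X).filter (fun t => l ∣ Nn (t i) ∧ l ∣ Nn (t i'))) := by
    intro t ht
    rw [mem_filter] at ht
    obtain ⟨hB, l, hl, hYl, h1, h2⟩ := ht
    have hle : l ≤ 2 * X := by
      have h3 := h1
      rw [Nn_eq] at h3
      obtain ⟨j, -, hj⟩ := (hl.prime.dvd_finsetProd_iff _).1 h3
      exact (Nat.le_of_dvd (Int.natAbs_pos.2 (lf_ne (mem_TB.1 hB i) j)) hj).trans
        (lf_le (mem_TB.1 hB i) j)
    rw [mem_biUnion]
    exact ⟨l, mem_filter.2 ⟨mem_Ioc.2 ⟨hYl, hle.trans (le_max_right _ _)⟩, hl⟩,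
      mem_filter.2 ⟨hB, h1, h2⟩⟩
  have h1 := (card_le_card hsub).trans card_biUnion_le
  have h2 : ∀ l ∈ (Ioc Y (max Y (2 * X))).filter (fun l => l.Prime),
      (((TB k X).filter (fun t => l ∣ Nn (t i) ∧ l ∣ Nn (t i'))).card : ℝ) ≤
        576 * 9 ^ k * (X : ℝ) ^ (2 * k) * ((l : ℝ) ^ 2)⁻¹ := by
    intro l hl
    rw [mem_filter] at hl
    have := tup_two X hX (fun t => l ∣ Nn t) (fun t => l ∣ Nn t) i i' hi (24 / l) (24 / l)
      (nn_cnt X l hl.2) (nn_cnt X l hl.2)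
    refine this.trans (le_of_eq ?_)
    ring
  have h3 : (((TB k X).filter (fun t => Crs Y (t i) (t i'))).card : ℝ) ≤ ∑ l ∈ (Ioc Y (max Y (2 * X))).filter (fun l => l.Prime),
      576 * 9 ^ k * (X : ℝ) ^ (2 * k) * ((l : ℝ) ^ 2)⁻¹ := by
    refine le_trans ?_ (sum_le_sum h2)
    exact_mod_cast h1
  have h4 : ∑ l ∈ (Ioc Y (max Y (2 * X))).filter (fun l => l.Prime),
      576 * 9 ^ k * (X : ℝ) ^ (2 * k) * ((l : ℝ) ^ 2)⁻¹ ≤ ∑ l ∈ Ioc Y (max Y (2 * X)),
      576 * 9 ^ k * (X : ℝ) ^ (2 * k) * ((l : ℝ) ^ 2)⁻¹ :=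
    sum_le_sum_of_subset_of_nonneg (filter_subset _ _) fun _ _ _ => by positivity
  refine h3.trans (h4.trans ?_)
  rw [← mul_sum]
  have h5 := sum_Ioc_inv_sq_le_sub (α := ℝ) (k := Y) (n := max Y (2 * X)) (by omega)
    (le_max_left _ _)
  have h6 : (0 : ℝ) ≤ ((max Y (2 * X) : ℕ) : ℝ)⁻¹ := by positivity
  calc 576 * 9 ^ k * (X : ℝ) ^ (2 * k) * ∑ l ∈ Ioc Y (max Y (2 * X)), ((l : ℝ) ^ 2)⁻¹
      ≤ 576 * 9 ^ k * (X : ℝ) ^ (2 * k) * (Y : ℝ)⁻¹ := by
        apply mul_le_mul_of_nonneg_left _ (by positivity)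
        linarith
    _ = _ := by ring

/-- a bad divisor -/
def HB (W K B M X Q : ℕ) (t : Fin k → ℤ × ℤ) : Prop := ∃ D : ℕ, 2 ≤ D ∧ D ≤ X ^ M ∧ Odd D ∧
  Squarefree D ∧ D.Coprime W ∧ BadD W K B Q (Real.log X) D ∧ D ∣ ∏ i, Nn (t i)

open Classical in
/-- the tuples with a bad divisor -/
lemma bad_cnt (W K B M : ℕ) (h8 : 8 ∣ W) (hW : 0 < W) (ε : ℝ) (hε : 0 < ε) : ∃ X0 : ℕ, ∀ X : ℕ,
    X0 ≤ X → ∀ Q : ℕ, (Real.log X) ^ (32 * (2 * K + 1) + 1) ≤ 2 * Q →
    (((TB k X).filter (fun t => HB W K B M X Q t)).card : ℝ) ≤ ε * (X : ℝ) ^ (2 * k) := by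
  obtain ⟨C, hC0, hC⟩ := Pool.Agent.Y157.SH.cnt k
  obtain ⟨X0, hX0⟩ := eqd_gen K B M W h8 hW (ε / (C + 1)) (by positivity)
  refine ⟨X0 + 1, fun X hX Q hQ => ?_⟩
  have h1 := hX0 X (by omega) Q hQ
  have hsub : (TB k X).filter (fun t => HB W K B M X Q t) ⊆
      ((Icc 2 (X ^ M)).filter (fun D => Odd D ∧ Squarefree D ∧ D.Coprime W ∧
      BadD W K B Q (Real.log X) D)).biUnion (fun D =>
        (TB k X).filter (fun t => D ∣ ∏ i, Nn (t i))) := by
    intro t ht
    rw [mem_filter] at ht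
    obtain ⟨hB, D, hD, hD', a1, a2, a3, a4, a5⟩ := ht
    rw [mem_biUnion]
    exact ⟨D, mem_filter.2 ⟨mem_Icc.2 ⟨hD, hD'⟩, a1, a2, a3, a4⟩, mem_filter.2 ⟨hB, a5⟩⟩
  have h2 := (card_le_card hsub).trans card_biUnion_le
  have h3 : ∀ D ∈ (Icc 2 (X ^ M)).filter (fun D => Odd D ∧ Squarefree D ∧ D.Coprime W ∧
      BadD W K B Q (Real.log X) D), (((TB k X).filter (fun t => D ∣ ∏ i, Nn (t i))).card : ℝ) ≤
      C * (X : ℝ) ^ (2 * k) * (1 / Real.sqrt D) := by
    intro D hD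
    rw [mem_filter, mem_Icc] at hD
    have := hC X D (by omega) (by omega) hD.2.2.1
    refine this.trans (le_of_eq ?_)
    ring
  have h4 : (((TB k X).filter (fun t => HB W K B M X Q t)).card : ℝ) ≤
      ∑ D ∈ (Icc 2 (X ^ M)).filter (fun D => Odd D ∧ Squarefree D ∧ D.Coprime W ∧
      BadD W K B Q (Real.log X) D), C * (X : ℝ) ^ (2 * k) * (1 / Real.sqrt D) := by
    refine le_trans ?_ (sum_le_sum h3)
    exact_mod_cast h2
  rw [← mul_sum] at h4
  refine h4.trans ?_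
  calc C * (X : ℝ) ^ (2 * k) * _ ≤ C * (X : ℝ) ^ (2 * k) * (ε / (C + 1)) :=
        mul_le_mul_of_nonneg_left h1 (by positivity)
    _ = ε * (X : ℝ) ^ (2 * k) * (C / (C + 1)) := by ring
    _ ≤ ε * (X : ℝ) ^ (2 * k) * 1 := by
        apply mul_le_mul_of_nonneg_left _ (by positivity)
        rw [div_le_one (by positivity)]
        linarith
    _ = _ := mul_one _

end Pool.Agent.Y676
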