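import Pool.Agent.Y676.P2a
import Pool.Agent.Y676.Tup
import Pool.Agent.Helper923.HMertens

/-!
# Elements with few ramified primes: counting
-/

set_option autoImplicit false

namespace Pool.Agent.Y676

open Finset
open Pool.Agent.Y157.SH (lf Nn_eq)

lemma res_cnt (X D : ℕ) (S : Finset ℤ) (hS : S ⊆ Icc (-(X : ℤ)) X)
    (h : ∀ x ∈ S, ∀ x' ∈ S, (D : ℤ) ∣ x - x') : S.card ≤ 2 * X / D + 1 := by
  have h1 : S.card ≤ (range (2 * X / D + 1)).card := by
    apply card_le_card_of_injOn (fun x : ℤ => (x + X).toNat / D)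
    · intro x hx
      have hx' := hS hx
      rw [mem_Icc] at hx'
      rw [mem_coe, mem_range]
      have : (x + X).toNat ≤ 2 * X := by omega
      have := Nat.div_le_div_right (c := D) this
      change (x + X).toNat / D < 2 * X / D + 1
      omega
    · intro x hx x' hx' he
      have h3 := h x hx x' hx'
      have hx1 := hS hx
      have hx2 := hS hx'
      rw [mem_Icc] at hx1 hx2
      change (x + X).toNat / D = (x' + X).toNat / D at he
      obtain ⟨a, ha⟩ : ∃ a : ℕ, (a : ℤ) = x + X := ⟨(x + X).toNat, by omega⟩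
      obtain ⟨a', ha'⟩ : ∃ a' : ℕ, (a' : ℤ) = x' + X := ⟨(x' + X).toNat, by omega⟩
      have e1 : (x + X).toNat = a := by omega
      have e2 : (x' + X).toNat = a' := by omega
      rw [e1, e2] at he
      have h4 : (D : ℤ) ∣ (a : ℤ) - a' := by
        have : (a : ℤ) - a' = x - x' := by omega
        rw [this]
        exact h3
      have h5 : a % D = a' % D := by
        have h6 : (a : ℤ) % D = a' % D := Int.ModEq.symm ((Int.modEq_iff_dvd).2 h4)
        exact_mod_cast h6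
      have h7 := Nat.div_add_mod a D
      have h8 := Nat.div_add_mod a' D
      rw [he, h5] at h7
      have : a = a' := by omega
      omega
  rw [card_range] at h1
  exact h1

lemma res_cnt' (X D : ℕ) (hD : 0 < D) (hDX : D ≤ X) (S : Finset ℤ) (hS : S ⊆ Icc (-(X : ℤ)) X)
    (h : ∀ x ∈ S, ∀ x' ∈ S, (D : ℤ) ∣ x - x') : (S.card : ℝ) ≤ 3 * X / D := by
  have h1 := res_cnt X D S hS h
  have hD0 : (0 : ℝ) < D := by exact_mod_cast hD
  have hDX' : (D : ℝ) ≤ X := by exact_mod_cast hDX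
  have h2 : (S.card : ℝ) ≤ ((2 * X / D : ℕ) : ℝ) + 1 := by exact_mod_cast h1
  have h3 : ((2 * X / D : ℕ) : ℝ) ≤ ((2 * X : ℕ) : ℝ) / D := Nat.cast_div_le
  push_cast at h3
  have h4 : (1 : ℝ) ≤ X / D := by
    rw [le_div_iff₀ hD0]
    linarith
  calc (S.card : ℝ) ≤ 2 * X / D + X / D := by linarith
    _ = 3 * X / D := by ring

lemma div_cnt {D : ℕ} (hD : Squarefree D) : D.divisors.card ≤ 2 ^ D.primeFactors.card := by
  rw [Nat.card_divisors hD.ne_zero, ← prod_const]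
  apply prod_le_prod'
  intro p _
  have := hD.natFactorization_le_one p
  omega

open Classical in
lemma quad_cnt (X D : ℕ) (hD : Squarefree D) (hDX : D ≤ X) (B : ℤ) :
    (((Icc (-(X : ℤ)) X).filter (fun a => (D : ℤ) ∣ a * (a - B))).card : ℝ) ≤
      2 ^ D.primeFactors.card * (3 * X / D) := by
  have hD0 : 0 < D := Nat.pos_of_ne_zero hD.ne_zero
  have hsub : (Icc (-(X : ℤ)) X).filter (fun a => (D : ℤ) ∣ a * (a - B)) ⊆
      D.divisors.biUnion (fun D1 => (Icc (-(X : ℤ)) X).filter (fun a => (D1 : ℤ) ∣ a ∧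
        ((D / D1 : ℕ) : ℤ) ∣ a - B)) := by
    intro a ha
    rw [mem_filter] at ha
    rw [mem_biUnion]
    have hg : Nat.gcd D a.natAbs ∣ D := Nat.gcd_dvd_left _ _
    refine ⟨Nat.gcd D a.natAbs, Nat.mem_divisors.2 ⟨hg, hD0.ne'⟩, ?_⟩
    rw [mem_filter]
    refine ⟨ha.1, Int.natCast_dvd.2 (Nat.gcd_dvd_right _ _), ?_⟩
    have h1 : D ∣ a.natAbs * (a - B).natAbs := by
      rw [← Int.natAbs_mul]
      exact Int.natCast_dvd.1 ha.2
    rw [Int.natCast_dvd]
    have h2 : D / Nat.gcd D a.natAbs ∣ (a.natAbs / Nat.gcd D a.natAbs) * (a - B).natAbs := by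
      have h3 : Nat.gcd D a.natAbs * (D / Nat.gcd D a.natAbs) ∣
          Nat.gcd D a.natAbs * ((a.natAbs / Nat.gcd D a.natAbs) * (a - B).natAbs) := by
        rw [Nat.mul_div_cancel' hg, ← mul_assoc, Nat.mul_div_cancel' (Nat.gcd_dvd_right _ _)]
        exact h1
      exact Nat.dvd_of_mul_dvd_mul_left (Nat.gcd_pos_of_pos_left _ hD0) h3
    exact (Nat.coprime_div_gcd_div_gcd (Nat.gcd_pos_of_pos_left _ hD0)).dvd_of_dvd_mul_left h2
  have h1 := (card_le_card hsub).trans card_biUnion_le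
  have h2 : ∀ D1 ∈ D.divisors, (((Icc (-(X : ℤ)) X).filter (fun a => (D1 : ℤ) ∣ a ∧
        ((D / D1 : ℕ) : ℤ) ∣ a - B)).card : ℝ) ≤ 3 * X / D := by
    intro D1 hD1
    have hd := Nat.dvd_of_mem_divisors hD1
    apply res_cnt' X D hD0 hDX _ (filter_subset _ _)
    intro x hx x' hx'
    rw [mem_filter] at hx hx'
    have e1 : (D1 : ℤ) ∣ x - x' := dvd_sub hx.2.1 hx'.2.1
    have e2 : ((D / D1 : ℕ) : ℤ) ∣ x - x' := by
      have : x - x' = (x - B) - (x' - B) := by ring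
      rw [this]
      exact dvd_sub hx.2.2 hx'.2.2
    have hmul : D1 * (D / D1) = D := Nat.mul_div_cancel' hd
    have hcop : IsCoprime (D1 : ℤ) ((D / D1 : ℕ) : ℤ) := by
      rw [Nat.isCoprime_iff_coprime]
      rw [← hmul] at hD
      exact Nat.coprime_of_squarefree_mul hD
    have h3 := hcop.mul_dvd e1 e2
    have e3 : (D1 : ℤ) * ((D / D1 : ℕ) : ℤ) = (D : ℤ) := by exact_mod_cast hmul
    rw [e3] at h3
    exact h3
  calc (((Icc (-(X : ℤ)) X).filter (fun a => (D : ℤ) ∣ a * (a - B))).card : ℝ)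
      ≤ ∑ D1 ∈ D.divisors, (((Icc (-(X : ℤ)) X).filter (fun a => (D1 : ℤ) ∣ a ∧
        ((D / D1 : ℕ) : ℤ) ∣ a - B)).card : ℝ) := by exact_mod_cast h1
    _ ≤ ∑ _D1 ∈ D.divisors, 3 * (X : ℝ) / D := sum_le_sum h2
    _ = D.divisors.card * (3 * (X : ℝ) / D) := by rw [sum_const, nsmul_eq_mul]
    _ ≤ 2 ^ D.primeFactors.card * (3 * X / D) := by
        apply mul_le_mul_of_nonneg_right _ (by positivity)
        exact_mod_cast div_cnt hD

/-- the numbers with few prime factors in the set -/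
def GN (W X J D : ℕ) : Finset ℕ :=
  (Icc 1 X).filter (fun n => (n.primeFactors ∩ LS W X D).card ≤ J)

lemma pm_cnt (S : Finset ℕ) : ((S.image (fun n : ℕ => (n : ℤ)) ∪
    S.image (fun n : ℕ => -(n : ℤ))).card : ℝ) ≤ 2 * S.card := by
  have h2 : (S.image (fun n : ℕ => (n : ℤ)) ∪ S.image (fun n : ℕ => -(n : ℤ))).card ≤
      2 * S.card := by
    refine (card_union_le _ _).trans ?_
    have a := card_image_le (s := S) (f := fun n : ℕ => (n : ℤ))
    have b := card_image_le (s := S) (f := fun n : ℕ => -(n : ℤ))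
    omega
  exact_mod_cast h2

lemma mem_pm {S : Finset ℕ} {a : ℤ} (h : a.natAbs ∈ S) : a ∈ (S.image (fun n : ℕ => (n : ℤ)) ∪
    S.image (fun n : ℕ => -(n : ℤ))) := by
  rw [mem_union, mem_image, mem_image]
  rcases Int.natAbs_eq a with e | e
  · left
    exact ⟨_, h, e.symm⟩
  · right
    exact ⟨_, h, e.symm⟩

open Classical in
lemma ev1_cnt (W X J D : ℕ) (hD : Squarefree D) (hDX : D ≤ X) (hJ : D.primeFactors.card ≤ J) :
    (((Bx X).filter (fun t => Ev1 W X J t D)).card : ℝ) ≤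
      6 * X * (2 ^ J * ((GN W X J D).card : ℝ) / D) := by
  set S := ((GN W X J D).image (fun n : ℕ => (n : ℤ)) ∪
    (GN W X J D).image (fun n : ℕ => -(n : ℤ))) with hS
  have hsub : (Bx X).filter (fun t => Ev1 W X J t D) ⊆ (S.sigma (fun B =>
      (Icc (-(X : ℤ)) X).filter (fun a => (D : ℤ) ∣ a * (a - B)))).image
        (fun x => (x.2, x.1)) := by
    intro t ht
    rw [mem_filter] at ht
    obtain ⟨hB, h1, h2⟩ := ht
    rw [mem_image]
    refine ⟨⟨t.2, t.1⟩, ?_, rfl⟩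
    rw [mem_sigma]
    have hB' := mem_Bx.1 hB
    refine ⟨?_, ?_⟩
    · apply mem_pm
      unfold GN
      rw [mem_filter, mem_Icc]
      refine ⟨⟨?_, ?_⟩, h2⟩
      · have := hB'.2.2.1
        show 1 ≤ t.2.natAbs
        omega
      · show t.2.natAbs ≤ X
        omega
    · rw [mem_filter, mem_Icc]
      exact ⟨hB'.1.1, h1⟩
  have h1 := (card_le_card hsub).trans card_image_le
  rw [card_sigma] at h1
  have h2 : ∀ B ∈ S, (((Icc (-(X : ℤ)) X).filter (fun a => (D : ℤ) ∣ a * (a - B))).card : ℝ) ≤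
      2 ^ J * (3 * X / D) := by
    intro B _
    refine (quad_cnt X D hD hDX B).trans ?_
    apply mul_le_mul_of_nonneg_right _ (by positivity)
    exact pow_le_pow_right₀ (by norm_num) hJ
  calc (((Bx X).filter (fun t => Ev1 W X J t D)).card : ℝ)
      ≤ ∑ B ∈ S, (((Icc (-(X : ℤ)) X).filter (fun a => (D : ℤ) ∣ a * (a - B))).card : ℝ) := by
        exact_mod_cast h1
    _ ≤ ∑ _B ∈ S, (2 : ℝ) ^ J * (3 * X / D) := sum_le_sum h2
    _ = S.card * ((2 : ℝ) ^ J * (3 * X / D)) := by rw [sum_const, nsmul_eq_mul]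
    _ ≤ (2 * (GN W X J D).card) * ((2 : ℝ) ^ J * (3 * X / D)) :=
        mul_le_mul_of_nonneg_right (pm_cnt _) (by positivity)
    _ = _ := by ring

open Classical in
lemma ev2_cnt (W X J D : ℕ) (hD0 : 0 < D) (hDX : D ≤ X) :
    (((Bx X).filter (fun t => Ev2 W (2 * X) J t D)).card : ℝ) ≤
      6 * X * (2 ^ J * ((GN W (2 * X) J D).card : ℝ) / D) := by
  set S := ((GN W (2 * X) J D).image (fun n : ℕ => (n : ℤ)) ∪
    (GN W (2 * X) J D).image (fun n : ℕ => -(n : ℤ))) with hS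
  have hsub : (Bx X).filter (fun t => Ev2 W (2 * X) J t D) ⊆ (S ×ˢ
      (Icc (-(X : ℤ)) X).filter (fun a => (D : ℤ) ∣ a)).image
        (fun x => (x.1 + x.2, x.2)) := by
    intro t ht
    rw [mem_filter] at ht
    obtain ⟨hB, h1, h2⟩ := ht
    rw [mem_image]
    refine ⟨(t.1 - t.2, t.2), ?_, by simp⟩
    rw [mem_product]
    have hB' := mem_Bx.1 hB
    refine ⟨?_, ?_⟩
    · apply mem_pm
      unfold GN
      rw [mem_filter, mem_Icc]
      refine ⟨⟨?_, ?_⟩, h2⟩
      · have := hB'.2.2.2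
        show 1 ≤ (t.1 - t.2).natAbs
        omega
      · show (t.1 - t.2).natAbs ≤ 2 * X
        omega
    · rw [mem_filter, mem_Icc]
      exact ⟨hB'.1.2, h1⟩
  have h1 := (card_le_card hsub).trans card_image_le
  rw [card_product] at h1
  have h2 : (((Icc (-(X : ℤ)) X).filter (fun a => (D : ℤ) ∣ a)).card : ℝ) ≤ 3 * X / D := by
    apply res_cnt' X D hD0 hDX _ (filter_subset _ _)
    intro x hx x' hx'
    exact dvd_sub (mem_filter.1 hx).2 (mem_filter.1 hx').2
  have hp : (1 : ℝ) ≤ 2 ^ J := one_le_pow₀ (by norm_num)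
  have h0 : (0 : ℝ) ≤ 3 * X / D := by positivity
  have h4 : 3 * (X : ℝ) / D ≤ 2 ^ J * (3 * X / D) := by nlinarith
  calc (((Bx X).filter (fun t => Ev2 W (2 * X) J t D)).card : ℝ)
      ≤ S.card * (((Icc (-(X : ℤ)) X).filter (fun a => (D : ℤ) ∣ a)).card : ℝ) := by
        exact_mod_cast h1
    _ ≤ (2 * (GN W (2 * X) J D).card) * (2 ^ J * (3 * X / D)) := by
        apply mul_le_mul (pm_cnt _) (h2.trans h4) (Nat.cast_nonneg _) (by positivity)
    _ = _ := by ring

end Pool.Agent.Y676
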