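import Pool.Agent.Y676.P2b

/-!
# Elements with few ramified primes: they are rare
-/

set_option autoImplicit false

namespace Pool.Agent.Y676

open Finset
open Pool.Agent.Y157.SH (lf Nn_eq)

/-- the logarithm of the small part -/
noncomputable def spt (y : ℕ) (n : ℤ) : ℝ :=
  ∑ p ∈ n.natAbs.primeFactors.filter (fun p => p ≤ y), Real.log p

lemma spt_nonneg (y : ℕ) (n : ℤ) : 0 ≤ spt y n :=
  sum_nonneg fun _ _ => Real.log_natCast_nonneg _

open Classical in
lemma spt_cnt : ∃ C : ℝ, 0 ≤ C ∧ ∀ (X y : ℕ) (j : Fin 3) (V : ℝ), 0 < V →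
    (((Bx X).filter (fun t => ¬ spt y (lf t j) ≤ V)).card : ℝ) ≤
      8 * (X : ℝ) ^ 2 * (Real.log y + C) / V := by
  obtain ⟨C, hC⟩ := Pool.Agent.Helper923.HMertens.mertens_log
  have hC0 : 0 ≤ C := (abs_nonneg _).trans (hC 1 le_rfl)
  refine ⟨C, hC0, fun X y j V hV => ?_⟩
  have hm : ∑ p ∈ (Icc 1 y).filter Nat.Prime, Real.log p / p ≤ Real.log y + C := by
    rcases Nat.eq_zero_or_pos y with rfl | hy
    · simp
      exact hC0
    · have := hC y hy
      rw [abs_le] at this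
      linarith [this.2]
  have h1 : ∑ t ∈ Bx X, spt y (lf t j) ≤ 8 * (X : ℝ) ^ 2 * (Real.log y + C) := by
    have e1 : ∀ t ∈ Bx X, spt y (lf t j) ≤ ∑ p ∈ (Icc 1 y).filter Nat.Prime,
        if (p : ℤ) ∣ lf t j then Real.log p else 0 := by
      intro t _
      unfold spt
      rw [← sum_filter]
      apply sum_le_sum_of_subset_of_nonneg
      · intro p hp
        rw [mem_filter, Nat.mem_primeFactors] at hp
        rw [mem_filter, mem_filter, mem_Icc]
        exact ⟨⟨⟨hp.1.1.one_lt.le, hp.2⟩, hp.1.1⟩, Int.natCast_dvd.2 hp.1.2.1⟩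
      · intro p _ _
        exact Real.log_natCast_nonneg _
    refine (sum_le_sum e1).trans ?_
    rw [sum_comm]
    calc ∑ p ∈ (Icc 1 y).filter Nat.Prime, ∑ t ∈ Bx X, (if (p : ℤ) ∣ lf t j then Real.log p else 0)
        ≤ ∑ p ∈ (Icc 1 y).filter Nat.Prime, 8 * (X : ℝ) ^ 2 * (Real.log p / p) := by
          apply sum_le_sum
          intro p hp
          rw [mem_filter] at hp
          have hp0 : (0 : ℝ) < p := by exact_mod_cast hp.2.pos
          rw [← sum_filter, sum_const, nsmul_eq_mul]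
          have h2 := dvd_one X p j hp.2.pos
          have h3 : (((Bx X).filter (fun t => (p : ℤ) ∣ lf t j)).card : ℝ) ≤ 8 * (X : ℝ) ^ 2 / p := by
            rw [le_div_iff₀ hp0]
            exact h2
          calc _ ≤ 8 * (X : ℝ) ^ 2 / p * Real.log p :=
                mul_le_mul_of_nonneg_right h3 (Real.log_natCast_nonneg _)
            _ = _ := by ring
      _ = 8 * (X : ℝ) ^ 2 * ∑ p ∈ (Icc 1 y).filter Nat.Prime, Real.log p / p := by rw [mul_sum]
      _ ≤ _ := mul_le_mul_of_nonneg_left hm (by positivity)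
  rw [le_div_iff₀ hV]
  refine le_trans ?_ h1
  calc (((Bx X).filter (fun t => ¬ spt y (lf t j) ≤ V)).card : ℝ) * V
      = ∑ _t ∈ (Bx X).filter (fun t => ¬ spt y (lf t j) ≤ V), V := by
        rw [sum_const, nsmul_eq_mul]
    _ ≤ ∑ t ∈ (Bx X).filter (fun t => ¬ spt y (lf t j) ≤ V), spt y (lf t j) := by
        apply sum_le_sum
        intro t ht
        exact (not_le.1 (mem_filter.1 ht).2).le
    _ ≤ ∑ t ∈ Bx X, spt y (lf t j) :=
        sum_le_sum_of_subset_of_nonneg (filter_subset _ _) fun _ _ _ => spt_nonneg _ _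

lemma log_sq {D : ℕ} (hD : Squarefree D) : Real.log D = ∑ p ∈ D.primeFactors, Real.log p := by
  conv_lhs => rw [← Nat.prod_primeFactors_of_squarefree hD]
  rw [Nat.cast_prod, Real.log_prod]
  intro p hp
  exact_mod_cast (Nat.prime_of_mem_primeFactors hp).ne_zero

/-- the divisors are small -/
lemma small_dvd {W J y X D : ℕ} {t : ℤ × ℤ} (hX : 1 ≤ X) (ht : t ∈ Bx X) (hD : DD1 W J y D)
    (hs : ∀ j : Fin 3, spt y (lf t j) ≤ 1 / 4 * Real.log X)
    (hd : (D : ℤ) ∣ t.1 * (t.1 - t.2) ∨ (D : ℤ) ∣ t.2) : D ^ 2 ≤ X := by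
  have hX0 : (0 : ℝ) < X := by exact_mod_cast hX
  have h1 : Real.log D ≤ 1 / 2 * Real.log X := by
    rw [log_sq hD.sq]
    rcases hd with hd | hd
    · have hsub : D.primeFactors ⊆ ((lf t 0).natAbs.primeFactors.filter (fun p => p ≤ y)) ∪
          ((lf t 2).natAbs.primeFactors.filter (fun p => p ≤ y)) := by
        intro p hp
        rw [Nat.mem_primeFactors] at hp
        have hpi : Prime (p : ℤ) := Nat.prime_iff_prime_int.1 hp.1
        have h1 : (p : ℤ) ∣ t.1 * (t.1 - t.2) := (Int.natCast_dvd_natCast.2 hp.2.1).trans hd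
        rw [mem_union, mem_filter, mem_filter, Nat.mem_primeFactors, Nat.mem_primeFactors]
        have hy := hD.sm p hp.1 hp.2.1
        rcases hpi.dvd_or_dvd h1 with h | h
        · exact Or.inl ⟨⟨hp.1, Int.natCast_dvd.1 h, Int.natAbs_ne_zero.2 (lf_ne ht 0)⟩, hy⟩
        · exact Or.inr ⟨⟨hp.1, Int.natCast_dvd.1 h, Int.natAbs_ne_zero.2 (lf_ne ht 2)⟩, hy⟩
      have h2 : ∑ p ∈ D.primeFactors, Real.log p ≤ spt y (lf t 0) + spt y (lf t 2) := by
        refine (sum_le_sum_of_subset_of_nonneg hsub fun p _ _ =>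
          Real.log_natCast_nonneg _).trans ?_
        unfold spt
        have := sum_union_inter (s₁ := (lf t 0).natAbs.primeFactors.filter (fun p => p ≤ y))
          (s₂ := (lf t 2).natAbs.primeFactors.filter (fun p => p ≤ y))
          (f := fun p : ℕ => Real.log (p : ℝ))
        have h3 : 0 ≤ ∑ p ∈ ((lf t 0).natAbs.primeFactors.filter (fun p => p ≤ y)) ∩
          ((lf t 2).natAbs.primeFactors.filter (fun p => p ≤ y)), Real.log (p : ℝ) :=
          sum_nonneg fun _ _ => Real.log_natCast_nonneg _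
        linarith
      have := hs 0
      have := hs 2
      linarith
    · have hsub : D.primeFactors ⊆ ((lf t 1).natAbs.primeFactors.filter (fun p => p ≤ y)) := by
        intro p hp
        rw [Nat.mem_primeFactors] at hp
        have h1 : (p : ℤ) ∣ t.2 := (Int.natCast_dvd_natCast.2 hp.2.1).trans hd
        rw [mem_filter, Nat.mem_primeFactors]
        exact ⟨⟨hp.1, Int.natCast_dvd.1 h1, Int.natAbs_ne_zero.2 (lf_ne ht 1)⟩,
          hD.sm p hp.1 hp.2.1⟩
      have h2 : ∑ p ∈ D.primeFactors, Real.log p ≤ spt y (lf t 1) :=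
        sum_le_sum_of_subset_of_nonneg hsub fun p _ _ => Real.log_natCast_nonneg _
      have := hs 1
      have h3 : 0 ≤ Real.log X := Real.log_nonneg (by exact_mod_cast hX)
      linarith
  have hD0 : (0 : ℝ) < D := by
    have := hD.two
    exact_mod_cast (by omega : 0 < D)
  have h2 : Real.log ((D : ℝ) ^ 2) ≤ Real.log X := by
    rw [Real.log_pow]
    push_cast
    linarith
  have h3 := (Real.log_le_log_iff (by positivity) hX0).1 h2
  exact_mod_cast h3

open Classical in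
/-- **Elements with few ramified primes are rare.** -/
theorem p2_count (hkey : S_KEY) (Y : ℕ) (hY : 2 ≤ Y) : ∃ c : ℝ, 0 < c ∧ ∀ ε : ℝ, 0 < ε →
    ∃ K : ℕ, 1 ≤ K ∧ ∃ X0 : ℕ, ∀ X : ℕ, X0 ≤ X → ∀ J : ℕ, (J : ℝ) ≤ c * Real.log (Real.log X) →
    ∀ y : ℕ, y ^ K ≤ X →
    (((Bx X).filter (fun t => Ty2 Y t.1 t.2 ∧ Sht Y J y t)).card : ℝ) ≤ ε * (X : ℝ) ^ 2 := by
  have hW : 8 ∣ WY Y := by unfold WY; exact Dvd.intro _ rfl
  have hW0 : 0 < WY Y := by unfold WY; have := Nat.factorial_pos Y; positivity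
  obtain ⟨c, hc, hk⟩ := hkey (WY Y) hW hW0
  obtain ⟨C, hC, hsp⟩ := spt_cnt
  refine ⟨c, hc, fun ε hε => ?_⟩
  obtain ⟨K, hK⟩ := exists_nat_ge (384 / ε + 1)
  have hK1 : (1 : ℝ) ≤ K := by
    have : 0 < 384 / ε := by positivity
    linarith
  refine ⟨K, by exact_mod_cast hK1, ?_⟩
  obtain ⟨X1, hX1⟩ := hk (ε / 36) (by positivity)
  have tL : Filter.Tendsto (fun X : ℕ => Real.log (X : ℝ)) Filter.atTop Filter.atTop :=
    Real.tendsto_log_atTop.comp tendsto_natCast_atTop_atTop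
  obtain ⟨X2, hX2⟩ := Filter.eventually_atTop.1 ((tL.eventually_ge_atTop (384 * C / ε)).and
    (tL.eventually_ge_atTop 1))
  refine ⟨X1 + X2 + 3, fun X hX J hJ y hy => ?_⟩
  obtain ⟨b1, b2⟩ := hX2 X (by omega)
  have hX0 : (0 : ℝ) < X := by exact_mod_cast (by omega : 0 < X)
  -- the logarithm of y
  have hlogy : Real.log y ≤ Real.log X / K := by
    rw [le_div_iff₀ (by linarith)]
    rcases Nat.eq_zero_or_pos y with rfl | hy0
    · simp
      linarith
    · have h1 : Real.log ((y : ℝ) ^ K) ≤ Real.log X := by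
        apply Real.log_le_log (by positivity)
        exact_mod_cast hy
      rw [Real.log_pow] at h1
      linarith
  have hA : ∀ j : Fin 3, (((Bx X).filter
      (fun t => ¬ spt y (lf t j) ≤ 1 / 4 * Real.log X)).card : ℝ) ≤ ε / 6 * (X : ℝ) ^ 2 := by
    intro j
    refine (hsp X y j (1 / 4 * Real.log X) (by linarith)).trans ?_
    rw [div_le_iff₀ (by linarith)]
    have h1 : Real.log X / K ≤ ε / 384 * Real.log X := by
      rw [div_eq_mul_inv, mul_comm]
      apply mul_le_mul_of_nonneg_right _ (by linarith)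
      rw [inv_eq_one_div, div_le_div_iff₀ (by linarith) (by norm_num)]
      have : 384 / ε ≤ K := by linarith
      rw [div_le_iff₀ hε] at this
      linarith
    have h2 : C ≤ ε / 384 * Real.log X := by
      rw [div_le_iff₀ hε] at b1
      linarith
    have h3 : Real.log y + C ≤ ε / 192 * Real.log X := by linarith
    have h4 : (0 : ℝ) ≤ 8 * (X : ℝ) ^ 2 := by positivity
    calc 8 * (X : ℝ) ^ 2 * (Real.log y + C) ≤ 8 * (X : ℝ) ^ 2 * (ε / 192 * Real.log X) :=
          mul_le_mul_of_nonneg_left h3 h4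
      _ = _ := by ring
  -- the set of the divisors
  let DSt : ℕ → Finset ℕ := fun Z => (Icc 2 Z).filter (fun D => D ^ 2 ≤ Z ∧ D.Coprime (WY Y) ∧
    Squarefree D ∧ D.primeFactors.card ≤ J)
  have hsub : (Bx X).filter (fun t => Ty2 Y t.1 t.2 ∧ Sht Y J y t) ⊆
      (univ.biUnion (fun j : Fin 3 => (Bx X).filter
        (fun t => ¬ spt y (lf t j) ≤ 1 / 4 * Real.log X))) ∪
      ((DSt X).biUnion (fun D => (Bx X).filter (fun t => Ev1 (WY Y) X J t D)) ∪
      (DSt X).biUnion (fun D => (Bx X).filter (fun t => Ev2 (WY Y) (2 * X) J t D))) := by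
    intro t ht
    rw [mem_filter] at ht
    obtain ⟨hB, h2, hS⟩ := ht
    rw [mem_union, mem_union]
    by_cases hs : ∀ j : Fin 3, spt y (lf t j) ≤ 1 / 4 * Real.log X
    · right
      have hmem : ∀ D, DD1 (WY Y) J y D → D ^ 2 ≤ X → D ∈ DSt X := by
        intro D hD hDX
        change D ∈ (Icc 2 X).filter (fun D => D ^ 2 ≤ X ∧ D.Coprime (WY Y) ∧
          Squarefree D ∧ D.primeFactors.card ≤ J)
        rw [mem_filter, mem_Icc]
        exact ⟨⟨hD.two, (Nat.le_self_pow two_ne_zero D).trans hDX⟩, hDX, hD.cop, hD.sq, hD.om⟩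
      rcases sht_cases hY hB h2 hS with ⟨D, hD, hE⟩ | ⟨D, hD, hE⟩
      · left
        rw [mem_biUnion]
        exact ⟨D, hmem D hD (small_dvd (by omega) hB hD hs (Or.inl hE.1)), mem_filter.2 ⟨hB, hE⟩⟩
      · right
        rw [mem_biUnion]
        exact ⟨D, hmem D hD (small_dvd (by omega) hB hD hs (Or.inr hE.1)), mem_filter.2 ⟨hB, hE⟩⟩
    · left
      push Not at hs
      obtain ⟨j, hj⟩ := hs
      rw [mem_biUnion]
      exact ⟨j, mem_univ _, mem_filter.2 ⟨hB, not_le.2 hj⟩⟩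
  have hDle : ∀ D ∈ DSt X, 2 ≤ D ∧ D ≤ X ∧ Squarefree D ∧ D.primeFactors.card ≤ J := by
    intro D hD
    have hD' := (mem_filter.1 hD)
    have h1 := mem_Icc.1 hD'.1
    exact ⟨h1.1, h1.2, hD'.2.2.2.1, hD'.2.2.2.2⟩
  -- the first sum
  have hS1 : (((DSt X).biUnion (fun D => (Bx X).filter (fun t => Ev1 (WY Y) X J t D))).card : ℝ) ≤
      ε / 6 * (X : ℝ) ^ 2 := by
    have h1 : (((DSt X).biUnion (fun D => (Bx X).filter (fun t => Ev1 (WY Y) X J t D))).card : ℝ) ≤
        ∑ D ∈ DSt X, (((Bx X).filter (fun t => Ev1 (WY Y) X J t D)).card : ℝ) := by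
      exact_mod_cast card_biUnion_le
    have h2 : ∀ D ∈ DSt X, (((Bx X).filter (fun t => Ev1 (WY Y) X J t D)).card : ℝ) ≤
        6 * X * (2 ^ J * ((GN (WY Y) X J D).card : ℝ) / D) := by
      intro D hD
      obtain ⟨-, k2, k3, k4⟩ := hDle D hD
      exact ev1_cnt (WY Y) X J D k3 k2 k4
    refine h1.trans ((sum_le_sum h2).trans ?_)
    rw [← mul_sum]
    have h3 := hX1 X (by omega) J hJ
    calc 6 * (X : ℝ) * ∑ D ∈ DSt X, 2 ^ J * ((GN (WY Y) X J D).card : ℝ) / D
        ≤ 6 * (X : ℝ) * (ε / 36 * X) := mul_le_mul_of_nonneg_left h3 (by positivity)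
      _ = _ := by ring
  -- the second sum
  have hS2 : (((DSt X).biUnion (fun D => (Bx X).filter
      (fun t => Ev2 (WY Y) (2 * X) J t D))).card : ℝ) ≤ ε / 3 * (X : ℝ) ^ 2 := by
    have h1 : (((DSt X).biUnion (fun D => (Bx X).filter
        (fun t => Ev2 (WY Y) (2 * X) J t D))).card : ℝ) ≤
        ∑ D ∈ DSt X, (((Bx X).filter (fun t => Ev2 (WY Y) (2 * X) J t D)).card : ℝ) := by
      exact_mod_cast card_biUnion_le
    have h2 : ∀ D ∈ DSt X, (((Bx X).filter (fun t => Ev2 (WY Y) (2 * X) J t D)).card : ℝ) ≤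
        6 * X * (2 ^ J * ((GN (WY Y) (2 * X) J D).card : ℝ) / D) := by
      intro D hD
      obtain ⟨k1, k2, k3, k4⟩ := hDle D hD
      exact ev2_cnt (WY Y) X J D (by omega) k2
    refine h1.trans ((sum_le_sum h2).trans ?_)
    rw [← mul_sum]
    have hJ2 : (J : ℝ) ≤ c * Real.log (Real.log ((2 * X : ℕ) : ℝ)) := by
      refine hJ.trans (mul_le_mul_of_nonneg_left ?_ hc.le)
      apply Real.log_le_log (by linarith)
      apply Real.log_le_log hX0
      push_cast
      linarith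
    have h3 := hX1 (2 * X) (by omega) J hJ2
    have hsub2 : DSt X ⊆ DSt (2 * X) := by
      intro D hD
      have hD' := (mem_filter.1 hD)
      have h1 := mem_Icc.1 hD'.1
      refine mem_filter.2 ⟨mem_Icc.2 ⟨h1.1, by omega⟩, ?_, hD'.2.2⟩
      have := hD'.2.1
      omega
    have h4 : ∑ D ∈ DSt X, 2 ^ J * ((GN (WY Y) (2 * X) J D).card : ℝ) / D ≤
        ∑ D ∈ DSt (2 * X), 2 ^ J * ((GN (WY Y) (2 * X) J D).card : ℝ) / D :=
      sum_le_sum_of_subset_of_nonneg hsub2 fun _ _ _ => by positivity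
    calc 6 * (X : ℝ) * ∑ D ∈ DSt X, 2 ^ J * ((GN (WY Y) (2 * X) J D).card : ℝ) / D
        ≤ 6 * (X : ℝ) * (ε / 36 * ((2 * X : ℕ) : ℝ)) :=
          mul_le_mul_of_nonneg_left (h4.trans h3) (by positivity)
      _ = _ := by push_cast; ring
  have hS0 : ((univ.biUnion (fun j : Fin 3 => (Bx X).filter
        (fun t => ¬ spt y (lf t j) ≤ 1 / 4 * Real.log X))).card : ℝ) ≤ ε / 2 * (X : ℝ) ^ 2 := by
    have h1 : ((univ.biUnion (fun j : Fin 3 => (Bx X).filter
        (fun t => ¬ spt y (lf t j) ≤ 1 / 4 * Real.log X))).card : ℝ) ≤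
        ∑ j : Fin 3, (((Bx X).filter
        (fun t => ¬ spt y (lf t j) ≤ 1 / 4 * Real.log X)).card : ℝ) := by
      exact_mod_cast card_biUnion_le
    refine h1.trans ((sum_le_sum fun j _ => hA j).trans ?_)
    rw [sum_const, card_univ, Fintype.card_fin, nsmul_eq_mul]
    apply le_of_eq
    push_cast
    ring
  have h1 := card_le_card hsub
  have h2 := card_union_le (univ.biUnion (fun j : Fin 3 => (Bx X).filter
        (fun t => ¬ spt y (lf t j) ≤ 1 / 4 * Real.log X)))
      ((DSt X).biUnion (fun D => (Bx X).filter (fun t => Ev1 (WY Y) X J t D)) ∪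
      (DSt X).biUnion (fun D => (Bx X).filter (fun t => Ev2 (WY Y) (2 * X) J t D)))
  have h3 := card_union_le ((DSt X).biUnion (fun D => (Bx X).filter (fun t => Ev1 (WY Y) X J t D)))
      ((DSt X).biUnion (fun D => (Bx X).filter (fun t => Ev2 (WY Y) (2 * X) J t D)))
  have h4 : (((Bx X).filter (fun t => Ty2 Y t.1 t.2 ∧ Sht Y J y t)).card : ℝ) ≤
      ((univ.biUnion (fun j : Fin 3 => (Bx X).filter
        (fun t => ¬ spt y (lf t j) ≤ 1 / 4 * Real.log X))).card : ℝ) +
      ((((DSt X).biUnion (fun D => (Bx X).filter (fun t => Ev1 (WY Y) X J t D))).card : ℝ) +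
      (((DSt X).biUnion (fun D => (Bx X).filter (fun t => Ev2 (WY Y) (2 * X) J t D))).card : ℝ)) := by
    have h5 := h1.trans (h2.trans (Nat.add_le_add_left h3 _))
    exact_mod_cast h5
  refine h4.trans ?_
  nlinarith [sq_nonneg (X : ℝ)]

end Pool.Agent.Y676
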