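import Pool.Agent.Y676.P2c
import Pool.Agent.Y676.GQ

/-!
# For almost all curves the proportion of the good sign patterns is positive
-/

set_option autoImplicit false

namespace Pool.Agent.Y676

open Finset
open Pool.Agent.W307.SE (Loc)
open Pool.Agent.W262.RK (dv sgn sg0 LL LocH)
open Pool.Agent.Y157.SH (lf Nn_eq)

lemma lc_scale {A B q : ℤ} {p : ℕ} (hp : p.Prime) (hpq : ¬ (p : ℤ) ∣ q) {s s' : ℕ → Bool}
    (hs : s p = s' p) {e : ℤ × ℤ} (h : Lc A B s p e) : Lc (q * A) (q * B) s' p e := by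
  have hpi : Prime (p : ℤ) := Nat.prime_iff_prime_int.1 hp
  have hd : ∀ u : ℤ, (p : ℤ) ∣ q * u → (p : ℤ) ∣ u := fun u hu =>
    (hpi.dvd_or_dvd hu).resolve_left hpq
  unfold Lc at h ⊢
  rw [← hs]
  refine ⟨fun h1 => h.1 (hd _ h1), fun h1 => h.2.1 (hd _ h1), fun h1 => h.2.2 ?_⟩
  apply hd
  rw [mul_sub]
  exact h1

lemma sQ_scale {A B q : ℤ} {p : ℕ} (hp : p.Prime) (hpq : ¬ (p : ℤ) ∣ q) :
    sQ (q * A) (q * B) 1 p = sQ A B q p := by
  have hpi : Prime (p : ℤ) := Nat.prime_iff_prime_int.1 hp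
  have hd : ∀ u : ℤ, (p : ℤ) ∣ q * u ↔ (p : ℤ) ∣ u := fun u =>
    ⟨fun hu => (hpi.dvd_or_dvd hu).resolve_left hpq, fun hu => hu.mul_left _⟩
  unfold sQ
  rw [one_mul, one_mul]
  by_cases hA : (p : ℤ) ∣ A
  · rw [if_pos ((hd A).2 hA), if_pos hA]
  · rw [if_neg (fun h => hA ((hd A).1 h)), if_neg hA]
    by_cases hB : (p : ℤ) ∣ B
    · rw [if_pos ((hd B).2 hB), if_pos hB]
    · rw [if_neg (fun h => hB ((hd B).1 h)), if_neg hB]

/-- the virtual Selmer groups are contained in the groups `InT` of the twists -/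
lemma ins_int {Y : ℕ} {A B : ℤ} {s : ℕ → Bool} {q : ℕ} (hqp : q.Prime)
    (hqm : q % WY Y = 1 % WY Y) (hqN : ¬ (q : ℤ) ∣ A * B * (A - B))
    (hsg : ∀ l : ℕ, l.Prime → Y < l → (l : ℤ) ∣ A * B * (A - B) → sQ A B q l = s l)
    {e : ℤ × ℤ} (he : InS Y A B s e) : e ∈ InT ((q : ℤ) * A) ((q : ℤ) * B) := by
  have hpq : ∀ p : ℕ, p.Prime → p ≠ q → ¬ (p : ℤ) ∣ (q : ℤ) := by
    intro p hp hne h
    exact hne ((Nat.prime_dvd_prime_iff_eq hp hqp).1 (by exact_mod_cast h))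
  have hqi : Prime (q : ℤ) := Nat.prime_iff_prime_int.1 hqp
  have hlow : ∀ p : ℕ, p.Prime → p ≤ Y → q % p = 1 % p := by
    intro p hp hpY
    refine mod_one hqm ?_
    unfold WY
    exact ((hp.dvd_factorial).2 hpY).mul_left _
  refine ⟨he.sq1, he.sq2, ?_, ?_⟩
  · intro p hp hnd
    have hpi : Prime (p : ℤ) := Nat.prime_iff_prime_int.1 hp
    have e5 : 2 * ((q : ℤ) * A) * ((q : ℤ) * B) * ((q : ℤ) * A - (q : ℤ) * B) =
          (2 * (q : ℤ) ^ 3) * (A * B * (A - B)) := by ring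
    rw [e5] at hnd
    have hN : ¬ (p : ℤ) ∣ A * B * (A - B) := fun h => hnd (h.mul_left _)
    by_cases hYp : Y < p
    · exact he.un p hp hYp hN
    · have : Fact p.Prime := ⟨hp⟩
      refine goodp p A B e.1 e.2 ?_ he.sq1 he.sq2 (he.sm p (by omega))
      intro h
      have e6 : 2 * A * B * (A - B) = 2 * (A * B * (A - B)) := by ring
      rw [e6] at h
      rcases hpi.dvd_or_dvd h with h | h
      · exact hnd ((h.mul_right _).mul_right _)
      · exact hN h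
  · intro p hp hp2 hnd
    have hpi : Prime (p : ℤ) := Nat.prime_iff_prime_int.1 hp
    have e5 : ((q : ℤ) * A) * ((q : ℤ) * B) * ((q : ℤ) * A - (q : ℤ) * B) =
          (q : ℤ) ^ 3 * (A * B * (A - B)) := by ring
    rw [e5] at hnd
    have hne : p ≠ q := by
      rintro rfl
      exact hnd ((pow_dvd_pow _ (by norm_num)).mul_right _)
    have hpq' := hpq p hp hne
    have hN2 : ¬ (p : ℤ) ^ 2 ∣ A * B * (A - B) := fun h => hnd (h.mul_left _)
    by_cases hN : (p : ℤ) ∣ A * B * (A - B)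
    · by_cases hYp : Y < p
      · refine lc_scale hp hpq' ?_ (he.lc p hp hYp)
        rw [sQ_scale hp hpq', hsg p hp hYp hN]
      · have : Fact p.Prime := ⟨hp⟩
        have h1 : ¬ (p : ℤ) ∣ 1 := fun h =>
          hp.one_lt.ne' (by exact_mod_cast Int.eq_one_of_dvd_one (by positivity) h)
        have h2 : Lc A B (sQ A B 1) p e := by
          refine lc_of_loc (q := 1) hp2 h1 hN2 he.sq1 he.sq2 ?_
          rw [one_mul, one_mul]
          exact he.sm p (by omega)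
        refine lc_scale hp hpq' ?_ h2
        rw [sQ_scale hp hpq', sQ_eq, sQ_eq]
        unfold sg0
        rw [jacobiSym.mul_left, jacobiSym.mul_left, jacobiSym.one_left]
        have h3 : ((q : ℤ)) % (p : ℤ) = 1 % (p : ℤ) := by exact_mod_cast hlow p hp (by omega)
        have h4 : jacobiSym (q : ℤ) p = 1 := by
          rw [jacobiSym.mod_left, h3, ← jacobiSym.mod_left, jacobiSym.one_left]
        rw [h4]
    · have hno : ∀ u : ℤ, (p : ℤ) ∣ (q : ℤ) * u → (p : ℤ) ∣ u := fun u hu =>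
        (hpi.dvd_or_dvd hu).resolve_left hpq'
      refine ⟨fun h => absurd ?_ hN, fun h => absurd ?_ hN, fun h => absurd ?_ hN⟩
      · exact ((hno _ h).mul_right _).mul_right _
      · exact ((hno _ h).mul_left _).mul_right _
      · rw [← mul_sub] at h
        exact (hno _ h).mul_left _

/-- the tuple with one entry -/
def one1 (t : ℤ × ℤ) : Fin 1 → ℤ × ℤ := fun _ => t

lemma PP_one (Y : ℕ) (t : ℤ × ℤ) : PP Y (one1 t) = PN Y t := by
  unfold PP PN one1
  rw [prod_const, card_univ, Fintype.card_fin, pow_one]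

lemma mem_TB_one {X : ℕ} {t : ℤ × ℤ} : one1 t ∈ TB 1 X ↔ t ∈ Bx X := by
  rw [mem_TB]
  exact ⟨fun h => h 0, fun h _ => h⟩

/-- the pattern of a set -/
noncomputable def kT (t : ℤ × ℤ) (T : Finset ℕ) (l : ℕ) : ℤ := kap t.1 t.2 (sT T l) l

/-- the average of the virtual Selmer groups over the patterns -/
lemma avg_pat {Y X Q : ℕ} {t : ℤ × ℤ} (ht : t ∈ Bx X) (hG : GT Y X Q (one1 t))
    (hPQ : 0 < (PQ (WY Y) Q).card) (R : ℝ)
    (hfin : ∀ q ∈ PQ (WY Y) Q, (InT ((q : ℤ) * t.1) ((q : ℤ) * t.2)).Finite)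
    (hR : ∑ q ∈ PQ (WY Y) Q, ((InT ((q : ℤ) * t.1) ((q : ℤ) * t.2)).ncard : ℝ) ≤
      R * (PQ (WY Y) Q).card) :
    ∑ T ∈ (PN Y t).powerset, ((SS1 Y t T).ncard : ℝ) ≤ 2 * (R + 1) * 2 ^ (PN Y t).card := by
  classical
  have hN : Nn t ≠ 0 := Nn_ne ht
  have hty1 : Ty1 Y t.1 t.2 := hG.ty1 0
  have hkap : ∀ T : Finset ℕ, ∀ l ∈ PN Y t, (kT t T l = 1 ∨ kT t T l = -1) ∧
      ∀ q : ℤ, jacobiSym q l = kT t T l → sQ t.1 t.2 q l = sT T l := by
    intro T l hl
    rw [mem_PN hN] at hl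
    exact kap_spec hl.1 (hty1 l hl.1 hl.2.1)
  have hpat : ∀ T : Finset ℕ, ((PQ (WY Y) Q).card : ℝ) / 2 ≤
      2 ^ (PN Y t).card * ((PAT (WY Y) Q (PN Y t) (kT t T)).card : ℝ) := by
    intro T
    have := hG.pat (kT t T) (by
      rw [PP_one]
      exact fun l hl => (hkap T l hl).1)
    rw [PP_one] at this
    exact this
  -- one pattern
  have hone : ∀ T ∈ (PN Y t).powerset, ∀ q ∈ PAT (WY Y) Q (PN Y t) (kT t T),
      ((SS1 Y t T).ncard : ℝ) ≤ (InT ((q : ℤ) * t.1) ((q : ℤ) * t.2)).ncard + 1 := by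
    intro T _ q hq
    unfold PAT at hq
    rw [mem_filter] at hq
    obtain ⟨hq1, hq2, hq3⟩ := hq
    have hq1' := hq1
    unfold PQ at hq1'
    rw [mem_filter] at hq1'
    obtain ⟨-, hqp, hqm⟩ := hq1'
    have hqY : Y < q := by
      by_contra h
      push Not at h
      have h1 : q ∣ WY Y := by
        unfold WY
        exact ((hqp.dvd_factorial).2 h).mul_left _
      have h2 := mod_one hqm h1
      rw [Nat.mod_self, Nat.mod_eq_of_lt hqp.one_lt] at h2
      omega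
    have hqN : ¬ (q : ℤ) ∣ t.1 * t.2 * (t.1 - t.2) := fun h =>
      hq2 ((mem_PN hN).2 ⟨hqp, hqY, h⟩)
    have hsub : SS1 Y t T ⊆ insert ((1 : ℤ), (1 : ℤ)) (InT ((q : ℤ) * t.1) ((q : ℤ) * t.2)) := by
      intro e he
      rcases Set.mem_insert_iff.1 he with rfl | he
      · exact Set.mem_insert _ _
      · refine Set.mem_insert_of_mem _ (ins_int hqp hqm hqN (fun l hl hYl hlN => ?_) he)
        have hl' : l ∈ PN Y t := (mem_PN hN).2 ⟨hl, hYl, hlN⟩
        exact (hkap T l hl').2 q (hq3 l hl')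
    have h1 := Set.ncard_le_ncard hsub ((hfin q hq1).insert _)
    have h2 := Set.ncard_insert_le ((1 : ℤ), (1 : ℤ)) (InT ((q : ℤ) * t.1) ((q : ℤ) * t.2))
    exact_mod_cast h1.trans h2
  -- the patterns are disjoint
  have hdisj : Set.PairwiseDisjoint ((PN Y t).powerset : Set (Finset ℕ))
      (fun T => PAT (WY Y) Q (PN Y t) (kT t T)) := by
    intro T hT T' hT' hne
    rw [Function.onFun, Finset.disjoint_left]
    intro q hq hq'
    apply hne
    unfold PAT at hq hq'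
    rw [mem_filter] at hq hq'
    rw [mem_coe, mem_powerset] at hT hT'
    ext l
    by_cases hl : l ∈ PN Y t
    · have e1 := (hkap T l hl).2 q (hq.2.2 l hl)
      have e2 := (hkap T' l hl).2 q (hq'.2.2 l hl)
      rw [e1] at e2
      unfold sT at e2
      rw [decide_eq_decide] at e2
      exact e2
    · exact ⟨fun h => absurd (hT h) hl, fun h => absurd (hT' h) hl⟩
  have hsum : ∑ T ∈ (PN Y t).powerset, ((SS1 Y t T).ncard : ℝ) *
      ((PAT (WY Y) Q (PN Y t) (kT t T)).card : ℝ) ≤ (R + 1) * (PQ (WY Y) Q).card := by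
    have h1 : ∑ T ∈ (PN Y t).powerset, ((SS1 Y t T).ncard : ℝ) *
        ((PAT (WY Y) Q (PN Y t) (kT t T)).card : ℝ) ≤
        ∑ T ∈ (PN Y t).powerset, ∑ q ∈ PAT (WY Y) Q (PN Y t) (kT t T),
          (((InT ((q : ℤ) * t.1) ((q : ℤ) * t.2)).ncard : ℝ) + 1) := by
      apply sum_le_sum
      intro T hT
      rw [mul_comm, ← nsmul_eq_mul, ← sum_const]
      exact sum_le_sum fun q hq => hone T hT q hq
    refine h1.trans ?_
    rw [← sum_biUnion hdisj]
    have h2 : ((PN Y t).powerset.biUnion fun T => PAT (WY Y) Q (PN Y t) (kT t T)) ⊆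
        PQ (WY Y) Q := by
      intro q hq
      rw [mem_biUnion] at hq
      obtain ⟨T, -, hq⟩ := hq
      unfold PAT at hq
      exact (mem_filter.1 hq).1
    refine (sum_le_sum_of_subset_of_nonneg h2 fun _ _ _ => by positivity).trans ?_
    rw [sum_add_distrib, sum_const, nsmul_eq_mul, mul_one]
    linarith
  have hPQ' : (0 : ℝ) < (PQ (WY Y) Q).card := by exact_mod_cast hPQ
  have hlow : ((PQ (WY Y) Q).card : ℝ) / 2 * ∑ T ∈ (PN Y t).powerset, ((SS1 Y t T).ncard : ℝ) ≤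
      2 ^ (PN Y t).card * ((R + 1) * (PQ (WY Y) Q).card) := by
    refine le_trans ?_ (mul_le_mul_of_nonneg_left hsum (by positivity))
    rw [mul_sum, mul_sum]
    apply sum_le_sum
    intro T _
    have h1 := mul_le_mul_of_nonneg_left (hpat T) (Nat.cast_nonneg ((SS1 Y t T).ncard) (α := ℝ))
    calc ((PQ (WY Y) Q).card : ℝ) / 2 * ((SS1 Y t T).ncard : ℝ) =
        ((SS1 Y t T).ncard : ℝ) * (((PQ (WY Y) Q).card : ℝ) / 2) := by ring
      _ ≤ _ := h1
      _ = _ := by ring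
  have h3 : ((PQ (WY Y) Q).card : ℝ) * ∑ T ∈ (PN Y t).powerset, ((SS1 Y t T).ncard : ℝ) ≤
      (PQ (WY Y) Q).card * (2 * (R + 1) * 2 ^ (PN Y t).card) := by
    calc _ = 2 * (((PQ (WY Y) Q).card : ℝ) / 2 *
          ∑ T ∈ (PN Y t).powerset, ((SS1 Y t T).ncard : ℝ)) := by ring
      _ ≤ 2 * (2 ^ (PN Y t).card * ((R + 1) * (PQ (WY Y) Q).card)) := by linarith
      _ = _ := by ring
  exact le_of_mul_le_mul_left h3 hPQ'

end Pool.Agent.Y676
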