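import Pool.Agent.Y676.Pos

/-!
# For almost all curves the proportion of the good sign patterns is positive: the counting
-/

set_option autoImplicit false

namespace Pool.Agent.Y676

open Finset
open Pool.Agent.Y157.SH (lf Nn_eq)

/-- the proportion of the good patterns is at least `c` -/
def Pst (Y : ℕ) (c : ℝ) (t : ℤ × ℤ) : Prop := c * 2 ^ (PN Y t).card ≤
  (((PN Y t).powerset.filter (fun T => (SS1 Y t T).ncard = 1)).card : ℝ)

/-- the number of the primes larger than `y` -/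
lemma large_cnt {X y K : ℕ} (hX : 2 ≤ X) {t : ℤ × ℤ} (ht : t ∈ Bx X)
    (hy : X < (y + 1) ^ K) (P : Finset ℕ) (hP : ∀ l ∈ P, l.Prime ∧ l ∣ Nn t ∧ y < l) :
    P.card ≤ 4 * K := by
  have h1 : ∏ l ∈ P, l ≤ X ^ 4 :=
    (Nat.le_of_dvd (Nat.pos_of_ne_zero (Nn_ne ht)) (sub_dvd (fun l hl => (hP l hl).1)
      fun l hl => (hP l hl).2.1)).trans (Nn_le hX ht)
  have h2 : (y + 1) ^ P.card ≤ ∏ l ∈ P, l := by
    rw [← prod_const]
    exact prod_le_prod' fun l hl => (hP l hl).2.2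
  by_contra hcon
  push Not at hcon
  have h3 : X ^ P.card ≤ ((y + 1) ^ P.card) ^ K := by
    rw [← pow_mul, mul_comm, pow_mul]
    exact Nat.pow_le_pow_left hy.le _
  have h4 : ((y + 1) ^ P.card) ^ K ≤ (X ^ 4) ^ K := Nat.pow_le_pow_left (h2.trans h1) K
  have h5 : X ^ P.card ≤ X ^ (4 * K) := by
    rw [pow_mul]
    exact h3.trans h4
  have h6 := (Nat.pow_le_pow_iff_right (by omega : 1 < X)).1 h5
  omega

open Classical in
/-- **For almost all curves the proportion of the good sign patterns is positive.** -/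
theorem pos_count (hkey : S_KEY) (hmom : S_MOM) (ε : ℝ) (hε : 0 < ε) : ∃ Y0 : ℕ, 2 ≤ Y0 ∧
    ∀ Y : ℕ, Y0 ≤ Y → ∃ c : ℝ, 0 < c ∧ ∃ X0 : ℕ, ∀ X : ℕ, X0 ≤ X →
    (((Bx X).filter (fun t => ¬ Pst Y c t)).card : ℝ) ≤ ε * (X : ℝ) ^ 2 := by
  obtain ⟨Y0, hY02, hbox⟩ := box_all 1 (ε / 3) (by positivity)
  refine ⟨Y0, hY02, fun Y hYY => ?_⟩
  have hY : 2 ≤ Y := hY02.trans hYY
  obtain ⟨X1, hX1⟩ := hbox Y hYY
  obtain ⟨cJ, hcJ, hp2⟩ := p2_count hkey Y hY
  obtain ⟨K, hK1, X2, hX2⟩ := hp2 (ε / 3) (by positivity)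
  obtain ⟨C, hC, hm⟩ := hmom
  have hW0 : 0 < WY Y := by unfold WY; have := Nat.factorial_pos Y; positivity
  obtain ⟨c', Q0, hc', hpnt⟩ := Pool.Agent.Y157.SH.pnt (WY Y) hW0
  obtain ⟨R, hR⟩ : ∃ R : ℝ, R = 3 * C / ε + 1 := ⟨_, rfl⟩
  have hR0 : 1 ≤ R := by
    rw [hR]
    have : 0 ≤ 3 * C / ε := by positivity
    linarith
  obtain ⟨ρ, hρ⟩ := exists_nat_ge (9 / cJ)
  obtain ⟨N, hN⟩ := exists_nat_ge (2 * (2 * (R + 1)))
  refine ⟨1 / (2 * cn ρ (4 * K) N), by have := cn_ge ρ (4 * K) N; positivity, ?_⟩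
  have tL : Filter.Tendsto (fun X : ℕ => Real.log (X : ℝ)) Filter.atTop Filter.atTop :=
    Real.tendsto_log_atTop.comp tendsto_natCast_atTop_atTop
  obtain ⟨X3, hX3⟩ := Filter.eventually_atTop.1 ((tL.eventually_ge_atTop 3).and
    (tL.eventually_ge_atTop (Q0 + 2)))
  refine ⟨X1 + X2 + X3 + 3, fun X hX => ?_⟩
  obtain ⟨a1, a2⟩ := hX3 X (by omega)
  have hXX : 2 ≤ X := by omega
  -- the parameters
  obtain ⟨Q, hQ⟩ : ∃ Q : ℕ, Q = ⌈(Real.log X) ^ (CE 1)⌉₊ := ⟨_, rfl⟩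
  have hQL : (Real.log X) ^ (CE 1) ≤ Q := by rw [hQ]; exact Nat.le_ceil _
  have hQL2 : (Real.log X) ^ (CE 1) ≤ 2 * Q := by
    have : (0 : ℝ) ≤ Q := Nat.cast_nonneg _
    linarith
  have hQQ : (Q0 : ℝ) + 2 ≤ Q := by
    have e1 : Real.log X ≤ (Real.log X) ^ (CE 1) := le_self_pow₀ (by linarith) (by unfold CE; omega)
    linarith
  have hQ0 : Q0 ≤ Q := by
    have : (Q0 : ℝ) ≤ Q := by linarith
    exact_mod_cast this
  have hPQ : 0 < (PQ (WY Y) Q).card := by
    have h1 := hpnt Q hQ0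
    have h2 : 0 < c' * Q / Real.log Q := by
      have h3 : (2 : ℝ) ≤ Q := by
        have : (0 : ℝ) ≤ Q0 := Nat.cast_nonneg _
        linarith
      have : 0 < Real.log Q := Real.log_pos (by linarith)
      positivity
    have h4 : (0 : ℝ) < (PQ (WY Y) Q).card := lt_of_lt_of_le h2 h1
    exact_mod_cast h4
  have hLL : 1 ≤ Real.log (Real.log X) := by
    have h1 : Real.log (Real.exp 1) ≤ Real.log (Real.log X) := by
      apply Real.log_le_log (Real.exp_pos 1)
      have := Real.exp_one_lt_d9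
      linarith
    rwa [Real.log_exp] at h1
  obtain ⟨J, hJ⟩ : ∃ J : ℕ, J = ⌊cJ * Real.log (Real.log X)⌋₊ := ⟨_, rfl⟩
  have hJ1 : (J : ℝ) ≤ cJ * Real.log (Real.log X) := by
    rw [hJ]
    exact Nat.floor_le (by positivity)
  have hJ2 : cJ * Real.log (Real.log X) < J + 1 := by
    rw [hJ]
    exact Nat.lt_floor_add_one _
  set y := Nat.findGreatest (fun u => u ^ K ≤ X) X with hy
  have hyK : y ^ K ≤ X :=
    Nat.findGreatest_spec (P := fun u => u ^ K ≤ X) (Nat.zero_le _)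
      (by rw [zero_pow (by omega)]; exact Nat.zero_le _)
  have hyK1 : X < (y + 1) ^ K := by
    by_contra hcon
    push Not at hcon
    have h1 : y + 1 ≤ X := (Nat.le_self_pow (by omega) (y + 1)).trans hcon
    have h2 := Nat.le_findGreatest (P := fun u => u ^ K ≤ X) h1 hcon
    rw [← hy] at h2
    omega
  -- the exceptional sets
  have c1 : (((Bx X).filter (fun t => ¬ GT Y X Q (one1 t))).card : ℝ) ≤ ε / 3 * (X : ℝ) ^ 2 := by
    have h1 := hX1 X (by omega) Q hQL2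
    rw [mul_one] at h1
    refine le_trans ?_ h1
    have h2 : ((Bx X).filter (fun t => ¬ GT Y X Q (one1 t))).card ≤
        ((TB 1 X).filter (fun t => ¬ GT Y X Q t)).card := by
      apply card_le_card_of_injOn one1
      · intro t ht
        rw [mem_coe, mem_filter] at ht
        rw [mem_coe, mem_filter, mem_TB_one]
        exact ht
      · intro t _ t' _ h
        exact congrFun h 0
    exact_mod_cast h2
  have c2 := hX2 X (by omega) J hJ1 y hyK
  have c3 : (((Bx X).filter (fun t => ¬ (∑ q ∈ PQ (WY Y) Q,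
      ((InT ((q : ℤ) * t.1) ((q : ℤ) * t.2)).ncard : ℝ) ≤ R * (PQ (WY Y) Q).card))).card : ℝ) ≤
      ε / 3 * (X : ℝ) ^ 2 := by
    set F : ℤ × ℤ → ℝ := fun t => ∑ q ∈ PQ (WY Y) Q,
      ((InT ((q : ℤ) * t.1) ((q : ℤ) * t.2)).ncard : ℝ) with hF
    have hF0 : ∀ t, 0 ≤ F t := fun t => sum_nonneg fun _ _ => Nat.cast_nonneg _
    have h1 : ∑ t ∈ Bx X, F t ≤ (PQ (WY Y) Q).card * (C * (X : ℝ) ^ 2) := by
      rw [hF, sum_comm, ← nsmul_eq_mul, ← sum_const]
      exact sum_le_sum fun q hq => (hm X q (by omega) (PQ_pr hq)).2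
    have hPQ' : (0 : ℝ) < (PQ (WY Y) Q).card := by exact_mod_cast hPQ
    have h2 : (((Bx X).filter (fun t => ¬ F t ≤ R * (PQ (WY Y) Q).card)).card : ℝ) *
        (R * (PQ (WY Y) Q).card) ≤ (PQ (WY Y) Q).card * (C * (X : ℝ) ^ 2) := by
      refine le_trans ?_ h1
      calc _ = ∑ _t ∈ (Bx X).filter (fun t => ¬ F t ≤ R * (PQ (WY Y) Q).card),
            (R * (PQ (WY Y) Q).card) := by rw [sum_const, nsmul_eq_mul]
        _ ≤ ∑ t ∈ (Bx X).filter (fun t => ¬ F t ≤ R * (PQ (WY Y) Q).card), F t := by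
            apply sum_le_sum
            intro t ht
            exact (not_le.1 (mem_filter.1 ht).2).le
        _ ≤ ∑ t ∈ Bx X, F t :=
            sum_le_sum_of_subset_of_nonneg (filter_subset _ _) fun _ _ _ => hF0 _
    have h3 : (((Bx X).filter (fun t => ¬ F t ≤ R * (PQ (WY Y) Q).card)).card : ℝ) * R ≤
        C * (X : ℝ) ^ 2 := by
      have h4 : (PQ (WY Y) Q).card * ((((Bx X).filter (fun t => ¬ F t ≤
          R * (PQ (WY Y) Q).card)).card : ℝ) * R) ≤ (PQ (WY Y) Q).card * (C * (X : ℝ) ^ 2) := by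
        refine le_trans (le_of_eq ?_) h2
        ring
      exact le_of_mul_le_mul_left h4 hPQ'
    have h4 : C ≤ ε / 3 * R := by
      rw [hR]
      have : ε / 3 * (3 * C / ε + 1) = C + ε / 3 := by field_simp
      rw [this]
      linarith
    have h5 : C * (X : ℝ) ^ 2 ≤ (ε / 3 * (X : ℝ) ^ 2) * R := by
      have : (0 : ℝ) ≤ (X : ℝ) ^ 2 := by positivity
      nlinarith
    exact le_of_mul_le_mul_right (h3.trans h5) (by linarith)
  have hsub : (Bx X).filter (fun t => ¬ Pst Y (1 / (2 * cn ρ (4 * K) N)) t) ⊆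
      ((Bx X).filter (fun t => ¬ GT Y X Q (one1 t))) ∪
      (((Bx X).filter (fun t => Ty2 Y t.1 t.2 ∧ Sht Y J y t)) ∪
      ((Bx X).filter (fun t => ¬ (∑ q ∈ PQ (WY Y) Q,
      ((InT ((q : ℤ) * t.1) ((q : ℤ) * t.2)).ncard : ℝ) ≤ R * (PQ (WY Y) Q).card)))) := by
    intro t ht
    rw [mem_filter] at ht
    obtain ⟨hB, hn⟩ := ht
    by_contra hcon
    rw [mem_union, mem_union, mem_filter, mem_filter, mem_filter] at hcon
    push Not at hcon
    obtain ⟨k1, k2, k3⟩ := hcon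
    have hG := k1 hB
    have hS := k2 hB (hG.ty2 0)
    have hA := k3 hB
    apply hn
    have hNn := Nn_ne hB
    have havg := avg_pat hB hG hPQ R (fun q hq => (hm X q (by omega) (PQ_pr hq)).1 t hB) hA
    have hsml : (2 : ℝ) ^ (PN Y t).card ≤ (Real.log X) ^ 6 := by
      have := hG.sml
      rw [PP_one] at this
      exact this
    have hcard : (PN Y t).card ≤ ρ * (J + 1) := by
      have h1 : (PN Y t).card * Real.log 2 ≤ 6 * Real.log (Real.log X) := by
        have h2 := Real.log_le_log (by positivity) hsml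
        rw [Real.log_pow, Real.log_pow] at h2
        exact_mod_cast h2
      have h2 : ((PN Y t).card : ℝ) ≤ 9 * Real.log (Real.log X) := by
        have h3 := Real.log_two_gt_d9
        have h4 : (0 : ℝ) ≤ (PN Y t).card := Nat.cast_nonneg _
        nlinarith
      have h3 : 9 * Real.log (Real.log X) ≤ ρ * (J + 1) := by
        rw [div_le_iff₀ hcJ] at hρ
        have h4 : 9 * Real.log (Real.log X) ≤ (ρ * cJ) * Real.log (Real.log X) := by gcongr
        have h5 : (ρ : ℝ) * (cJ * Real.log (Real.log X)) ≤ ρ * (J + 1) :=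
          mul_le_mul_of_nonneg_left hJ2.le (Nat.cast_nonneg _)
        linarith
      have h4 : ((PN Y t).card : ℝ) ≤ ((ρ * (J + 1) : ℕ) : ℝ) := by
        push_cast
        linarith
      exact_mod_cast h4
    have hM : ((PN Y t).filter (fun l => y < l)).card ≤ 4 * K := by
      apply large_cnt hXX hB hyK1
      intro l hl
      rw [mem_filter, mem_PN hNn] at hl
      exact ⟨hl.1.1, dvd_Nn.2 hl.1.2.2, hl.2⟩
    have key := pos_of hY hNn (2 * (R + 1)) J y ρ (4 * K) N hM hcard hN hS havg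
    unfold Pst
    have hcn : 0 < 2 * cn ρ (4 * K) N := by have := cn_ge ρ (4 * K) N; positivity
    rw [div_mul_eq_mul_div, one_mul, div_le_iff₀ hcn, mul_comm]
    exact key
  have h1 := card_le_card hsub
  have h2 := h1.trans ((card_union_le _ _).trans (Nat.add_le_add_left (card_union_le _ _) _))
  have h3 : (((Bx X).filter (fun t => ¬ Pst Y (1 / (2 * cn ρ (4 * K) N)) t)).card : ℝ) ≤
      (((Bx X).filter (fun t => ¬ GT Y X Q (one1 t))).card : ℝ) +
      ((((Bx X).filter (fun t => Ty2 Y t.1 t.2 ∧ Sht Y J y t)).card : ℝ) +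
      (((Bx X).filter (fun t => ¬ (∑ q ∈ PQ (WY Y) Q,
      ((InT ((q : ℤ) * t.1) ((q : ℤ) * t.2)).ncard : ℝ) ≤
        R * (PQ (WY Y) Q).card))).card : ℝ)) := by
    exact_mod_cast h2
  refine h3.trans ?_
  linarith

end Pool.Agent.Y676
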