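import Pool.Agent.Y676.Tw
import Pool.Agent.W839.SH.Desc5

/-!
# The 2-Selmer group of the twist by a good prime has at most four elements
-/

set_option autoImplicit false

namespace Pool.Agent.Y676

open Pool.Agent.W307.SE (Loc)
open Pool.Agent.W262.RK (dv sgn sg0 LL LocH)

section

variable {K : Type} [Field K]

lemma sq_mul_trans {a b c : K} (hb : b ≠ 0) (h1 : IsSquare (a * b)) (h2 : IsSquare (b * c)) :
    IsSquare (a * c) := by
  obtain ⟨u, hu⟩ := h1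
  obtain ⟨v, hv⟩ := h2
  refine ⟨u * v / b, ?_⟩
  rw [div_mul_div_comm, eq_div_iff (mul_ne_zero hb hb)]
  calc a * c * (b * b) = (a * b) * (b * c) := by ring
    _ = _ := by rw [hu, hv]; ring

lemma loc_cls [CharZero K] {A B d1 d2 d1' d2' : ℤ} (h1 : d1 ≠ 0) (h2 : d2 ≠ 0)
    (s1 : IsSquare (d1 * d1')) (s2 : IsSquare (d2 * d2')) (h : Loc K A B d1 d2) :
    Loc K A B d1' d2' := by
  obtain ⟨x, y, hy, hxy, t1, t2⟩ := h
  have k1 : (d1 : K) ≠ 0 := by exact_mod_cast h1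
  have k2 : (d2 : K) ≠ 0 := by exact_mod_cast h2
  have r1 : IsSquare ((d1 : K) * d1') := by
    have := s1.map (Int.castRingHom K)
    simpa using this
  have r2 : IsSquare ((d2 : K) * d2') := by
    have := s2.map (Int.castRingHom K)
    simpa using this
  exact ⟨x, y, hy, hxy, sq_mul_trans k1 t1 r1, sq_mul_trans k2 t2 r2⟩

variable {A B d1 d2 : ℤ}

lemma loc_ne {x y : K} (hy : y ≠ 0) (h : y ^ 2 = x * (x - A) * (x - B)) :
    x ≠ 0 ∧ x - A ≠ 0 ∧ x - B ≠ 0 := by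
  have hn : x * (x - A) * (x - B) ≠ 0 := by rw [← h]; exact pow_ne_zero 2 hy
  exact ⟨left_ne_zero_of_mul (left_ne_zero_of_mul hn),
    right_ne_zero_of_mul (left_ne_zero_of_mul hn), right_ne_zero_of_mul hn⟩

lemma loc_add1 (hA : (A : K) ≠ 0) (hB : (B : K) ≠ 0) (h : Loc K A B d1 d2) :
    Loc K A B (d1 * (A * B)) (d2 * (-A)) := by
  obtain ⟨x, y, hy, hxy, ⟨u, hu⟩, ⟨v, hv⟩⟩ := h
  obtain ⟨n1, n2, n3⟩ := loc_ne hy hxy
  refine ⟨A * B / x, A * B * y / x ^ 2, div_ne_zero (mul_ne_zero (mul_ne_zero hA hB) hy)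
    (pow_ne_zero 2 n1), ?_, ⟨A * B * u / x, ?_⟩, ⟨A * (y * v) / (x * (x - A)), ?_⟩⟩
  · rw [div_pow, mul_pow, hxy]
    field_simp
    ring
  · push_cast
    field_simp
    linear_combination hu
  · have e1 : (A : K) * B / x - A = A * (B - x) / x := by field_simp
    rw [e1, div_mul_div_comm, div_mul_eq_mul_div, div_eq_div_iff n1
      (mul_ne_zero (mul_ne_zero n1 n2) (mul_ne_zero n1 n2))]
    push_cast
    linear_combination (-(A : K) ^ 2 * v ^ 2 * x) * hxy +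
      (A : K) ^ 2 * x ^ 2 * (x - A) * (x - B) * hv

lemma loc_add2 (hA : (A : K) ≠ 0) (hAB : (A : K) - B ≠ 0) (h : Loc K A B d1 d2) :
    Loc K A B (d1 * A) (d2 * (A * (A - B))) := by
  obtain ⟨x, y, hy, hxy, ⟨u, hu⟩, ⟨v, hv⟩⟩ := h
  obtain ⟨n1, n2, n3⟩ := loc_ne hy hxy
  have e1 : (A : K) * (x - B) / (x - A) - A = A * (A - B) / (x - A) := by
    field_simp
    ring
  have e2 : (A : K) * (x - B) / (x - A) - B = x * (A - B) / (x - A) := by
    field_simp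
    ring
  refine ⟨A * (x - B) / (x - A), A * (A - B) * y / (x - A) ^ 2,
    div_ne_zero (mul_ne_zero (mul_ne_zero hA hAB) hy) (pow_ne_zero 2 n2), ?_,
    ⟨A * (y * u) / (x * (x - A)), ?_⟩, ⟨A * (A - B) * v / (x - A), ?_⟩⟩
  · rw [e1, e2, div_pow, mul_pow, hxy]
    field_simp
  · rw [div_mul_div_comm, div_mul_eq_mul_div, div_eq_div_iff n2
      (mul_ne_zero (mul_ne_zero n1 n2) (mul_ne_zero n1 n2))]
    push_cast
    linear_combination (-(A : K) ^ 2 * u ^ 2 * (x - A)) * hxy +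
      (A : K) ^ 2 * x * (x - A) ^ 2 * (x - B) * hu
  · rw [e1]
    push_cast
    field_simp
    linear_combination hv

lemma loc_add3 (hB : (B : K) ≠ 0) (hAB : (A : K) - B ≠ 0) (h : Loc K A B d1 d2) :
    Loc K A B (d1 * B) (d2 * (B - A)) := by
  obtain ⟨x, y, hy, hxy, ⟨u, hu⟩, ⟨v, hv⟩⟩ := h
  obtain ⟨n1, n2, n3⟩ := loc_ne hy hxy
  have hBA : (B : K) - A ≠ 0 := fun h => hAB (by linear_combination -h)
  have e1 : (B : K) * (x - A) / (x - B) - A = x * (B - A) / (x - B) := by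
    field_simp
    ring
  have e2 : (B : K) * (x - A) / (x - B) - B = B * (B - A) / (x - B) := by
    field_simp
    ring
  refine ⟨B * (x - A) / (x - B), B * (B - A) * y / (x - B) ^ 2,
    div_ne_zero (mul_ne_zero (mul_ne_zero hB hBA) hy) (pow_ne_zero 2 n3), ?_,
    ⟨B * (y * u) / (x * (x - B)), ?_⟩, ⟨(B - A) * (y * v) / ((x - A) * (x - B)), ?_⟩⟩
  · rw [e1, e2, div_pow, mul_pow, hxy]
    field_simp
  · rw [div_mul_div_comm, div_mul_eq_mul_div, div_eq_div_iff n3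
      (mul_ne_zero (mul_ne_zero n1 n3) (mul_ne_zero n1 n3))]
    push_cast
    linear_combination (-(B : K) ^ 2 * u ^ 2 * (x - B)) * hxy +
      (B : K) ^ 2 * x * (x - A) * (x - B) ^ 2 * hu
  · rw [e1, div_mul_div_comm, div_mul_eq_mul_div, div_eq_div_iff n3
      (mul_ne_zero (mul_ne_zero n2 n3) (mul_ne_zero n2 n3))]
    push_cast
    linear_combination (-((B : K) - A) ^ 2 * v ^ 2 * (x - B)) * hxy +
      ((B : K) - A) ^ 2 * x * (x - A) * (x - B) ^ 2 * hv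

end

/-- the class of a torsion point of `y² = x (x - A) (x - B)` -/
def TT (A B : ℤ) (v w : Bool) : ℤ × ℤ :=
  if v then (if w then (B, B - A) else (A, A * (A - B))) else
    (if w then (A * B, -A) else (1, 1))

lemma loc_TT {K : Type} [Field K] {A B d1 d2 : ℤ} (hA : (A : K) ≠ 0) (hB : (B : K) ≠ 0)
    (hAB : (A : K) - B ≠ 0) (h : Loc K A B d1 d2) (v w : Bool) :
    Loc K A B (d1 * (TT A B v w).1) (d2 * (TT A B v w).2) := by
  unfold TT
  cases v <;> cases w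
  · simpa using h
  · exact loc_add1 hA hB h
  · exact loc_add2 hA hAB h
  · exact loc_add3 hB hAB h

lemma exists_rep' (n : ℤ) (hn : n ≠ 0) : ∃ e : ℤ, Squarefree e ∧ IsSquare (n * e) := by
  obtain ⟨e, he, hs⟩ := Pool.Agent.W214.RK2.exists_rep (n : ℚ) (by exact_mod_cast hn)
  refine ⟨e, he, ?_⟩
  have : IsSquare (((n * e : ℤ)) : ℚ) := by push_cast; exact hs
  exact Rat.isSquare_intCast_iff.mp this

/-- translation of a Selmer class by a torsion point -/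
lemma sel_TT {A B : ℤ} (hA : A ≠ 0) (hB : B ≠ 0) (hAB : A - B ≠ 0) {e : ℤ × ℤ}
    (he : InSel A B e) (v w : Bool) : ∃ f : ℤ × ℤ, InSel A B f ∧
      IsSquare (e.1 * (TT A B v w).1 * f.1) ∧ IsSquare (e.2 * (TT A B v w).2 * f.2) := by
  have ht : (TT A B v w).1 ≠ 0 ∧ (TT A B v w).2 ≠ 0 := by
    unfold TT
    have hBA : B - A ≠ 0 := fun h => hAB (by omega)
    cases v <;> cases w <;> simp [hA, hB, hAB, hBA]
  have n1 := mul_ne_zero he.sq1.ne_zero ht.1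
  have n2 := mul_ne_zero he.sq2.ne_zero ht.2
  obtain ⟨f1, hf1, s1⟩ := exists_rep' _ n1
  obtain ⟨f2, hf2, s2⟩ := exists_rep' _ n2
  refine ⟨(f1, f2), ⟨hf1, hf2, ?_, fun p hp => ?_⟩, s1, s2⟩
  · exact loc_cls n1 n2 s1 s2 (loc_TT (by exact_mod_cast hA) (by exact_mod_cast hB)
      (by exact_mod_cast hAB) he.re v w)
  · exact loc_cls n1 n2 s1 s2 (loc_TT (by exact_mod_cast hA) (by exact_mod_cast hB)
      (by exact_mod_cast hAB) (he.lo p) v w)

lemma nd_of_sq {q : ℤ} (hq : Prime q) {m d : ℤ} (hm : ¬ q ∣ m) (hd : Squarefree d)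
    (h : IsSquare (q ^ 2 * m * d)) : ¬ q ∣ d := by
  rintro ⟨u, rfl⟩
  have hu : ¬ q ∣ u := by
    rintro ⟨w, rfl⟩
    exact hq.not_isUnit (hd q ⟨w, by ring⟩)
  obtain ⟨r, hr⟩ := h
  have h1 : q ∣ r * r := ⟨q * m * (q * u), by rw [← hr]; ring⟩
  obtain ⟨r', rfl⟩ := (hq.dvd_or_dvd h1).elim id id
  have h2 : q * (m * u) = r' * r' := by
    have h3 : q ^ 2 * (q * (m * u)) = q ^ 2 * (r' * r') := by linear_combination hr
    exact mul_left_cancel₀ (pow_ne_zero 2 hq.ne_zero) h3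
  have h4 : q ∣ r' * r' := ⟨_, h2.symm⟩
  obtain ⟨t, rfl⟩ := (hq.dvd_or_dvd h4).elim id id
  have h5 : m * u = q * (t * t) := by
    have h6 : q * (m * u) = q * (q * (t * t)) := by linear_combination h2
    exact mul_left_cancel₀ hq.ne_zero h6
  have h7 : q ∣ m * u := ⟨_, h5⟩
  exact (hq.dvd_or_dvd h7).elim hm hu

lemma nd_of_sq' {q : ℤ} (hq : Prime q) {m d : ℤ} (hm : ¬ q ∣ m) (hd : Squarefree d)
    (h : IsSquare (m * d)) : ¬ q ∣ d := by
  apply nd_of_sq hq hm hd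
  obtain ⟨r, hr⟩ := h
  exact ⟨q * r, by linear_combination q ^ 2 * hr⟩

/-- **the Selmer classes are the classes of the torsion points** -/
theorem sel_cls {Y : ℕ} {A B : ℤ} (hY : 2 ≤ Y) (h1 : Ty1 Y A B)
    {s : ℕ → Bool} (hs : ∀ e, InS Y A B s e → e = (1, 1)) {q : ℕ} (hq : GoodQ Y A B s q)
    {e : ℤ × ℤ} (he : InSel ((q : ℤ) * A) ((q : ℤ) * B) e) :
    IsSquare (e.1 * (TT (q * A) (q * B) (dv q e.1) (dv q e.2)).1) ∧
    IsSquare (e.2 * (TT (q * A) (q * B) (dv q e.1) (dv q e.2)).2) := by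
  have hqi : Prime (q : ℤ) := Nat.prime_iff_prime_int.1 hq.pr
  have hq0 : (q : ℤ) ≠ 0 := hqi.ne_zero
  have hnd := hq.nd
  have hN : A * B * (A - B) ≠ 0 := fun h => hnd (by rw [h]; exact dvd_zero _)
  have hA : A ≠ 0 := left_ne_zero_of_mul (left_ne_zero_of_mul hN)
  have hB : B ≠ 0 := right_ne_zero_of_mul (left_ne_zero_of_mul hN)
  have hAB : A - B ≠ 0 := right_ne_zero_of_mul hN
  have dA : ¬ (q : ℤ) ∣ A := fun h => hnd ((h.mul_right _).mul_right _)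
  have dB : ¬ (q : ℤ) ∣ B := fun h => hnd ((h.mul_left _).mul_right _)
  have dAB : ¬ (q : ℤ) ∣ A - B := fun h => hnd (h.mul_left _)
  have dBA : ¬ (q : ℤ) ∣ B - A := fun h => dAB (by
    have : A - B = -(B - A) := by ring
    rw [this]
    exact (dvd_neg).2 h)
  have nd : ∀ {u v : ℤ}, ¬ (q : ℤ) ∣ u → ¬ (q : ℤ) ∣ v → ¬ (q : ℤ) ∣ u * v := by
    intro u v hu hv h
    exact (hqi.dvd_or_dvd h).elim hu hv
  have e3 : (q : ℤ) * A - q * B ≠ 0 := by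
    rw [← mul_sub]
    exact mul_ne_zero hq0 hAB
  obtain ⟨f, hf, s1, s2⟩ := sel_TT (mul_ne_zero hq0 hA) (mul_ne_zero hq0 hB) e3 he
    (dv q e.1) (dv q e.2)
  obtain ⟨t1, u1, ht1, d1, n1, r1, -⟩ := rep_sqf hq.pr he.sq1
  obtain ⟨t2, u2, ht2, d2, n2, r2, -⟩ := rep_sqf hq.pr he.sq2
  have key : ¬ (q : ℤ) ∣ f.1 ∧ ¬ (q : ℤ) ∣ f.2 := by
    rw [d1, d2] at s1 s2
    rw [r1] at s1
    rw [r2] at s2
    have nn : ∀ {u : ℤ}, ¬ (q : ℤ) ∣ u → ¬ (q : ℤ) ∣ -u := fun h h' => h ((dvd_neg).1 h')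
    interval_cases t1 <;> interval_cases t2
    · change IsSquare ((q : ℤ) ^ 0 * u1 * 1 * f.1) at s1
      change IsSquare ((q : ℤ) ^ 0 * u2 * 1 * f.2) at s2
      rw [pow_zero, one_mul, mul_one] at s1 s2
      exact ⟨nd_of_sq' hqi n1 hf.sq1 s1, nd_of_sq' hqi n2 hf.sq2 s2⟩
    · change IsSquare ((q : ℤ) ^ 0 * u1 * (q * A * (q * B)) * f.1) at s1
      change IsSquare ((q : ℤ) ^ 1 * u2 * (-(q * A)) * f.2) at s2
      rw [show (q : ℤ) ^ 0 * u1 * (q * A * (q * B)) * f.1 = (q : ℤ) ^ 2 * (u1 * (A * B)) * f.1 by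
        ring] at s1
      rw [show (q : ℤ) ^ 1 * u2 * (-(q * A)) * f.2 = (q : ℤ) ^ 2 * (-(u2 * A)) * f.2 by ring] at s2
      exact ⟨nd_of_sq hqi (nd n1 (nd dA dB)) hf.sq1 s1, nd_of_sq hqi (nn (nd n2 dA)) hf.sq2 s2⟩
    · change IsSquare ((q : ℤ) ^ 1 * u1 * (q * A) * f.1) at s1
      change IsSquare ((q : ℤ) ^ 0 * u2 * (q * A * (q * A - q * B)) * f.2) at s2
      rw [show (q : ℤ) ^ 1 * u1 * (q * A) * f.1 = (q : ℤ) ^ 2 * (u1 * A) * f.1 by ring] at s1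
      rw [show (q : ℤ) ^ 0 * u2 * (q * A * (q * A - q * B)) * f.2 =
        (q : ℤ) ^ 2 * (u2 * (A * (A - B))) * f.2 by ring] at s2
      exact ⟨nd_of_sq hqi (nd n1 dA) hf.sq1 s1, nd_of_sq hqi (nd n2 (nd dA dAB)) hf.sq2 s2⟩
    · change IsSquare ((q : ℤ) ^ 1 * u1 * (q * B) * f.1) at s1
      change IsSquare ((q : ℤ) ^ 1 * u2 * (q * B - q * A) * f.2) at s2
      rw [show (q : ℤ) ^ 1 * u1 * (q * B) * f.1 = (q : ℤ) ^ 2 * (u1 * B) * f.1 by ring] at s1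
      rw [show (q : ℤ) ^ 1 * u2 * (q * B - q * A) * f.2 = (q : ℤ) ^ 2 * (u2 * (B - A)) * f.2 by
        ring] at s2
      exact ⟨nd_of_sq hqi (nd n1 dB) hf.sq1 s1, nd_of_sq hqi (nd n2 dBA) hf.sq2 s2⟩
  have h11 := sel_unr hY h1 hs hq hf key.1 key.2
  rw [h11] at s1 s2
  simp only [mul_one] at s1 s2
  exact ⟨s1, s2⟩

/-- **at most four Selmer classes** -/
theorem sel_card {Y : ℕ} {A B : ℤ} (hY : 2 ≤ Y) (h1 : Ty1 Y A B)
    {s : ℕ → Bool} (hs : ∀ e, InS Y A B s e → e = (1, 1)) {q : ℕ} (hq : GoodQ Y A B s q) :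
    {e | InSel ((q : ℤ) * A) ((q : ℤ) * B) e}.Finite ∧
      {e | InSel ((q : ℤ) * A) ((q : ℤ) * B) e}.ncard ≤ 4 := by
  have hqi : Prime (q : ℤ) := Nat.prime_iff_prime_int.1 hq.pr
  have hN : A * B * (A - B) ≠ 0 := fun h => hq.nd (by rw [h]; exact dvd_zero _)
  have hA : (q : ℤ) * A ≠ 0 := mul_ne_zero hqi.ne_zero (left_ne_zero_of_mul (left_ne_zero_of_mul hN))
  have hB : (q : ℤ) * B ≠ 0 := mul_ne_zero hqi.ne_zero (right_ne_zero_of_mul (left_ne_zero_of_mul hN))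
  have hAB : (q : ℤ) * A - q * B ≠ 0 := by
    rw [← mul_sub]
    exact mul_ne_zero hqi.ne_zero (right_ne_zero_of_mul hN)
  have hBA : (q : ℤ) * B - q * A ≠ 0 := fun h => hAB (by omega)
  have ht : ∀ v w, (TT (q * A) (q * B) v w).1 ≠ 0 ∧ (TT (q * A) (q * B) v w).2 ≠ 0 := by
    intro v w
    unfold TT
    cases v <;> cases w
    · exact ⟨one_ne_zero, one_ne_zero⟩
    · exact ⟨mul_ne_zero hA hB, neg_ne_zero.2 hA⟩
    · exact ⟨hA, mul_ne_zero hA hAB⟩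
    · exact ⟨hB, hBA⟩
  have hinj : Set.InjOn (fun e : ℤ × ℤ => (dv q e.1, dv q e.2))
      {e | InSel ((q : ℤ) * A) ((q : ℤ) * B) e} := by
    intro e he f hf hef
    simp only [Prod.mk.injEq] at hef
    obtain ⟨a1, a2⟩ := sel_cls hY h1 hs hq he
    obtain ⟨b1, b2⟩ := sel_cls hY h1 hs hq hf
    rw [← hef.1, ← hef.2] at b1 b2
    obtain ⟨t1, t2⟩ := ht (dv q e.1) (dv q e.2)
    have hsq : ∀ {u v t : ℤ}, t ≠ 0 → IsSquare (u * t) → IsSquare (v * t) →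
        IsSquare ((u : ℚ) * v) := by
      intro u v t ht0 h1 h2
      have ht0' : (t : ℚ) ≠ 0 := by exact_mod_cast ht0
      refine sq_mul_trans ht0' ?_ ?_
      · have := h1.map (Int.castRingHom ℚ)
        simpa using this
      · have := h2.map (Int.castRingHom ℚ)
        rw [mul_comm]
        simpa using this
    exact Prod.ext (Pool.Agent.W839.SH.sqf_eq he.sq1 hf.sq1 (hsq t1 a1 b1))
      (Pool.Agent.W839.SH.sqf_eq he.sq2 hf.sq2 (hsq t2 a2 b2))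
  have hfin : {e | InSel ((q : ℤ) * A) ((q : ℤ) * B) e}.Finite :=
    Set.Finite.of_finite_image (Set.toFinite _) hinj
  refine ⟨hfin, ?_⟩
  rw [← Set.ncard_image_of_injOn hinj]
  refine (Set.ncard_le_ncard (Set.subset_univ _) (Set.toFinite _)).trans ?_
  rw [Set.ncard_univ, Nat.card_eq_fintype_card]
  decide

end Pool.Agent.Y676
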