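import Pool.Agent.Y676.Defs2
import Pool.Agent.Y157.SH.Lsm
import Pool.Agent.Y157.SH.Swj
import Pool.Agent.Y157.SH.Pnt

/-!
# TSM: the good moduli
-/

set_option autoImplicit false

namespace Pool.Agent.Y676.Tsm

open Finset Pool.Agent.Y676

/-- bad at the scale `2 ^ i` -/
def Bd (W : ℕ) (c : ℝ) (i D : ℕ) : Prop := c / 4 * (2 ^ i / i) < |(SJ W (2 ^ i) D : ℝ)|

theorem geo (l : ℕ) (hl : 1 ≤ l) (n : ℕ) :
    (l ≤ 2 ^ n → ∑ i ∈ range n, (if l ≤ 2 ^ i then (1 : ℝ) / 2 ^ i else 0) ≤ 2 / l - 2 / 2 ^ n) ∧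
    (2 ^ n < l → ∑ i ∈ range n, (if l ≤ 2 ^ i then (1 : ℝ) / 2 ^ i else 0) = 0) := by
  induction n with
  | zero =>
    refine ⟨fun h => ?_, fun _ => by simp⟩
    have : l = 1 := by simp at h; omega
    subst this
    simp
  | succ n ih =>
    have hp : (0 : ℝ) < 2 ^ n := by positivity
    have hl0 : (0 : ℝ) < l := by exact_mod_cast hl
    by_cases h : l ≤ 2 ^ n
    · refine ⟨fun _ => ?_, fun h' => ?_⟩
      · rw [sum_range_succ, if_pos h]
        have := ih.1 h
        have e : (2 : ℝ) / 2 ^ (n + 1) = 1 / 2 ^ n := by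
          rw [pow_succ]; field_simp
        have e2 : (2 : ℝ) / 2 ^ n = 1 / 2 ^ n + 1 / 2 ^ n := by ring
        linarith
      · exfalso
        have : 2 ^ n ≤ 2 ^ (n + 1) := Nat.pow_le_pow_right (by norm_num) (by omega)
        omega
    · push Not at h
      have e0 := ih.2 h
      have e1 : ∑ i ∈ range (n + 1), (if l ≤ 2 ^ i then (1 : ℝ) / 2 ^ i else 0) = 0 := by
        rw [sum_range_succ, e0, if_neg (by omega), zero_add]
      refine ⟨fun h' => ?_, fun _ => e1⟩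
      rw [e1]
      have : (l : ℝ) ≤ 2 ^ (n + 1) := by exact_mod_cast h'
      have : (2 : ℝ) / 2 ^ (n + 1) ≤ 2 / l := by
        apply div_le_div_of_nonneg_left (by norm_num) hl0 this
      linarith

theorem geo' (l : ℕ) (hl : 1 ≤ l) (a b : ℕ) :
    ∑ i ∈ Icc a b, (if l ≤ 2 ^ i then (1 : ℝ) / 2 ^ i else 0) ≤ 2 / l := by
  have hl0 : (0 : ℝ) < l := by exact_mod_cast hl
  calc ∑ i ∈ Icc a b, (if l ≤ 2 ^ i then (1 : ℝ) / 2 ^ i else 0)
      ≤ ∑ i ∈ range (b + 1), (if l ≤ 2 ^ i then (1 : ℝ) / 2 ^ i else 0) := by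
        apply sum_le_sum_of_subset_of_nonneg
        · intro i hi
          rw [mem_Icc] at hi
          rw [mem_range]; omega
        · intro i _ _
          split_ifs <;> positivity
    _ ≤ 2 / l := by
        by_cases h : l ≤ 2 ^ (b + 1)
        · have := (geo l hl (b + 1)).1 h
          have h2 : (0 : ℝ) ≤ 2 / 2 ^ (b + 1) := by positivity
          linarith
        · rw [(geo l hl (b + 1)).2 (by omega)]
          positivity

theorem harm (a : ℕ) (ha : 1 ≤ a) (b : ℕ) (hab : a ≤ b) :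
    Real.log (b + 1) - Real.log a ≤ ∑ i ∈ Icc a b, (1 : ℝ) / i := by
  induction b, hab using Nat.le_induction with
  | base =>
    have ha0 : (0 : ℝ) < a := by exact_mod_cast ha
    rw [Icc_self, sum_singleton, ← Real.log_div (by positivity) (by positivity)]
    have := Real.log_le_sub_one_of_pos (x := ((a : ℝ) + 1) / a) (by positivity)
    have e : ((a : ℝ) + 1) / a - 1 = 1 / a := by field_simp; ring
    linarith
  | succ b hab ih =>
    rw [Finset.sum_Icc_succ_top (by omega)]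
    have hb0 : (0 : ℝ) < (b : ℝ) + 1 := by positivity
    have h1 : Real.log ((b : ℝ) + 1 + 1) - Real.log ((b : ℝ) + 1) ≤ 1 / ((b : ℝ) + 1) := by
      rw [← Real.log_div (by positivity) (by positivity)]
      have := Real.log_le_sub_one_of_pos (x := ((b : ℝ) + 1 + 1) / (b + 1)) (by positivity)
      have e : ((b : ℝ) + 1 + 1) / (b + 1) - 1 = 1 / (b + 1) := by field_simp; ring
      linarith
    push_cast
    linarith

theorem split (W Q D : ℕ) (hD : D ≠ 0) :
    ((PQ W Q).card : ℝ) ≤ 2 * ((LS W Q D).card : ℝ) + (SJ W Q D : ℝ) + D.primeFactors.card := by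
  have hz : ((PQ W Q).filter (fun l : ℕ => jacobiSym (l : ℤ) D = 0)).card ≤ D.primeFactors.card := by
    apply card_le_card
    intro l hl
    rw [mem_filter, PQ, mem_filter] at hl
    obtain ⟨⟨_, hp, _⟩, h0⟩ := hl
    have : NeZero D := ⟨hD⟩
    rw [jacobiSym.eq_zero_iff_not_coprime] at h0
    rw [Nat.mem_primeFactors]
    refine ⟨hp, ?_, hD⟩
    have : ¬ Nat.Coprime l D := by
      intro hc
      apply h0
      rw [Int.gcd_natCast_natCast]
      exact hc
    rwa [hp.coprime_iff_not_dvd, not_not] at this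
  have hs : ((PQ W Q).card : ℤ) = 2 * ((LS W Q D).card : ℤ) + SJ W Q D +
      ((PQ W Q).filter (fun l : ℕ => jacobiSym (l : ℤ) D = 0)).card := by
    rw [LS, SJ]
    simp only [card_eq_sum_ones, sum_filter]
    push_cast
    rw [mul_sum, ← sum_add_distrib, ← sum_add_distrib]
    refine sum_congr rfl fun l _ => ?_
    rcases jacobiSym.trichotomy (l : ℤ) D with h | h | h <;> simp [h]
  have hs' : ((PQ W Q).card : ℝ) = 2 * ((LS W Q D).card : ℝ) + (SJ W Q D : ℝ) +
      ((PQ W Q).filter (fun l : ℕ => jacobiSym (l : ℤ) D = 0)).card := by exact_mod_cast hs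
  have hz' : (((PQ W Q).filter (fun l : ℕ => jacobiSym (l : ℤ) D = 0)).card : ℝ) ≤
    D.primeFactors.card := by exact_mod_cast hz
  linarith

theorem card_pf (D N : ℕ) (hD : D ≠ 0) (h : D < 2 ^ (N + 1)) : D.primeFactors.card ≤ N := by
  have h1 : 2 ^ D.primeFactors.card ≤ D := by
    calc 2 ^ D.primeFactors.card = ∏ p ∈ D.primeFactors, 2 := by rw [prod_const]
      _ ≤ ∏ p ∈ D.primeFactors, p := prod_le_prod' fun p hp => (Nat.prime_of_mem_primeFactors hp).two_le
      _ ≤ D := Nat.le_of_dvd (Nat.pos_of_ne_zero hD) (Nat.prod_primeFactors_dvd D)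
  have h2 : 2 ^ D.primeFactors.card < 2 ^ (N + 1) := by omega
  have := (Nat.pow_lt_pow_iff_right (by norm_num : 1 < 2)).mp h2
  omega

/-- the sum over the scales -/
theorem scales (W X D a b : ℕ) (hb : 2 ^ b ≤ X) :
    ∑ i ∈ Icc a b, ((LS W (2 ^ i) D).card : ℝ) / 2 ^ i ≤ 2 * ∑ l ∈ LS W X D, (1 : ℝ) / l := by
  have h1 : ∀ i ∈ Icc a b, ((LS W (2 ^ i) D).card : ℝ) / 2 ^ i =
      ∑ l ∈ LS W X D, (if l ≤ 2 ^ i then (1 : ℝ) / 2 ^ i else 0) := by
    intro i hi
    rw [mem_Icc] at hi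
    have hle : 2 ^ i ≤ X := le_trans (Nat.pow_le_pow_right (by norm_num) hi.2) hb
    have e : LS W (2 ^ i) D = (LS W X D).filter (fun l => l ≤ 2 ^ i) := by
      ext l
      simp only [LS, PQ, mem_filter, mem_Icc]
      constructor
      · rintro ⟨⟨⟨h1, h2⟩, h3, h4⟩, h5⟩
        exact ⟨⟨⟨⟨h1, by omega⟩, h3, h4⟩, h5⟩, h2⟩
      · rintro ⟨⟨⟨⟨h1, _⟩, h3, h4⟩, h5⟩, h2⟩
        exact ⟨⟨⟨h1, h2⟩, h3, h4⟩, h5⟩
    rw [e, ← sum_filter, sum_const, nsmul_eq_mul]
    ring
  rw [sum_congr rfl h1, sum_comm, mul_sum]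
  refine sum_le_sum fun l hl => ?_
  have hl1 : 1 ≤ l := by
    simp only [LS, PQ, mem_filter, mem_Icc] at hl
    exact hl.1.1.1
  have := geo' l hl1 a b
  have e : (2 : ℝ) * (1 / l) = 2 / l := by ring
  rw [e]; exact this

/-- the good moduli -/
theorem good (W : ℕ) (c : ℝ) (hc : 0 < c) (i0 : ℕ)
    (hP : ∀ i : ℕ, i0 ≤ i → c * (2 ^ i / i) ≤ ((PQ W (2 ^ i)).card : ℝ))
    (hG : ∀ i : ℕ, i0 ≤ i → (i : ℝ) ^ 3 * (4 / c) ≤ 2 ^ i)
    (N : ℕ) (hN : i0 ^ 2 ≤ N) (hN1 : 16 ≤ N) (X D : ℕ) (hX : 2 ^ N ≤ X) (hX2 : X < 2 ^ (N + 1))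
    (hD : D ≠ 0) (hDX : D ≤ X)
    (hg : ∀ i ∈ Icc (Nat.sqrt N + 1) N, ¬ Bd W c i D) :
    c / 32 * Real.log N ≤ ∑ l ∈ LS W X D, (1 : ℝ) / l := by
  set s := Nat.sqrt N + 1 with hs
  have hsN : N < s ^ 2 := by
    rw [hs, sq]
    exact Nat.lt_succ_sqrt N
  have hsi : i0 ≤ s := by
    by_contra hcon
    push Not at hcon
    have : s ^ 2 ≤ i0 ^ 2 := Nat.pow_le_pow_left (by omega) 2
    omega
  have hsq : Nat.sqrt N * Nat.sqrt N ≤ N := Nat.sqrt_le N
  have hs4 : 4 ≤ Nat.sqrt N := by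
    rw [Nat.le_sqrt]; omega
  have hsleN : s ≤ N := by nlinarith
  have hS : ∀ i ∈ Icc s N, c / 4 * (1 / i) ≤ ((LS W (2 ^ i) D).card : ℝ) / 2 ^ i := by
    intro i hi
    have hg' := hg i hi
    rw [mem_Icc] at hi
    rw [Bd, not_lt] at hg'
    have h1 := split W (2 ^ i) D hD
    have h2 := hP i (by omega)
    have h3 : (D.primeFactors.card : ℝ) ≤ N := by
      exact_mod_cast card_pf D N hD (by omega)
    have hi0 : (0 : ℝ) < i := by
      have : 0 < i := by omega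
      exact_mod_cast this
    have h4 : (N : ℝ) ≤ c / 4 * (2 ^ i / i) := by
      have h5 := hG i (by omega)
      have h6 : (N : ℝ) ≤ (i : ℝ) ^ 2 := by
        have : N ≤ i ^ 2 := le_trans hsN.le (Nat.pow_le_pow_left hi.1 2)
        exact_mod_cast this
      have h7 : (i : ℝ) ^ 2 ≤ c / 4 * (2 ^ i / i) := by
        have e : (i : ℝ) ^ 2 = c / 4 * ((i : ℝ) ^ 3 * (4 / c) / i) := by
          field_simp
        rw [e]
        apply mul_le_mul_of_nonneg_left _ (by positivity)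
        exact div_le_div_of_nonneg_right h5 hi0.le
      linarith
    have h5 : (SJ W (2 ^ i) D : ℝ) ≤ c / 4 * (2 ^ i / i) := le_trans (le_abs_self _) hg'
    have h6 : c / 4 * (2 ^ i / i) ≤ ((LS W (2 ^ i) D).card : ℝ) := by linarith
    rw [le_div_iff₀ (by positivity)]
    calc c / 4 * (1 / (i : ℝ)) * 2 ^ i = c / 4 * (2 ^ i / i) := by ring
      _ ≤ _ := h6
  have h1 : ∑ i ∈ Icc s N, c / 4 * (1 / (i : ℝ)) ≤ 2 * ∑ l ∈ LS W X D, (1 : ℝ) / l :=
    le_trans (sum_le_sum hS) (scales W X D s N hX)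
  rw [← mul_sum] at h1
  have h2 := harm s (by omega) N hsleN
  have h3 : Real.log s ≤ Real.log 2 + 1 / 2 * Real.log N := by
    have hs2 : (s : ℝ) ≤ 2 * Real.sqrt N := by
      have h4 : (s : ℝ) ^ 2 ≤ (2 * Real.sqrt N) ^ 2 := by
        rw [mul_pow, Real.sq_sqrt (by positivity)]
        have : s ^ 2 ≤ 2 ^ 2 * N := by
          rw [hs]
          nlinarith
        exact_mod_cast this
      exact le_of_sq_le_sq h4 (by positivity)
    have hs0 : (0 : ℝ) < s := by
      have : 0 < s := by omega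
      exact_mod_cast this
    have hN0 : (0 : ℝ) < N := by
      have : 0 < N := by omega
      exact_mod_cast this
    calc Real.log s ≤ Real.log (2 * Real.sqrt N) := Real.log_le_log hs0 hs2
      _ = Real.log 2 + 1 / 2 * Real.log N := by
        rw [Real.log_mul (by norm_num) (by positivity), Real.log_sqrt hN0.le]; ring
  have h4 : Real.log N ≤ Real.log (N + 1) := by
    apply Real.log_le_log
    · have : 0 < N := by omega
      exact_mod_cast this
    · linarith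
  have h5 : 4 * Real.log 2 ≤ Real.log N := by
    have : Real.log ((2 : ℝ) ^ 4) = 4 * Real.log 2 := by rw [Real.log_pow]; norm_num
    rw [← this]
    apply Real.log_le_log (by norm_num)
    have : (2 : ℕ) ^ 4 ≤ N := by omega
    exact_mod_cast this
  have h6 : 1 / 4 * Real.log N ≤ ∑ i ∈ Icc s N, (1 : ℝ) / i := by linarith
  have h7 : c / 4 * (1 / 4 * Real.log N) ≤ 2 * ∑ l ∈ LS W X D, (1 : ℝ) / l :=
    le_trans (mul_le_mul_of_nonneg_left h6 (by positivity)) h1
  linarith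

end Pool.Agent.Y676.Tsm
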