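import Pool.Agent.Y676.Tsm1

/-!
# TSM: counting the bad moduli
-/

set_option autoImplicit false

namespace Pool.Agent.Y676.Tsm

open Finset Pool.Agent.Y676

open Classical in
/-- counting the bad moduli at one scale -/
theorem count (W : ℕ) (h8 : 8 ∣ W) (hW : 0 < W) (c : ℝ) (hc : 0 < c) (N i y : ℕ)
    (hi0 : 0 < i) (hiN : i ≤ N) (hyN : y ≤ N) (hN : N ≤ i ^ 2) (hNc : 144 / c ^ 2 ≤ (N : ℝ))
    (hG : N ^ 32 ≤ 2 ^ i) (hy : 1 ≤ y) :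
    (((Icc 1 (16 ^ y)).filter (fun D => Odd D ∧ Squarefree D ∧ Bd W c i D)).card : ℝ) ≤
      390 * N ^ 4 * 2 ^ y := by
  obtain ⟨m, hm1, hm2, hm3⟩ : ∃ m : ℕ, 1 ≤ m ∧ 8 * y ≤ i * m ∧ i * (m - 1) ≤ 8 * y := by
    refine ⟨(8 * y + i - 1) / i, ?_, ?_, ?_⟩
    · rw [Nat.le_div_iff_mul_le hi0]; omega
    · have h1 := Nat.lt_mul_div_succ (8 * y + i - 1) hi0
      rw [mul_add, mul_one] at h1
      omega
    · have h1 := Nat.mul_div_le (8 * y + i - 1) i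
      rw [Nat.mul_sub, mul_one]
      omega
  have hN1 : 1 ≤ N := by omega
  have hNr : (1 : ℝ) ≤ N := by exact_mod_cast hN1
  have hir : (0 : ℝ) < i := by exact_mod_cast hi0
  have hm9 : m ≤ 9 * N := by
    have h1 : i * (m - 1) ≤ i * (8 * i) := by nlinarith
    have h2 : m - 1 ≤ 8 * i := Nat.le_of_mul_le_mul_left h1 hi0
    omega
  have hlsm := Pool.Agent.Y157.SH.lsm W (2 ^ i) (16 ^ y) m h8 hW
  push_cast at hlsm
  set T : ℝ := c / 4 * (2 ^ i / i) with hT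
  have hT0 : 0 < T := by positivity
  set B := (Icc 1 (16 ^ y)).filter (fun D => Odd D ∧ Squarefree D ∧ Bd W c i D) with hB
  have h1 : (B.card : ℝ) * T ^ (2 * m) ≤
      ∑ D ∈ (Icc 1 (16 ^ y)).filter (fun D => Odd D ∧ Squarefree D),
        |(SJ W (2 ^ i) D : ℝ)| ^ (2 * m) := by
    calc (B.card : ℝ) * T ^ (2 * m) = ∑ D ∈ B, T ^ (2 * m) := by rw [sum_const, nsmul_eq_mul]
      _ ≤ ∑ D ∈ B, |(SJ W (2 ^ i) D : ℝ)| ^ (2 * m) := by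
        refine sum_le_sum fun D hD => ?_
        rw [hB, mem_filter] at hD
        exact pow_le_pow_left₀ hT0.le (le_of_lt hD.2.2.2) _
      _ ≤ _ := by
        apply sum_le_sum_of_subset_of_nonneg
        · intro D hD
          rw [hB, mem_filter] at hD
          rw [mem_filter]
          exact ⟨hD.1, hD.2.1, hD.2.2.1⟩
        · intros; positivity
  have hV : (0 : ℝ) < 2 ^ i := by positivity
  have hZ : ((16 : ℝ) ^ y) ^ 2 ≤ ((2 : ℝ) ^ i) ^ m := by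
    rw [← pow_mul, ← pow_mul]
    have e : (16 : ℝ) ^ (y * 2) = 2 ^ (8 * y) := by
      rw [show (16 : ℝ) = 2 ^ 4 by norm_num, ← pow_mul]; congr 1; ring
    rw [e]
    exact pow_le_pow_right₀ (by norm_num) hm2
  have h2 : (B.card : ℝ) * T ^ (2 * m) ≤ 390 * m.factorial * (((2 : ℝ) ^ i) ^ m * ((2 : ℝ) ^ i) ^ m) := by
    refine le_trans h1 (le_trans hlsm ?_)
    have hf : (0 : ℝ) ≤ m.factorial * ((2 : ℝ) ^ i) ^ m := by positivity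
    calc 6 * (((2 : ℝ) ^ i) ^ m + 64 * ((16 : ℝ) ^ y) ^ 2) * (m.factorial * ((2 : ℝ) ^ i) ^ m)
        ≤ 6 * (((2 : ℝ) ^ i) ^ m + 64 * ((2 : ℝ) ^ i) ^ m) * (m.factorial * ((2 : ℝ) ^ i) ^ m) := by
          apply mul_le_mul_of_nonneg_right _ hf
          linarith
      _ = _ := by ring
  have h3 : T ^ (2 * m) = (((2 : ℝ) ^ i) ^ m * ((2 : ℝ) ^ i) ^ m) * (c ^ 2 / (16 * i ^ 2)) ^ m := by
    rw [hT, pow_mul, ← mul_pow, ← mul_pow]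
    congr 1
    field_simp
    ring
  have hV2 : (0 : ℝ) < ((2 : ℝ) ^ i) ^ m * ((2 : ℝ) ^ i) ^ m := by positivity
  have h4 : (B.card : ℝ) * (c ^ 2 / (16 * i ^ 2)) ^ m ≤ 390 * m.factorial := by
    rw [h3] at h2
    have : (B.card : ℝ) * (c ^ 2 / (16 * i ^ 2)) ^ m * (((2 : ℝ) ^ i) ^ m * ((2 : ℝ) ^ i) ^ m) ≤
      390 * m.factorial * (((2 : ℝ) ^ i) ^ m * ((2 : ℝ) ^ i) ^ m) := by linarith
    exact le_of_mul_le_mul_right this hV2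
  have h5 : (B.card : ℝ) ≤ 390 * m.factorial * (16 * i ^ 2 / c ^ 2) ^ m := by
    have hq : (0 : ℝ) < (c ^ 2 / (16 * i ^ 2)) ^ m := by positivity
    rw [← le_div_iff₀ hq] at h4
    refine le_trans h4 (le_of_eq ?_)
    rw [div_eq_mul_inv, ← inv_pow, inv_div]
  have h6 : (m.factorial : ℝ) ≤ (m : ℝ) ^ m := by exact_mod_cast Nat.factorial_le_pow m
  have h7 : (B.card : ℝ) ≤ 390 * ((m : ℝ) * (16 * i ^ 2 / c ^ 2)) ^ m := by
    refine le_trans h5 ?_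
    rw [mul_pow, ← mul_assoc]
    gcongr
  have h8' : (m : ℝ) * (16 * i ^ 2 / c ^ 2) ≤ (N : ℝ) ^ 4 := by
    have a1 : (m : ℝ) ≤ 9 * N := by exact_mod_cast hm9
    have a2 : (i : ℝ) ≤ N := by exact_mod_cast hiN
    calc (m : ℝ) * (16 * i ^ 2 / c ^ 2) ≤ (9 * N) * (16 * (N : ℝ) ^ 2 / c ^ 2) := by gcongr
      _ = 144 / c ^ 2 * N ^ 3 := by ring
      _ ≤ N * N ^ 3 := by gcongr
      _ = (N : ℝ) ^ 4 := by ring
  have h9 : (B.card : ℝ) ≤ 390 * ((N : ℝ) ^ 4) ^ m := by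
    refine le_trans h7 ?_
    gcongr
  have h10 : ((N : ℝ) ^ 4) ^ (m - 1) ≤ 2 ^ y := by
    have b1 : (((N : ℕ) ^ 4) ^ (m - 1)) ^ 8 ≤ (2 ^ y) ^ 8 := by
      calc ((N ^ 4) ^ (m - 1)) ^ 8 = (N ^ 32) ^ (m - 1) := by
            rw [← pow_mul, ← pow_mul, ← pow_mul]; congr 1; ring
        _ ≤ (2 ^ i) ^ (m - 1) := Nat.pow_le_pow_left hG _
        _ = 2 ^ (i * (m - 1)) := by rw [← pow_mul]
        _ ≤ 2 ^ (8 * y) := Nat.pow_le_pow_right (by norm_num) hm3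
        _ = (2 ^ y) ^ 8 := by rw [← pow_mul]; congr 1; ring
    have b2 : (N ^ 4) ^ (m - 1) ≤ 2 ^ y := (Nat.pow_le_pow_iff_left (by norm_num)).mp b1
    exact_mod_cast b2
  calc (B.card : ℝ) ≤ 390 * ((N : ℝ) ^ 4) ^ m := h9
    _ = 390 * (N ^ 4 * ((N : ℝ) ^ 4) ^ (m - 1)) := by
        rw [← pow_succ', Nat.sub_add_cancel hm1]
    _ ≤ 390 * (N ^ 4 * 2 ^ y) := by gcongr
    _ = _ := by ring

/-- small moduli are never bad -/
theorem small (W : ℕ) (c : ℝ) (hc : 0 < c) (i : ℕ) (N D : ℕ) (hi : 32 ≤ i) (hN : N ≤ i ^ 2)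
    (hD : D ≤ N ^ 24) (hic : 16 / c ≤ i)
    (hS : (D : ℝ) ≤ (Real.log ((2 ^ i : ℕ) : ℝ)) ^ 60 →
      (Real.log ((2 ^ i : ℕ) : ℝ)) ^ 2 * |(SJ W (2 ^ i) D : ℝ)| ≤ ((2 ^ i : ℕ) : ℝ)) :
    ¬ Bd W c i D := by
  have hir : (32 : ℝ) ≤ i := by exact_mod_cast hi
  have hl : (i : ℝ) / 2 ≤ Real.log ((2 ^ i : ℕ) : ℝ) := by
    push_cast
    rw [Real.log_pow]
    have := Real.log_two_gt_d9
    nlinarith
  have hD2 : (D : ℝ) ≤ (Real.log ((2 ^ i : ℕ) : ℝ)) ^ 60 := by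
    have h1 : (D : ℝ) ≤ (i : ℝ) ^ 48 := by
      have : D ≤ i ^ 48 := by
        calc D ≤ N ^ 24 := hD
          _ ≤ (i ^ 2) ^ 24 := Nat.pow_le_pow_left hN _
          _ = i ^ 48 := by rw [← pow_mul]
      exact_mod_cast this
    calc (D : ℝ) ≤ (i : ℝ) ^ 48 := h1
      _ ≤ ((i : ℝ) / 2) ^ 60 := by
        have : (2 : ℝ) ^ 60 ≤ (i : ℝ) ^ 12 := by
          calc (2 : ℝ) ^ 60 = 32 ^ 12 := by norm_num
            _ ≤ (i : ℝ) ^ 12 := by gcongr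
        rw [div_pow, le_div_iff₀ (by positivity)]
        calc (i : ℝ) ^ 48 * 2 ^ 60 ≤ (i : ℝ) ^ 48 * i ^ 12 := by gcongr
          _ = (i : ℝ) ^ 60 := by rw [← pow_add]
      _ ≤ _ := by gcongr
  have h := hS hD2
  rw [Bd, not_lt]
  push_cast at h hl
  have h2 : ((i : ℝ) / 2) ^ 2 * |(SJ W (2 ^ i) D : ℝ)| ≤ 2 ^ i := by
    refine le_trans ?_ h
    gcongr
  have hi0 : (0 : ℝ) < i := by linarith
  have h3 : |(SJ W (2 ^ i) D : ℝ)| ≤ 2 ^ i / ((i : ℝ) / 2) ^ 2 := by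
    rw [le_div_iff₀ (by positivity)]; linarith
  refine le_trans h3 ?_
  rw [div_le_iff₀ (by positivity)]
  have h4 : 16 ≤ c * i := by
    rw [div_le_iff₀ hc] at hic; linarith
  have e : c / 4 * (2 ^ i / (i : ℝ)) * ((i : ℝ) / 2) ^ 2 = 2 ^ i * (c * i / 16) := by
    field_simp; ring
  rw [e]
  have h5 : (1 : ℝ) ≤ c * i / 16 := by linarith
  nlinarith [show (0 : ℝ) < 2 ^ i by positivity]

end Pool.Agent.Y676.Tsm
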