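import Pool.Agent.Y676.Iso

/-!
# Virtual Selmer groups and the flipping lemma
-/

set_option autoImplicit false

namespace Pool.Agent.Y676

open Pool.Agent.W313.BMX (Splits splits_comm splits_mul_sq ram diag even_agree)
open Pool.Agent.W307.SE (Loc)
open Pool.Agent.W262.RK (dv sgn sg0)
open HS

/-- the condition at the prime `p` with the signs `s` -/
def Lc (A B : ℤ) (s : ℕ → Bool) (p : ℕ) (e : ℤ × ℤ) : Prop :=
  ((p : ℤ) ∣ A → dv p e.1 = dv p e.2 ∧ xor (sgn p e.1) (sgn p e.2) = (dv p e.1 && s p)) ∧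
  ((p : ℤ) ∣ B → dv p e.2 = false ∧ sgn p e.2 = (dv p e.1 && s p)) ∧
  ((p : ℤ) ∣ A - B → dv p e.1 = false ∧ sgn p e.1 = (dv p e.2 && s p))

/-- the virtual Selmer group -/
structure InS (Y : ℕ) (A B : ℤ) (s : ℕ → Bool) (e : ℤ × ℤ) : Prop where
  sq1 : Squarefree e.1
  sq2 : Squarefree e.2
  re : Loc ℝ A B e.1 e.2
  sm : ∀ (p : ℕ) [Fact p.Prime], p ≤ Y → Loc ℚ_[p] A B e.1 e.2
  un : ∀ p : ℕ, p.Prime → Y < p → ¬ (p : ℤ) ∣ A * B * (A - B) → ¬ (p : ℤ) ∣ e.1 ∧ ¬ (p : ℤ) ∣ e.2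
  lc : ∀ p : ℕ, p.Prime → Y < p → Lc A B s p e

/-- the bit of `-1` -/
noncomputable def nu (p : ℕ) : Bool := sg0 p (-1)

lemma sg0_pm {p : ℕ} (hp : p.Prime) {u : ℤ} (hu : ¬ (p : ℤ) ∣ u) :
    jacobiSym u p = (if sg0 p u then -1 else 1) := by
  have h1 : jacobiSym u p = 1 ∨ jacobiSym u p = -1 := by
    have hc : u.gcd p = 1 := by
      rw [Int.gcd_comm]
      exact (Int.isCoprime_iff_gcd_eq_one.1
        ((Prime.coprime_iff_not_dvd (Nat.prime_iff_prime_int.1 hp)).2 hu))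
    exact jacobiSym.eq_one_or_neg_one hc
  unfold sg0
  rcases h1 with h | h <;> rw [h] <;> simp

/-- a squarefree integer at the prime `p` -/
lemma rep_sqf {p : ℕ} (hp : p.Prime) {d : ℤ} (hd : Squarefree d) : ∃ (t : ℕ) (u : ℤ),
    t ≤ 1 ∧ (dv p d = decide (t = 1)) ∧ ¬ (p : ℤ) ∣ u ∧ d = (p : ℤ) ^ t * u ∧
      sgn p d = sg0 p u := by
  have hpi : Prime (p : ℤ) := Nat.prime_iff_prime_int.1 hp
  by_cases h : (p : ℤ) ∣ d
  · obtain ⟨u, hu⟩ := h
    have hpu : ¬ (p : ℤ) ∣ u := by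
      rintro ⟨w, rfl⟩
      have h1 : (p : ℤ) * p ∣ d := ⟨w, by rw [hu]; ring⟩
      exact hpi.not_isUnit (hd _ h1)
    refine ⟨1, u, le_rfl, ?_, hpu, by rw [hu]; ring, ?_⟩
    · unfold dv
      simp [hu]
    · unfold sgn
      have hg : Int.gcd d p = p := by
        show Nat.gcd d.natAbs (p : ℤ).natAbs = p
        rw [Int.natAbs_natCast]
        exact Nat.gcd_eq_right (Int.natCast_dvd.1 ⟨u, hu⟩)
      rw [hg, hu, Int.mul_ediv_cancel_left _ hpi.ne_zero]
  · refine ⟨0, d, by omega, ?_, h, by ring, ?_⟩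
    · unfold dv
      simp [h]
    · unfold sgn
      have hg : Int.gcd d p = 1 := by
        rw [Int.gcd_comm]
        exact Int.isCoprime_iff_gcd_eq_one.1 ((Prime.coprime_iff_not_dvd hpi).2 h)
      rw [hg]
      simp

lemma ite_pow (b : Bool) (t : ℕ) (ht : t ≤ 1) :
    ((if b then (-1 : ℤ) else 1)) ^ t = if (b && decide (t = 1)) then -1 else 1 := by
  interval_cases t <;> cases b <;> simp

lemma ite_mul_xor (b c : Bool) : (if b then (-1 : ℤ) else 1) * (if c then (-1 : ℤ) else 1) =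
    if xor b c then -1 else 1 := by
  cases b <;> cases c <;> simp

/-- the symbol in terms of bits -/
lemma splits_bits {p : ℕ} [hp : Fact p.Prime] (hp2 : p ≠ 2) {d f : ℤ} (hd : Squarefree d)
    (hf : Squarefree f) : Splits (d : ℚ_[p]) (f : ℚ_[p]) ↔
      xor (dv p d && dv p f && nu p) (xor (dv p d && sgn p f) (dv p f && sgn p d)) = false := by
  obtain ⟨t, u, ht, hdv, hu, hd', hsg⟩ := rep_sqf hp.out hd
  obtain ⟨t', u', ht', hdv', hu', hf', hsg'⟩ := rep_sqf hp.out hf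
  have h1 : ¬ (p : ℤ) ∣ -1 := Pool.Agent.W215.HB.neg_one_nd
  rw [hdv, hdv', hsg, hsg', hd', hf', Pool.Agent.W215.HB.case_gen hp2 hu hu' t t']
  unfold Pool.Agent.W215.HB.sg
  rw [jacobiSym.legendreSym.to_jacobiSym, jacobiSym.legendreSym.to_jacobiSym,
    jacobiSym.legendreSym.to_jacobiSym, sg0_pm hp.out hu, sg0_pm hp.out hu', sg0_pm hp.out h1,
    ite_pow _ (t * t') (by nlinarith), ite_pow _ t ht, ite_pow _ t' ht', ite_mul_xor,
    ite_mul_xor]
  have e : decide (t * t' = 1) = (decide (t = 1) && decide (t' = 1)) := by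
    interval_cases t <;> interval_cases t' <;> rfl
  rw [e]
  unfold nu
  generalize decide (t = 1) = a
  generalize decide (t' = 1) = b
  generalize sg0 p (-1) = c
  generalize sg0 p u = d'
  generalize sg0 p u' = e'
  revert a b c d' e'
  decide

/-- the pairing at a prime with local conditions -/
lemma pair_lc {p : ℕ} [hp : Fact p.Prime] (hp2 : p ≠ 2) {A B : ℤ} {s s' : ℕ → Bool}
    {e f : ℤ × ℤ} (he1 : Squarefree e.1) (he2 : Squarefree e.2) (hf1 : Squarefree f.1)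
    (hf2 : Squarefree f.2) (he : Lc A B s p e) (hf : Lc A B s' p f)
    (hd : (p : ℤ) ∣ A * B * (A - B)) :
    (Splits (e.1 : ℚ_[p]) (f.2 : ℚ_[p]) ↔ Splits (e.2 : ℚ_[p]) (f.1 : ℚ_[p])) ↔
      ((dv p e.1 || dv p e.2) && (dv p f.1 || dv p f.2) && xor (s p) (s' p)) = false := by
  rw [splits_bits hp2 he1 hf2, splits_bits hp2 he2 hf1]
  have hpi : Prime (p : ℤ) := Nat.prime_iff_prime_int.1 hp.out
  have h3 : (p : ℤ) ∣ A ∨ (p : ℤ) ∣ B ∨ (p : ℤ) ∣ A - B := by
    rcases hpi.dvd_or_dvd hd with h | h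
    · rcases hpi.dvd_or_dvd h with h | h
      · exact Or.inl h
      · exact Or.inr (Or.inl h)
    · exact Or.inr (Or.inr h)
  generalize nu p = n
  rcases h3 with h | h | h
  · obtain ⟨a1, a2⟩ := he.1 h
    obtain ⟨b1, b2⟩ := hf.1 h
    generalize dv p e.1 = x1 at *
    generalize dv p e.2 = x2 at *
    generalize dv p f.1 = y1 at *
    generalize dv p f.2 = y2 at *
    generalize sgn p e.1 = z1 at *
    generalize sgn p e.2 = z2 at *
    generalize sgn p f.1 = w1 at *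
    generalize sgn p f.2 = w2 at *
    generalize s p = σ at *
    generalize s' p = σ' at *
    subst a1 b1
    clear he hf he1 he2 hf1 hf2
    revert n x1 y1 z1 z2 w1 w2 σ σ'
    decide
  · obtain ⟨a1, a2⟩ := he.2.1 h
    obtain ⟨b1, b2⟩ := hf.2.1 h
    rw [a1, a2, b1, b2]
    generalize dv p e.1 = x1
    generalize dv p f.1 = y1
    generalize sgn p e.1 = z1
    generalize sgn p f.1 = w1
    generalize s p = σ
    generalize s' p = σ'
    clear he hf he1 he2 hf1 hf2 a1 a2 b1 b2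
    revert n x1 y1 z1 w1 σ σ'
    decide
  · obtain ⟨a1, a2⟩ := he.2.2 h
    obtain ⟨b1, b2⟩ := hf.2.2 h
    rw [a1, a2, b1, b2]
    generalize dv p e.2 = x1
    generalize dv p f.2 = y1
    generalize sgn p e.2 = z1
    generalize sgn p f.2 = w1
    generalize s p = σ
    generalize s' p = σ'
    clear he hf he1 he2 hf1 hf2 a1 a2 b1 b2
    revert n x1 y1 z1 w1 σ σ'
    decide

end Pool.Agent.Y676
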